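import Mathlib
set_option autoImplicit false
open Finset

namespace Pool.Agent.Helper593.Coh

/-- evaluation of the polynomial with coefficient vector `c`. -/
noncomputable def poly {p : ℕ} {k : ℕ} (c : Fin k → ZMod p) : Polynomial (ZMod p) :=
  ∑ i : Fin k, Polynomial.monomial (i : ℕ) (c i)

lemma poly_coeff {p k : ℕ} (c : Fin k → ZMod p) (j : Fin k) : (poly c).coeff j = c j := by
  unfold poly
  rw [Polynomial.finset_sum_coeff]
  rw [Finset.sum_eq_single j]
  · simp
  · intro b _ hb
    rw [Polynomial.coeff_monomial]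
    rw [if_neg]
    intro h
    exact hb (Fin.ext h)
  · simp

lemma poly_inj {p k : ℕ} {c d : Fin k → ZMod p} (h : poly c = poly d) : c = d := by
  funext j
  rw [← poly_coeff c j, ← poly_coeff d j, h]

lemma poly_deg {p k : ℕ} (c : Fin k → ZMod p) : (poly c).degree < (k : WithBot ℕ) := by
  unfold poly
  refine lt_of_le_of_lt (Polynomial.degree_sum_le _ _) ?_
  rw [Finset.sup_lt_iff (by exact WithBot.bot_lt_coe k)]
  intro i _
  refine lt_of_le_of_lt (Polynomial.degree_monomial_le _ _) ?_
  exact_mod_cast i.2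

lemma card_agree {p k : ℕ} [Fact p.Prime] {c d : Fin k → ZMod p} (h : c ≠ d) :
    (univ.filter (fun x : ZMod p => (poly c).eval x = (poly d).eval x)).card ≤ k := by
  classical
  have hne : poly c - poly d ≠ 0 := by
    intro h0
    exact h (poly_inj (sub_eq_zero.1 h0))
  have hdeg : (poly c - poly d).degree < (k : WithBot ℕ) :=
    lt_of_le_of_lt (Polynomial.degree_sub_le _ _) (max_lt (poly_deg c) (poly_deg d))
  have hsub : (univ.filter (fun x : ZMod p => (poly c).eval x = (poly d).eval x)) ⊆
      (poly c - poly d).roots.toFinset := by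
    intro x hx
    rw [mem_filter] at hx
    rw [Multiset.mem_toFinset, Polynomial.mem_roots hne]
    simp [Polynomial.IsRoot, hx.2]
  refine (card_le_card hsub).trans ?_
  refine (Multiset.toFinset_card_le _).trans ?_
  have h1 := Polynomial.card_roots hne
  have h2 : ((poly c - poly d).roots.card : WithBot ℕ) < k := lt_of_le_of_lt h1 hdeg
  exact_mod_cast h2.le

noncomputable def vec {p k n : ℕ} [NeZero p] (e : ZMod p × ZMod p ↪ Fin n) (c : Fin k → ZMod p) :
    EuclideanSpace ℝ (Fin n) :=
  (1 / Real.sqrt p) • ∑ x : ZMod p, EuclideanSpace.single (e (x, (poly c).eval x)) (1 : ℝ)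

lemma inner_vec {p k n : ℕ} [NeZero p] (e : ZMod p × ZMod p ↪ Fin n) (c d : Fin k → ZMod p) :
    inner ℝ (vec e c) (vec e d) =
      (univ.filter (fun x : ZMod p => (poly c).eval x = (poly d).eval x)).card / (p : ℝ) := by
  classical
  unfold vec
  rw [inner_smul_left, inner_smul_right, sum_inner]
  have h : ∀ x : ZMod p, inner ℝ (EuclideanSpace.single (e (x, (poly c).eval x)) (1 : ℝ))
      (∑ y : ZMod p, EuclideanSpace.single (e (y, (poly d).eval y)) (1 : ℝ)) =
      if (poly c).eval x = (poly d).eval x then (1 : ℝ) else 0 := by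
    intro x
    rw [inner_sum]
    rw [Finset.sum_eq_single x]
    · rw [EuclideanSpace.inner_single_left]
      by_cases hx : (poly c).eval x = (poly d).eval x
      · simp [hx]
      · simp [hx]
    · intro y _ hy
      rw [EuclideanSpace.inner_single_left]
      have : e (x, (poly c).eval x) ≠ e (y, (poly d).eval y) := by
        intro h
        have := e.injective h
        exact hy (Prod.ext_iff.1 this).1.symm
      simp [this]
    · simp
  rw [Finset.sum_congr rfl (fun x _ => h x)]
  rw [Finset.sum_boole]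
  have hp : (0 : ℝ) < p := by exact_mod_cast Nat.pos_of_ne_zero (NeZero.ne p)
  have hs : Real.sqrt p * Real.sqrt p = p := Real.mul_self_sqrt hp.le
  have hs0 : Real.sqrt p ≠ 0 := (Real.sqrt_pos.2 hp).ne'
  simp only [conj_trivial]
  field_simp
  rw [sq, hs]
  field_simp

theorem coh_upper (lam : ℕ) : ∃ C : ℝ, 0 < C ∧ ∀ n N : ℕ, 1 ≤ n → N ≤ n ^ lam →
    ∃ Φ : Fin N → EuclideanSpace ℝ (Fin n), (∀ i, ‖Φ i‖ = 1) ∧
      ∀ i j, i ≠ j → |inner ℝ (Φ i) (Φ j)| ≤ C / Real.sqrt n := by
  refine ⟨8 * lam + 4, by positivity, ?_⟩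
  intro n N hn hN
  have hnR : (0 : ℝ) < n := by exact_mod_cast hn
  have hsn : 0 < Real.sqrt n := Real.sqrt_pos.2 hnR
  by_cases h16 : n < 16
  · refine ⟨fun _ => EuclideanSpace.single ⟨0, hn⟩ 1, fun i => by simp, ?_⟩
    intro i j _
    have h1 : Real.sqrt n ≤ 4 := by
      rw [show (4 : ℝ) = Real.sqrt 16 by
        rw [show (16 : ℝ) = 4 ^ 2 by norm_num]; exact (Real.sqrt_sq (by norm_num)).symm]
      exact Real.sqrt_le_sqrt (by exact_mod_cast h16.le)
    have h2 : (1 : ℝ) ≤ (8 * lam + 4) / Real.sqrt n := by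
      rw [le_div_iff₀ hsn]
      have : (0 : ℝ) ≤ lam := Nat.cast_nonneg _
      linarith
    refine le_trans ?_ h2
    simp
  · push Not at h16
    set m := Nat.sqrt n with hm
    have hm4 : 4 ≤ m := by
      rw [hm, Nat.le_sqrt]; omega
    obtain ⟨p, hp, hp1, hp2⟩ := Nat.exists_prime_lt_and_le_two_mul (m / 2) (by omega)
    haveI : Fact p.Prime := ⟨hp⟩
    haveI : NeZero p := ⟨hp.ne_zero⟩
    have hpm : p ≤ m := by omega
    have hpp : p * p ≤ n := (Nat.mul_le_mul hpm hpm).trans (Nat.sqrt_le n)
    have h2p : m + 1 ≤ 2 * p := by omega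
    have hn4 : n < 4 * (p * p) := by
      have h1 : n < (m + 1) * (m + 1) := Nat.lt_succ_sqrt n
      have h2 : (m + 1) * (m + 1) ≤ (2 * p) * (2 * p) := Nat.mul_le_mul h2p h2p
      nlinarith
    have hp3 : 3 ≤ p := by omega
    have hpow : N ≤ p ^ (4 * lam) := by
      refine hN.trans ?_
      rw [pow_mul]
      refine Nat.pow_le_pow_left ?_ lam
      nlinarith [Nat.mul_le_mul hp3 hp3, Nat.zero_le (p * p)]
    have hcard : Fintype.card (Fin N) ≤ Fintype.card (Fin (4 * lam) → ZMod p) := by
      rw [Fintype.card_fin, Fintype.card_fun, ZMod.card, Fintype.card_fin]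
      exact hpow
    obtain ⟨g⟩ := Function.Embedding.nonempty_of_card_le hcard
    have hcard2 : Fintype.card (ZMod p × ZMod p) ≤ Fintype.card (Fin n) := by
      rw [Fintype.card_prod, ZMod.card, Fintype.card_fin]
      exact hpp
    obtain ⟨e⟩ := Function.Embedding.nonempty_of_card_le hcard2
    have hpR : (0 : ℝ) < p := by exact_mod_cast hp.pos
    refine ⟨fun i => vec e (g i), ?_, ?_⟩
    · intro i
      have h := inner_vec e (g i) (g i)
      rw [real_inner_self_eq_norm_sq] at h
      have h1 : ‖vec e (g i)‖ ^ 2 = 1 := by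
        rw [h]
        simp [ZMod.card]
      have h0 : 0 ≤ ‖vec e (g i)‖ := norm_nonneg _
      nlinarith
    · intro i j hij
      rw [inner_vec, abs_of_nonneg (by positivity)]
      have hne : g i ≠ g j := fun h => hij (g.injective h)
      have h1 := card_agree (p := p) hne
      have h2 : (((univ.filter (fun x : ZMod p => (poly (g i)).eval x = (poly (g j)).eval x)).card : ℕ) : ℝ)
          ≤ 4 * lam := by exact_mod_cast h1
      have h3 : Real.sqrt n ≤ 2 * p := by
        rw [show (2 * (p : ℝ)) = Real.sqrt ((2 * p) ^ 2) from (Real.sqrt_sq (by positivity)).symm]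
        apply Real.sqrt_le_sqrt
        have : (n : ℝ) < 4 * (p * p) := by exact_mod_cast hn4
        nlinarith
      rw [div_le_div_iff₀ hpR hsn]
      have hl : (0 : ℝ) ≤ lam := Nat.cast_nonneg _
      calc _ ≤ (4 * lam : ℝ) * (2 * p) := by gcongr
        _ ≤ (8 * lam + 4) * p := by nlinarith

end Pool.Agent.Helper593.Coh
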