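import Mathlib
set_option autoImplicit false
open Finset

namespace Pool.Agent.Helper593.Coh

/-- trace inequality: for a subspace of dimension at most `n` and vectors `y i` in it. -/
lemma trace_ineq {N n : ℕ} (L : Submodule ℝ (EuclideanSpace ℝ (Fin N))) (hL : Module.finrank ℝ L ≤ n)
    (y : Fin N → EuclideanSpace ℝ (Fin N)) (hy : ∀ i, y i ∈ L) :
    (∑ i, y i i) ^ 2 ≤ n * ∑ i, ‖y i‖ ^ 2 := by
  classical
  let b := stdOrthonormalBasis ℝ L
  -- coordinates
  let c : Fin N → Fin (Module.finrank ℝ L) → ℝ := fun i k => inner ℝ (b k : L) ⟨y i, hy i⟩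
  have hyi : ∀ i, y i = ∑ k, c i k • ((b k : L) : EuclideanSpace ℝ (Fin N)) := by
    intro i
    have h := b.sum_repr' ⟨y i, hy i⟩
    have h2 := congrArg (fun z : L => (z : EuclideanSpace ℝ (Fin N))) h
    simp only [Submodule.coe_sum, Submodule.coe_smul] at h2
    exact h2.symm
  have hnorm : ∀ i, ∑ k, (c i k) ^ 2 = ‖y i‖ ^ 2 := by
    intro i
    have h := b.sum_sq_norm_inner_right ⟨y i, hy i⟩
    simp only [Real.norm_eq_abs, sq_abs] at h
    exact h
  have htr : ∑ i, y i i = ∑ i, ∑ k, c i k * ((b k : L) : EuclideanSpace ℝ (Fin N)) i := by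
    refine Finset.sum_congr rfl fun i _ => ?_
    conv_lhs => rw [hyi i]
    simp [Finset.sum_apply]
  have hb : ∑ i, ∑ k, (((b k : L) : EuclideanSpace ℝ (Fin N)) i) ^ 2 = Module.finrank ℝ L := by
    rw [Finset.sum_comm]
    have : ∀ k, ∑ i, (((b k : L) : EuclideanSpace ℝ (Fin N)) i) ^ 2 = 1 := by
      intro k
      have h1 : ‖((b k : L) : EuclideanSpace ℝ (Fin N))‖ = 1 := by
        have := b.orthonormal.1 k
        exact this
      have h2 := EuclideanSpace.norm_sq_eq ((b k : L) : EuclideanSpace ℝ (Fin N))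
      rw [h1] at h2
      simp only [Real.norm_eq_abs, sq_abs] at h2
      linarith
    simp [this]
  rw [htr]
  have hcs := Finset.sum_mul_sq_le_sq_mul_sq (univ : Finset (Fin N × Fin (Module.finrank ℝ L)))
    (fun z => c z.1 z.2) (fun z => ((b z.2 : L) : EuclideanSpace ℝ (Fin N)) z.1)
  rw [← Finset.univ_product_univ, Finset.sum_product, Finset.sum_product, Finset.sum_product] at hcs
  simp only at hcs
  refine hcs.trans ?_
  rw [hb]
  have h3 : ∑ x : Fin N, ∑ y : Fin (Module.finrank ℝ L), c x y ^ 2 = ∑ i, ‖y i‖ ^ 2 :=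
    Finset.sum_congr rfl fun i _ => hnorm i
  rw [h3, mul_comm]
  have h4 : (0:ℝ) ≤ ∑ i, ‖y i‖ ^ 2 := Finset.sum_nonneg fun i _ => by positivity
  have h5 : ((Module.finrank ℝ L : ℕ) : ℝ) ≤ n := by exact_mod_cast hL
  exact mul_le_mul_of_nonneg_right h5 h4

lemma width_ineq {N n : ℕ} (L : Submodule ℝ (Fin N → ℝ)) (hL : Module.finrank ℝ L ≤ n)
    (r : ℝ) (hr0 : 0 ≤ r) (hr1 : r ≤ 1)
    (h : ∀ i : Fin N, ∃ y ∈ L, ‖(Pi.single i (1 : ℝ) : Fin N → ℝ) - y‖ ≤ r) :
    (N : ℝ) * (1 - r) ^ 2 ≤ n * ((1 + r) ^ 2 + N * r ^ 2) := by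
  classical
  choose y hy hyr using h
  let e := (WithLp.linearEquiv 2 ℝ (Fin N → ℝ)).symm
  let L' : Submodule ℝ (EuclideanSpace ℝ (Fin N)) := L.map (e : (Fin N → ℝ) →ₗ[ℝ] EuclideanSpace ℝ (Fin N))
  have hL' : Module.finrank ℝ L' ≤ n := by
    have : Module.finrank ℝ L' = Module.finrank ℝ L := LinearEquiv.finrank_map_eq e L
    omega
  have hmem : ∀ i, e (y i) ∈ L' := fun i => Submodule.mem_map_of_mem (hy i)
  have ht := trace_ineq L' hL' (fun i => e (y i)) hmem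
  have hcoord : ∀ i j, |(Pi.single i (1 : ℝ) : Fin N → ℝ) j - y i j| ≤ r := by
    intro i j
    have := norm_le_pi_norm ((Pi.single i (1 : ℝ) : Fin N → ℝ) - y i) j
    simp only [Pi.sub_apply, Real.norm_eq_abs] at this
    exact this.trans (hyr i)
  have hdiag : ∀ i, 1 - r ≤ (e (y i)) i := by
    intro i
    have h1 := hcoord i i
    rw [Pi.single_eq_same, abs_le] at h1
    show 1 - r ≤ y i i
    linarith [h1.2]
  have hnorm : ∀ i, ‖e (y i)‖ ^ 2 ≤ (1 + r) ^ 2 + N * r ^ 2 := by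
    intro i
    rw [EuclideanSpace.norm_sq_eq]
    have hle : ∀ j, ‖(e (y i)) j‖ ^ 2 ≤ (if j = i then (1 + r) ^ 2 else 0) + r ^ 2 := by
      intro j
      have h1 := hcoord i j
      show ‖y i j‖ ^ 2 ≤ _
      rw [Real.norm_eq_abs, sq_abs]
      by_cases hji : j = i
      · subst hji
        rw [Pi.single_eq_same, abs_le] at h1
        simp only [if_true]
        nlinarith [h1.1, h1.2, sq_nonneg r]
      · rw [Pi.single_eq_of_ne hji, abs_le] at h1
        simp only [hji, if_false]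
        nlinarith [h1.1, h1.2]
    refine (Finset.sum_le_sum fun j _ => hle j).trans ?_
    rw [Finset.sum_add_distrib]
    simp
  have hsum : (N : ℝ) * (1 - r) ≤ ∑ i, (e (y i)) i := by
    have := Finset.sum_le_sum (s := univ) fun i _ => hdiag i
    simp only [Finset.sum_const, Finset.card_univ, Fintype.card_fin, nsmul_eq_mul] at this
    exact this
  have hsum2 : ∑ i, ‖e (y i)‖ ^ 2 ≤ N * ((1 + r) ^ 2 + N * r ^ 2) := by
    have := Finset.sum_le_sum (s := univ) fun i _ => hnorm i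
    simp only [Finset.sum_const, Finset.card_univ, Fintype.card_fin, nsmul_eq_mul] at this
    exact this
  have hN : (0 : ℝ) ≤ N := Nat.cast_nonneg _
  have hn : (0 : ℝ) ≤ n := Nat.cast_nonneg _
  have h1 : ((N : ℝ) * (1 - r)) ^ 2 ≤ n * (N * ((1 + r) ^ 2 + N * r ^ 2)) := by
    have h2 : 0 ≤ (N : ℝ) * (1 - r) := mul_nonneg hN (by linarith)
    calc ((N : ℝ) * (1 - r)) ^ 2 ≤ (∑ i, (e (y i)) i) ^ 2 := pow_le_pow_left₀ h2 hsum 2
      _ ≤ n * ∑ i, ‖e (y i)‖ ^ 2 := ht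
      _ ≤ _ := mul_le_mul_of_nonneg_left hsum2 hn
  rcases Nat.eq_zero_or_pos N with h0 | h0
  · subst h0
    simp
    positivity
  · have hNp : (0 : ℝ) < N := by exact_mod_cast h0
    have h3 : (N : ℝ) * ((N : ℝ) * (1 - r) ^ 2) ≤ N * (n * ((1 + r) ^ 2 + N * r ^ 2)) := by
      nlinarith [h1]
    exact le_of_mul_le_mul_left h3 hNp

/-- the width is at least `(1/16) sqrt ((N-n)/(n N))`. -/
lemma width_lower {N n : ℕ} (hn : 1 ≤ n) (hnN : n < N) (L : Submodule ℝ (Fin N → ℝ))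
    (hL : Module.finrank ℝ L ≤ n) (r : ℝ)
    (h : ∀ x : Fin N → ℝ, ∑ i, |x i| ≤ 1 → ∃ y ∈ L, ‖x - y‖ ≤ r) :
    (1 / 16) * Real.sqrt (((N : ℝ) - n) / (n * N)) ≤ r := by
  classical
  have hr0 : 0 ≤ r := by
    obtain ⟨y, _, hy⟩ := h 0 (by simp)
    exact (norm_nonneg _).trans hy
  have hnR : (1 : ℝ) ≤ n := by exact_mod_cast hn
  have hNR : (n : ℝ) + 1 ≤ N := by exact_mod_cast hnN
  have hn0 : (0 : ℝ) < n := by linarith
  have hN0 : (0 : ℝ) < N := by linarith
  have hn0' : (n : ℝ) ≠ 0 := hn0.ne'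
  have hN0' : (N : ℝ) ≠ 0 := hN0.ne'
  have hnN0 : (0 : ℝ) < n * N := mul_pos hn0 hN0
  set k : ℝ := (N : ℝ) - n with hk
  have hk1 : 1 ≤ k := by rw [hk]; linarith
  by_contra hlt
  push Not at hlt
  have hs0 : 0 ≤ Real.sqrt (k / (n * N)) := Real.sqrt_nonneg _
  have hssq : Real.sqrt (k / (n * N)) ^ 2 = k / (n * N) := Real.sq_sqrt (by positivity)
  have hs1 : Real.sqrt (k / (n * N)) ≤ 1 := by
    refine Real.sqrt_le_iff.2 ⟨by norm_num, ?_⟩
    rw [one_pow, div_le_one hnN0]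
    nlinarith
  have hr1 : r ≤ 1 := by linarith
  have hmain := width_ineq L hL r hr0 hr1 (fun i => h _ (by
    rw [Finset.sum_eq_single i]
    · simp
    · intro j _ hj
      simp [Pi.single_eq_of_ne hj]
    · simp))
  -- k ≤ 4 r N + n N r^2
  have hm2 : k ≤ 4 * r * N + n * N * r ^ 2 := by
    have hnle : (n : ℝ) ≤ N := by linarith
    nlinarith [sq_nonneg r, mul_nonneg hr0 (sub_nonneg.2 hnle), mul_nonneg (sq_nonneg r) (sub_nonneg.2 hnle)]
  have hr2 : r ^ 2 ≤ (1 / 256) * (k / (n * N)) := by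
    have := pow_le_pow_left₀ hr0 hlt.le 2
    rw [mul_pow, hssq] at this
    linarith
  have hA : n * N * r ^ 2 ≤ k / 256 := by
    have := mul_le_mul_of_nonneg_left hr2 hnN0.le
    have h2 : (n : ℝ) * N * (1 / 256 * (k / (n * N))) = k / 256 := by
      field_simp
    linarith
  have hB : 4 * r * N ≤ k / 2 := by
    -- (4 r N)^2 ≤ 16 N^2 k/(256 n N) = N k/(16 n) ≤ k^2/4
    have h1 : (4 * r * N) ^ 2 ≤ (k / 2) ^ 2 := by
      have h2 : (4 * r * N) ^ 2 = 16 * N ^ 2 * r ^ 2 := by ring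
      have h3 : 16 * (N : ℝ) ^ 2 * r ^ 2 ≤ 16 * N ^ 2 * (1 / 256 * (k / (n * N))) :=
        mul_le_mul_of_nonneg_left hr2 (by positivity)
      have h4 : 16 * (N : ℝ) ^ 2 * (1 / 256 * (k / (n * N))) = N * k / (16 * n) := by
        have : (N : ℝ) ≠ 0 := by linarith
        field_simp
        ring
      have h5 : (N : ℝ) * k / (16 * n) ≤ (k / 2) ^ 2 := by
        rw [div_le_iff₀ (by positivity)]
        have h6 : (N : ℝ) ≤ 2 * n * k := by
          have : (N : ℝ) = n + k := by rw [hk]; ring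
          rw [this]
          nlinarith
        nlinarith [mul_le_mul_of_nonneg_right h6 (by linarith : (0:ℝ) ≤ k), sq_nonneg k]
      linarith
    exact (abs_le_of_sq_le_sq' h1 (by linarith)).2
  linarith

end Pool.Agent.Helper593.Coh
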