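import Mathlib
set_option autoImplicit false
open Finset

namespace Pool.Agent.Helper593.Coh

/-- Sylvester matrices. -/
lemma sylvester (t : ℕ) : ∃ (Q : Fin (2 ^ t) → Fin (2 ^ t) → ℝ), (∀ a b, |Q a b| ≤ 1) ∧
    ∀ b b', ∑ a, Q a b * Q a b' = if b = b' then (2 : ℝ) ^ t else 0 := by
  induction t with
  | zero =>
    refine ⟨fun _ _ => 1, fun _ _ => by simp, fun b b' => ?_⟩
    have : b = b' := by
      have h1 := b.2
      have h2 := b'.2
      apply Fin.ext
      simp only [pow_zero] at h1 h2
      omega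
    simp [this]
  | succ t ih =>
    obtain ⟨Q, h1, h2⟩ := ih
    have hcard : Fintype.card (Fin (2 ^ (t + 1))) = Fintype.card (Fin (2 ^ t) × Bool) := by
      simp [pow_succ]
    let e : Fin (2 ^ (t + 1)) ≃ Fin (2 ^ t) × Bool := Fintype.equivOfCardEq hcard
    let s : Bool → Bool → ℝ := fun x y => if x && y then -1 else 1
    refine ⟨fun a b => Q (e a).1 (e b).1 * s (e a).2 (e b).2, ?_, ?_⟩
    · intro a b
      rw [abs_mul]
      have : |s (e a).2 (e b).2| = 1 := by
        simp only [s]
        split_ifs <;> simp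
      rw [this, mul_one]
      exact h1 _ _
    · intro b b'
      rw [← e.symm.sum_comp]
      simp only [Equiv.apply_symm_apply]
      rw [Fintype.sum_prod_type]
      have h3 : ∀ x : Fin (2 ^ t), ∑ y : Bool, Q x (e b).1 * s y (e b).2 * (Q x (e b').1 * s y (e b').2)
          = (Q x (e b).1 * Q x (e b').1) * ∑ y : Bool, s y (e b).2 * s y (e b').2 := by
        intro x
        rw [Finset.mul_sum]
        exact Finset.sum_congr rfl fun y _ => by ring
      rw [Finset.sum_congr rfl fun x _ => h3 x, ← Finset.sum_mul, h2]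
      have h4 : ∑ y : Bool, s y (e b).2 * s y (e b').2 = if (e b).2 = (e b').2 then 2 else 0 := by
        rw [Fintype.sum_bool]
        simp only [s]
        cases (e b).2 <;> cases (e b').2 <;> norm_num
      rw [h4]
      by_cases hbb : b = b'
      · subst hbb
        simp [pow_succ]
      · rw [if_neg hbb]
        by_cases h5 : (e b).1 = (e b').1
        · have h6 : (e b).2 ≠ (e b').2 := by
            intro h6
            exact hbb (e.injective (Prod.ext h5 h6))
          simp [h6]
        · simp [h5]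

/-- moving a finite family spanning a space of dimension at most `n` to `ℝⁿ`. -/
lemma transfer {ι E : Type*} [NormedAddCommGroup E] [InnerProductSpace ℝ E] [FiniteDimensional ℝ E]
    (v : ι → E) (W : Submodule ℝ E) (hv : ∀ i, v i ∈ W) {n : ℕ} (hW : Module.finrank ℝ W ≤ n) :
    ∃ Φ : ι → EuclideanSpace ℝ (Fin n), ∀ i j, inner ℝ (Φ i) (Φ j) = inner ℝ (v i) (v j) := by
  obtain ⟨m, hm⟩ := Nat.exists_eq_add_of_le hW
  subst hm
  let b := (stdOrthonormalBasis ℝ W).repr
  refine ⟨fun i => WithLp.toLp 2 (Fin.append (fun t => b ⟨v i, hv i⟩ t) (fun _ : Fin m => (0 : ℝ))), ?_⟩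
  intro i j
  have h1 : inner ℝ (v i) (v j) = inner ℝ (b ⟨v i, hv i⟩) (b ⟨v j, hv j⟩) := by
    rw [LinearIsometryEquiv.inner_map_map]
    rfl
  rw [h1, PiLp.inner_apply, PiLp.inner_apply, Fin.sum_univ_add]
  simp [Fin.append_left, Fin.append_right]

end Pool.Agent.Helper593.Coh
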