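import Mathlib
set_option autoImplicit false
open Finset

namespace Pool.Agent.Helper593.Coh

noncomputable def psi {m : ℕ} (Q : Fin m → Fin m → ℝ) : Fin m ⊕ Fin m → Fin m → ℝ
  | Sum.inl a, c => if c = a then 1 else 0
  | Sum.inr b, c => -(Q c b / Real.sqrt m)

lemma psi_self {m : ℕ} (hm : 0 < m) (Q : Fin m → Fin m → ℝ)
    (hQ : ∀ b b', ∑ a, Q a b * Q a b' = if b = b' then (m : ℝ) else 0) (γ : Fin m ⊕ Fin m) :
    ∑ c, psi Q γ c * psi Q γ c = 1 := by
  have hmR : (0 : ℝ) < m := by exact_mod_cast hm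
  have hs : Real.sqrt m * Real.sqrt m = m := Real.mul_self_sqrt hmR.le
  rcases γ with a | b
  · simp [psi]
  · simp only [psi]
    have : ∀ c, -(Q c b / Real.sqrt m) * -(Q c b / Real.sqrt m) = (Q c b * Q c b) / m := by
      intro c
      rw [neg_mul_neg, div_mul_div_comm, hs]
    rw [Finset.sum_congr rfl fun c _ => this c, ← Finset.sum_div, hQ]
    simp [hmR.ne']

lemma psi_ne {m : ℕ} (hm : 0 < m) (Q : Fin m → Fin m → ℝ) (hQ1 : ∀ a b, |Q a b| ≤ 1)
    (hQ : ∀ b b', ∑ a, Q a b * Q a b' = if b = b' then (m : ℝ) else 0) {γ δ : Fin m ⊕ Fin m}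
    (h : γ ≠ δ) : |∑ c, psi Q γ c * psi Q δ c| ≤ 1 / Real.sqrt m := by
  have hmR : (0 : ℝ) < m := by exact_mod_cast hm
  have hs : Real.sqrt m * Real.sqrt m = m := Real.mul_self_sqrt hmR.le
  have hs0 : 0 < Real.sqrt m := Real.sqrt_pos.2 hmR
  rcases γ with a | b <;> rcases δ with a' | b'
  · have h1 : a ≠ a' := fun h' => h (by rw [h'])
    have : ∑ c, psi Q (Sum.inl a) c * psi Q (Sum.inl a') c = 0 := by
      refine Finset.sum_eq_zero fun c _ => ?_
      simp only [psi]
      by_cases hc : c = a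
      · subst hc; simp [h1]
      · simp [hc]
    rw [this, abs_zero]
    positivity
  · have : ∑ c, psi Q (Sum.inl a) c * psi Q (Sum.inr b') c = -(Q a b' / Real.sqrt m) := by
      simp [psi]
    rw [this, abs_neg, abs_div, abs_of_pos hs0]
    exact div_le_div_of_nonneg_right (hQ1 _ _) hs0.le
  · have : ∑ c, psi Q (Sum.inr b) c * psi Q (Sum.inl a') c = -(Q a' b / Real.sqrt m) := by
      simp [psi]
    rw [this, abs_neg, abs_div, abs_of_pos hs0]
    exact div_le_div_of_nonneg_right (hQ1 _ _) hs0.le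
  · have h1 : b ≠ b' := fun h' => h (by rw [h'])
    have h2 : ∀ c, psi Q (Sum.inr b) c * psi Q (Sum.inr b') c = (Q c b * Q c b') / m := by
      intro c
      simp only [psi]
      rw [neg_mul_neg, div_mul_div_comm, hs]
    rw [Finset.sum_congr rfl fun c _ => h2 c, ← Finset.sum_div, hQ, if_neg h1]
    simp

abbrev JJ (m q R : ℕ) : Type := ((Fin m ⊕ Fin m) × Fin q) ⊕ Fin R
abbrev KK (m q R : ℕ) : Type := ((Fin m ⊕ Fin m) × Fin q) ⊕ (Fin m ⊕ Fin R)

noncomputable def bfun {m q R : ℕ} (Q : Fin m → Fin m → ℝ) : JJ m q R → KK m q R → ℝ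
  | Sum.inl z => Sum.elim
      (fun w => if w.1 = z.1 then ((if w.2 = z.2 then (1 : ℝ) else 0) - 1 / q) else 0)
      (Sum.elim (fun c => psi Q z.1 c / Real.sqrt q) (fun _ => 0))
  | Sum.inr ρ => Sum.elim (fun _ => 0) (Sum.elim (fun _ => 0) (fun ρ' => if ρ' = ρ then 1 else 0))

lemma bfun_ll {m q R : ℕ} (hq : 0 < q) (Q : Fin m → Fin m → ℝ) (z w : (Fin m ⊕ Fin m) × Fin q) :
    ∑ κ, bfun (R := R) Q (Sum.inl z) κ * bfun (R := R) Q (Sum.inl w) κ =
      (if z.1 = w.1 then ((if z.2 = w.2 then (1 : ℝ) else 0) - 1 / q) else 0)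
        + (∑ c, psi Q z.1 c * psi Q w.1 c) / q := by
  have hqR : (0 : ℝ) < q := by exact_mod_cast hq
  have hs : Real.sqrt q * Real.sqrt q = q := Real.mul_self_sqrt hqR.le
  rw [Fintype.sum_sum_type, Fintype.sum_sum_type]
  simp only [bfun, Sum.elim_inl, Sum.elim_inr, mul_zero, Finset.sum_const_zero, add_zero]
  congr 1
  · rw [Fintype.sum_prod_type]
    simp only
    by_cases h : z.1 = w.1
    · rw [if_pos h, Finset.sum_eq_single z.1]
      · simp only [if_true, ← h]
        have : ∀ x : Fin q, ((if x = z.2 then (1 : ℝ) else 0) - 1 / q) * ((if x = w.2 then (1 : ℝ) else 0) - 1 / q)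
            = (if x = z.2 then (if x = w.2 then (1 : ℝ) else 0) else 0)
              - (1 / q) * (if x = z.2 then (1 : ℝ) else 0) - (1 / q) * (if x = w.2 then (1 : ℝ) else 0)
              + 1 / q * (1 / q) := by
          intro x
          split_ifs <;> ring
        rw [Finset.sum_congr rfl fun x _ => this x]
        rw [Finset.sum_add_distrib, Finset.sum_sub_distrib, Finset.sum_sub_distrib]
        simp only [← Finset.mul_sum, Finset.sum_ite_eq', Finset.mem_univ, if_true, Finset.sum_const,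
          Finset.card_univ, Fintype.card_fin, nsmul_eq_mul]
        field_simp
        ring
      · intro x _ hx
        refine Finset.sum_eq_zero fun u _ => ?_
        simp [hx]
      · simp
    · rw [if_neg h]
      refine Finset.sum_eq_zero fun x _ => Finset.sum_eq_zero fun u _ => ?_
      by_cases hx : x = z.1
      · have : x ≠ w.1 := fun h' => h (hx.symm.trans h')
        simp [this]
      · simp [hx]
  · rw [Finset.sum_div]
    refine Finset.sum_congr rfl fun c _ => ?_
    rw [div_mul_div_comm, hs]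

lemma bfun_lr {m q R : ℕ} (Q : Fin m → Fin m → ℝ) (z : (Fin m ⊕ Fin m) × Fin q) (ρ : Fin R) :
    ∑ κ, bfun (R := R) Q (Sum.inl z) κ * bfun (R := R) Q (Sum.inr ρ) κ = 0 := by
  rw [Fintype.sum_sum_type, Fintype.sum_sum_type]
  simp [bfun]

lemma bfun_rr {m q R : ℕ} (Q : Fin m → Fin m → ℝ) (ρ ρ' : Fin R) :
    ∑ κ, bfun (q := q) Q (Sum.inr ρ) κ * bfun (q := q) Q (Sum.inr ρ') κ = if ρ = ρ' then 1 else 0 := by
  rw [Fintype.sum_sum_type, Fintype.sum_sum_type]
  simp [bfun, eq_comm]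

/-- the linear map whose kernel contains all vectors. -/
noncomputable def ff (m q R : ℕ) : EuclideanSpace ℝ (KK m q R) →ₗ[ℝ] (Fin m ⊕ Fin m → ℝ) where
  toFun x := fun γ => ∑ s : Fin q, x (Sum.inl (γ, s))
  map_add' x y := by
    funext γ
    simp [Finset.sum_add_distrib]
  map_smul' a x := by
    funext γ
    simp [Finset.mul_sum]

lemma ff_surj {m q R : ℕ} (hq : 0 < q) : Function.Surjective (ff m q R) := by
  intro g
  refine ⟨WithLp.toLp 2 (Sum.elim (fun w => if w.2 = ⟨0, hq⟩ then g w.1 else 0) (fun _ => 0)), ?_⟩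
  funext γ
  simp [ff]

lemma ff_ker {m q R : ℕ} (hq : 0 < q) :
    Module.finrank ℝ (LinearMap.ker (ff m q R)) + m = 2 * m * q + R := by
  have h := LinearMap.finrank_range_add_finrank_ker (ff m q R)
  rw [LinearMap.range_eq_top.2 (ff_surj hq), finrank_top] at h
  simp only [Module.finrank_fintype_fun_eq_card, finrank_euclideanSpace, Fintype.card_sum,
    Fintype.card_prod, Fintype.card_fin] at h
  have h2 : (m + m) * q = 2 * m * q := by ring
  rw [h2] at h
  omega

lemma ff_mem {m q R : ℕ} (hq : 0 < q) (Q : Fin m → Fin m → ℝ) (j : JJ m q R) :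
    (WithLp.toLp 2 (bfun Q j) : EuclideanSpace ℝ (KK m q R)) ∈ LinearMap.ker (ff m q R) := by
  have hqR : (0 : ℝ) < q := by exact_mod_cast hq
  rw [LinearMap.mem_ker]
  funext γ
  rcases j with z | ρ
  · simp only [ff, LinearMap.coe_mk, AddHom.coe_mk, bfun, Sum.elim_inl, Pi.zero_apply]
    by_cases h : γ = z.1
    · simp only [h, if_true, Finset.sum_sub_distrib]
      simp [hqR.ne']
    · simp [h]
  · simp [ff, bfun]

end Pool.Agent.Helper593.Coh
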