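import Mathlib
import Pool.Agent.Helper593.Coh1
import Pool.Agent.Helper593.Coh2
import Pool.Agent.Helper593.Coh3
import Pool.Agent.Helper593.Coh4
set_option autoImplicit false
open Finset

namespace Pool.Agent.Helper593.Coh

lemma inner_toLp_eq {K : Type*} [Fintype K] (f g : K → ℝ) :
    inner ℝ (WithLp.toLp 2 f : EuclideanSpace ℝ K) (WithLp.toLp 2 g) = ∑ κ, f κ * g κ := by
  rw [PiLp.inner_apply]
  refine Finset.sum_congr rfl fun κ _ => ?_
  simp [mul_comm]

lemma regime2 {n N : ℕ} (hn : 1 ≤ n) (hnN : n < N) (h4 : 4 * (N - n) ≤ N) :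
    ∃ Φ : Fin N → EuclideanSpace ℝ (Fin n), (∀ i, ‖Φ i‖ = 1) ∧
      ∀ i j, i ≠ j → |inner ℝ (Φ i) (Φ j)| ≤ 6 * Real.sqrt (((N : ℝ) - n) / (n * N)) := by
  classical
  obtain ⟨k, hk⟩ : ∃ k, N = n + k := ⟨N - n, by omega⟩
  have hk1 : 1 ≤ k := by omega
  have hk4 : 4 * k ≤ N := by omega
  obtain ⟨t, ht⟩ : ∃ t, t = Nat.log 2 k + 1 := ⟨_, rfl⟩
  obtain ⟨m, hm⟩ : ∃ m, m = 2 ^ t := ⟨_, rfl⟩
  have hkm : k < m := by
    rw [hm, ht]; exact Nat.lt_pow_succ_log_self (by norm_num) k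
  have hm2k : m ≤ 2 * k := by
    have := Nat.pow_log_le_self 2 (x := k) (by omega)
    rw [hm, ht, pow_succ]; omega
  have hm0 : 0 < m := by omega
  obtain ⟨q, hq⟩ : ∃ q, q = N / (2 * m) := ⟨_, rfl⟩
  have hq1 : 0 < q := by
    rw [hq]; exact Nat.div_pos (by omega) (by omega)
  have hqN : 2 * m * q ≤ N := by rw [hq]; exact Nat.mul_div_le N (2 * m)
  have hNq : N < 2 * m * (q + 1) := by
    rw [hq]
    have := Nat.lt_mul_div_succ N (show 0 < 2 * m by omega)
    exact this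
  have hN4 : N ≤ 4 * m * q := by nlinarith
  obtain ⟨R, hR⟩ : ∃ R, N = 2 * m * q + R := ⟨N - 2 * m * q, by omega⟩
  obtain ⟨Q, hQ1, hQ2⟩ : ∃ Q : Fin m → Fin m → ℝ, (∀ a b, |Q a b| ≤ 1) ∧
      ∀ b b', ∑ a, Q a b * Q a b' = if b = b' then (m : ℝ) else 0 := by
    subst hm
    obtain ⟨Q, h1, h2⟩ := sylvester t
    refine ⟨Q, h1, fun b b' => ?_⟩
    rw [h2]
    push_cast
    rfl
  have hcard : Fintype.card (Fin N) = Fintype.card (JJ m q R) := by
    simp only [Fintype.card_fin, Fintype.card_sum, Fintype.card_prod]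
    rw [hR]; ring
  let e : Fin N ≃ JJ m q R := Fintype.equivOfCardEq hcard
  have hker := ff_ker (m := m) (q := q) (R := R) hq1
  have hdim : Module.finrank ℝ (LinearMap.ker (ff m q R)) ≤ n := by omega
  obtain ⟨Φ, hΦ⟩ := transfer (fun i : Fin N => (WithLp.toLp 2 (bfun Q (e i)) : EuclideanSpace ℝ (KK m q R)))
    (LinearMap.ker (ff m q R)) (fun i => ff_mem hq1 Q (e i)) hdim
  have hqR : (0 : ℝ) < q := by exact_mod_cast hq1
  have hmR : (0 : ℝ) < m := by exact_mod_cast hm0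
  have hNR : (0 : ℝ) < N := by exact_mod_cast (show 0 < N by omega)
  have hnR : (0 : ℝ) < n := by exact_mod_cast hn
  have hkR : ((N : ℝ) - n) = k := by rw [hk]; push_cast; ring
  have hkR0 : (0 : ℝ) < k := by exact_mod_cast hk1
  refine ⟨Φ, ?_, ?_⟩
  · intro i
    have h := hΦ i i
    rw [real_inner_self_eq_norm_sq] at h
    rw [inner_toLp_eq] at h
    have h1 : ‖Φ i‖ ^ 2 = 1 := by
      rw [h]
      rcases e i with z | ρ
      · rw [bfun_ll hq1, psi_self hm0 Q hQ2]
        simp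
      · rw [bfun_rr]
        simp
    have h0 : 0 ≤ ‖Φ i‖ := norm_nonneg _
    nlinarith
  · intro i j hij
    rw [hΦ, inner_toLp_eq, hkR]
    have hb : (1 / Real.sqrt m) / q ≤ 6 * Real.sqrt ((k : ℝ) / (n * N)) := by
      have hs0 : 0 < Real.sqrt m := Real.sqrt_pos.2 hmR
      rw [← pow_le_pow_iff_left₀ (by positivity) (by positivity) (two_ne_zero)]
      rw [mul_pow, Real.sq_sqrt (by positivity), div_pow, div_pow, Real.sq_sqrt hmR.le]
      rw [one_pow, div_div, ← mul_div_assoc, div_le_div_iff₀ (by positivity) (by positivity)]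
      have e1 : (N : ℝ) ≤ 4 * m * q := by exact_mod_cast hN4
      have e2 : (m : ℝ) ≤ 2 * k := by exact_mod_cast hm2k
      have e3 : (n : ℝ) ≤ N := by exact_mod_cast hnN.le
      have e4 : (N : ℝ) * N ≤ (4 * m * q) * (4 * m * q) := mul_le_mul e1 e1 hNR.le (by positivity)
      have e5 : (n : ℝ) * N ≤ N * N := mul_le_mul_of_nonneg_right e3 hNR.le
      have e6 : (4 * m * q : ℝ) * (4 * m * q) ≤ 32 * k * (m * q ^ 2) := by
        have : (4 * m * q : ℝ) * (4 * m * q) = 16 * (m * q ^ 2) * m := by ring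
        rw [this]
        have e7 : (0 : ℝ) ≤ 16 * (m * q ^ 2) := by positivity
        nlinarith [mul_le_mul_of_nonneg_left e2 e7]
      have e8 : (0 : ℝ) ≤ k * (m * q ^ 2) := by positivity
      nlinarith
    have hpos : (0 : ℝ) ≤ 6 * Real.sqrt ((k : ℝ) / (n * N)) := by positivity
    have hne : e i ≠ e j := fun h => hij (e.injective h)
    rcases hz : e i with z | ρ <;> rcases hw : e j with w | ρ'
    · rw [bfun_ll hq1]
      by_cases h1 : z.1 = w.1
      · have h2 : z.2 ≠ w.2 := by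
          intro h2
          apply hne
          rw [hz, hw, Prod.ext h1 h2]
        rw [if_pos h1, if_neg h2, h1, psi_self hm0 Q hQ2]
        simpa using hpos
      · rw [if_neg h1, zero_add, abs_div, abs_of_pos hqR]
        refine le_trans ?_ hb
        exact div_le_div_of_nonneg_right (psi_ne hm0 Q hQ1 hQ2 h1) hqR.le
    · rw [bfun_lr]
      simpa using hpos
    · have := bfun_lr (R := R) Q w ρ
      rw [Finset.sum_congr rfl fun κ _ => mul_comm (bfun Q (Sum.inr ρ) κ) (bfun Q (Sum.inl w) κ), this]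
      simpa using hpos
    · rw [bfun_rr]
      have h2 : ρ ≠ ρ' := by
        intro h2
        apply hne
        rw [hz, hw, h2]
      rw [if_neg h2]
      simpa using hpos

end Pool.Agent.Helper593.Coh
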