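import Mathlib

open MeasureTheory Set Filter
open scoped ENNReal NNReal Topology Interval

namespace Pool.Agent.Results.MP_8e7914_an.NoFactorization

/-- the small parameter `ε = 1/10` -/
noncomputable def eps : ℝ := 1 / 10

lemma eps_pos : 0 < eps := by unfold eps; norm_num

/-- `(K_a g)(x) = (ε/a) (∫_{x-a}^x g - ∫_x^{x+a} g)` -/
noncomputable def KK (a : ℝ) (g : ℝ → ℂ) (x : ℝ) : ℂ :=
  ((eps / a : ℝ) : ℂ) * ((∫ t in (x - a)..x, g t) - ∫ t in x..(x + a), g t)

lemma KK_congr_ae {a : ℝ} {g h : ℝ → ℂ} (hgh : g =ᵐ[volume] h) (x : ℝ) :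
    KK a g x = KK a h x := by
  unfold KK
  rw [intervalIntegral.integral_congr_ae (hgh.mono fun t ht _ => ht),
    intervalIntegral.integral_congr_ae (hgh.mono fun t ht _ => ht)]

/-- locality -/
lemma KK_congr_local {a : ℝ} (ha : 0 < a) {g h : ℝ → ℂ} {x : ℝ}
    (hgh : ∀ᵐ t : ℝ, t ∈ Ioc (x - a) (x + a) → g t = h t) :
    KK a g x = KK a h x := by
  unfold KK
  congr 2
  · apply intervalIntegral.integral_congr_ae
    filter_upwards [hgh] with t ht h1
    rw [uIoc_of_le (by linarith)] at h1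
    exact ht ⟨h1.1, by linarith [h1.2]⟩
  · apply intervalIntegral.integral_congr_ae
    filter_upwards [hgh] with t ht h1
    rw [uIoc_of_le (by linarith)] at h1
    exact ht ⟨by linarith [h1.1], h1.2⟩

lemma KK_add {a : ℝ} {g h : ℝ → ℂ} (hg : Integrable g) (hh : Integrable h) (x : ℝ) :
    KK a (fun t => g t + h t) x = KK a g x + KK a h x := by
  unfold KK
  rw [intervalIntegral.integral_add hg.intervalIntegrable hh.intervalIntegrable,
    intervalIntegral.integral_add hg.intervalIntegrable hh.intervalIntegrable]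
  ring

lemma KK_sub {a : ℝ} {g h : ℝ → ℂ} (hg : Integrable g) (hh : Integrable h) (x : ℝ) :
    KK a (fun t => g t - h t) x = KK a g x - KK a h x := by
  unfold KK
  rw [intervalIntegral.integral_sub hg.intervalIntegrable hh.intervalIntegrable,
    intervalIntegral.integral_sub hg.intervalIntegrable hh.intervalIntegrable]
  ring

lemma KK_smul {a : ℝ} {g : ℝ → ℂ} (c : ℂ) (x : ℝ) :
    KK a (fun t => c * g t) x = c * KK a g x := by
  unfold KK
  rw [intervalIntegral.integral_const_mul, intervalIntegral.integral_const_mul]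
  ring

lemma KK_const (a : ℝ) (c : ℂ) (x : ℝ) : KK a (fun _ => c) x = 0 := by
  unfold KK
  rw [intervalIntegral.integral_const, intervalIntegral.integral_const]
  have : x - (x - a) = x + a - x := by ring
  rw [this, sub_self, mul_zero]

/-- translation -/
lemma KK_translate (a : ℝ) (g : ℝ → ℂ) (c x : ℝ) :
    KK a (fun t => g (t + c)) x = KK a g (x + c) := by
  unfold KK
  rw [intervalIntegral.integral_comp_add_right (fun t => g t) c,
    intervalIntegral.integral_comp_add_right (fun t => g t) c]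
  have h1 : x - a + c = x + c - a := by ring
  have h2 : x + a + c = x + c + a := by ring
  rw [h1, h2]

/-- sup bound -/
lemma norm_KK_le {a : ℝ} (ha : 0 < a) {g : ℝ → ℂ} {x c : ℝ}
    (hg : ∀ᵐ t : ℝ, t ∈ Ioc (x - a) (x + a) → ‖g t‖ ≤ c) :
    ‖KK a g x‖ ≤ 2 * eps * c := by
  have h1 : ‖∫ t in (x - a)..x, g t‖ ≤ c * |x - (x - a)| := by
    apply intervalIntegral.norm_integral_le_of_norm_le_const_ae
    filter_upwards [hg] with t ht h
    rw [uIoc_of_le (by linarith)] at h
    exact ht ⟨h.1, by linarith [h.2]⟩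
  have h2 : ‖∫ t in x..(x + a), g t‖ ≤ c * |x + a - x| := by
    apply intervalIntegral.norm_integral_le_of_norm_le_const_ae
    filter_upwards [hg] with t ht h
    rw [uIoc_of_le (by linarith)] at h
    exact ht ⟨by linarith [h.1], h.2⟩
  have e1 : |x - (x - a)| = a := by rw [sub_sub_cancel, abs_of_pos ha]
  have e2 : |x + a - x| = a := by rw [add_sub_cancel_left, abs_of_pos ha]
  rw [e1] at h1
  rw [e2] at h2
  unfold KK
  rw [norm_mul, Complex.norm_real, Real.norm_eq_abs, abs_of_pos (div_pos eps_pos ha)]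
  have h3 : ‖(∫ t in (x - a)..x, g t) - ∫ t in x..(x + a), g t‖ ≤ c * a + c * a :=
    (norm_sub_le _ _).trans (add_le_add h1 h2)
  calc eps / a * ‖(∫ t in (x - a)..x, g t) - ∫ t in x..(x + a), g t‖
      ≤ eps / a * (c * a + c * a) :=
        mul_le_mul_of_nonneg_left h3 (div_pos eps_pos ha).le
    _ = 2 * eps * c := by field_simp; ring

/-- if `g` is nearly equal to the constant `c` on the window -/
lemma norm_KK_le_of_near {a : ℝ} (ha : 0 < a) {g : ℝ → ℂ} (hgi : Integrable g) {x δ : ℝ}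
    (c : ℂ) (hg : ∀ᵐ t : ℝ, t ∈ Ioc (x - a) (x + a) → ‖g t - c‖ ≤ δ) :
    ‖KK a g x‖ ≤ 2 * eps * δ := by
  have h : KK a g x = KK a (fun t => g t - c) x := by
    unfold KK
    have hi : ∀ u v : ℝ, IntervalIntegrable g volume u v := fun u v => hgi.intervalIntegrable
    rw [intervalIntegral.integral_sub (hi _ _) intervalIntegrable_const,
      intervalIntegral.integral_sub (hi _ _) intervalIntegrable_const,
      intervalIntegral.integral_const, intervalIntegral.integral_const]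
    have e1 : x - (x - a) = a := by ring
    have e2 : x + a - x = a := by ring
    rw [e1, e2]
    ring
  rw [h]
  exact norm_KK_le ha hg

/-- vanishing away from the support -/
lemma KK_eq_zero {a : ℝ} (ha : 0 < a) {g : ℝ → ℂ} {x : ℝ}
    (hg : ∀ᵐ t : ℝ, t ∈ Ioc (x - a) (x + a) → g t = 0) : KK a g x = 0 := by
  have := KK_congr_local (g := g) (h := fun _ => 0) ha hg
  rw [this, KK_const]

/-- crude bound by the integral of the norm -/
lemma enorm_KK_le {a : ℝ} (ha : 0 < a) (g : ℝ → ℂ) (x : ℝ) :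
    ‖KK a g x‖ₑ ≤ ENNReal.ofReal (eps / a) * ∫⁻ t in Ioc (x - a) (x + a), ‖g t‖ₑ := by
  unfold KK
  rw [enorm_mul]
  have e0 : ‖((eps / a : ℝ) : ℂ)‖ₑ = ENNReal.ofReal (eps / a) := by
    rw [← ofReal_norm, Complex.norm_real, Real.norm_eq_abs,
      abs_of_pos (div_pos eps_pos ha)]
  rw [e0]
  gcongr
  have h1 : ‖∫ t in (x - a)..x, g t‖ₑ ≤ ∫⁻ t in Ioc (x - a) x, ‖g t‖ₑ := by
    rw [intervalIntegral.integral_of_le (by linarith)]
    exact enorm_integral_le_lintegral_enorm _
  have h2 : ‖∫ t in x..(x + a), g t‖ₑ ≤ ∫⁻ t in Ioc x (x + a), ‖g t‖ₑ := by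
    rw [intervalIntegral.integral_of_le (by linarith)]
    exact enorm_integral_le_lintegral_enorm _
  calc ‖(∫ t in (x - a)..x, g t) - ∫ t in x..(x + a), g t‖ₑ
      ≤ ‖∫ t in (x - a)..x, g t‖ₑ + ‖∫ t in x..(x + a), g t‖ₑ := enorm_sub_le
    _ ≤ (∫⁻ t in Ioc (x - a) x, ‖g t‖ₑ) + ∫⁻ t in Ioc x (x + a), ‖g t‖ₑ := add_le_add h1 h2
    _ = ∫⁻ t in Ioc (x - a) (x + a), ‖g t‖ₑ := by
        rw [← lintegral_union measurableSet_Ioc, Ioc_union_Ioc_eq_Ioc (by linarith) (by linarith)]
        rw [Set.disjoint_left]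
        intro t h1 h2
        exact absurd h1.2 (not_le.mpr h2.1)

/-- Cauchy-Schwarz on a set of finite measure -/
lemma sq_lintegral_le (s : Set ℝ) {g : ℝ → ℂ}
    (hg : AEStronglyMeasurable g volume) :
    (∫⁻ t in s, ‖g t‖ₑ) ^ 2 ≤ volume s * ∫⁻ t in s, ‖g t‖ₑ ^ 2 := by
  have h := eLpNorm_le_eLpNorm_mul_rpow_measure_univ (μ := volume.restrict s) (f := g)
    (p := 1) (q := 2) (by norm_num) hg.restrict
  rw [eLpNorm_one_eq_lintegral_enorm, Measure.restrict_apply_univ,
    eLpNorm_eq_lintegral_rpow_enorm_toReal (by norm_num) (by norm_num)] at h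
  simp only [ENNReal.toReal_one, ENNReal.toReal_ofNat] at h
  have h2 := pow_le_pow_left' h 2
  refine h2.trans (le_of_eq ?_)
  rw [mul_pow, ← ENNReal.rpow_natCast, ← ENNReal.rpow_natCast, ← ENNReal.rpow_mul,
    ← ENNReal.rpow_mul]
  norm_num
  rw [mul_comm]

/-- `L²` bound for `K_a` -/
lemma lintegral_KK_sq_le {a : ℝ} (ha : 0 < a) {g : ℝ → ℂ} (hg : AEStronglyMeasurable g volume) :
    ∫⁻ x, ‖KK a g x‖ₑ ^ 2 ≤ ENNReal.ofReal (2 * eps) ^ 2 * ∫⁻ t, ‖g t‖ₑ ^ 2 := by
  have h1 : ∀ x, ‖KK a g x‖ₑ ^ 2 ≤ ENNReal.ofReal (eps / a) ^ 2 * (ENNReal.ofReal (2 * a) *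
      ∫⁻ t, (Ioc (x - a) (x + a)).indicator (fun _ => (1 : ℝ≥0∞)) t * ‖g t‖ₑ ^ 2) := by
    intro x
    calc ‖KK a g x‖ₑ ^ 2 ≤ (ENNReal.ofReal (eps / a) * ∫⁻ t in Ioc (x - a) (x + a), ‖g t‖ₑ) ^ 2 :=
          pow_le_pow_left' (enorm_KK_le ha g x) 2
      _ = ENNReal.ofReal (eps / a) ^ 2 * (∫⁻ t in Ioc (x - a) (x + a), ‖g t‖ₑ) ^ 2 := mul_pow _ _ _
      _ ≤ _ := by
          gcongr
          refine (sq_lintegral_le _ hg).trans (le_of_eq ?_)
          have e3 : (fun t => (Ioc (x - a) (x + a)).indicator (fun _ => (1 : ℝ≥0∞)) t *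
              ‖g t‖ₑ ^ 2) = (Ioc (x - a) (x + a)).indicator (fun t => ‖g t‖ₑ ^ 2) := by
            funext t
            by_cases ht : t ∈ Ioc (x - a) (x + a) <;> simp [ht]
          rw [Real.volume_Ioc, e3, lintegral_indicator measurableSet_Ioc]
          congr 2
          ring
  have hgm : AEMeasurable (fun t => ‖g t‖ₑ ^ 2) volume := (hg.enorm).pow_const 2
  have hmeas : AEMeasurable (Function.uncurry fun x t : ℝ =>
      (Ioc (x - a) (x + a)).indicator (fun _ => (1 : ℝ≥0∞)) t * ‖g t‖ₑ ^ 2)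
      (volume.prod volume) := by
    apply AEMeasurable.mul
    · have : (fun p : ℝ × ℝ => (Ioc (p.1 - a) (p.1 + a)).indicator (fun _ => (1 : ℝ≥0∞)) p.2) =
          ({p : ℝ × ℝ | p.1 - a < p.2 ∧ p.2 ≤ p.1 + a}).indicator (fun _ => 1) := by
        funext p
        by_cases hp : p.1 - a < p.2 ∧ p.2 ≤ p.1 + a
        · rw [indicator_of_mem (by exact hp), indicator_of_mem (by exact hp)]
        · rw [indicator_of_notMem (by exact hp), indicator_of_notMem (by exact hp)]
      change AEMeasurable (fun p : ℝ × ℝ =>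
        (Ioc (p.1 - a) (p.1 + a)).indicator (fun _ => (1 : ℝ≥0∞)) p.2) _
      rw [this]
      apply Measurable.aemeasurable
      apply measurable_const.indicator
      exact (measurableSet_lt (measurable_fst.sub_const a) measurable_snd).inter
        (measurableSet_le measurable_snd (measurable_fst.add_const a))
    · exact hgm.comp_quasiMeasurePreserving Measure.quasiMeasurePreserving_snd
  calc ∫⁻ x, ‖KK a g x‖ₑ ^ 2
      ≤ ∫⁻ x, ENNReal.ofReal (eps / a) ^ 2 * (ENNReal.ofReal (2 * a) *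
      ∫⁻ t, (Ioc (x - a) (x + a)).indicator (fun _ => (1 : ℝ≥0∞)) t * ‖g t‖ₑ ^ 2) :=
        lintegral_mono h1
    _ = ENNReal.ofReal (eps / a) ^ 2 * (ENNReal.ofReal (2 * a) * ∫⁻ x,
      ∫⁻ t, (Ioc (x - a) (x + a)).indicator (fun _ => (1 : ℝ≥0∞)) t * ‖g t‖ₑ ^ 2) := by
        rw [lintegral_const_mul' _ _ (by finiteness), lintegral_const_mul' _ _ (by finiteness)]
    _ = ENNReal.ofReal (eps / a) ^ 2 * (ENNReal.ofReal (2 * a) * ∫⁻ t,
      ∫⁻ x, (Ioc (x - a) (x + a)).indicator (fun _ => (1 : ℝ≥0∞)) t * ‖g t‖ₑ ^ 2) := by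
        rw [lintegral_lintegral_swap hmeas]
    _ = ENNReal.ofReal (eps / a) ^ 2 * (ENNReal.ofReal (2 * a) * ∫⁻ t,
          ENNReal.ofReal (2 * a) * ‖g t‖ₑ ^ 2) := by
        congr 2
        apply lintegral_congr
        intro t
        have e1 : ∀ x : ℝ, (Ioc (x - a) (x + a)).indicator (fun _ => (1 : ℝ≥0∞)) t =
            (Ico (t - a) (t + a)).indicator (fun _ => 1) x := by
          intro x
          by_cases hx : x ∈ Ico (t - a) (t + a)
          · rw [indicator_of_mem hx, indicator_of_mem (s := Ioc (x - a) (x + a))]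
            exact ⟨by linarith [hx.2], by linarith [hx.1]⟩
          · rw [indicator_of_notMem hx, indicator_of_notMem (s := Ioc (x - a) (x + a))]
            intro h
            exact hx ⟨by linarith [h.2], by linarith [h.1]⟩
        simp_rw [e1]
        rw [lintegral_mul_const' _ _ (by finiteness), lintegral_indicator measurableSet_Ico,
          setLIntegral_const, Real.volume_Ico, one_mul]
        congr 2
        ring
    _ = ENNReal.ofReal (2 * eps) ^ 2 * ∫⁻ t, ‖g t‖ₑ ^ 2 := by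
        rw [lintegral_const_mul' _ _ (by finiteness), ← mul_assoc, ← mul_assoc]
        congr 1
        rw [mul_assoc, ← ENNReal.ofReal_mul (by positivity),
          ← ENNReal.ofReal_pow (div_pos eps_pos ha).le,
          ← ENNReal.ofReal_mul (by positivity), ← ENNReal.ofReal_pow (by have := eps_pos; positivity)]
        congr 1
        field_simp

end Pool.Agent.Results.MP_8e7914_an.NoFactorization
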