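import Pool.Agent.Helper593.Fac9

open MeasureTheory Set Filter
open scoped ENNReal NNReal Topology Interval ComplexConjugate

namespace Pool.Agent.Results.MP_8e7914_an.NoFactorization

lemma neg_opS (ω : ℝ) (l : List ℝ) : -(opS ω 1 l) = opS ω (-1) l := by
  unfold opS
  rw [one_smul, neg_smul, one_smul]

lemma neg_evS {ω : ℝ} (l : List ℝ) :
    (fun (U : L2 ω) x => -(evS 1 l U x)) = evS (-1) l := by
  funext U x
  unfold evS
  ring

lemma norm_one_C : ‖(1 : ℂ)‖ = 1 := norm_one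
lemma norm_neg_one_C : ‖(-1 : ℂ)‖ = 1 := by simp

section

variable {ω : ℝ} {σ : ℂ} {l : List ℝ}

lemma pair_eq_int (hω : 0 < ω) (hl : ∀ a ∈ l, 0 < a) (hT : ‖Tl ω l‖ < 1 / 2) (φ ψ : C(ℝ, ℂ))
    {ξ : ℝ} (h0 : 0 ≤ ξ) (hξ : ξ ≤ ω) :
    pair (Us (opS ω 1 l) ξ (toL ω φ)) (toL ω ψ) =
      ∫ t in (0:ℝ)..ξ, Fv ω 1 l φ t * Fv ω (-1) l ψ t := by
  have hT' : ‖opS ω 1 l‖ ≤ 1 / 2 := by rw [norm_opS ω norm_one_C]; exact hT.le
  have h := pair_Us_eq_integral hω.le (nice_opS ω norm_one_C hl) hT' φ.continuous ψ.continuous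
    (toL_ae ω φ) (toL_ae ω ψ) h0 hξ
  rw [h, neg_opS, neg_evS]
  rfl

lemma continuous_Fv (hω : 0 < ω) (hσ : ‖σ‖ = 1) (hl : ∀ a ∈ l, 0 < a) (hT : ‖Tl ω l‖ ≤ 1 / 2)
    (φ : C(ℝ, ℂ)) : Continuous (Fv ω σ l φ) := by
  have hT' : ‖opS ω σ l‖ ≤ 1 / 2 := by rw [norm_opS ω hσ]; exact hT
  exact (continuous_sol hω.le (nice_opS ω hσ hl) hT' φ.continuous (toL_ae ω φ)).comp
    (continuous_id.prodMk continuous_id)

lemma Fv_nil (φ : C(ℝ, ℂ)) (ξ : ℝ) : Fv ω σ [] φ ξ = φ ξ := by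
  unfold Fv sol evS evl
  simp

lemma toL_smul (c : ℂ) (φ : C(ℝ, ℂ)) : toL ω (c • φ) = c • toL ω φ := by
  apply Lp.ext
  filter_upwards [toL_ae ω (c • φ), Lp.coeFn_smul c (toL ω φ), toL_ae ω φ]
    with x h1 h2 h3
  rw [h1, h2, Pi.smul_apply, h3]
  rfl

lemma toL_sub (φ ψ : C(ℝ, ℂ)) : toL ω (φ - ψ) = toL ω φ - toL ω ψ := by
  apply Lp.ext
  filter_upwards [toL_ae ω (φ - ψ), Lp.coeFn_sub (toL ω φ) (toL ω ψ), toL_ae ω φ, toL_ae ω ψ]
    with x h1 h2 h3 h4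
  rw [h1, h2, Pi.sub_apply, h3, h4]
  rfl

lemma evS_smul (c : ℂ) (U : L2 ω) (x : ℝ) : evS σ l (c • U) x = c * evS σ l U x := by
  unfold evS evl
  have : (l.map fun a => KK a (ext (c • U)) x).sum = c * (l.map fun a => KK a (ext U) x).sum := by
    rw [← List.sum_map_mul_left]
    congr 1
    apply List.map_congr_left
    intro a _
    rw [KK_ext_smul]
  rw [this]
  ring

lemma Fv_sub_smul (hl : ∀ a ∈ l, 0 < a) (hσ : ‖σ‖ = 1) (c : ℂ) (φ ψ : C(ℝ, ℂ)) (ξ : ℝ) :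
    Fv ω σ l (φ - c • ψ) ξ = Fv ω σ l φ ξ - c * Fv ω σ l ψ ξ := by
  unfold Fv sol
  rw [toL_sub, toL_smul, Us_sub, Us_smul, (nice_opS ω hσ hl).sub, evS_smul]
  simp only [ContinuousMap.sub_apply, ContinuousMap.smul_apply, smul_eq_mul]
  ring

/-- the product of the two single-scale values tends to `1` -/
lemma eventually_bet_mul (hω : 0 < ω) {δ₀ : ℝ} (hδ₀ : 0 < δ₀) :
    ∀ᶠ a in 𝓝[>] (0:ℝ), ‖bet ω 1 a * bet ω (-1) a - 1‖ ≤ δ₀ := by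
  set N : ℝ := ‖toL ω 1‖ with hN
  have hN0 : 0 ≤ N := norm_nonneg _
  set η : ℝ := min ω (ω * δ₀ / 10) with hη
  have hη0 : 0 < η := by positivity
  set δ : ℝ := ω * δ₀ / (10 * (ω + N + 1)) with hδ
  have hδ0 : 0 < δ := by positivity
  have hT0 : ‖Tl ω []‖ < 1 / 2 := by rw [Tl_nil, norm_zero]; norm_num
  have hnil : ∀ a ∈ ([] : List ℝ), 0 < a := by simp
  filter_upwards [self_mem_nhdsWithin, transfer hω norm_one_C hnil hT0 1 hη0 hδ0,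
    transfer hω norm_neg_one_C hnil hT0 1 hη0 hδ0,
    eventually_Us_close hω.le norm_one_C hnil hT0 (ContinuousMap.continuous 1) (toL_ae ω 1) hδ0,
    eventually_norm_lt hω.le hnil hT0] with a ha h1 h2 h3 hTa
  rw [mem_Ioi] at ha
  have hl1 : ∀ b ∈ [a], 0 < b := by
    intro b hb; rw [List.mem_singleton.mp hb]; exact ha
  have hb1 := bet_le hω norm_one_C ha
  have hb2 := bet_le hω norm_neg_one_C ha
  set β₁ := bet ω 1 a with hβ₁
  set β₂ := bet ω (-1) a with hβ₂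
  have hF1 : ∀ ξ ∈ Ioc 0 ω, ‖Fv ω 1 [a] 1 ξ‖ ≤ 5 / 4 := fun ξ hξ =>
    model_bound norm_one_C ha hξ.2 ξ ⟨hξ.1, le_rfl⟩
  have hF2 : ∀ ξ ∈ Ioc 0 ω, ‖Fv ω (-1) [a] 1 ξ‖ ≤ 5 / 4 := fun ξ hξ =>
    model_bound norm_neg_one_C ha hξ.2 ξ ⟨hξ.1, le_rfl⟩
  have hcF1 := continuous_Fv hω norm_one_C hl1 hTa.le 1
  have hcF2 := continuous_Fv hω norm_neg_one_C hl1 hTa.le 1
  have hint := int_close hω (F := fun ξ => Fv ω 1 [a] 1 ξ * Fv ω (-1) [a] 1 ξ - β₁ * β₂)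
    ((hcF1.mul hcF2).sub continuous_const) (c := 25 / 8) (δ := 5 / 2 * δ) hη0 (min_le_left _ _)
    (by positivity) (by
      intro ξ hξ
      have hξ' : ξ ∈ Ioc 0 ω := ⟨lt_of_lt_of_le hη0 hξ.1, hξ.2⟩
      have g1 := h1 ξ hξ
      have g2 := h2 ξ hξ
      rw [Fv_nil, ContinuousMap.one_apply, mul_one] at g1 g2
      have e : Fv ω 1 [a] 1 ξ * Fv ω (-1) [a] 1 ξ - β₁ * β₂ =
          Fv ω 1 [a] 1 ξ * (Fv ω (-1) [a] 1 ξ - β₂) + (Fv ω 1 [a] 1 ξ - β₁) * β₂ := by ring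
      rw [e]
      refine (norm_add_le _ _).trans ?_
      rw [norm_mul, norm_mul]
      have k1 := mul_le_mul (hF1 ξ hξ') g2 (norm_nonneg _) (by norm_num)
      have k2 := mul_le_mul g1 hb2 (norm_nonneg _) hδ0.le
      linarith) (by
      intro ξ hξ'
      refine (norm_sub_le _ _).trans ?_
      rw [norm_mul, norm_mul]
      have k1 := mul_le_mul (hF1 ξ hξ') (hF2 ξ hξ') (norm_nonneg _) (by norm_num)
      have k2 := mul_le_mul hb1 hb2 (norm_nonneg _) (by norm_num)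
      linarith)
  have hP := pair_eq_int hω hl1 hTa 1 1 hω.le le_rfl
  set P := pair (Us (opS ω 1 [a]) ω (toL ω 1)) (toL ω 1) with hPdef
  have e1 : P - ω * (β₁ * β₂) =
      ∫ ξ in (0:ℝ)..ω, (Fv ω 1 [a] 1 ξ * Fv ω (-1) [a] 1 ξ - β₁ * β₂) := by
    have hcF : Continuous (fun ξ => Fv ω 1 [a] 1 ξ * Fv ω (-1) [a] 1 ξ) := hcF1.mul hcF2
    rw [intervalIntegral.integral_sub (hcF.intervalIntegrable _ _)
      intervalIntegrable_const, ← hP, intervalIntegral.integral_const, sub_zero]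
    simp
  have e2 : ‖P - ω * (β₁ * β₂)‖ ≤ 25 / 8 * η + 5 / 2 * δ * ω := by
    rw [e1]
    exact (intervalIntegral.norm_integral_le_integral_norm hω.le).trans hint
  have e3 : pair (toL ω 1) (toL ω 1) = ω := by
    unfold pair
    have : ∫ x, (toL ω 1 : L2 ω) x * (toL ω 1 : L2 ω) x ∂(mu ω) = ∫ x, (1:ℂ) ∂(mu ω) := by
      apply integral_congr_ae
      filter_upwards [toL_ae ω 1] with x hx
      rw [hx]; simp
    rw [this, integral_const]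
    simp [mu, Measure.real, hω.le]
  have e4 : ‖P - ω‖ ≤ δ * N := by
    rw [hPdef, ← e3, ← pair_sub_left]
    refine (norm_pair_le _ _).trans ?_
    refine mul_le_mul_of_nonneg_right ?_ hN0
    have := h3 ω ⟨hω.le, le_rfl⟩
    have e5 : Us (opS ω 1 []) ω (toL ω 1) = toL ω 1 := by
      unfold opS
      rw [Tl_nil, smul_zero, Us_zero le_rfl]
    rwa [e5] at this
  have e6 : (ω : ℂ) * (β₁ * β₂ - 1) = (P - ω) - (P - ω * (β₁ * β₂)) := by ring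
  have e7 : ω * ‖β₁ * β₂ - 1‖ ≤ δ * N + (25 / 8 * η + 5 / 2 * δ * ω) := by
    have : ω * ‖β₁ * β₂ - 1‖ = ‖(ω : ℂ) * (β₁ * β₂ - 1)‖ := by
      rw [norm_mul, Complex.norm_real, Real.norm_eq_abs, abs_of_pos hω]
    rw [this, e6]
    exact (norm_sub_le _ _).trans (add_le_add e4 e2)
  have e8 : η ≤ ω * δ₀ / 10 := min_le_right _ _
  have e9 : δ * (ω + N + 1) = ω * δ₀ / 10 := by rw [hδ]; field_simp
  have e10 : ω * ‖β₁ * β₂ - 1‖ ≤ ω * δ₀ := by nlinarith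
  exact le_of_mul_le_mul_left e10 hω

/-! ### Tents -/

/-- `max (0, 1 - |x|/a)` -/
noncomputable def tent (a : ℝ) : C(ℝ, ℂ) :=
  ⟨fun x => ((max 0 (1 - |x| / a) : ℝ) : ℂ), by fun_prop⟩

lemma tent_apply (a x : ℝ) : tent a x = ((max 0 (1 - |x| / a) : ℝ) : ℂ) := rfl

lemma norm_tent_le {a : ℝ} (ha : 0 < a) (x : ℝ) : ‖tent a x‖ ≤ 1 := by
  rw [tent_apply, Complex.norm_real, Real.norm_eq_abs, abs_of_nonneg (le_max_left _ _)]
  apply max_le zero_le_one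
  have : 0 ≤ |x| / a := by positivity
  linarith

lemma tent_eq_zero {a x : ℝ} (ha : 0 < a) (hx : a ≤ |x|) : tent a x = 0 := by
  rw [tent_apply, max_eq_left, Complex.ofReal_zero]
  have : 1 ≤ |x| / a := by rwa [one_le_div ha]
  linarith

lemma norm_toL_tent_le (hω : 0 < ω) {a : ℝ} (ha : 0 < a) : ‖toL ω (tent a)‖ ≤ √a := by
  have h := norm_sq_le hω.le (U := toL ω (tent a)) (A := 0) (B := 1) (v := a) (s := Ioc 0 a)
    le_rfl zero_le_one ha.le measurableSet_Ioc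
    (by
      filter_upwards [toL_ae ω (tent a), ae_restrict_mem measurableSet_Ioc] with x hx hx2
      rw [hx, zero_add]
      by_cases h : x ≤ a
      · rw [indicator_of_mem (s := Ioc 0 a) ⟨hx2.1, h⟩]
        exact pow_le_one₀ (norm_nonneg _) (norm_tent_le ha x)
      · rw [indicator_of_notMem (s := Ioc 0 a) (fun h' => h h'.2), tent_eq_zero ha, norm_zero,
          zero_pow two_ne_zero]
        rw [abs_of_pos hx2.1]
        exact (not_le.mp h).le)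
    (by rw [Real.volume_Ioc, sub_zero])
  rw [zero_mul, zero_add, one_mul] at h
  exact Real.le_sqrt_of_sq_le h

/-- bound for the right-end values of the tents -/
lemma eventually_Fv_tent_le (hω : 0 < ω) (hσ : ‖σ‖ = 1) (hl : ∀ a ∈ l, 0 < a)
    (hT : ‖Tl ω l‖ < 1 / 2) : ∀ᶠ a in 𝓝[>] (0:ℝ), ∀ ξ ≤ ω, ∀ x ∈ Ioc 0 ξ,
      ‖sol (opS ω σ (a :: l)) (evS σ (a :: l)) (tent a) (toL ω (tent a)) ξ x‖ ≤
        5 / 4 * (1 + 2 * cst l) := by
  have hC := (nice_opS ω hσ hl).nonneg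
  filter_upwards [self_mem_nhdsWithin, eventually_norm_lt hω.le hl hT,
    (nhdsWithin_le_nhds (gt_mem_nhds one_pos) : ∀ᶠ a in 𝓝[>] (0:ℝ), a < 1)] with a ha hTa ha1 ξ hξ
  rw [mem_Ioi] at ha
  apply sol_bound hσ hl ha hTa.le (tent a) hξ (by positivity)
  intro x hx
  refine (norm_hh_le hσ hl hTa.le (c := 1) (fun x _ => norm_tent_le ha x) ξ
    ⟨hx.1.le, hx.2.trans hξ⟩).trans ?_
  have h1 := norm_toL_tent_le hω ha
  have h2 : √a ≤ 1 := Real.sqrt_le_one.mpr ha1.le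
  nlinarith

lemma eventually_Fv_tent_small (hω : 0 < ω) (hσ : ‖σ‖ = 1) (hl : ∀ a ∈ l, 0 < a)
    (hT : ‖Tl ω l‖ < 1 / 2) {η δ : ℝ} (hη : 0 < η) (hδ : 0 < δ) :
    ∀ᶠ a in 𝓝[>] (0:ℝ), ∀ ξ ∈ Icc η ω, ‖Fv ω σ (a :: l) (tent a) ξ‖ ≤ δ := by
  have he : eps = 1 / 10 := rfl
  have hN := nice_opS ω hσ hl
  have hC := hN.nonneg
  set S : ℝ := 5 / 4 * (1 + 2 * cst l) with hS
  have hS0 : 0 ≤ S := by positivity
  obtain ⟨J, hJ⟩ : ∃ J : ℕ, S / 5 ^ J ≤ δ / 2 := by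
    have : Tendsto (fun n : ℕ => S / 5 ^ n) atTop (𝓝 0) :=
      tendsto_const_nhds.div_atTop (tendsto_pow_atTop_atTop_of_one_lt (by norm_num))
    exact ((this.eventually (gt_mem_nhds (by positivity : (0:ℝ) < δ / 2))).exists).imp
      fun n hn => hn.le
  have hlim1 : Tendsto (fun a : ℝ => cst l * (2 * √a)) (𝓝[>] 0) (𝓝 0) := by
    have hcn : Continuous (fun a : ℝ => cst l * (2 * √a)) := by fun_prop
    have := hcn.tendsto 0
    simp only [mul_zero, Real.sqrt_zero] at this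
    exact this.mono_left nhdsWithin_le_nhds
  have hlim2 : Tendsto (fun a : ℝ => (J + 1) * a) (𝓝[>] 0) (𝓝 0) := by
    have hcn : Continuous (fun a : ℝ => ((J:ℝ) + 1) * a) := by fun_prop
    have := hcn.tendsto 0
    simp only [mul_zero] at this
    exact this.mono_left nhdsWithin_le_nhds
  filter_upwards [self_mem_nhdsWithin, eventually_norm_lt hω.le hl hT,
    eventually_Fv_tent_le hω hσ hl hT,
    hlim1.eventually (gt_mem_nhds (by positivity : (0:ℝ) < δ / 5)),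
    hlim2.eventually (gt_mem_nhds hη)] with a ha hTa hb ha1 ha2 ξ hξ
  rw [mem_Ioi] at ha
  have hξ0 : 0 < ξ := lt_of_lt_of_le hη hξ.1
  have hJa : 0 ≤ J * a := by positivity
  have hl' : ∀ b ∈ a :: l, 0 < b := by
    intro b hb
    rcases List.mem_cons.mp hb with rfl | hb
    · exact ha
    · exact hl b hb
  have hT' : ‖opS ω σ (a :: l)‖ ≤ 1 / 2 := by rw [norm_opS ω hσ]; exact hTa.le
  set U := Us (opS ω σ (a :: l)) ξ (toL ω (tent a)) with hU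
  have hUn : ‖U‖ ≤ 2 * √a := by
    refine (norm_Us_le hT' ξ _).trans ?_
    exact mul_le_mul_of_nonneg_left (norm_toL_tent_le hω ha) (by norm_num)
  have hfin := jstep (e := fun x => sol (opS ω σ (a :: l)) (evS σ (a :: l)) (tent a)
    (toL ω (tent a)) ξ x) ha (ρ := δ / 5) (by positivity) hS0 J (by linarith [hξ.1])
    (hb ξ hξ.2) (by
      intro x hx1 hx2 s hs hyp
      have hxa : a ≤ x := by nlinarith [hξ.1]
      have h1 : ‖KK a (ext U) x‖ ≤ 2 * eps * s := by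
        apply norm_KK_le ha
        filter_upwards [ext_Us_ae (nice_opS ω hσ hl') hT' (toL_ae ω (tent a)) hξ.2] with t ht ht2
        rw [hU, ht]
        by_cases h : t ∈ Ioc 0 ξ
        · rw [indicator_of_mem h]; exact hyp t ht2 h
        · rw [indicator_of_notMem h, norm_zero]; exact hs
      rw [sol_eq_hh]
      refine (norm_sub_le _ _).trans (add_le_add ?_ ?_)
      · unfold hh
        rw [tent_eq_zero ha (by rw [abs_of_pos (by linarith)]; exact hxa), zero_sub, norm_neg]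
        exact (hN.bd _ _).trans ((mul_le_mul_of_nonneg_left hUn hC).trans ha1.le)
      · rw [norm_mul, hσ, one_mul]
        refine h1.trans (le_of_eq ?_)
        rw [he]; ring)
  change ‖sol (opS ω σ (a :: l)) (evS σ (a :: l)) (tent a) (toL ω (tent a)) ξ ξ‖ ≤ δ
  linarith

end

/-- `M_l` for `σ = 1`, `N_l` for `σ = -1` -/
noncomputable def Mf (σ : ℂ) : List ℝ → C(ℝ, ℂ)
  | [] => ContinuousMap.const ℝ (1 / 2)
  | a :: l => Mf σ l - (σ * (eps : ℂ)) • tent a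

/-- the two right-hand sides -/
noncomputable def Gf (σ : ℂ) (b : Bool) (l : List ℝ) : C(ℝ, ℂ) := bif b then Mf σ l else 1

section

variable {ω : ℝ} {σ : ℂ} {l : List ℝ}

lemma norm_sigma_eps (hσ : ‖σ‖ = 1) : ‖σ * (eps : ℂ)‖ = 1 / 10 := by
  have he : eps = 1 / 10 := rfl
  rw [norm_mul, hσ, one_mul, Complex.norm_real, he]; norm_num

/-- transfer for the two families of right-hand sides -/
lemma transferG (hω : 0 < ω) (hσ : ‖σ‖ = 1) (hl : ∀ a ∈ l, 0 < a) (hT : ‖Tl ω l‖ < 1 / 2)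
    (b : Bool) {η δ : ℝ} (hη : 0 < η) (hδ : 0 < δ) :
    ∀ᶠ a in 𝓝[>] (0:ℝ), ∀ ξ ∈ Icc η ω,
      ‖Fv ω σ (a :: l) (Gf σ b (a :: l)) ξ - bet ω σ a * Fv ω σ l (Gf σ b l) ξ‖ ≤ δ := by
  cases b with
  | false => exact transfer hω hσ hl hT 1 hη hδ
  | true =>
    filter_upwards [self_mem_nhdsWithin,
      transfer hω hσ hl hT (Mf σ l) hη (half_pos hδ),
      eventually_Fv_tent_small hω hσ hl hT hη (half_pos hδ)] with a ha h1 h2 ξ hξ
    rw [mem_Ioi] at ha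
    have hl' : ∀ b ∈ a :: l, 0 < b := by
      intro b hb
      rcases List.mem_cons.mp hb with rfl | hb
      · exact ha
      · exact hl b hb
    have e1 : Fv ω σ (a :: l) (Gf σ true (a :: l)) ξ =
        Fv ω σ (a :: l) (Mf σ l) ξ - (σ * (eps : ℂ)) * Fv ω σ (a :: l) (tent a) ξ := by
      change Fv ω σ (a :: l) (Mf σ l - (σ * (eps : ℂ)) • tent a) ξ = _
      rw [Fv_sub_smul hl' hσ]
    have e2 : Fv ω σ l (Gf σ true l) ξ = Fv ω σ l (Mf σ l) ξ := rfl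
    rw [e1, e2]
    have e3 : Fv ω σ (a :: l) (Mf σ l) ξ - (σ * (eps : ℂ)) * Fv ω σ (a :: l) (tent a) ξ -
        bet ω σ a * Fv ω σ l (Mf σ l) ξ =
        (Fv ω σ (a :: l) (Mf σ l) ξ - bet ω σ a * Fv ω σ l (Mf σ l) ξ) -
        (σ * (eps : ℂ)) * Fv ω σ (a :: l) (tent a) ξ := by ring
    rw [e3]
    refine (norm_sub_le _ _).trans ?_
    rw [norm_mul, norm_sigma_eps hσ]
    have := h1 ξ hξ
    have := h2 ξ hξ
    linarith

lemma eventually_FvG_le (hω : 0 < ω) (hσ : ‖σ‖ = 1) (hl : ∀ a ∈ l, 0 < a)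
    (hT : ‖Tl ω l‖ < 1 / 2) (b : Bool) : ∃ c : ℝ, 0 ≤ c ∧ ∀ᶠ a in 𝓝[>] (0:ℝ), ∀ ξ ∈ Ioc 0 ω,
      ‖Fv ω σ (a :: l) (Gf σ b (a :: l)) ξ‖ ≤ c := by
  cases b with
  | false => exact eventually_Fv_le hω hσ hl hT 1
  | true =>
    obtain ⟨c, hc, h⟩ := eventually_Fv_le hω hσ hl hT (Mf σ l)
    have hC := (nice_opS ω hσ hl).nonneg
    refine ⟨c + 5 / 4 * (1 + 2 * cst l), by positivity, ?_⟩
    filter_upwards [self_mem_nhdsWithin, h, eventually_Fv_tent_le hω hσ hl hT] with a ha h1 h2 ξ hξ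
    rw [mem_Ioi] at ha
    have hl' : ∀ b ∈ a :: l, 0 < b := by
      intro b hb
      rcases List.mem_cons.mp hb with rfl | hb
      · exact ha
      · exact hl b hb
    have e1 : Fv ω σ (a :: l) (Gf σ true (a :: l)) ξ =
        Fv ω σ (a :: l) (Mf σ l) ξ - (σ * (eps : ℂ)) * Fv ω σ (a :: l) (tent a) ξ := by
      change Fv ω σ (a :: l) (Mf σ l - (σ * (eps : ℂ)) • tent a) ξ = _
      rw [Fv_sub_smul hl' hσ]
    rw [e1]
    refine (norm_sub_le _ _).trans ?_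
    rw [norm_mul, norm_sigma_eps hσ]
    have h3 := h1 ξ hξ
    have h4 := h2 ξ hξ.2 ξ ⟨hξ.1, le_rfl⟩
    have h5 : ‖Fv ω σ (a :: l) (tent a) ξ‖ ≤ 5 / 4 * (1 + 2 * cst l) := h4
    have h6 := norm_nonneg (Fv ω σ (a :: l) (tent a) ξ)
    linarith

end

/-- The densities of the bilinear forms. -/
noncomputable def Dm (ω : ℝ) (l : List ℝ) (b b' : Bool) (ξ : ℝ) : ℂ :=
  Fv ω 1 l (Gf 1 b l) ξ * Fv ω (-1) l (Gf (-1) b' l) ξ

section

variable {ω : ℝ} {l : List ℝ}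

lemma Dm_close (hω : 0 < ω) (hl : ∀ a ∈ l, 0 < a) (hT : ‖Tl ω l‖ < 1 / 2)
    (b b' : Bool) {η δ : ℝ} (hη : 0 < η) (hδ : 0 < δ) :
    ∀ᶠ a in 𝓝[>] (0:ℝ), ∀ ξ ∈ Icc η ω, ‖Dm ω (a :: l) b b' ξ - Dm ω l b b' ξ‖ ≤ δ := by
  obtain ⟨c₁, hc₁, h1⟩ := eventually_FvG_le hω norm_one_C hl hT b
  obtain ⟨c₂, hc₂, h2⟩ := Fv_le (ω := ω) norm_one_C hl hT (Gf 1 b l)
  obtain ⟨c₃, hc₃, h3⟩ := Fv_le (ω := ω) norm_neg_one_C hl hT (Gf (-1) b' l)
  set δ' : ℝ := δ / (c₁ + 5 / 4 * c₃ + c₂ * c₃ + 1) with hδ'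
  have hδ'0 : 0 < δ' := by positivity
  filter_upwards [self_mem_nhdsWithin, h1, transferG hω norm_one_C hl hT b hη hδ'0,
    transferG hω norm_neg_one_C hl hT b' hη hδ'0, eventually_bet_mul hω hδ'0]
    with a ha g1 g2 g3 g4 ξ hξ
  rw [mem_Ioi] at ha
  have hξ' : ξ ∈ Ioc 0 ω := ⟨lt_of_lt_of_le hη hξ.1, hξ.2⟩
  have k1 := g1 ξ hξ'
  have k2 := h2 ξ hξ'
  have k3 := h3 ξ hξ'
  have k4 := g2 ξ hξ
  have k5 := g3 ξ hξ
  have k6 := bet_le hω norm_neg_one_C ha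
  unfold Dm
  set F₁ := Fv ω 1 (a :: l) (Gf 1 b (a :: l)) ξ
  set F₂ := Fv ω (-1) (a :: l) (Gf (-1) b' (a :: l)) ξ
  set G₁ := Fv ω 1 l (Gf 1 b l) ξ
  set G₂ := Fv ω (-1) l (Gf (-1) b' l) ξ
  set β₁ := bet ω 1 a
  set β₂ := bet ω (-1) a
  have e : F₁ * F₂ - G₁ * G₂ = F₁ * (F₂ - β₂ * G₂) + (F₁ - β₁ * G₁) * (β₂ * G₂) +
      (β₁ * β₂ - 1) * (G₁ * G₂) := by ring
  rw [e]
  have m1 : ‖F₁ * (F₂ - β₂ * G₂)‖ ≤ c₁ * δ' := by
    rw [norm_mul]; exact mul_le_mul k1 k5 (norm_nonneg _) hc₁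
  have m2 : ‖(F₁ - β₁ * G₁) * (β₂ * G₂)‖ ≤ δ' * (5 / 4 * c₃) := by
    rw [norm_mul, norm_mul]
    exact mul_le_mul k4 (mul_le_mul k6 k3 (norm_nonneg _) (by norm_num)) (by positivity) hδ'0.le
  have m3 : ‖(β₁ * β₂ - 1) * (G₁ * G₂)‖ ≤ δ' * (c₂ * c₃) := by
    rw [norm_mul, norm_mul G₁]
    exact mul_le_mul g4 (mul_le_mul k2 k3 (norm_nonneg _) hc₂) (by positivity) hδ'0.le
  have m4 : δ' * (c₁ + 5 / 4 * c₃ + c₂ * c₃ + 1) = δ := by
    rw [hδ']; field_simp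
  calc _ ≤ ‖F₁ * (F₂ - β₂ * G₂)‖ + ‖(F₁ - β₁ * G₁) * (β₂ * G₂)‖ +
        ‖(β₁ * β₂ - 1) * (G₁ * G₂)‖ := norm_add₃_le
    _ ≤ c₁ * δ' + δ' * (5 / 4 * c₃) + δ' * (c₂ * c₃) := by gcongr
    _ ≤ δ := by rw [← m4]; nlinarith

lemma continuous_Dm (hω : 0 < ω) (hl : ∀ a ∈ l, 0 < a) (hT : ‖Tl ω l‖ < 1 / 2)
    (b b' : Bool) : Continuous (Dm ω l b b') :=
  (continuous_Fv hω norm_one_C hl hT.le _).mul (continuous_Fv hω norm_neg_one_C hl hT.le _)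

lemma Dm_int_close (hω : 0 < ω) (hl : ∀ a ∈ l, 0 < a) (hT : ‖Tl ω l‖ < 1 / 2)
    (b b' : Bool) {δ : ℝ} (hδ : 0 < δ) :
    ∀ᶠ a in 𝓝[>] (0:ℝ), ∫ x in (0:ℝ)..ω, ‖Dm ω (a :: l) b b' x - Dm ω l b b' x‖ ≤ δ := by
  obtain ⟨c₁, hc₁, h1⟩ := eventually_FvG_le hω norm_one_C hl hT b
  obtain ⟨c₂, hc₂, h2⟩ := Fv_le (ω := ω) norm_one_C hl hT (Gf 1 b l)
  obtain ⟨c₃, hc₃, h3⟩ := Fv_le (ω := ω) norm_neg_one_C hl hT (Gf (-1) b' l)
  obtain ⟨c₄, hc₄, h4⟩ := eventually_FvG_le hω norm_neg_one_C hl hT b'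
  set c : ℝ := c₁ * c₄ + c₂ * c₃ with hc
  have hc0 : 0 ≤ c := by positivity
  set η : ℝ := min ω (δ / (2 * (c + 1))) with hη
  have hη0 : 0 < η := by positivity
  set δ' : ℝ := δ / (2 * ω) with hδ'
  have hδ'0 : 0 < δ' := by positivity
  filter_upwards [self_mem_nhdsWithin, h1, h4, Dm_close hω hl hT b b' hη0 hδ'0,
    eventually_norm_lt hω.le hl hT] with a ha g1 g4 g hTa
  rw [mem_Ioi] at ha
  have hl' : ∀ b ∈ a :: l, 0 < b := by
    intro b hb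
    rcases List.mem_cons.mp hb with rfl | hb
    · exact ha
    · exact hl b hb
  refine (int_close hω ((continuous_Dm hω hl' hTa b b').sub (continuous_Dm hω hl hT b b'))
    (c := c) hη0 (min_le_left _ _) hδ'0.le g ?_).trans ?_
  · intro ξ hξ
    refine (norm_sub_le _ _).trans (add_le_add ?_ ?_)
    · unfold Dm
      rw [norm_mul]
      exact mul_le_mul (g1 ξ hξ) (g4 ξ hξ) (norm_nonneg _) hc₁
    · unfold Dm
      rw [norm_mul]
      exact mul_le_mul (h2 ξ hξ) (h3 ξ hξ) (norm_nonneg _) hc₂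
  · have h5 : η ≤ δ / (2 * (c + 1)) := min_le_right _ _
    have h6 : δ' * ω = δ / 2 := by rw [hδ']; field_simp
    have h7 : c * η ≤ δ / 2 := by
      calc c * η ≤ (c + 1) * (δ / (2 * (c + 1))) := by gcongr; linarith
        _ = δ / 2 := by field_simp
    linarith

end

end Pool.Agent.Results.MP_8e7914_an.NoFactorization
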