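import Pool.Agent.Helper593.Fac10

open MeasureTheory Set Filter
open scoped ENNReal NNReal Topology Interval ComplexConjugate

namespace Pool.Agent.Results.MP_8e7914_an.NoFactorization

/-- partition points of `[ω/2, ω]` -/
noncomputable def pt (ω : ℝ) (m i : ℕ) : ℝ := ω / 2 + i * (ω / (2 * m))

/-- quadratic variation of `ξ ↦ (1 + P T P)⁻¹ P 1` -/
noncomputable def VQ {ω : ℝ} (T : L2 ω →L[ℂ] L2 ω) (m : ℕ) : ℝ :=
  ∑ i ∈ Finset.range m, ‖Us T (pt ω m (i + 1)) (toL ω 1) - Us T (pt ω m i) (toL ω 1)‖ ^ 2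

lemma pt_mem {ω : ℝ} (hω : 0 < ω) {m i : ℕ} (hi : i ≤ m) : pt ω m i ∈ Icc (ω / 2) ω := by
  unfold pt
  rcases Nat.eq_zero_or_pos m with hm | hm
  · subst hm
    have : i = 0 := by omega
    subst this
    simp only [Nat.cast_zero, mul_zero, div_zero, add_zero]
    exact ⟨le_rfl, by linarith⟩
  · have hm' : (0:ℝ) < m := by exact_mod_cast hm
    have hi' : (i:ℝ) ≤ m := by exact_mod_cast hi
    constructor
    · have : 0 ≤ (i:ℝ) * (ω / (2 * m)) := by positivity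
      linarith
    · have : (i:ℝ) * (ω / (2 * m)) ≤ m * (ω / (2 * m)) := by gcongr
      have h2 : (m:ℝ) * (ω / (2 * m)) = ω / 2 := by field_simp
      linarith

lemma pt_succ (ω : ℝ) (m i : ℕ) : pt ω m (i + 1) = pt ω m i + ω / (2 * m) := by
  unfold pt; push_cast; ring

lemma pt_mono {ω : ℝ} (hω : 0 < ω) (m i : ℕ) : pt ω m i ≤ pt ω m (i + 1) := by
  rw [pt_succ]
  have : 0 ≤ ω / (2 * m) := by positivity
  linarith

lemma mem_Icc_of_half {ω ξ : ℝ} (hω : 0 < ω) (h : ξ ∈ Icc (ω / 2) ω) : ξ ∈ Icc 0 ω :=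
  ⟨by linarith [h.1], h.2⟩

/-- lower bound for a norm from a pointwise lower bound on an interval -/
lemma norm_sq_ge {ω : ℝ} {U : L2 ω} {c ξ ξ' : ℝ} (hc : 0 ≤ c) (h0 : 0 ≤ ξ) (hξ : ξ ≤ ξ')
    (hξ' : ξ' ≤ ω) (h : ∀ᵐ x ∂(mu ω), x ∈ Ioc ξ ξ' → c ≤ ‖U x‖) :
    (ξ' - ξ) * c ^ 2 ≤ ‖U‖ ^ 2 := by
  have h1 : ENNReal.ofReal ((ξ' - ξ) * c ^ 2) ≤ ‖U‖ₑ ^ 2 := by
    rw [enorm_sq_eq]
    calc ENNReal.ofReal ((ξ' - ξ) * c ^ 2) = ENNReal.ofReal (c ^ 2) * (mu ω) (Ioc ξ ξ') := by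
          rw [ENNReal.ofReal_mul (by linarith), mul_comm]
          congr 1
          unfold mu
          rw [Measure.restrict_apply measurableSet_Ioc, inter_eq_left.mpr, Real.volume_Ioc]
          intro x hx
          exact ⟨lt_of_le_of_lt h0 hx.1, hx.2.trans hξ'⟩
      _ = ∫⁻ x, (Ioc ξ ξ').indicator (fun _ => ENNReal.ofReal (c ^ 2)) x ∂(mu ω) := by
          rw [lintegral_indicator measurableSet_Ioc, setLIntegral_const]
      _ ≤ ∫⁻ x, ‖U x‖ₑ ^ 2 ∂(mu ω) := by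
          apply lintegral_mono_ae
          filter_upwards [h] with x hx
          by_cases hx2 : x ∈ Ioc ξ ξ'
          · rw [indicator_of_mem hx2, ← ofReal_norm, ← ENNReal.ofReal_pow (norm_nonneg _)]
            apply ENNReal.ofReal_le_ofReal
            have := hx hx2
            gcongr
          · rw [indicator_of_notMem hx2]; exact zero_le
  rw [← ofReal_norm, ← ENNReal.ofReal_pow (norm_nonneg _)] at h1
  exact (ENNReal.ofReal_le_ofReal_iff (by positivity)).mp h1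

/-- The properties propagated in the construction. -/
structure Good (ω : ℝ) (l : List ℝ) : Prop where
  pos : ∀ a ∈ l, 0 < a
  norm : ‖Tl ω l‖ < 1 / 2
  det : ∀ ξ ∈ Ioc 0 ω, 1 / 4 + 1 / 4 * (1 / 2) ^ l.length ≤ ‖Dm ω l false false ξ‖
  grow : ∀ ξ ∈ Icc (ω / 2) ω, (26 / 25) ^ l.length ≤ ‖Fv ω (-1) l 1 ξ‖

lemma good_nil (ω : ℝ) : Good ω [] where
  pos := by simp
  norm := by rw [Tl_nil, norm_zero]; norm_num
  det := by
    intro ξ _
    unfold Dm Gf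
    rw [Fv_nil, Fv_nil]
    simp
    norm_num
  grow := by
    intro ξ _
    rw [Fv_nil]
    simp

lemma good_step {ω : ℝ} (hω : 0 < ω) {l : List ℝ} (h : Good ω l) :
    ∀ᶠ a in 𝓝[>] (0:ℝ), Good ω (a :: l) := by
  obtain ⟨η₁, h1a, h1b, h1⟩ := eventually_near_zero hω norm_one_C h.pos h.norm
  obtain ⟨η₂, h2a, h2b, h2⟩ := eventually_near_zero hω norm_neg_one_C h.pos h.norm
  set η := min η₁ η₂ with hη
  have hη0 : 0 < η := lt_min h1a h2a
  have hpow : (0:ℝ) < (1 / 2) ^ l.length := by positivity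
  have hpow1 : ((1:ℝ) / 2) ^ l.length ≤ 1 := pow_le_one₀ (by norm_num) (by norm_num)
  have hpow2 : (0:ℝ) < (26 / 25) ^ l.length := by positivity
  filter_upwards [self_mem_nhdsWithin, eventually_norm_lt hω.le h.pos h.norm, h1, h2,
    Dm_close hω h.pos h.norm false false hη0 (δ := 1 / 8 * (1 / 2) ^ l.length) (by positivity),
    transfer hω norm_neg_one_C h.pos h.norm 1 (η := ω / 2) (half_pos hω)
      (δ := 7 / 200 * (26 / 25) ^ l.length) (by positivity),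
    (nhdsWithin_le_nhds (gt_mem_nhds hω) : ∀ᶠ a in 𝓝[>] (0:ℝ), a < ω)]
    with a ha hTa g1 g2 g3 g4 haω
  rw [mem_Ioi] at ha
  refine ⟨?_, hTa, ?_, ?_⟩
  · intro b hb
    rcases List.mem_cons.mp hb with rfl | hb
    · exact ha
    · exact h.pos b hb
  · intro ξ hξ
    rw [List.length_cons, pow_succ]
    by_cases hξη : ξ ≤ η
    · have k1 := g1 ξ ⟨hξ.1, hξη.trans (min_le_left _ _)⟩
      have k2 := g2 ξ ⟨hξ.1, hξη.trans (min_le_right _ _)⟩
      have e : Dm ω (a :: l) false false ξ = Fv ω 1 (a :: l) 1 ξ * Fv ω (-1) (a :: l) 1 ξ := rfl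
      rw [e, norm_mul]
      have m : ∀ z : ℂ, ‖z - 1‖ ≤ 3 / 10 → 7 / 10 ≤ ‖z‖ := by
        intro z hz
        have := norm_le_norm_sub_add (1:ℂ) z
        rw [norm_one, norm_sub_rev] at this
        linarith
      have := mul_le_mul (m _ k1) (m _ k2) (by norm_num) (norm_nonneg _)
      linarith
    · have k3 := g3 ξ ⟨(not_le.mp hξη).le, hξ.2⟩
      have k4 := h.det ξ hξ
      have := norm_le_norm_sub_add (Dm ω l false false ξ) (Dm ω (a :: l) false false ξ)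
      rw [norm_sub_rev] at this
      linarith
  · intro ξ hξ
    rw [List.length_cons, pow_succ]
    have k4 := g4 ξ hξ
    have k5 := h.grow ξ hξ
    have k6 := bet_neg_ge (ω := ω) ha haω.le
    have k7 : 43 / 40 * (26 / 25) ^ l.length ≤ ‖bet ω (-1) a * Fv ω (-1) l 1 ξ‖ := by
      rw [norm_mul]
      exact mul_le_mul k6 k5 hpow2.le (norm_nonneg _)
    have := norm_le_norm_sub_add (bet ω (-1) a * Fv ω (-1) l 1 ξ) (Fv ω (-1) (a :: l) 1 ξ)
    rw [norm_sub_rev] at this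
    linarith

/-- lower bound of the quadratic variation for fine partitions -/
lemma eventually_VQ_ge {ω : ℝ} (hω : 0 < ω) {l : List ℝ} (h : Good ω l) :
    ∀ᶠ m : ℕ in atTop, ω / 8 * ((26 / 25) ^ l.length) ^ 2 ≤ VQ (opS ω (-1) l) m := by
  have hN := nice_opS ω norm_neg_one_C h.pos
  have hT' : ‖opS ω (-1) l‖ ≤ 1 / 2 := by rw [norm_opS ω norm_neg_one_C]; exact h.norm.le
  have hC := hN.nonneg
  set c : ℝ := (26 / 25) ^ l.length with hc
  have hc1 : 1 ≤ c := one_le_pow₀ (by norm_num)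
  have hlim : Tendsto (fun m : ℕ => cst l * √(ω / (2 * m)) * (2 * ‖toL ω 1‖)) atTop (𝓝 0) := by
    have h1 : Tendsto (fun m : ℕ => ω / (2 * (m:ℝ))) atTop (𝓝 0) := by
      apply tendsto_const_nhds.div_atTop
      exact (tendsto_natCast_atTop_atTop).const_mul_atTop (by norm_num)
    have h2 := (Real.continuous_sqrt.tendsto 0).comp h1
    rw [Real.sqrt_zero] at h2
    have h3 := (h2.const_mul (cst l)).mul_const (2 * ‖toL ω 1‖)
    simpa using h3
  filter_upwards [hlim.eventually (gt_mem_nhds (by norm_num : (0:ℝ) < 1 / 2)),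
    eventually_gt_atTop 0] with m hm hm0
  have hm' : (0:ℝ) < m := by exact_mod_cast hm0
  unfold VQ
  have hterm : ∀ i ∈ Finset.range m, ω / (2 * m) * (c / 2) ^ 2 ≤
      ‖Us (opS ω (-1) l) (pt ω m (i + 1)) (toL ω 1) - Us (opS ω (-1) l) (pt ω m i) (toL ω 1)‖ ^ 2 := by
    intro i hi
    rw [Finset.mem_range] at hi
    set ξ := pt ω m i with hξ
    set ξ' := pt ω m (i + 1) with hξ'
    have hξm : ξ ∈ Icc (ω / 2) ω := pt_mem hω hi.le
    have hξm' : ξ' ∈ Icc (ω / 2) ω := pt_mem hω hi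
    have hd : ξ' - ξ = ω / (2 * m) := by rw [hξ', hξ, pt_succ]; ring
    have hle : ξ ≤ ξ' := pt_mono hω m i
    rw [← hd]
    apply norm_sq_ge (by positivity) (by linarith [hξm.1]) hle hξm'.2
    filter_upwards [Us_ae hN hT' (toL_ae ω 1) ξ, Us_ae hN hT' (toL_ae ω 1) ξ',
      Lp.coeFn_sub (Us (opS ω (-1) l) ξ' (toL ω 1)) (Us (opS ω (-1) l) ξ (toL ω 1))]
      with x h1 h2 h3 hx
    have hx0 : 0 ≤ x := by linarith [hξm.1, hx.1]
    rw [h3, Pi.sub_apply, h1, h2, indicator_of_mem (s := Icc 0 ξ') ⟨hx0, hx.2⟩,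
      indicator_of_notMem (s := Icc 0 ξ) (fun h' => not_lt.mpr h'.2 hx.1), sub_zero]
    have k1 := sol_modulus hω.le hN hT' (toL_ae ω 1) (c := 1) zero_le_one
      (fun x _ => by simp) ξ' ξ' ξ' x
    rw [sub_self, abs_zero, Real.sqrt_zero, mul_zero, mul_zero, add_zero] at k1
    have k2 : ‖(1 : C(ℝ, ℂ)) ξ' - (1 : C(ℝ, ℂ)) x‖ = 0 := by simp
    rw [k2, zero_add] at k1
    have k3 : cst l * √|ξ' - x| * (2 * ‖toL ω 1‖) ≤ 1 / 2 := by
      refine le_trans ?_ hm.le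
      have : |ξ' - x| ≤ ω / (2 * m) := by
        rw [abs_of_nonneg (by linarith [hx.2]), ← hd]; linarith [hx.1]
      gcongr
    have k4 := h.grow ξ' hξm'
    have k5 : ‖Fv ω (-1) l 1 ξ'‖ ≤
        ‖Fv ω (-1) l 1 ξ' - sol (opS ω (-1) l) (evS (-1) l) (1 : C(ℝ, ℂ)) (toL ω 1) ξ' x‖ +
        ‖sol (opS ω (-1) l) (evS (-1) l) (1 : C(ℝ, ℂ)) (toL ω 1) ξ' x‖ :=
      norm_le_norm_sub_add _ _
    have k6 : ‖Fv ω (-1) l 1 ξ' - sol (opS ω (-1) l) (evS (-1) l) (1 : C(ℝ, ℂ)) (toL ω 1) ξ' x‖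
        ≤ cst l * √|ξ' - x| * (2 * ‖toL ω 1‖) := k1
    linarith
  calc ω / 8 * c ^ 2 = ∑ _i ∈ Finset.range m, ω / (2 * m) * (c / 2) ^ 2 := by
        rw [Finset.sum_const, Finset.card_range, nsmul_eq_mul]
        field_simp
        ring
    _ ≤ _ := Finset.sum_le_sum hterm

/-- continuity of the quadratic variation under adding a fine scale -/
lemma eventually_VQ_close {ω : ℝ} (hω : 0 < ω) {l : List ℝ} (h : Good ω l) (m : ℕ) {δ : ℝ}
    (hδ : 0 < δ) :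
    ∀ᶠ a in 𝓝[>] (0:ℝ), |VQ (opS ω (-1) (a :: l)) m - VQ (opS ω (-1) l) m| ≤ δ := by
  set N : ℝ := ‖toL ω 1‖ with hN
  have hN0 : 0 ≤ N := norm_nonneg _
  set δ' : ℝ := δ / (16 * (N + 1) * (m + 1)) with hδ'
  have hδ'0 : 0 < δ' := by positivity
  filter_upwards [eventually_Us_close hω.le norm_neg_one_C h.pos h.norm
    (ContinuousMap.continuous 1) (toL_ae ω 1) hδ'0, eventually_norm_lt hω.le h.pos h.norm]
    with a ha hTa
  have hT' : ‖opS ω (-1) l‖ ≤ 1 / 2 := by rw [norm_opS ω norm_neg_one_C]; exact h.norm.le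
  have hT'' : ‖opS ω (-1) (a :: l)‖ ≤ 1 / 2 := by rw [norm_opS ω norm_neg_one_C]; exact hTa.le
  unfold VQ
  rw [← Finset.sum_sub_distrib]
  refine (Finset.abs_sum_le_sum_abs _ _).trans ?_
  have hterm : ∀ i ∈ Finset.range m,
      |‖Us (opS ω (-1) (a :: l)) (pt ω m (i + 1)) (toL ω 1) -
          Us (opS ω (-1) (a :: l)) (pt ω m i) (toL ω 1)‖ ^ 2 -
        ‖Us (opS ω (-1) l) (pt ω m (i + 1)) (toL ω 1) -
          Us (opS ω (-1) l) (pt ω m i) (toL ω 1)‖ ^ 2| ≤ 2 * δ' * (8 * N) := by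
    intro i hi
    rw [Finset.mem_range] at hi
    have hξm := mem_Icc_of_half hω (pt_mem hω (m := m) (i := i) hi.le)
    have hξm' := mem_Icc_of_half hω (pt_mem hω (m := m) (i := i + 1) hi)
    have a1 := ha _ hξm
    have a2 := ha _ hξm'
    have b1 := norm_Us_le hT' (pt ω m i) (toL ω 1)
    have b2 := norm_Us_le hT' (pt ω m (i + 1)) (toL ω 1)
    have b3 := norm_Us_le hT'' (pt ω m i) (toL ω 1)
    have b4 := norm_Us_le hT'' (pt ω m (i + 1)) (toL ω 1)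
    set A := Us (opS ω (-1) (a :: l)) (pt ω m (i + 1)) (toL ω 1)
    set B := Us (opS ω (-1) (a :: l)) (pt ω m i) (toL ω 1)
    set A' := Us (opS ω (-1) l) (pt ω m (i + 1)) (toL ω 1)
    set B' := Us (opS ω (-1) l) (pt ω m i) (toL ω 1)
    have c1 : |‖A - B‖ - ‖A' - B'‖| ≤ 2 * δ' := by
      refine (abs_norm_sub_norm_le _ _).trans ?_
      have : A - B - (A' - B') = (A - A') - (B - B') := by abel
      rw [this]
      refine (norm_sub_le _ _).trans ?_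
      linarith
    have c2 : ‖A - B‖ + ‖A' - B'‖ ≤ 8 * N := by
      have := norm_sub_le A B
      have := norm_sub_le A' B'
      linarith
    have c3 : ‖A - B‖ ^ 2 - ‖A' - B'‖ ^ 2 = (‖A - B‖ - ‖A' - B'‖) * (‖A - B‖ + ‖A' - B'‖) := by
      ring
    rw [c3, abs_mul]
    refine mul_le_mul c1 ?_ (abs_nonneg _) (by positivity)
    rwa [abs_of_nonneg (by positivity)]
  refine (Finset.sum_le_sum hterm).trans ?_
  rw [Finset.sum_const, Finset.card_range, nsmul_eq_mul]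
  have e1 : δ' * (16 * (N + 1) * (m + 1)) = δ := by rw [hδ']; field_simp
  have hm0 : (0:ℝ) ≤ m := Nat.cast_nonneg m
  have e2 : (m:ℝ) * (2 * δ' * (8 * N)) = δ' * (16 * (N * m)) := by ring
  rw [e2, ← e1]
  have e3 : 16 * (N * m) ≤ 16 * (N + 1) * (m + 1) := by nlinarith
  gcongr

/-! ### The inductive choice of the scales -/

instance fact_ne_top : Fact ((2 : ℝ≥0∞) ≠ ∞) := ⟨ENNReal.ofNat_ne_top⟩

instance separable_L2 (ω : ℝ) : TopologicalSpace.SeparableSpace (L2 ω) := by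
  have : SecondCountableTopology (L2 ω) := Lp.SecondCountableTopology
  infer_instance

/-- dense sequence -/
noncomputable def dsq (ω : ℝ) : ℕ → L2 ω := TopologicalSpace.denseSeq (L2 ω)

/-- states of the construction -/
def St (ω : ℝ) : Type :=
  {p : List ℝ × ℕ // Good ω p.1 ∧ ω / 8 * ((26 / 25) ^ p.1.length) ^ 2 ≤ VQ (opS ω (-1) p.1) p.2}

/-- relation between consecutive states -/
def Rel {ω : ℝ} (s t : St ω) : Prop :=
  ∃ a : ℝ, t.1.1 = a :: s.1.1 ∧ 0 < a ∧ a ≤ (1 / 4) ^ s.1.1.length ∧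
    (∀ b b' : Bool, ∫ x in (0:ℝ)..ω, ‖Dm ω (a :: s.1.1) b b' x - Dm ω s.1.1 b b' x‖ ≤
      (1 / 2) ^ s.1.1.length) ∧
    (∀ j < s.1.1.length, ‖Kop ω a (dsq ω j)‖ ≤ (1 / 2) ^ s.1.1.length) ∧
    (∀ m ≤ s.1.2, |VQ (opS ω (-1) (a :: s.1.1)) m - VQ (opS ω (-1) s.1.1) m| ≤
      (1 / 2) ^ s.1.1.length) ∧ s.1.2 ≤ t.1.2

lemma exists_rel {ω : ℝ} (hω : 0 < ω) (s : St ω) : ∃ t : St ω, Rel s t := by
  obtain ⟨⟨l, M⟩, hg, hV⟩ := s
  simp only at hg hV
  have hp : (0:ℝ) < (1 / 2) ^ l.length := by positivity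
  have hq : (0:ℝ) < (1 / 4) ^ l.length := by positivity
  have e1 : ∀ᶠ a in 𝓝[>] (0:ℝ), ∀ b b' : Bool,
      ∫ x in (0:ℝ)..ω, ‖Dm ω (a :: l) b b' x - Dm ω l b b' x‖ ≤ (1 / 2) ^ l.length := by
    rw [eventually_all]
    intro b
    rw [eventually_all]
    intro b'
    exact Dm_int_close hω hg.pos hg.norm b b' hp
  have e2 : ∀ᶠ a in 𝓝[>] (0:ℝ), ∀ j < l.length, ‖Kop ω a (dsq ω j)‖ ≤ (1 / 2) ^ l.length := by
    have : ∀ᶠ a in 𝓝[>] (0:ℝ), ∀ j ∈ Finset.range l.length,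
        ‖Kop ω a (dsq ω j)‖ ≤ (1 / 2) ^ l.length := by
      rw [Filter.eventually_all_finset]
      intro j _
      exact ((tendsto_Kop hω.le (dsq ω j)).eventually (gt_mem_nhds hp)).mono fun a ha => ha.le
    filter_upwards [this] with a ha j hj
    exact ha j (Finset.mem_range.mpr hj)
  have e3 : ∀ᶠ a in 𝓝[>] (0:ℝ), ∀ m ≤ M,
      |VQ (opS ω (-1) (a :: l)) m - VQ (opS ω (-1) l) m| ≤ (1 / 2) ^ l.length := by
    have : ∀ᶠ a in 𝓝[>] (0:ℝ), ∀ m ∈ Finset.range (M + 1),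
        |VQ (opS ω (-1) (a :: l)) m - VQ (opS ω (-1) l) m| ≤ (1 / 2) ^ l.length := by
      rw [Filter.eventually_all_finset]
      intro m _
      exact eventually_VQ_close hω hg m hp
    filter_upwards [this] with a ha m hm
    exact ha m (Finset.mem_range.mpr (by omega))
  have e4 : ∀ᶠ a in 𝓝[>] (0:ℝ), a < (1 / 4) ^ l.length := nhdsWithin_le_nhds (gt_mem_nhds hq)
  obtain ⟨a, ha, hg', ha4, h1, h2, h3⟩ := ((eventually_mem_nhdsWithin (s := Ioi (0:ℝ)) (a := 0)).and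
    ((good_step hω hg).and (e4.and (e1.and (e2.and e3))))).exists
  rw [mem_Ioi] at ha
  obtain ⟨M', hM', hMM⟩ := ((eventually_VQ_ge hω hg').and (eventually_ge_atTop M)).exists
  exact ⟨⟨⟨a :: l, M'⟩, hg', hM'⟩, a, rfl, ha, ha4.le, h1, h2, h3, hMM⟩

/-- The sequence of scales. -/
lemma exists_scales {ω : ℝ} (hω : 0 < ω) : ∃ (A : ℕ → ℝ) (L : ℕ → List ℝ) (M : ℕ → ℕ),
    L 0 = [] ∧ (∀ n, L (n + 1) = A n :: L n) ∧ (∀ n, (L n).length = n) ∧ (∀ n, Good ω (L n)) ∧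
    (∀ n, ω / 8 * ((26 / 25) ^ n) ^ 2 ≤ VQ (opS ω (-1) (L n)) (M n)) ∧
    (∀ n, 0 < A n ∧ A n ≤ (1 / 4) ^ n) ∧
    (∀ n, ∀ b b' : Bool, ∫ x in (0:ℝ)..ω, ‖Dm ω (L (n + 1)) b b' x - Dm ω (L n) b b' x‖ ≤
      (1 / 2) ^ n) ∧
    (∀ n, ∀ j < n, ‖Kop ω (A n) (dsq ω j)‖ ≤ (1 / 2) ^ n) ∧
    (∀ n, ∀ m ≤ M n, |VQ (opS ω (-1) (L (n + 1))) m - VQ (opS ω (-1) (L n)) m| ≤ (1 / 2) ^ n) ∧
    Monotone M := by
  obtain ⟨M₀, hM₀⟩ := (eventually_VQ_ge hω (good_nil ω)).exists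
  choose f hf using fun s : St ω => exists_rel hω s
  let s₀ : St ω := ⟨⟨[], M₀⟩, good_nil ω, hM₀⟩
  let F : ℕ → St ω := fun n => f^[n] s₀
  have hF : ∀ n, Rel (F n) (F (n + 1)) := by
    intro n
    have : F (n + 1) = f (F n) := Function.iterate_succ_apply' f n s₀
    rw [this]
    exact hf _
  choose A hA1 hA2 hA3 hA4 hA5 hA6 hA7 using hF
  have hlen : ∀ n, ((F n).1.1).length = n := by
    intro n
    induction n with
    | zero => rfl
    | succ n ih => rw [hA1 n, List.length_cons, ih]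
  refine ⟨A, fun n => (F n).1.1, fun n => (F n).1.2, rfl, hA1, hlen, fun n => (F n).2.1, ?_, ?_,
    ?_, ?_, ?_, monotone_nat_of_le_succ hA7⟩
  · intro n
    have := (F n).2.2
    rwa [hlen n] at this
  · intro n
    have := hA3 n
    rw [hlen n] at this
    exact ⟨hA2 n, this⟩
  · intro n b b'
    have := hA4 n b b'
    rw [hlen n] at this
    simp only
    rw [hA1 n]
    exact this
  · intro n j hj
    have := hA5 n j
    rw [hlen n] at this
    exact this hj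
  · intro n m hm
    have := hA6 n m hm
    rw [hlen n] at this
    simp only
    rw [hA1 n]
    exact this

end Pool.Agent.Results.MP_8e7914_an.NoFactorization
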