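import Pool.Agent.Helper593.Fac11

open MeasureTheory Set Filter
open scoped ENNReal NNReal Topology Interval ComplexConjugate

namespace Pool.Agent.Results.MP_8e7914_an.NoFactorization

/-- The data of the construction. -/
structure Scales (ω : ℝ) (A : ℕ → ℝ) (L : ℕ → List ℝ) (M : ℕ → ℕ) : Prop where
  zero : L 0 = []
  succ : ∀ n, L (n + 1) = A n :: L n
  good : ∀ n, Good ω (L n)
  len : ∀ n, (L n).length = n
  vq : ∀ n, ω / 8 * ((26 / 25) ^ n) ^ 2 ≤ VQ (opS ω (-1) (L n)) (M n)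
  Apos : ∀ n, 0 < A n
  Ale : ∀ n, A n ≤ (1 / 4) ^ n
  D_close : ∀ n, ∀ b b' : Bool,
    ∫ x in (0:ℝ)..ω, ‖Dm ω (L (n + 1)) b b' x - Dm ω (L n) b b' x‖ ≤ (1 / 2) ^ n
  K_small : ∀ n, ∀ j < n, ‖Kop ω (A n) (dsq ω j)‖ ≤ (1 / 2) ^ n
  V_close : ∀ n, ∀ m ≤ M n,
    |VQ (opS ω (-1) (L (n + 1))) m - VQ (opS ω (-1) (L n)) m| ≤ (1 / 2) ^ n
  mono : Monotone M

lemma exists_Scales {ω : ℝ} (hω : 0 < ω) : ∃ A L M, Scales ω A L M := by
  obtain ⟨A, L, M, h1, h2, h3, h4, h5, h6, h7, h8, h9, h10⟩ := exists_scales hω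
  exact ⟨A, L, M, h1, h2, h4, h3, h5, fun n => (h6 n).1, fun n => (h6 n).2, h7, h8, h9, h10⟩

/-- strong limits of uniformly bounded operators -/
lemma exists_strong_limit {H : Type*} [NormedAddCommGroup H] [NormedSpace ℂ H] [CompleteSpace H]
    (T : ℕ → H →L[ℂ] H) (hT : ∀ n, ‖T n‖ ≤ 1 / 2) (x : ℕ → H) (hx : DenseRange x)
    (hc : ∀ j, CauchySeq (fun n => T n (x j))) :
    ∃ S : H →L[ℂ] H, ‖S‖ ≤ 1 / 2 ∧ ∀ y, Tendsto (fun n => T n y) atTop (𝓝 (S y)) := by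
  have hTx : ∀ n y, ‖T n y‖ ≤ 1 / 2 * ‖y‖ := fun n y =>
    ((T n).le_opNorm y).trans (mul_le_mul_of_nonneg_right (hT n) (norm_nonneg _))
  have hcy : ∀ y, CauchySeq (fun n => T n y) := by
    intro y
    rw [Metric.cauchySeq_iff]
    intro δ hδ
    obtain ⟨j, hj⟩ := Metric.denseRange_iff.mp hx y (δ / 2) (half_pos hδ)
    obtain ⟨N, hN⟩ := Metric.cauchySeq_iff.mp (hc j) (δ / 2) (half_pos hδ)
    refine ⟨N, fun m hm n hn => ?_⟩
    have h1 := hN m hm n hn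
    rw [dist_eq_norm] at h1 hj ⊢
    have e : T m y - T n y = T m (y - x j) - T n (y - x j) + (T m (x j) - T n (x j)) := by
      rw [map_sub, map_sub]; abel
    rw [e]
    refine lt_of_le_of_lt (norm_add_le _ _) ?_
    have h2 := norm_sub_le (T m (y - x j)) (T n (y - x j))
    have h3 := hTx m (y - x j)
    have h4 := hTx n (y - x j)
    linarith
  choose g hg using fun y => cauchySeq_tendsto_of_complete (hcy y)
  have hgt : Tendsto (fun n y => T n y) atTop (𝓝 g) := tendsto_pi_nhds.mpr hg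
  refine ⟨continuousLinearMapOfTendsto T hgt, ?_, hg⟩
  apply ContinuousLinearMap.opNorm_le_bound _ (by norm_num)
  intro y
  exact le_of_tendsto (hg y).norm (Eventually.of_forall fun n => hTx n y)

section

variable {ω : ℝ} {A : ℕ → ℝ} {L : ℕ → List ℝ} {M : ℕ → ℕ}

lemma geom_tail_le (N n : ℕ) :
    ∑ k ∈ Finset.Ico N n, ((1:ℝ) / 2) ^ k ≤ 2 * (1 / 2) ^ N := by
  by_cases h : N ≤ n
  · have h1 : ∀ n, N ≤ n →
        ∑ k ∈ Finset.Ico N n, ((1:ℝ) / 2) ^ k = 2 * (1 / 2) ^ N - 2 * (1 / 2) ^ n := by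
      intro n hn
      induction n, hn using Nat.le_induction with
      | base => simp
      | succ n hn ih =>
        rw [Finset.sum_Ico_succ_top hn, ih, pow_succ]
        ring
    rw [h1 n h]
    have : (0:ℝ) < (1 / 2) ^ n := by positivity
    linarith
  · rw [Finset.Ico_eq_empty_of_le (by omega), Finset.sum_empty]
    positivity

lemma Scales.strong_limit (h : Scales ω A L M) :
    ∃ T : L2 ω →L[ℂ] L2 ω, ‖T‖ ≤ 1 / 2 ∧
      ∀ U, Tendsto (fun n => Tl ω (L n) U) atTop (𝓝 (T U)) := by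
  apply exists_strong_limit _ (fun n => (h.good n).norm.le) (dsq ω)
    (TopologicalSpace.denseRange_denseSeq _)
  intro j
  have hd : ∀ n, dist (Tl ω (L (n + (j + 1))) (dsq ω j)) (Tl ω (L (n + 1 + (j + 1))) (dsq ω j)) ≤
      1 * (1 / 2) ^ n := by
    intro n
    have e : n + 1 + (j + 1) = (n + (j + 1)) + 1 := by ring
    rw [dist_eq_norm, e, h.succ, Tl_cons, _root_.add_apply, sub_add_cancel_right, norm_neg]
    refine (h.K_small _ j (by omega)).trans ?_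
    rw [one_mul, pow_add]
    have h1 : ((1:ℝ) / 2) ^ (j + 1) ≤ 1 := pow_le_one₀ (by norm_num) (by norm_num)
    have h2 : (0:ℝ) < (1 / 2) ^ n := by positivity
    nlinarith
  have h1 : CauchySeq (fun n => Tl ω (L (n + (j + 1))) (dsq ω j)) :=
    cauchySeq_of_le_geometric (1 / 2) 1 (by norm_num) hd
  exact (cauchySeq_shift (j + 1)).mp h1

end

/-! ### Consequences of strong convergence -/

section

variable {ω : ℝ} {T : L2 ω →L[ℂ] L2 ω} {Tn : ℕ → L2 ω →L[ℂ] L2 ω}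

lemma tendsto_Us (hT : ‖T‖ ≤ 1 / 2) (hTn : ∀ n, ‖Tn n‖ ≤ 1 / 2)
    (hlim : ∀ U, Tendsto (fun n => Tn n U) atTop (𝓝 (T U))) {f : L2 ω} {fn : ℕ → L2 ω}
    (hf : Tendsto fn atTop (𝓝 f)) (ξ : ℝ) :
    Tendsto (fun n => Us (Tn n) ξ (fn n)) atTop (𝓝 (Us T ξ f)) := by
  rw [tendsto_iff_norm_sub_tendsto_zero]
  refine squeeze_zero (fun _ => norm_nonneg _)
    (fun n => norm_Us_sub_Us_le hT (hTn n) ξ f (fn n)) ?_
  have h1 := tendsto_iff_norm_sub_tendsto_zero.mp hf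
  have h2 := tendsto_iff_norm_sub_tendsto_zero.mp (hlim (Us T ξ f))
  have h3 := (h1.add h2).const_mul 2
  simpa using h3

lemma tendsto_VQ (hT : ‖T‖ ≤ 1 / 2) (hTn : ∀ n, ‖Tn n‖ ≤ 1 / 2)
    (hlim : ∀ U, Tendsto (fun n => Tn n U) atTop (𝓝 (T U))) (m : ℕ) :
    Tendsto (fun n => VQ (Tn n) m) atTop (𝓝 (VQ T m)) := by
  unfold VQ
  apply tendsto_finsetSum
  intro i _
  have h1 := tendsto_Us hT hTn hlim (tendsto_const_nhds (x := toL ω 1)) (pt ω m (i + 1))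
  have h2 := tendsto_Us hT hTn hlim (tendsto_const_nhds (x := toL ω 1)) (pt ω m i)
  exact ((h1.sub h2).norm).pow 2

end

section

variable {ω : ℝ} {A : ℕ → ℝ} {L : ℕ → List ℝ} {M : ℕ → ℕ} {T : L2 ω →L[ℂ] L2 ω}

lemma tendsto_opS (hlim : ∀ U, Tendsto (fun n => Tl ω (L n) U) atTop (𝓝 (T U))) (σ : ℂ) (U : L2 ω) :
    Tendsto (fun n => opS ω σ (L n) U) atTop (𝓝 ((σ • T) U)) := by
  unfold opS
  exact (hlim U).const_smul σ

/-- the quadratic variation of the limit is unbounded -/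
lemma Scales.VQ_ge (h : Scales ω A L M) (hT : ‖T‖ ≤ 1 / 2)
    (hlim : ∀ U, Tendsto (fun n => Tl ω (L n) U) atTop (𝓝 (T U))) (N : ℕ) :
    ω / 8 * ((26 / 25) ^ N) ^ 2 - 2 ≤ VQ (-T) (M N) := by
  have hT' : ‖(-1 : ℂ) • T‖ ≤ 1 / 2 := by rw [norm_smul, norm_neg_one_C, one_mul]; exact hT
  have hTn : ∀ n, ‖opS ω (-1) (L n)‖ ≤ 1 / 2 := fun n => by
    rw [norm_opS ω norm_neg_one_C]; exact (h.good n).norm.le
  have h1 := tendsto_VQ hT' hTn (fun U => tendsto_opS hlim (-1) U) (M N)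
  rw [neg_one_smul] at h1
  apply ge_of_tendsto h1
  filter_upwards [eventually_ge_atTop N] with n hn
  have h2 : ∀ n, N ≤ n → VQ (opS ω (-1) (L N)) (M N) - ∑ k ∈ Finset.Ico N n, ((1:ℝ) / 2) ^ k ≤
      VQ (opS ω (-1) (L n)) (M N) := by
    intro n hn
    induction n, hn using Nat.le_induction with
    | base => simp
    | succ n hn ih =>
      rw [Finset.sum_Ico_succ_top hn]
      have := (abs_le.mp (h.V_close n (M N) (h.mono hn))).1
      linarith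
  have h3 := h2 n hn
  have h4 := geom_tail_le N n
  have h5 : ((1:ℝ) / 2) ^ N ≤ 1 := pow_le_one₀ (by norm_num) (by norm_num)
  have h6 := h.vq N
  linarith

lemma Scales.VQ_unbounded (hω : 0 < ω) (h : Scales ω A L M) (hT : ‖T‖ ≤ 1 / 2)
    (hlim : ∀ U, Tendsto (fun n => Tl ω (L n) U) atTop (𝓝 (T U))) (C : ℝ) :
    ∃ m, C < VQ (-T) m := by
  have h1 : Tendsto (fun N : ℕ => ω / 8 * ((26 / 25 : ℝ) ^ N) ^ 2 - 2) atTop atTop := by
    apply tendsto_atTop_add_const_right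
    apply Tendsto.const_mul_atTop (by positivity)
    exact (tendsto_pow_atTop (by norm_num)).comp
      (tendsto_pow_atTop_atTop_of_one_lt (by norm_num))
  obtain ⟨N, hN⟩ := (h1.eventually (eventually_gt_atTop C)).exists
  exact ⟨M N, lt_of_lt_of_le hN (h.VQ_ge hT hlim N)⟩

/-- antisymmetry of the limit -/
lemma T_inner (hlim : ∀ U, Tendsto (fun n => Tl ω (L n) U) atTop (𝓝 (T U))) (U V : L2 ω) :
    inner ℂ (T U) V = - inner ℂ U (T V) := by
  have h1 : Tendsto (fun n => (inner ℂ (Tl ω (L n) U) V : ℂ)) atTop (𝓝 (inner ℂ (T U) V)) :=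
    (hlim U).inner tendsto_const_nhds
  have h2 : Tendsto (fun n => (inner ℂ U (Tl ω (L n) V) : ℂ)) atTop (𝓝 (inner ℂ U (T V))) :=
    tendsto_const_nhds.inner (hlim V)
  have h3 : (fun n => (inner ℂ (Tl ω (L n) U) V : ℂ)) = fun n => -inner ℂ U (Tl ω (L n) V) := by
    funext n
    exact Tl_inner ω (L n) U V
  rw [h3] at h1
  exact tendsto_nhds_unique h1 h2.neg

end

end Pool.Agent.Results.MP_8e7914_an.NoFactorization
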