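import Pool.Agent.Helper593.Fac12

open MeasureTheory Set Filter
open scoped ENNReal NNReal Topology Interval ComplexConjugate

namespace Pool.Agent.Results.MP_8e7914_an.NoFactorization

lemma exists_L1_limit {μ : Measure ℝ} (f : ℕ → ℝ → ℂ) (hf : ∀ n, Integrable (f n) μ)
    (hc : ∀ n, ∫ x, ‖f (n + 1) x - f n x‖ ∂μ ≤ (1 / 2) ^ n) :
    ∃ D : ℝ → ℂ, Integrable D μ ∧ (∀ᵐ x ∂μ, Tendsto (fun n => f n x) atTop (𝓝 (D x))) ∧
      Tendsto (fun n => ∫ x, ‖f n x - D x‖ ∂μ) atTop (𝓝 0) := by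
  have hi : ∀ n m, Integrable (fun x => ‖f n x - f m x‖) μ := fun n m =>
    ((hf n).sub (hf m)).norm
  -- closeness
  have h1 : ∀ N n, N ≤ n → ∫ x, ‖f n x - f N x‖ ∂μ ≤ ∑ k ∈ Finset.Ico N n, ((1:ℝ) / 2) ^ k := by
    intro N n hn
    induction n, hn using Nat.le_induction with
    | base => simp
    | succ n hn ih =>
      rw [Finset.sum_Ico_succ_top hn]
      have h2 : ∫ x, ‖f (n + 1) x - f N x‖ ∂μ ≤
          ∫ x, (‖f n x - f N x‖ + ‖f (n + 1) x - f n x‖) ∂μ := by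
        apply integral_mono (hi _ _) ((hi n N).add (hi (n + 1) n))
        intro x
        have : f (n + 1) x - f N x = (f n x - f N x) + (f (n + 1) x - f n x) := by ring
        simp only [Pi.add_apply]
        rw [this]
        exact norm_add_le _ _
      rw [integral_add (hi n N) (hi (n + 1) n)] at h2
      linarith [hc n]
  have h2 : ∀ N n m, N ≤ n → n ≤ m → ∫ x, ‖f m x - f n x‖ ∂μ ≤ 2 * (1 / 2) ^ N := by
    intro N n m hNn hnm
    refine (h1 n m hnm).trans ((geom_tail_le n m).trans ?_)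
    have : ((1:ℝ) / 2) ^ n ≤ (1 / 2) ^ N := pow_le_pow_of_le_one (by norm_num) (by norm_num) hNn
    linarith
  set B : ℕ → ℝ≥0∞ := fun N => ENNReal.ofReal (4 * (1 / 2) ^ N) with hB
  have hBsum : ∑' i, B i ≠ ∞ := by
    have hs : Summable (fun N : ℕ => 4 * ((1:ℝ) / 2) ^ N) :=
      (summable_geometric_of_lt_one (by norm_num) (by norm_num)).mul_left 4
    rw [hB, ← ENNReal.ofReal_tsum_of_nonneg (fun n => by positivity) hs]
    exact ENNReal.ofReal_ne_top
  have hlt : ∀ N : ℕ, 2 * ((1:ℝ) / 2) ^ N < 4 * (1 / 2) ^ N := by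
    intro N
    have : (0:ℝ) < (1 / 2) ^ N := by positivity
    linarith
  have heq : ∀ n m, eLpNorm (f n - f m) 1 μ = ENNReal.ofReal (∫ x, ‖f n x - f m x‖ ∂μ) := by
    intro n m
    rw [eLpNorm_one_eq_lintegral_enorm]
    exact (ofReal_integral_norm_eq_lintegral_enorm ((hf n).sub (hf m))).symm
  have h_cau : ∀ N n m : ℕ, N ≤ n → N ≤ m → eLpNorm (f n - f m) 1 μ < B N := by
    intro N n m hn hm
    rw [heq, hB]
    apply (ENNReal.ofReal_lt_ofReal_iff (by positivity)).mpr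
    rcases le_total m n with hmn | hmn
    · exact lt_of_le_of_lt (h2 N m n hm hmn) (hlt N)
    · have : ∫ x, ‖f n x - f m x‖ ∂μ = ∫ x, ‖f m x - f n x‖ ∂μ := by
        congr 1; funext x; exact norm_sub_rev _ _
      rw [this]
      exact lt_of_le_of_lt (h2 N n m hn hmn) (hlt N)
  obtain ⟨D, hDm, hDlim⟩ : ∃ D : ℝ → ℂ, StronglyMeasurable D ∧
      ∀ᵐ x ∂μ, Tendsto (fun n => f n x) atTop (𝓝 (D x)) :=
    exists_stronglyMeasurable_limit_of_tendsto_ae (fun n => (hf n).1)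
      (Lp.ae_tendsto_of_cauchy_eLpNorm (fun n => (hf n).1) le_rfl hBsum h_cau)
  have ht := Lp.cauchy_tendsto_of_tendsto (fun n => (hf n).1) D hBsum h_cau hDlim
  have hDmem : MemLp D 1 μ := Lp.memLp_of_cauchy_tendsto le_rfl
    (fun n => memLp_one_iff_integrable.mpr (hf n)) D hDm.aestronglyMeasurable ht
  have hDi : Integrable D μ := memLp_one_iff_integrable.mp hDmem
  refine ⟨D, hDi, hDlim, ?_⟩
  have ht2 := (ENNReal.tendsto_toReal ENNReal.zero_ne_top).comp ht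
  rw [ENNReal.toReal_zero] at ht2
  refine ht2.congr (fun n => ?_)
  simp only [Function.comp]
  have : ∫ x, ‖f n x - D x‖ ∂μ = ∫ x, ‖(f n - D) x‖ ∂μ := rfl
  rw [eLpNorm_one_eq_lintegral_enorm, this, integral_norm_eq_lintegral_enorm ((hf n).sub hDi).1]

section

variable {ω : ℝ} {A : ℕ → ℝ} {L : ℕ → List ℝ} {M : ℕ → ℕ} {T : L2 ω →L[ℂ] L2 ω}

lemma intervalIntegral_eq_mu {ω : ℝ} (hω : 0 < ω) (f : ℝ → ℂ) :
    ∫ x in (0:ℝ)..ω, ‖f x‖ = ∫ x, ‖f x‖ ∂(mu ω) := by
  rw [intervalIntegral.integral_of_le hω.le]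

lemma Scales.exists_D (hω : 0 < ω) (h : Scales ω A L M) (b b' : Bool) :
    ∃ D : ℝ → ℂ, Integrable D (mu ω) ∧
      (∀ᵐ x ∂(mu ω), Tendsto (fun n => Dm ω (L n) b b' x) atTop (𝓝 (D x))) ∧
      Tendsto (fun n => ∫ x, ‖Dm ω (L n) b b' x - D x‖ ∂(mu ω)) atTop (𝓝 0) := by
  apply exists_L1_limit
  · intro n
    have hc := continuous_Dm hω (h.good n).pos (h.good n).norm b b'
    have := hc.intervalIntegrable (μ := volume) 0 ω
    rwa [intervalIntegrable_iff_integrableOn_Ioc_of_le hω.le] at this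
  · intro n
    have := h.D_close n b b'
    rwa [intervalIntegral_eq_mu hω] at this

/-! ### The limits of the right-hand sides -/

/-- `τ(x) = ∑ max (0, 1 - |x|/a_n)` -/
noncomputable def Tau (A : ℕ → ℝ) (x : ℝ) : ℂ := ∑' n, tent (A n) x

/-- `M` for `σ = 1` and `N` for `σ = -1` -/
noncomputable def Mlim (σ : ℂ) (A : ℕ → ℝ) (x : ℝ) : ℂ := 1 / 2 - σ * (eps : ℂ) * Tau A x

lemma Scales.Mf_eq (h : Scales ω A L M) (σ : ℂ) (n : ℕ) (x : ℝ) :
    Mf σ (L n) x = 1 / 2 - σ * (eps : ℂ) * ∑ k ∈ Finset.range n, tent (A k) x := by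
  induction n with
  | zero =>
    rw [h.zero, Finset.sum_range_zero, mul_zero, sub_zero]
    rfl
  | succ n ih =>
    rw [h.succ, Finset.sum_range_succ]
    change (Mf σ (L n) - (σ * (eps : ℂ)) • tent (A n)) x = _
    rw [ContinuousMap.sub_apply, ContinuousMap.smul_apply, ih, smul_eq_mul]
    ring

lemma tent_eventually_zero (hA : ∀ n, 0 < A n) (hA' : ∀ n, A n ≤ (1 / 4) ^ n) {x : ℝ} (hx : x ≠ 0) :
    ∃ N, ∀ n, N ≤ n → tent (A n) x = 0 := by
  have h1 : Tendsto (fun n : ℕ => ((1:ℝ) / 4) ^ n) atTop (𝓝 0) :=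
    tendsto_pow_atTop_nhds_zero_of_lt_one (by norm_num) (by norm_num)
  obtain ⟨N, hN⟩ := eventually_atTop.mp (h1.eventually (gt_mem_nhds (abs_pos.mpr hx)))
  exact ⟨N, fun n hn => tent_eq_zero (hA n) ((hA' n).trans (hN n hn).le)⟩

lemma hasSum_tent (hA : ∀ n, 0 < A n) (hA' : ∀ n, A n ≤ (1 / 4) ^ n) {x : ℝ} (hx : x ≠ 0) :
    HasSum (fun n => tent (A n) x) (Tau A x) := by
  obtain ⟨N, hN⟩ := tent_eventually_zero hA hA' hx
  apply Summable.hasSum
  apply summable_of_ne_finset_zero (s := Finset.range N)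
  intro n hn
  exact hN n (by simpa using hn)

lemma Scales.Mf_tendsto (h : Scales ω A L M) (σ : ℂ) {x : ℝ} (hx : x ≠ 0) :
    Tendsto (fun n => Mf σ (L n) x) atTop (𝓝 (Mlim σ A x)) := by
  have h1 := (hasSum_tent h.Apos h.Ale hx).tendsto_sum_nat
  have h2 := (h1.const_mul (σ * (eps : ℂ))).const_sub (1 / 2)
  exact h2.congr fun n => (h.Mf_eq σ n x).symm

lemma sqrt_quarter_pow {a : ℝ} {n : ℕ} (ha' : a ≤ (1 / 4) ^ n) : √a ≤ (1 / 2) ^ n := by
  rw [show ((1:ℝ) / 4) ^ n = ((1 / 2) ^ n) ^ 2 by rw [← pow_mul, mul_comm, pow_mul]; norm_num] at ha'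
  exact Real.sqrt_le_iff.mpr ⟨by positivity, ha'⟩

lemma Scales.exists_Mlim (hω : 0 < ω) (h : Scales ω A L M) {σ : ℂ} (hσ : ‖σ‖ = 1) :
    ∃ g : L2 ω, (g : ℝ → ℂ) =ᵐ[mu ω] Mlim σ A ∧
      Tendsto (fun n => toL ω (Mf σ (L n))) atTop (𝓝 g) := by
  have hd : ∀ n, dist (toL ω (Mf σ (L n))) (toL ω (Mf σ (L (n + 1)))) ≤ 1 * (1 / 2) ^ n := by
    intro n
    have e : Mf σ (L (n + 1)) = Mf σ (L n) - (σ * (eps : ℂ)) • tent (A n) := by
      rw [h.succ]; rfl
    rw [dist_eq_norm, e, toL_sub, sub_sub_cancel, toL_smul, norm_smul, norm_sigma_eps hσ]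
    have h1 := norm_toL_tent_le hω (h.Apos n)
    have h2 := sqrt_quarter_pow (h.Ale n)
    have h3 := norm_nonneg (toL ω (tent (A n)))
    linarith
  obtain ⟨g, hg⟩ := cauchySeq_tendsto_of_complete
    (cauchySeq_of_le_geometric (1 / 2) 1 (by norm_num) hd)
  refine ⟨g, ?_, hg⟩
  have h1 := tendstoInMeasure_of_tendsto_Lp hg
  obtain ⟨ns, hns, h2⟩ := h1.exists_seq_tendsto_ae
  have h3 : ∀ᵐ x ∂(mu ω), ∀ n, (toL ω (Mf σ (L n)) : L2 ω) x = Mf σ (L n) x := by
    rw [ae_all_iff]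
    intro n
    exact toL_ae ω (Mf σ (L n))
  filter_upwards [h2, h3, ae_restrict_mem measurableSet_Ioc] with x h2 h3 hx
  have h4 := (h.Mf_tendsto σ hx.1.ne').comp hns.tendsto_atTop
  have h5 : Tendsto (fun i => (toL ω (Mf σ (L (ns i))) : L2 ω) x) atTop (𝓝 (Mlim σ A x)) :=
    h4.congr fun i => (h3 (ns i)).symm
  exact tendsto_nhds_unique h2 h5

lemma tendsto_pair {Un Vn : ℕ → L2 ω} {U V : L2 ω} (hU : Tendsto Un atTop (𝓝 U))
    (hV : Tendsto Vn atTop (𝓝 V)) : Tendsto (fun n => pair (Un n) (Vn n)) atTop (𝓝 (pair U V)) := by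
  rw [tendsto_iff_norm_sub_tendsto_zero]
  have h1 := tendsto_iff_norm_sub_tendsto_zero.mp hU
  have h2 := tendsto_iff_norm_sub_tendsto_zero.mp hV
  refine squeeze_zero (fun _ => norm_nonneg _)
    (g := fun n => ‖Un n - U‖ * ‖Vn n‖ + ‖U‖ * ‖Vn n - V‖) (fun n => ?_) ?_
  · have e : pair (Un n) (Vn n) - pair U V = pair (Un n - U) (Vn n) + pair U (Vn n - V) := by
      rw [pair_sub_left, pair_sub_right]; ring
    rw [e]
    exact (norm_add_le _ _).trans (add_le_add (norm_pair_le _ _) (norm_pair_le _ _))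
  · have := (h1.mul hV.norm).add (h2.const_mul ‖U‖)
    simpa using this

/-- the bilinear forms of the limit operator are primitives of `D` -/
lemma Scales.pair_eq (hω : 0 < ω) (h : Scales ω A L M) (hT : ‖T‖ ≤ 1 / 2)
    (hlim : ∀ U, Tendsto (fun n => Tl ω (L n) U) atTop (𝓝 (T U))) {b b' : Bool} {f g : L2 ω}
    (hf : Tendsto (fun n => toL ω (Gf 1 b (L n))) atTop (𝓝 f))
    (hg : Tendsto (fun n => toL ω (Gf (-1) b' (L n))) atTop (𝓝 g)) {D : ℝ → ℂ}
    (hD : Integrable D (mu ω))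
    (hDlim : Tendsto (fun n => ∫ x, ‖Dm ω (L n) b b' x - D x‖ ∂(mu ω)) atTop (𝓝 0))
    {ξ : ℝ} (h0 : 0 ≤ ξ) (hξ : ξ ≤ ω) :
    pair (Us T ξ f) g = ∫ x in (0:ℝ)..ξ, D x := by
  have hTn : ∀ n, ‖opS ω 1 (L n)‖ ≤ 1 / 2 := fun n => by
    rw [norm_opS ω norm_one_C]; exact (h.good n).norm.le
  have hlim' : ∀ U, Tendsto (fun n => opS ω 1 (L n) U) atTop (𝓝 (T U)) := by
    intro U
    have := tendsto_opS hlim 1 U
    rwa [one_smul] at this
  have h1 := tendsto_pair (tendsto_Us hT hTn hlim' hf ξ) hg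
  have h2 : ∀ n, pair (Us (opS ω 1 (L n)) ξ (toL ω (Gf 1 b (L n)))) (toL ω (Gf (-1) b' (L n))) =
      ∫ x in (0:ℝ)..ξ, Dm ω (L n) b b' x := fun n =>
    pair_eq_int hω (h.good n).pos (h.good n).norm _ _ h0 hξ
  have hcn : ∀ n, Continuous (Dm ω (L n) b b') := fun n =>
    continuous_Dm hω (h.good n).pos (h.good n).norm b b'
  have hDn : ∀ n, Integrable (Dm ω (L n) b b') (mu ω) := fun n => by
    have := (hcn n).intervalIntegrable (μ := volume) 0 ω
    rwa [intervalIntegrable_iff_integrableOn_Ioc_of_le hω.le] at this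
  have hsub : Ioc 0 ξ ⊆ Ioc 0 ω := Ioc_subset_Ioc_right hξ
  have h3 : Tendsto (fun n => ∫ x in (0:ℝ)..ξ, Dm ω (L n) b b' x) atTop
      (𝓝 (∫ x in (0:ℝ)..ξ, D x)) := by
    rw [tendsto_iff_norm_sub_tendsto_zero]
    refine squeeze_zero (fun _ => norm_nonneg _) (fun n => ?_) hDlim
    have i1 : IntegrableOn (Dm ω (L n) b b') (Ioc 0 ξ) volume :=
      (show IntegrableOn (Dm ω (L n) b b') (Ioc 0 ω) volume from hDn n).mono_set hsub
    have i2 : IntegrableOn D (Ioc 0 ξ) volume :=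
      (show IntegrableOn D (Ioc 0 ω) volume from hD).mono_set hsub
    rw [intervalIntegral.integral_of_le h0, intervalIntegral.integral_of_le h0,
      ← integral_sub i1 i2]
    refine (norm_integral_le_integral_norm _).trans ?_
    exact setIntegral_mono_set (μ := volume) (s := Ioc 0 ξ) (t := Ioc 0 ω) ((hDn n).sub hD).norm
      (Eventually.of_forall fun x => norm_nonneg _) hsub.eventuallyLE
  exact tendsto_nhds_unique (h1.congr h2) h3

/-- the limit densities have rank one -/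
lemma Scales.det_ae (h : Scales ω A L M) {D : Bool → Bool → ℝ → ℂ}
    (hD : ∀ b b', ∀ᵐ x ∂(mu ω), Tendsto (fun n => Dm ω (L n) b b' x) atTop (𝓝 (D b b' x))) :
    ∀ᵐ x ∂(mu ω), D true true x * D false false x = D true false x * D false true x ∧
      D false false x ≠ 0 := by
  filter_upwards [hD true true, hD false false, hD true false, hD false true,
    ae_restrict_mem measurableSet_Ioc] with x h1 h2 h3 h4 hx
  constructor
  · have h5 : ∀ n, Dm ω (L n) true true x * Dm ω (L n) false false x =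
        Dm ω (L n) true false x * Dm ω (L n) false true x := by
      intro n
      unfold Dm
      ring
    exact tendsto_nhds_unique ((h1.mul h2).congr h5) (h3.mul h4)
  · have h6 : 1 / 4 ≤ ‖D false false x‖ := by
      apply ge_of_tendsto h2.norm
      refine Eventually.of_forall fun n => ?_
      have := (h.good n).det x hx
      have h7 : (0:ℝ) < 1 / 4 * (1 / 2) ^ (L n).length := by positivity
      linarith
    intro h0
    rw [h0, norm_zero] at h6
    norm_num at h6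

end

end Pool.Agent.Results.MP_8e7914_an.NoFactorization
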