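import Pool.Agent.Helper593.Fac13

open MeasureTheory Set Filter
open scoped ENNReal NNReal Topology Interval ComplexConjugate

namespace Pool.Agent.Results.MP_8e7914_an.NoFactorization

/-! ### Primitives of integrable functions -/

lemma primitive_facts {ω : ℝ} (hω : 0 < ω) {g F : ℝ → ℂ} {c : ℂ} (hg : Integrable g (mu ω))
    (hF : ∀ x ∈ Icc 0 ω, F x = c + ∫ t in (0:ℝ)..x, g t) :
    AbsolutelyContinuousOnInterval F 0 ω ∧ ∀ᵐ x ∂(mu ω), HasDerivAt F (g x) x := by
  have hgi : IntervalIntegrable g volume 0 ω := by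
    rw [intervalIntegrable_iff_integrableOn_Ioc_of_le hω.le]; exact hg
  constructor
  · have hG := hgi.norm.absolutelyContinuousOnInterval_intervalIntegral (c := 0)
      (by rw [uIcc_of_le hω.le]; exact ⟨le_rfl, hω.le⟩)
    unfold AbsolutelyContinuousOnInterval at hG ⊢
    refine squeeze_zero' (Eventually.of_forall fun E =>
      Finset.sum_nonneg fun i _ => dist_nonneg) ?_ hG
    filter_upwards [show ∀ᶠ E in (AbsolutelyContinuousOnInterval.totalLengthFilter ⊓
      𝓟 (AbsolutelyContinuousOnInterval.disjWithin 0 ω)),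
        E ∈ AbsolutelyContinuousOnInterval.disjWithin 0 ω from
        eventually_inf_principal.mpr (by simp)] with E hE
    apply Finset.sum_le_sum
    intro i hi
    obtain ⟨h1, h2⟩ := hE.1 i hi
    set u := (E.2 i).1
    set v := (E.2 i).2
    have hmono : ∀ {u v : ℝ}, u ∈ uIcc 0 ω → v ∈ uIcc 0 ω → IntervalIntegrable g volume u v :=
      fun hu hv => hgi.mono_set (uIcc_subset_uIcc hu hv)
    have h0 : (0:ℝ) ∈ uIcc 0 ω := by rw [uIcc_of_le hω.le]; exact ⟨le_rfl, hω.le⟩
    have e1 : F u - F v = ∫ t in v..u, g t := by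
      rw [hF u (by rwa [uIcc_of_le hω.le] at h1), hF v (by rwa [uIcc_of_le hω.le] at h2),
        ← intervalIntegral.integral_interval_sub_left (hmono h0 h1) (hmono h0 h2)]
      ring
    have e2 : (∫ t in (0:ℝ)..u, ‖g t‖) - (∫ t in (0:ℝ)..v, ‖g t‖) = ∫ t in v..u, ‖g t‖ :=
      intervalIntegral.integral_interval_sub_left (hmono h0 h1).norm (hmono h0 h2).norm
    rw [dist_eq_norm, e1, Real.dist_eq, e2]
    exact intervalIntegral.norm_integral_le_abs_integral_norm
  · have h1 := hgi.ae_hasDerivAt_integral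
    unfold mu
    rw [ae_restrict_iff' measurableSet_Ioc]
    have hne : ∀ᵐ x : ℝ, x ≠ ω := by simp [ae_iff, measure_singleton]
    filter_upwards [h1, hne] with x hx hxω hx2
    have hx3 : x ∈ Ioo 0 ω := ⟨hx2.1, lt_of_le_of_ne hx2.2 hxω⟩
    have h2 := hx (by rw [uIcc_of_le hω.le]; exact ⟨hx2.1.le, hx2.2⟩) 0
      (by rw [uIcc_of_le hω.le]; exact ⟨le_rfl, hω.le⟩)
    have h3 := h2.const_add c
    refine h3.congr_of_eventuallyEq ?_
    filter_upwards [Ioo_mem_nhds hx3.1 hx3.2] with y hy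
    exact hF y ⟨hy.1.le, hy.2.le⟩

/-! ### The single-scale kernel -/

lemma integral_indicator_window {x : ℝ} {u v : ℝ} (huv : u ≤ v) :
    ∫ s in u..v, (Ioc 0 x).indicator (fun _ => (1 : ℂ)) s =
      ((max 0 (min v x - max u 0) : ℝ) : ℂ) := by
  rw [intervalIntegral.integral_of_le huv, setIntegral_indicator measurableSet_Ioc,
    setIntegral_const, Ioc_inter_Ioc, Real.volume_real_Ioc]
  simp [max_comm]

lemma window_identity {a x t : ℝ} (ha : 0 < a) (hx : 0 ≤ x) :
    max 0 (min t x - max (t - a) 0) - max 0 (min (t + a) x - max t 0) =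
      max 0 (a - |t - x|) - max 0 (a - |t|) := by
  rcases abs_cases (t - x) with ⟨h1, h2⟩ | ⟨h1, h2⟩ <;>
  rcases abs_cases t with ⟨h3, h4⟩ | ⟨h3, h4⟩ <;>
  rw [h1, h3] <;>
  simp only [max_def, min_def] <;>
  split_ifs <;> linarith

lemma KK_indicator {a x : ℝ} (ha : 0 < a) (hx : 0 ≤ x) (t : ℝ) :
    KK a ((Ioc 0 x).indicator (fun _ => (1 : ℂ))) t =
      (eps : ℂ) * (tent a (x - t) - tent a (0 - t)) := by
  unfold KK
  rw [integral_indicator_window (by linarith), integral_indicator_window (by linarith),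
    tent_apply, tent_apply, zero_sub, abs_neg, abs_sub_comm]
  have h := window_identity (t := t) ha hx
  have h1 : ∀ y : ℝ, a * max 0 (1 - |y| / a) = max 0 (a - |y|) := by
    intro y
    rw [mul_max_of_nonneg _ _ ha.le, mul_zero]
    congr 1
    field_simp
  rw [← h1, ← h1] at h
  have h2 : ((max 0 (min t x - max (t - a) 0) : ℝ) : ℂ) -
      ((max 0 (min (t + a) x - max t 0) : ℝ) : ℂ) =
      (a : ℂ) * (((max 0 (1 - |t - x| / a) : ℝ) : ℂ) - ((max 0 (1 - |t| / a) : ℝ) : ℂ)) := by
    rw [← Complex.ofReal_sub, h]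
    push_cast
    ring
  rw [h2]
  have ha' : (a : ℂ) ≠ 0 := by exact_mod_cast ha.ne'
  push_cast
  field_simp

/-- the convolution with a tent -/
noncomputable def Jt {ω : ℝ} (a : ℝ) (f : L2 ω) (x : ℝ) : ℂ :=
  ∫ t, tent a (x - t) * f t ∂(mu ω)

lemma integrable_tent_mul {ω : ℝ} {a : ℝ} (ha : 0 < a) (f : L2 ω) (x : ℝ) :
    Integrable (fun t => tent a (x - t) * f t) (mu ω) := by
  apply (coe_integrable f).bdd_mul (c := 1)
  · exact ((tent a).continuous.comp (continuous_const.sub continuous_id)).aestronglyMeasurable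
  · exact Eventually.of_forall fun t => norm_tent_le ha _

lemma integral_KK_eq {ω : ℝ} {a : ℝ} (ha : 0 < a) (f : L2 ω) {x : ℝ} (hx : 0 ≤ x) :
    ∫ y in (0:ℝ)..x, KK a (ext f) y = - (eps : ℂ) * (Jt a f x - Jt a f 0) := by
  have h1 : ∫ y in (0:ℝ)..x, KK a (ext f) y =
      ∫ y, KK a (ext f) y * (Ioc 0 x).indicator (fun _ => (1 : ℂ)) y := by
    rw [intervalIntegral.integral_of_le hx, ← integral_indicator measurableSet_Ioc]
    congr 1
    funext y
    by_cases hy : y ∈ Ioc 0 x <;> simp [hy]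
  have hi : Integrable ((Ioc 0 x).indicator (fun _ => (1 : ℂ))) := by
    rw [integrable_indicator_iff measurableSet_Ioc]
    exact integrableOn_const (by rw [Real.volume_Ioc]; exact ENNReal.ofReal_ne_top)
  rw [h1, integral_KK_mul ha (ext_integrable f) hi]
  have h2 : ∫ t, ext f t * KK a ((Ioc 0 x).indicator (fun _ => (1 : ℂ))) t =
      ∫ t, ((eps : ℂ) * (tent a (x - t) - tent a (0 - t))) * ext f t := by
    congr 1
    funext t
    rw [KK_indicator ha hx, mul_comm]
  rw [h2, integral_mul_ext]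
  unfold Jt
  rw [← integral_sub (integrable_tent_mul ha f x) (integrable_tent_mul ha f 0),
    ← integral_const_mul, ← integral_neg]
  congr 1
  funext t
  ring

/-- `L¹` bound for the convolution integrand -/
lemma integral_norm_tent_mul_le {ω : ℝ} {a : ℝ} (ha : 0 < a) (f : L2 ω) (x : ℝ) :
    ∫ t, ‖tent a (x - t) * f t‖ ∂(mu ω) ≤ √(2 * a) * ‖f‖ := by
  have h0 : ENNReal.ofReal (∫ t, ‖tent a (x - t) * f t‖ ∂(mu ω)) ≤
      ENNReal.ofReal (√(2 * a) * ‖f‖) := by
    rw [ofReal_integral_norm_eq_lintegral_enorm (integrable_tent_mul ha f x)]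
    have h1 : ∫⁻ t, ‖tent a (x - t) * f t‖ₑ ∂(mu ω) ≤ ∫⁻ t in Icc (x - a) (x + a), ‖ext f t‖ₑ := by
      rw [← lintegral_indicator measurableSet_Icc, ← lintegral_indicator measurableSet_Ioc]
      apply lintegral_mono
      intro t
      by_cases ht : t ∈ Ioc 0 ω
      · rw [indicator_of_mem ht]
        by_cases ht2 : t ∈ Icc (x - a) (x + a)
        · rw [indicator_of_mem ht2]
          unfold ext
          rw [indicator_of_mem ht, enorm_mul]
          have h3 : ‖tent a (x - t)‖ₑ ≤ 1 := by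
            rw [← ofReal_norm]
            exact ENNReal.ofReal_le_one.mpr (norm_tent_le ha _)
          calc _ ≤ 1 * ‖f t‖ₑ := by gcongr
            _ = _ := one_mul _
        · rw [indicator_of_notMem ht2, tent_eq_zero ha]
          · simp
          · by_contra hcon
            rw [not_le, abs_lt] at hcon
            exact ht2 ⟨by linarith [hcon.2], by linarith [hcon.1]⟩
      · rw [indicator_of_notMem ht]; exact zero_le
    refine h1.trans ?_
    have h2 := sq_lintegral_le (Icc (x - a) (x + a)) (ext_memLp f).1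
    have h3 : ∫⁻ t in Icc (x - a) (x + a), ‖ext f t‖ₑ ^ 2 ≤ ‖f‖ₑ ^ 2 := by
      rw [← lintegral_ext_sq]; exact setLIntegral_le_lintegral _ _
    have h4 : (∫⁻ t in Icc (x - a) (x + a), ‖ext f t‖ₑ) ^ 2 ≤
        (ENNReal.ofReal (√(2 * a) * ‖f‖)) ^ 2 := by
      refine h2.trans ?_
      rw [Real.volume_Icc, ENNReal.ofReal_mul (by positivity), mul_pow]
      have e1 : ENNReal.ofReal √(2 * a) ^ 2 = ENNReal.ofReal (x + a - (x - a)) := by
        rw [← ENNReal.ofReal_pow (by positivity), Real.sq_sqrt (by positivity)]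
        congr 1; ring
      rw [e1, ofReal_norm]
      gcongr
    exact (ENNReal.pow_le_pow_left_iff two_ne_zero).mp h4
  exact (ENNReal.ofReal_le_ofReal_iff (by positivity)).mp h0

/-- The kernel `s`. -/
noncomputable def sker (A : ℕ → ℝ) (x : ℝ) : ℂ :=
  1 / 2 * ((Real.sign x : ℝ) : ℂ) - (eps : ℂ) * Tau A x

section

variable {ω : ℝ} {A : ℕ → ℝ} {L : ℕ → List ℝ} {M : ℕ → ℕ} {T : L2 ω →L[ℂ] L2 ω}

lemma summable_sqrt (hA' : ∀ n, A n ≤ (1 / 4) ^ n) (c : ℝ) :
    Summable (fun n => √(2 * A n) * c) := by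
  apply Summable.mul_right
  apply Summable.of_nonneg_of_le (fun n => Real.sqrt_nonneg _) (f := fun n => √2 * (1 / 2) ^ n)
  · intro n
    rw [Real.sqrt_mul (by norm_num)]
    exact mul_le_mul_of_nonneg_left (sqrt_quarter_pow (hA' n)) (Real.sqrt_nonneg _)
  · exact (summable_geometric_of_lt_one (by norm_num) (by norm_num)).mul_left _

lemma tau_integrable (hA : ∀ n, 0 < A n) (hA' : ∀ n, A n ≤ (1 / 4) ^ n) (f : L2 ω) (x : ℝ) :
    Integrable (fun t => Tau A (x - t) * f t) (mu ω) ∧
      HasSum (fun n => Jt (A n) f x) (∫ t, Tau A (x - t) * f t ∂(mu ω)) := by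
  have hs : Summable (fun n => ∫ t, ‖tent (A n) (x - t) * f t‖ ∂(mu ω)) := by
    apply Summable.of_nonneg_of_le (fun n => integral_nonneg fun t => norm_nonneg _)
      (fun n => integral_norm_tent_mul_le (hA n) f x) (summable_sqrt hA' ‖f‖)
  have h1 := hasSum_integral_of_summable_integral_norm
    (fun n => integrable_tent_mul (hA n) f x) hs
  have hne : ∀ᵐ t ∂(mu ω), t ≠ x := by
    apply ae_restrict_of_ae
    simp [ae_iff, measure_singleton]
  have h2 : (fun t => ∑' n, tent (A n) (x - t) * f t) =ᵐ[mu ω] fun t => Tau A (x - t) * f t := by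
    filter_upwards [hne] with t ht
    exact ((hasSum_tent hA hA' (sub_ne_zero.mpr ht.symm)).mul_right (f t)).tsum_eq
  have h3 : ∫ t, ∑' n, tent (A n) (x - t) * f t ∂(mu ω) = ∫ t, Tau A (x - t) * f t ∂(mu ω) :=
    integral_congr_ae h2
  refine ⟨?_, by rw [← h3]; exact h1⟩
  -- integrability
  refine Integrable.congr ?_ h2
  refine ⟨?_, ?_⟩
  · apply AEStronglyMeasurable.congr _ h2.symm
    have hm : ∀ n, AEStronglyMeasurable (fun t => tent (A n) (x - t) * f t) (mu ω) := fun n =>
      (integrable_tent_mul (hA n) f x).1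
    refine aestronglyMeasurable_of_tendsto_ae atTop
      (f := fun N t => ∑ n ∈ Finset.range N, tent (A n) (x - t) * f t) ?_ ?_
    · intro N
      exact Finset.aestronglyMeasurable_fun_sum _ (fun n _ => hm n)
    · filter_upwards [hne] with t ht
      exact ((hasSum_tent hA hA' (sub_ne_zero.mpr ht.symm)).mul_right (f t)).tendsto_sum_nat
  · rw [hasFiniteIntegral_iff_enorm]
    calc ∫⁻ t, ‖∑' n, tent (A n) (x - t) * f t‖ₑ ∂(mu ω)
        ≤ ∫⁻ t, ∑' n, ‖tent (A n) (x - t) * f t‖ₑ ∂(mu ω) := by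
          apply lintegral_mono
          intro t
          exact enorm_tsum_le_tsum_enorm
      _ = ∑' n, ∫⁻ t, ‖tent (A n) (x - t) * f t‖ₑ ∂(mu ω) :=
          lintegral_tsum fun n => (integrable_tent_mul (hA n) f x).1.enorm
      _ = ∑' n, ENNReal.ofReal (∫ t, ‖tent (A n) (x - t) * f t‖ ∂(mu ω)) := by
          congr 1
          funext n
          exact (ofReal_integral_norm_eq_lintegral_enorm (integrable_tent_mul (hA n) f x)).symm
      _ < ∞ := by
          rw [← ENNReal.ofReal_tsum_of_nonneg (fun n => integral_nonneg fun t => norm_nonneg _) hs]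
          exact ENNReal.ofReal_lt_top

lemma sign_integrable (f : L2 ω) (x : ℝ) :
    Integrable (fun t => (1 / 2 * ((Real.sign (x - t) : ℝ) : ℂ)) * f t) (mu ω) := by
  apply (coe_integrable f).bdd_mul (c := 1)
  · apply Measurable.aestronglyMeasurable
    apply Measurable.const_mul
    apply Complex.measurable_ofReal.comp
    have : Measurable Real.sign := by
      unfold Real.sign
      exact Measurable.ite measurableSet_Iio measurable_const
        (Measurable.ite measurableSet_Ioi measurable_const measurable_const)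
    exact this.comp (measurable_const.sub measurable_id)
  · apply Eventually.of_forall
    intro t
    rcases Real.sign_apply_eq (x - t) with h | h | h <;> rw [h] <;> norm_num

lemma sign_part (f : L2 ω) {x : ℝ} (hx : x ∈ Icc 0 ω) :
    ∫ t, (1 / 2 * ((Real.sign (x - t) : ℝ) : ℂ)) * f t ∂(mu ω) -
      ∫ t, (1 / 2 * ((Real.sign (0 - t) : ℝ) : ℂ)) * f t ∂(mu ω) = ∫ t in (0:ℝ)..x, f t := by
  rw [← integral_sub (sign_integrable f x) (sign_integrable f 0),
    intervalIntegral.integral_of_le hx.1]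
  have h1 : ∫ t in Ioc 0 x, f t = ∫ t, (Ioc 0 x).indicator (f : ℝ → ℂ) t ∂(mu ω) := by
    rw [integral_indicator measurableSet_Ioc]
    unfold mu
    rw [Measure.restrict_restrict measurableSet_Ioc, inter_eq_left.mpr]
    exact Ioc_subset_Ioc_right hx.2
  rw [h1]
  apply integral_congr_ae
  have hne : ∀ᵐ t ∂(mu ω), t ≠ x := by
    apply ae_restrict_of_ae
    simp [ae_iff, measure_singleton]
  filter_upwards [hne, ae_restrict_mem measurableSet_Ioc] with t ht ht2
  have e0 : Real.sign (0 - t) = -1 := Real.sign_of_neg (by linarith [ht2.1])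
  rw [e0]
  rcases lt_or_gt_of_ne ht with h | h
  · rw [Real.sign_of_pos (by linarith), indicator_of_mem (s := Ioc 0 x) ⟨ht2.1, h.le⟩]
    push_cast; ring
  · rw [Real.sign_of_neg (by linarith), indicator_of_notMem (fun h' => not_lt.mpr h'.2 h)]
    push_cast; ring

lemma sker_integrable (hA : ∀ n, 0 < A n) (hA' : ∀ n, A n ≤ (1 / 4) ^ n) (f : L2 ω) (x : ℝ) :
    Integrable (fun t => sker A (x - t) * f t) (mu ω) := by
  have h1 := (sign_integrable f x).sub (((tau_integrable hA hA' f x).1).const_mul (eps : ℂ))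
  refine h1.congr (Eventually.of_forall fun t => ?_)
  simp only [Pi.sub_apply]
  unfold sker
  ring

lemma sker_integral (hA : ∀ n, 0 < A n) (hA' : ∀ n, A n ≤ (1 / 4) ^ n) (f : L2 ω) (x : ℝ) :
    ∫ t, sker A (x - t) * f t ∂(mu ω) =
      ∫ t, (1 / 2 * ((Real.sign (x - t) : ℝ) : ℂ)) * f t ∂(mu ω) -
        (eps : ℂ) * ∫ t, Tau A (x - t) * f t ∂(mu ω) := by
  rw [← integral_const_mul, ← integral_sub (sign_integrable f x)
    (((tau_integrable hA hA' f x).1).const_mul (eps : ℂ))]
  congr 1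
  funext t
  unfold sker
  ring

/-- the functional `U ↦ ∫_0^x U` -/
lemma integral_eq_pair (U : L2 ω) {x : ℝ} (hx : x ∈ Icc 0 ω) :
    ∫ t in (0:ℝ)..x, U t = pair U (proj ω x (toL ω 1)) := by
  unfold pair
  rw [intervalIntegral.integral_of_le hx.1]
  have h1 : ∫ t in Ioc 0 x, U t = ∫ t, (Ioc 0 x).indicator (U : ℝ → ℂ) t ∂(mu ω) := by
    rw [integral_indicator measurableSet_Ioc]
    unfold mu
    rw [Measure.restrict_restrict measurableSet_Ioc, inter_eq_left.mpr]
    exact Ioc_subset_Ioc_right hx.2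
  rw [h1]
  apply integral_congr_ae
  filter_upwards [proj_ae ω x (toL ω 1), toL_ae ω 1, ae_restrict_mem measurableSet_Ioc]
    with t h2 h3 h4
  rw [h2]
  by_cases h : t ≤ x
  · rw [indicator_of_mem (s := Ioc 0 x) ⟨h4.1, h⟩, indicator_of_mem (s := Icc 0 x) ⟨h4.1.le, h⟩, h3]
    simp
  · rw [indicator_of_notMem (s := Ioc 0 x) (fun h' => h h'.2),
      indicator_of_notMem (s := Icc 0 x) (fun h' => h h'.2), mul_zero]

lemma Scales.integral_Tl (h : Scales ω A L M) (f : L2 ω) {x : ℝ} (hx : x ∈ Icc 0 ω) (n : ℕ) :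
    ∫ t in (0:ℝ)..x, Tl ω (L n) f t =
      ∑ k ∈ Finset.range n, (- (eps : ℂ) * (Jt (A k) f x - Jt (A k) f 0)) := by
  induction n with
  | zero =>
    rw [h.zero, Finset.sum_range_zero, Tl_nil, integral_eq_pair _ hx, _root_.zero_apply,
      pair_zero_left]
  | succ n ih =>
    rw [h.succ, Finset.sum_range_succ, Tl_cons, integral_eq_pair _ hx, _root_.add_apply,
      pair_add_left, ← integral_eq_pair _ hx, ← integral_eq_pair _ hx, ih, add_comm]
    congr 1
    rw [← integral_KK_eq (h.Apos n) f hx.1, intervalIntegral.integral_of_le hx.1,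
      intervalIntegral.integral_of_le hx.1]
    apply integral_congr_ae
    exact ae_restrict_of_ae_restrict_of_subset (Ioc_subset_Ioc_right hx.2) (Kop_ae (h.Apos n) f)

/-- **The limit operator is of convolution type.** -/
lemma Scales.conv (h : Scales ω A L M)
    (hlim : ∀ U, Tendsto (fun n => Tl ω (L n) U) atTop (𝓝 (T U))) (f : L2 ω) {x : ℝ}
    (hx : x ∈ Icc 0 ω) :
    ∫ t, sker A (x - t) * f t ∂(mu ω) = (∫ t, sker A (0 - t) * f t ∂(mu ω)) +
      ∫ t in (0:ℝ)..x, ((1 + T) f : L2 ω) t := by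
  have h1 := (tau_integrable h.Apos h.Ale f x).2
  have h2 := (tau_integrable h.Apos h.Ale f 0).2
  have h3 := ((h1.sub h2).mul_left (- (eps : ℂ))).tendsto_sum_nat
  have h4 : Tendsto (fun n => ∫ t in (0:ℝ)..x, Tl ω (L n) f t) atTop
      (𝓝 (∫ t in (0:ℝ)..x, T f t)) := by
    rw [integral_eq_pair _ hx]
    have := tendsto_pair (hlim f) (tendsto_const_nhds (x := proj ω x (toL ω 1)))
    exact this.congr fun n => (integral_eq_pair _ hx).symm
  have h5 := tendsto_nhds_unique (h4.congr fun n => h.integral_Tl f hx n) h3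
  have h6 : ∫ t in (0:ℝ)..x, ((1 + T) f : L2 ω) t =
      (∫ t in (0:ℝ)..x, f t) + ∫ t in (0:ℝ)..x, T f t := by
    rw [integral_eq_pair _ hx, integral_eq_pair f hx, integral_eq_pair _ hx, ← pair_add_left]
    rfl
  rw [h6, h5, sker_integral h.Apos h.Ale, sker_integral h.Apos h.Ale, ← sign_part f hx]
  ring

end

end Pool.Agent.Results.MP_8e7914_an.NoFactorization
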