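import Pool.Agent.Helper593.Fac14

open MeasureTheory Set Filter
open scoped ENNReal NNReal Topology Interval ComplexConjugate

namespace Pool.Agent.Results.MP_8e7914_an.NoFactorization

/-! ## The notions of the problem

Here `mu ω` is Lebesgue measure on `(0, ω]`, `L2 ω = Lp ℂ 2 (mu ω)` is complex `L²(0, ω)` and
`proj ω ξ` is the projection `P_ξ f = χ_{[0, ξ]} f`. -/

/-- `T` is upper triangular: `T P_ξ = P_ξ T P_ξ` for every `ξ ∈ [0, ω]`. -/
def UpperTriL {ω : ℝ} (T : L2 ω →L[ℂ] L2 ω) : Prop :=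
  ∀ ξ ∈ Icc 0 ω, T ∘L proj ω ξ = proj ω ξ ∘L T ∘L proj ω ξ

/-- `T` is lower triangular: its adjoint is upper triangular. -/
def LowerTriL {ω : ℝ} (T : L2 ω →L[ℂ] L2 ω) : Prop :=
  UpperTriL (ContinuousLinearMap.adjoint T)

/-- `S = S₋ S₊` with `S₊, S₊⁻¹` bounded and upper triangular and `S₋, S₋⁻¹` bounded and lower
triangular (`Smi`, `Spi` are the inverses of `Sm`, `Sp`). -/
def HasLeftFacL {ω : ℝ} (S : L2 ω →L[ℂ] L2 ω) : Prop :=
  ∃ Sm Smi Sp Spi : L2 ω →L[ℂ] L2 ω,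
    Sm ∘L Smi = 1 ∧ Smi ∘L Sm = 1 ∧ Sp ∘L Spi = 1 ∧ Spi ∘L Sp = 1 ∧
    LowerTriL Sm ∧ LowerTriL Smi ∧ UpperTriL Sp ∧ UpperTriL Spi ∧
    S = Sm ∘L Sp

/-- `S` is the convolution-type operator `(S f)(x) = d/dx ∫_0^ω s(x - t) f(t) dt`: for every
`f ∈ L²(0, ω)` the integral exists for every `x ∈ [0, ω]`, is an absolutely continuous function of
`x ∈ [0, ω]`, and has derivative `(S f)(x)` for almost every `x ∈ (0, ω)`. -/
def IsConvL {ω : ℝ} (s : ℝ → ℂ) (S : L2 ω →L[ℂ] L2 ω) : Prop :=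
  ∀ f : L2 ω, (∀ x ∈ Icc 0 ω, Integrable (fun t => s (x - t) * f t) (mu ω)) ∧
    AbsolutelyContinuousOnInterval (fun x => ∫ t, s (x - t) * f t ∂(mu ω)) 0 ω ∧
    ∀ᵐ x ∂(mu ω), HasDerivAt (fun x => ∫ t, s (x - t) * f t ∂(mu ω)) (S f x) x

/-- `R` is the inverse of `S_ξ = P_ξ S P_ξ` on `L²(0, ξ)`, the range of `P_ξ` (extended by zero to
the kernel of `P_ξ`). -/
def IsInvL {ω : ℝ} (S : L2 ω →L[ℂ] L2 ω) (ξ : ℝ) (R : L2 ω →L[ℂ] L2 ω) : Prop :=
  R = proj ω ξ ∘L R ∘L proj ω ξ ∧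
    (proj ω ξ ∘L S ∘L proj ω ξ) ∘L R = proj ω ξ ∧
    R ∘L (proj ω ξ ∘L S ∘L proj ω ξ) = proj ω ξ

/-- The matrix `B(ξ)`, where `R ξ = S_ξ⁻¹`, `u_ξ = R ξ M`, `v_ξ = R ξ 1` (`E` is the constant
function `1` as an element of `L²(0, ω)`). -/
noncomputable def BmatL {ω : ℝ} (R : ℝ → (L2 ω →L[ℂ] L2 ω)) (M N E : L2 ω) (ξ : ℝ) :
    Matrix (Fin 2) (Fin 2) ℂ :=
  !![∫ x in (0:ℝ)..ξ, R ξ M x, ∫ x in (0:ℝ)..ξ, R ξ M x * N x;
     ∫ x in (0:ℝ)..ξ, R ξ E x, ∫ x in (0:ℝ)..ξ, R ξ E x * N x]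

/-- Condition (***) for the convolution-type operator `S` with kernel `s`: the functions
`M(x) = s(x)` and `N(x) = -s(-x)` lie in `L²(0, ω)`, each `S_ξ` (`0 ≤ ξ ≤ ω`) is invertible on
`L²(0, ξ)`, the matrix function `B` is absolutely continuous on `[0, ω]`, and its derivative exists
and has rank exactly `1` almost everywhere on `(0, ω)`. -/
def CondL {ω : ℝ} (s : ℝ → ℂ) (S : L2 ω →L[ℂ] L2 ω) : Prop :=
  ∃ (M N E : L2 ω) (R : ℝ → (L2 ω →L[ℂ] L2 ω)),
    (∀ᵐ x ∂(mu ω), M x = s x) ∧ (∀ᵐ x ∂(mu ω), N x = - s (-x)) ∧ (∀ᵐ x ∂(mu ω), E x = 1) ∧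
    (∀ ξ ∈ Icc 0 ω, IsInvL S ξ (R ξ)) ∧
    (∀ i j, AbsolutelyContinuousOnInterval (fun ξ => BmatL R M N E ξ i j) 0 ω) ∧
    ∀ᵐ x ∂(mu ω), ∃ B' : Matrix (Fin 2) (Fin 2) ℂ,
      (∀ i j, HasDerivAt (fun ξ => BmatL R M N E ξ i j) (B' i j) x) ∧ B'.rank = 1

/-! ## Proofs -/

/-- the inverse of the compression -/
noncomputable def Rop {ω : ℝ} (T : L2 ω →L[ℂ] L2 ω) (ξ : ℝ) : L2 ω →L[ℂ] L2 ω :=
  (Ring.inverse (1 + (proj ω ξ).comp (T.comp (proj ω ξ)))).comp (proj ω ξ)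

lemma Rop_apply {ω : ℝ} (T : L2 ω →L[ℂ] L2 ω) (ξ : ℝ) (f : L2 ω) : Rop T ξ f = Us T ξ f := rfl

lemma isInvL_Rop {ω : ℝ} {T : L2 ω →L[ℂ] L2 ω} (hT : ‖T‖ ≤ 1 / 2) (ξ : ℝ) :
    IsInvL (1 + T) ξ (Rop T ξ) := by
  refine ⟨?_, ?_, ?_⟩
  · ext1 f
    simp only [ContinuousLinearMap.comp_apply, Rop_apply]
    rw [proj_Us hT]
    unfold Us
    rw [proj_proj le_rfl]
  · ext1 f
    simp only [ContinuousLinearMap.comp_apply, Rop_apply]
    rw [proj_Us hT, _root_.add_apply, one_apply_eq_self, map_add, proj_Us hT, Us_eq hT]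
  · ext1 f
    simp only [ContinuousLinearMap.comp_apply, Rop_apply]
    symm
    apply eq_of_eq hT
    rw [proj_proj le_rfl, _root_.add_apply, one_apply_eq_self, map_add, proj_proj le_rfl]

lemma integral_mul_eq_pair {ω : ℝ} (U V : L2 ω) {x : ℝ} (hx : x ∈ Icc 0 ω) :
    ∫ t in (0:ℝ)..x, U t * V t = pair (proj ω x U) V := by
  unfold pair
  rw [intervalIntegral.integral_of_le hx.1]
  have h1 : ∫ t in Ioc 0 x, U t * V t =
      ∫ t, (Ioc 0 x).indicator (fun t => U t * V t) t ∂(mu ω) := by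
    rw [integral_indicator measurableSet_Ioc]
    unfold mu
    rw [Measure.restrict_restrict measurableSet_Ioc, inter_eq_left.mpr]
    exact Ioc_subset_Ioc_right hx.2
  rw [h1]
  apply integral_congr_ae
  filter_upwards [proj_ae ω x U, ae_restrict_mem measurableSet_Ioc] with t h2 h4
  rw [h2]
  by_cases h : t ≤ x
  · rw [indicator_of_mem (s := Ioc 0 x) ⟨h4.1, h⟩, indicator_of_mem (s := Icc 0 x) ⟨h4.1.le, h⟩]
  · rw [indicator_of_notMem (s := Ioc 0 x) (fun h' => h h'.2),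
      indicator_of_notMem (s := Icc 0 x) (fun h' => h h'.2), zero_mul]

lemma integral_Us_mul {ω : ℝ} {T : L2 ω →L[ℂ] L2 ω} (hT : ‖T‖ ≤ 1 / 2) (f V : L2 ω) {ξ : ℝ}
    (hξ : ξ ∈ Icc 0 ω) : ∫ t in (0:ℝ)..ξ, Rop T ξ f t * V t = pair (Us T ξ f) V := by
  rw [integral_mul_eq_pair _ _ hξ, Rop_apply, proj_Us hT]

lemma integral_Us {ω : ℝ} {T : L2 ω →L[ℂ] L2 ω} (hT : ‖T‖ ≤ 1 / 2) (f : L2 ω) {ξ : ℝ}
    (hξ : ξ ∈ Icc 0 ω) : ∫ t in (0:ℝ)..ξ, Rop T ξ f t = pair (Us T ξ f) (toL ω 1) := by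
  rw [← integral_Us_mul hT f (toL ω 1) hξ, intervalIntegral.integral_of_le hξ.1,
    intervalIntegral.integral_of_le hξ.1]
  apply integral_congr_ae
  have h1 := ae_restrict_of_ae_restrict_of_subset (Ioc_subset_Ioc_right hξ.2) (toL_ae ω 1)
  filter_upwards [h1] with t ht
  rw [ht]
  simp

lemma adjoint_proj {ω : ℝ} (ξ : ℝ) :
    ContinuousLinearMap.adjoint (proj ω ξ) = proj ω ξ := by
  symm
  rw [ContinuousLinearMap.eq_adjoint_iff]
  intro x y
  exact inner_proj x y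

lemma norm_sq_proj_sub {ω ξ ξ' : ℝ} (h : ξ ≤ ξ') (z : L2 ω) :
    ‖proj ω ξ' z - proj ω ξ z‖ ^ 2 = ‖proj ω ξ' z‖ ^ 2 - ‖proj ω ξ z‖ ^ 2 := by
  have h1 := norm_sub_sq (𝕜 := ℂ) (proj ω ξ' z) (proj ω ξ z)
  have h2 : inner ℂ (proj ω ξ' z) (proj ω ξ z) = ((‖proj ω ξ z‖ ^ 2 : ℝ) : ℂ) := by
    calc inner ℂ (proj ω ξ' z) (proj ω ξ z) =
          inner ℂ (proj ω ξ' z) (proj ω ξ (proj ω ξ z)) := by rw [proj_proj le_rfl]
      _ = inner ℂ (proj ω ξ (proj ω ξ' z)) (proj ω ξ z) := (inner_proj _ _).symm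
      _ = inner ℂ (proj ω ξ z) (proj ω ξ z) := by rw [proj_proj h]
      _ = _ := by
          rw [inner_self_eq_norm_sq_to_K]
          push_cast
          rfl
  rw [h1, h2]
  have h3 : RCLike.re (((‖proj ω ξ z‖ ^ 2 : ℝ) : ℂ)) = ‖proj ω ξ z‖ ^ 2 := by
    exact Complex.ofReal_re _
  rw [h3]
  ring

/-- A left factorization bounds the quadratic variation. -/
lemma VQ_le_of_factorization {ω : ℝ} (hω : 0 < ω) {T : L2 ω →L[ℂ] L2 ω} (hT : ‖T‖ ≤ 1 / 2)
    (hanti : ∀ U V : L2 ω, inner ℂ (T U) V = - inner ℂ U (T V))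
    (hf : HasLeftFacL (1 + T)) : ∃ C : ℝ, ∀ m, VQ (-T) m ≤ C := by
  obtain ⟨Sm, Smi, Sp, Spi, h1, h2, h3, h4, h5, h6, h7, h8, hS⟩ := hf
  set Am := ContinuousLinearMap.adjoint Smi with hAm
  set z : L2 ω := ContinuousLinearMap.adjoint Spi (toL ω 1) with hz
  have hTn : ‖-T‖ ≤ 1 / 2 := by rw [norm_neg]; exact hT
  -- the adjoint of `S`
  have hadjT : ContinuousLinearMap.adjoint T = -T := by
    symm
    rw [ContinuousLinearMap.eq_adjoint_iff]
    intro x y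
    rw [_root_.neg_apply, inner_neg_left, hanti, neg_neg]
  have hadjS : ∀ U : L2 ω, U + (-T) U =
      ContinuousLinearMap.adjoint Sp (ContinuousLinearMap.adjoint Sm U) := by
    intro U
    have e1 : ContinuousLinearMap.adjoint (1 + T) = 1 + (-T) := by
      rw [map_add, hadjT]
      congr 1
      symm
      rw [ContinuousLinearMap.eq_adjoint_iff]
      intro x y
      rfl
    have e2 : ContinuousLinearMap.adjoint (Sm ∘L Sp) =
        ContinuousLinearMap.adjoint Sp ∘L ContinuousLinearMap.adjoint Sm :=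
      ContinuousLinearMap.adjoint_comp _ _
    rw [← hS, e1] at e2
    have := congrArg (fun Z : L2 ω →L[ℂ] L2 ω => Z U) e2
    exact this
  have hmi : ∀ U : L2 ω, ContinuousLinearMap.adjoint Sm (Am U) = U := by
    intro U
    have e1 : ContinuousLinearMap.adjoint (Smi ∘L Sm) =
        ContinuousLinearMap.adjoint Sm ∘L ContinuousLinearMap.adjoint Smi :=
      ContinuousLinearMap.adjoint_comp _ _
    have e2 : ContinuousLinearMap.adjoint (1 : L2 ω →L[ℂ] L2 ω) = 1 := by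
      symm
      rw [ContinuousLinearMap.eq_adjoint_iff]
      intro x y
      rfl
    rw [h2, e2] at e1
    have := congrArg (fun Z : L2 ω →L[ℂ] L2 ω => Z U) e1
    exact this.symm
  have hpi : ContinuousLinearMap.adjoint Sp z = toL ω 1 := by
    have e1 : ContinuousLinearMap.adjoint (Spi ∘L Sp) =
        ContinuousLinearMap.adjoint Sp ∘L ContinuousLinearMap.adjoint Spi :=
      ContinuousLinearMap.adjoint_comp _ _
    have e2 : ContinuousLinearMap.adjoint (1 : L2 ω →L[ℂ] L2 ω) = 1 := by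
      symm
      rw [ContinuousLinearMap.eq_adjoint_iff]
      intro x y
      rfl
    rw [h4, e2] at e1
    have := congrArg (fun Z : L2 ω →L[ℂ] L2 ω => Z (toL ω 1)) e1
    exact this.symm
  -- `S₊*` is lower triangular
  have hSp : ∀ ξ ∈ Icc 0 ω, ∀ U : L2 ω, proj ω ξ (ContinuousLinearMap.adjoint Sp (proj ω ξ U)) =
      proj ω ξ (ContinuousLinearMap.adjoint Sp U) := by
    intro ξ hξ U
    have e1 := congrArg ContinuousLinearMap.adjoint (h7 ξ hξ)
    rw [ContinuousLinearMap.adjoint_comp, ContinuousLinearMap.adjoint_comp,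
      ContinuousLinearMap.adjoint_comp, adjoint_proj] at e1
    have := congrArg (fun Z : L2 ω →L[ℂ] L2 ω => Z U) e1
    exact this.symm
  -- identification of the solution
  have key : ∀ ξ ∈ Icc 0 ω, Us (-T) ξ (toL ω 1) = Am (proj ω ξ z) := by
    intro ξ hξ
    symm
    apply eq_of_eq hTn
    have e1 : proj ω ξ (Am (proj ω ξ z)) = Am (proj ω ξ z) := by
      have := congrArg (fun Z : L2 ω →L[ℂ] L2 ω => Z z) (h6 ξ hξ)
      exact this.symm
    calc Am (proj ω ξ z) + proj ω ξ ((-T) (Am (proj ω ξ z)))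
        = proj ω ξ (Am (proj ω ξ z) + (-T) (Am (proj ω ξ z))) := by rw [map_add, e1]
      _ = proj ω ξ (ContinuousLinearMap.adjoint Sp (proj ω ξ z)) := by rw [hadjS, hmi]
      _ = proj ω ξ (toL ω 1) := by rw [hSp ξ hξ, hpi]
  refine ⟨‖Am‖ ^ 2 * ‖z‖ ^ 2, fun m => ?_⟩
  unfold VQ
  calc ∑ i ∈ Finset.range m,
        ‖Us (-T) (pt ω m (i + 1)) (toL ω 1) - Us (-T) (pt ω m i) (toL ω 1)‖ ^ 2
      ≤ ∑ i ∈ Finset.range m, ‖Am‖ ^ 2 *
          (‖proj ω (pt ω m (i + 1)) z‖ ^ 2 - ‖proj ω (pt ω m i) z‖ ^ 2) := by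
        apply Finset.sum_le_sum
        intro i hi
        rw [Finset.mem_range] at hi
        rw [key _ (mem_Icc_of_half hω (pt_mem hω hi)),
          key _ (mem_Icc_of_half hω (pt_mem hω hi.le)), ← map_sub,
          ← norm_sq_proj_sub (pt_mono hω m i), ← mul_pow]
        exact pow_le_pow_left₀ (norm_nonneg _) (Am.le_opNorm _) 2
    _ = ‖Am‖ ^ 2 * (‖proj ω (pt ω m m) z‖ ^ 2 - ‖proj ω (pt ω m 0) z‖ ^ 2) := by
        rw [← Finset.mul_sum, Finset.sum_range_sub (fun i => ‖proj ω (pt ω m i) z‖ ^ 2)]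
    _ ≤ ‖Am‖ ^ 2 * ‖z‖ ^ 2 := by
        apply mul_le_mul_of_nonneg_left _ (sq_nonneg _)
        have e1 : ‖proj ω (pt ω m m) z‖ ^ 2 ≤ ‖z‖ ^ 2 := by
          have := norm_proj_apply_le ω (pt ω m m) z
          gcongr
        have e2 : 0 ≤ ‖proj ω (pt ω m 0) z‖ ^ 2 := sq_nonneg _
        linarith

lemma rank_eq_one {a b c d : ℂ} (h : b * c = a * d) (hc : c ≠ 0) :
    (!![a, b; c, d] : Matrix (Fin 2) (Fin 2) ℂ).rank = 1 := by
  have e : (!![a, b; c, d] : Matrix (Fin 2) (Fin 2) ℂ) = Matrix.vecMulVec ![a / c, 1] ![c, d] := by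
    ext i j
    fin_cases i <;> fin_cases j <;> simp [Matrix.vecMulVec_apply]
    · field_simp
    · field_simp
      linear_combination h
  apply le_antisymm
  · rw [e]
    exact Matrix.rank_vecMulVec_le _ _
  · rw [Nat.one_le_iff_ne_zero]
    intro h0
    have h1 : LinearMap.range (!![a, b; c, d] : Matrix (Fin 2) (Fin 2) ℂ).mulVecLin = ⊥ :=
      Submodule.finrank_eq_zero.mp h0
    rw [LinearMap.range_eq_bot] at h1
    have h2 := congrFun (congrArg (fun F : (Fin 2 → ℂ) →ₗ[ℂ] (Fin 2 → ℂ) => F ![1, 0]) h1) 1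
    apply hc
    simpa [Matrix.mulVecLin_apply, Matrix.mulVec, dotProduct, Fin.sum_univ_two] using h2

lemma Tau_neg (A : ℕ → ℝ) (x : ℝ) : Tau A (-x) = Tau A x := by
  unfold Tau
  congr 1
  funext n
  rw [tent_apply, tent_apply, abs_neg]

/-- **A bounded convolution-type operator which satisfies (\*\*\*) but has no left factorization.**
For every `ω > 0` there are a kernel `s` and a bounded operator `S` on `L²(0, ω)` with
`(S f)(x) = d/dx ∫_0^ω s(x - t) f(t) dt` such that condition (\*\*\*) holds, but `S` does not admit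
a left factorization. -/
theorem main_L2 (ω : ℝ) (hω : 0 < ω) : ∃ (s : ℝ → ℂ) (S : L2 ω →L[ℂ] L2 ω),
    IsConvL s S ∧ CondL s S ∧ ¬ HasLeftFacL S := by
  obtain ⟨A, L, M, hsc⟩ := exists_Scales hω
  obtain ⟨T, hT, hlim⟩ := hsc.strong_limit
  refine ⟨sker A, 1 + T, ?_, ?_, ?_⟩
  · -- convolution type
    intro f
    have hint : Integrable ((1 + T) f : L2 ω) (mu ω) := coe_integrable _
    obtain ⟨h1, h2⟩ := primitive_facts hω hint (fun x hx => hsc.conv hlim f hx)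
    exact ⟨fun x _ => sker_integrable hsc.Apos hsc.Ale f x, h1, h2⟩
  · -- condition (***)
    obtain ⟨g₁, hg₁, hg₁'⟩ := hsc.exists_Mlim hω norm_one_C
    obtain ⟨g₂, hg₂, hg₂'⟩ := hsc.exists_Mlim hω norm_neg_one_C
    choose D hD1 hD2 hD3 using fun b b' => hsc.exists_D hω b b'
    have hc1 : Tendsto (fun n => toL ω (Gf 1 false (L n))) atTop (𝓝 (toL ω 1)) :=
      tendsto_const_nhds
    have hc2 : Tendsto (fun n => toL ω (Gf (-1) false (L n))) atTop (𝓝 (toL ω 1)) :=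
      tendsto_const_nhds
    have hB : ∀ i j, ∀ ξ ∈ Icc 0 ω, BmatL (Rop T) g₁ g₂ (toL ω 1) ξ i j = 0 +
        ∫ x in (0:ℝ)..ξ, (!![D true false x, D true true x; D false false x, D false true x] :
          Matrix (Fin 2) (Fin 2) ℂ) i j := by
      intro i j ξ hξ
      rw [zero_add]
      fin_cases i <;> fin_cases j
      · change ∫ x in (0:ℝ)..ξ, Rop T ξ g₁ x = ∫ x in (0:ℝ)..ξ, D true false x
        rw [integral_Us hT g₁ hξ]
        exact hsc.pair_eq hω hT hlim (b := true) (b' := false) hg₁' hc2 (hD1 _ _) (hD3 _ _)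
          hξ.1 hξ.2
      · change ∫ x in (0:ℝ)..ξ, Rop T ξ g₁ x * g₂ x = ∫ x in (0:ℝ)..ξ, D true true x
        rw [integral_Us_mul hT g₁ g₂ hξ]
        exact hsc.pair_eq hω hT hlim (b := true) (b' := true) hg₁' hg₂' (hD1 _ _) (hD3 _ _)
          hξ.1 hξ.2
      · change ∫ x in (0:ℝ)..ξ, Rop T ξ (toL ω 1) x = ∫ x in (0:ℝ)..ξ, D false false x
        rw [integral_Us hT (toL ω 1) hξ]
        exact hsc.pair_eq hω hT hlim (b := false) (b' := false) hc1 hc2 (hD1 _ _) (hD3 _ _)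
          hξ.1 hξ.2
      · change ∫ x in (0:ℝ)..ξ, Rop T ξ (toL ω 1) x * g₂ x = ∫ x in (0:ℝ)..ξ, D false true x
        rw [integral_Us_mul hT (toL ω 1) g₂ hξ]
        exact hsc.pair_eq hω hT hlim (b := false) (b' := true) hc1 hg₂' (hD1 _ _) (hD3 _ _)
          hξ.1 hξ.2
    have hDint : ∀ i j, Integrable (fun x => (!![D true false x, D true true x;
        D false false x, D false true x] : Matrix (Fin 2) (Fin 2) ℂ) i j) (mu ω) := by
      intro i j
      fin_cases i <;> fin_cases j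
      · exact hD1 true false
      · exact hD1 true true
      · exact hD1 false false
      · exact hD1 false true
    have hfacts := fun i j => primitive_facts hω (hDint i j) (hB i j)
    refine ⟨g₁, g₂, toL ω 1, Rop T, ?_, ?_, ?_, fun ξ _ => isInvL_Rop hT ξ,
      fun i j => (hfacts i j).1, ?_⟩
    · filter_upwards [hg₁, ae_restrict_mem measurableSet_Ioc] with x hx hx2
      rw [hx]
      unfold Mlim sker
      rw [Real.sign_of_pos hx2.1]
      push_cast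
      ring
    · filter_upwards [hg₂, ae_restrict_mem measurableSet_Ioc] with x hx hx2
      rw [hx]
      unfold Mlim sker
      rw [Real.sign_of_neg (by linarith [hx2.1]), Tau_neg]
      push_cast
      ring
    · filter_upwards [toL_ae ω 1] with x hx
      rw [hx]
      rfl
    · have h1 : ∀ᵐ x ∂(mu ω), ∀ i j : Fin 2,
          HasDerivAt (fun ξ => BmatL (Rop T) g₁ g₂ (toL ω 1) ξ i j)
            ((!![D true false x, D true true x; D false false x, D false true x] :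
              Matrix (Fin 2) (Fin 2) ℂ) i j) x := by
        rw [ae_all_iff]
        intro i
        rw [ae_all_iff]
        intro j
        exact (hfacts i j).2
      filter_upwards [h1, hsc.det_ae hD2] with x hx1 hx2
      exact ⟨_, hx1, rank_eq_one hx2.1 hx2.2⟩
  · -- no factorization
    intro hf
    obtain ⟨C, hC⟩ := VQ_le_of_factorization hω hT (fun U V => T_inner hlim U V) hf
    obtain ⟨m, hm⟩ := hsc.VQ_unbounded hω hT hlim C
    exact absurd (hC m) (not_le.mpr hm)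

lemma adj_of_rel {ω : ℝ} (T T' : L2 ω →L[ℂ] L2 ω)
    (h : ∀ f g : L2 ω, inner ℂ (T f) g = inner ℂ f (T' g)) :
    ContinuousLinearMap.adjoint T = T' := by
  symm
  rw [ContinuousLinearMap.eq_adjoint_iff]
  intro x y
  have h1 := h y x
  rw [← inner_conj_symm, ← h1, inner_conj_symm]

lemma lowerTriL_of {ω : ℝ} (T T' : L2 ω →L[ℂ] L2 ω)
    (h : ∀ f g : L2 ω, inner ℂ (T f) g = inner ℂ f (T' g)) (hu : UpperTriL T') :
    LowerTriL T := by
  unfold LowerTriL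
  rw [adj_of_rel T T' h]
  exact hu

end Pool.Agent.Results.MP_8e7914_an.NoFactorization
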