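import Pool.Agent.Helper593.Fac1

open MeasureTheory Set Filter
open scoped ENNReal NNReal Topology Interval

namespace Pool.Agent.Results.MP_8e7914_an.NoFactorization

/-! ### Fubini for the one-sided window integrals -/

lemma continuous_win_left {f : ℝ → ℂ} (hf : Integrable f) (a : ℝ) :
    Continuous (fun x => ∫ t in (x - a)..x, f t) := by
  have h : (fun x => ∫ t in (x - a)..x, f t) =
      fun x => (∫ t in (0:ℝ)..x, f t) - ∫ t in (0:ℝ)..(x - a), f t := by
    funext x
    rw [intervalIntegral.integral_interval_sub_left hf.intervalIntegrable hf.intervalIntegrable]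
  rw [h]
  have hc : Continuous (fun x => ∫ t in (0:ℝ)..x, f t) :=
    intervalIntegral.continuous_primitive (fun _ _ => hf.intervalIntegrable) 0
  exact hc.sub (hc.comp (continuous_id.sub continuous_const))

lemma continuous_win_right {f : ℝ → ℂ} (hf : Integrable f) (a : ℝ) :
    Continuous (fun x => ∫ t in x..(x + a), f t) := by
  have h : (fun x => ∫ t in x..(x + a), f t) =
      fun x => (∫ t in (0:ℝ)..(x + a), f t) - ∫ t in (0:ℝ)..x, f t := by
    funext x
    rw [intervalIntegral.integral_interval_sub_left hf.intervalIntegrable hf.intervalIntegrable]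
  rw [h]
  have hc : Continuous (fun x => ∫ t in (0:ℝ)..x, f t) :=
    intervalIntegral.continuous_primitive (fun _ _ => hf.intervalIntegrable) 0
  exact (hc.comp (continuous_id.add continuous_const)).sub hc

lemma continuous_KK {f : ℝ → ℂ} (hf : Integrable f) (a : ℝ) : Continuous (KK a f) := by
  unfold KK
  exact continuous_const.mul ((continuous_win_left hf a).sub (continuous_win_right hf a))

lemma norm_win_le {f : ℝ → ℂ} (hf : Integrable f) (u v : ℝ) :
    ‖∫ t in u..v, f t‖ ≤ ∫ t, ‖f t‖ := by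
  refine (intervalIntegral.norm_integral_le_integral_norm_uIoc).trans ?_
  exact setIntegral_le_integral hf.norm (Eventually.of_forall fun _ => norm_nonneg _)

lemma integral_win_mul {a : ℝ} (ha : 0 < a) {f g : ℝ → ℂ} (hf : Integrable f)
    (hg : Integrable g) :
    ∫ x, (∫ t in (x - a)..x, f t) * g x = ∫ t, f t * ∫ x in t..(t + a), g x := by
  have h1 : ∀ x : ℝ, (∫ t in (x - a)..x, f t) * g x =
      ∫ t, (Ioc (x - a) x).indicator (fun _ => (1 : ℂ)) t * (f t * g x) := by
    intro x
    have : (fun t => (Ioc (x - a) x).indicator (fun _ => (1 : ℂ)) t * (f t * g x)) =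
        (Ioc (x - a) x).indicator (fun t => f t * g x) := by
      funext t
      by_cases ht : t ∈ Ioc (x - a) x <;> simp [ht]
    rw [this, integral_indicator measurableSet_Ioc, intervalIntegral.integral_of_le (by linarith),
      integral_mul_const]
  have h2 : ∀ t : ℝ, f t * (∫ x in t..(t + a), g x) =
      ∫ x, (Ioc (x - a) x).indicator (fun _ => (1 : ℂ)) t * (f t * g x) := by
    intro t
    have : (fun x => (Ioc (x - a) x).indicator (fun _ => (1 : ℂ)) t * (f t * g x)) =
        (Ico t (t + a)).indicator (fun x => f t * g x) := by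
      funext x
      by_cases hx : x ∈ Ico t (t + a)
      · rw [indicator_of_mem hx, indicator_of_mem (s := Ioc (x - a) x), one_mul]
        exact ⟨by linarith [hx.2], hx.1⟩
      · rw [indicator_of_notMem hx, indicator_of_notMem (s := Ioc (x - a) x), zero_mul]
        intro h
        exact hx ⟨h.2, by linarith [h.1]⟩
    rw [this, integral_indicator measurableSet_Ico, intervalIntegral.integral_of_le (by linarith),
      integral_Ico_eq_integral_Ioc, integral_const_mul]
  simp_rw [h1, h2]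
  apply integral_integral_swap
  have hprod : Integrable (fun p : ℝ × ℝ => g p.1 * f p.2) (volume.prod volume) :=
    hg.mul_prod hf
  have hind : (fun p : ℝ × ℝ => (Ioc (p.1 - a) p.1).indicator (fun _ => (1 : ℂ)) p.2) =
      ({p : ℝ × ℝ | p.1 - a < p.2 ∧ p.2 ≤ p.1}).indicator (fun _ => 1) := by
    funext p
    by_cases hp : p.1 - a < p.2 ∧ p.2 ≤ p.1
    · rw [indicator_of_mem (by exact hp), indicator_of_mem (by exact hp)]
    · rw [indicator_of_notMem (by exact hp), indicator_of_notMem (by exact hp)]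
  have hms : MeasurableSet {p : ℝ × ℝ | p.1 - a < p.2 ∧ p.2 ≤ p.1} :=
    (measurableSet_lt (measurable_fst.sub_const a) measurable_snd).inter
      (measurableSet_le measurable_snd measurable_fst)
  have hfin := hprod.indicator hms
  refine hfin.congr (Eventually.of_forall fun p => ?_)
  have := congrFun hind p
  change _ = (Ioc (p.1 - a) p.1).indicator (fun _ => (1 : ℂ)) p.2 * (f p.2 * g p.1)
  rw [this]
  by_cases hp : p ∈ {p : ℝ × ℝ | p.1 - a < p.2 ∧ p.2 ≤ p.1}
  · rw [indicator_of_mem hp, indicator_of_mem hp]; ring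
  · rw [indicator_of_notMem hp, indicator_of_notMem hp]; ring

lemma integral_KK_mul {a : ℝ} (ha : 0 < a) {f g : ℝ → ℂ} (hf : Integrable f)
    (hg : Integrable g) :
    ∫ x, KK a f x * g x = - ∫ x, f x * KK a g x := by
  have hiL : ∀ {f g : ℝ → ℂ}, Integrable f → Integrable g →
      Integrable (fun x => (∫ t in (x - a)..x, f t) * g x) := by
    intro f g hf hg
    exact hg.bdd_mul (continuous_win_left hf a).aestronglyMeasurable
      (Eventually.of_forall fun x => norm_win_le hf _ _)
  have hiR : ∀ {f g : ℝ → ℂ}, Integrable f → Integrable g →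
      Integrable (fun x => (∫ t in x..(x + a), f t) * g x) := by
    intro f g hf hg
    exact hg.bdd_mul (continuous_win_right hf a).aestronglyMeasurable
      (Eventually.of_forall fun x => norm_win_le hf _ _)
  have e1 : ∀ x, KK a f x * g x = ((eps / a : ℝ) : ℂ) * (((∫ t in (x - a)..x, f t) * g x) -
      (∫ t in x..(x + a), f t) * g x) := by
    intro x; unfold KK; ring
  have e2 : ∀ x, f x * KK a g x = ((eps / a : ℝ) : ℂ) * (((∫ t in (x - a)..x, g t) * f x) -
      (∫ t in x..(x + a), g t) * f x) := by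
    intro x; unfold KK; ring
  simp_rw [e1, e2]
  rw [integral_const_mul, integral_const_mul, integral_sub (hiL hf hg) (hiR hf hg),
    integral_sub (hiL hg hf) (hiR hg hf)]
  have h1 := integral_win_mul ha hf hg
  have h2 := integral_win_mul ha hg hf
  have e3 : ∫ x, f x * ∫ t in x..(x + a), g t = ∫ x, (∫ t in x..(x + a), g t) * f x := by
    congr 1; funext x; ring
  have e4 : ∫ x, g x * ∫ t in x..(x + a), f t = ∫ x, (∫ t in x..(x + a), f t) * g x := by
    congr 1; funext x; ring
  rw [h1, h2, e3, e4]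
  ring

/-! ### The space `L²(0, ω)` -/

/-- Lebesgue measure on `(0, ω]`. -/
noncomputable abbrev mu (ω : ℝ) : Measure ℝ := volume.restrict (Ioc 0 ω)

/-- Complex `L²(0, ω)`. -/
noncomputable abbrev L2 (ω : ℝ) := Lp ℂ 2 (mu ω)

/-- Extension by zero. -/
noncomputable def ext {ω : ℝ} (U : L2 ω) : ℝ → ℂ := (Ioc 0 ω).indicator U

lemma ext_memLp {ω : ℝ} (U : L2 ω) : MemLp (ext U) 2 volume := by
  unfold ext
  rw [memLp_indicator_iff_restrict measurableSet_Ioc]
  exact Lp.memLp U

lemma coe_integrable {ω : ℝ} (U : L2 ω) : Integrable U (mu ω) :=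
  (Lp.memLp U).integrable (by norm_num)

lemma ext_integrable {ω : ℝ} (U : L2 ω) : Integrable (ext U) volume := by
  unfold ext
  rw [integrable_indicator_iff measurableSet_Ioc]
  exact coe_integrable U

lemma eLpNorm_ext {ω : ℝ} (U : L2 ω) : eLpNorm (ext U) 2 volume = ‖U‖ₑ := by
  unfold ext
  rw [eLpNorm_indicator_eq_eLpNorm_restrict measurableSet_Ioc, Lp.enorm_def]

lemma lintegral_ext_sq {ω : ℝ} (U : L2 ω) : ∫⁻ t, ‖ext U t‖ₑ ^ 2 = ‖U‖ₑ ^ 2 := by
  rw [← eLpNorm_ext U, eLpNorm_eq_lintegral_rpow_enorm_toReal (by norm_num) (by norm_num)]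
  simp only [ENNReal.toReal_ofNat]
  rw [← ENNReal.rpow_natCast (_ ^ _), ← ENNReal.rpow_mul]
  norm_num

lemma ext_congr {ω : ℝ} {U : L2 ω} {f : ℝ → ℂ} (h : U =ᵐ[mu ω] f) :
    ext U =ᵐ[volume] (Ioc 0 ω).indicator f := by
  unfold ext
  rw [Filter.EventuallyEq, ae_restrict_iff' measurableSet_Ioc] at h
  filter_upwards [h] with t ht
  by_cases h1 : t ∈ Ioc 0 ω
  · rw [indicator_of_mem h1, indicator_of_mem h1]; exact ht h1
  · rw [indicator_of_notMem h1, indicator_of_notMem h1]

lemma ext_add {ω : ℝ} (U V : L2 ω) : ext (U + V) =ᵐ[volume] fun t => ext U t + ext V t := by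
  refine (ext_congr (U := U + V) (Lp.coeFn_add U V)).trans (Eventually.of_forall ?_)
  intro t
  unfold ext
  by_cases h1 : t ∈ Ioc 0 ω
  · simp [h1]
  · simp [h1]

lemma ext_sub {ω : ℝ} (U V : L2 ω) : ext (U - V) =ᵐ[volume] fun t => ext U t - ext V t := by
  refine (ext_congr (U := U - V) (Lp.coeFn_sub U V)).trans (Eventually.of_forall ?_)
  intro t
  unfold ext
  by_cases h1 : t ∈ Ioc 0 ω
  · simp [h1]
  · simp [h1]

lemma ext_smul {ω : ℝ} (c : ℂ) (U : L2 ω) : ext (c • U) =ᵐ[volume] fun t => c * ext U t := by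
  refine (ext_congr (U := c • U) (Lp.coeFn_smul c U)).trans (Eventually.of_forall ?_)
  intro t
  unfold ext
  by_cases h1 : t ∈ Ioc 0 ω
  · simp [h1]
  · simp [h1]

/-- Multiplication by the indicator of `[0, ξ]`, as a function. -/
noncomputable def projFun (ω ξ : ℝ) (U : L2 ω) : L2 ω :=
  ((Lp.memLp U).indicator (measurableSet_Icc (a := 0) (b := ξ))).toLp _

lemma projFun_ae (ω ξ : ℝ) (U : L2 ω) :
    (projFun ω ξ U : ℝ → ℂ) =ᵐ[mu ω] (Icc 0 ξ).indicator (U : ℝ → ℂ) := by
  unfold projFun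
  exact MemLp.coeFn_toLp _

lemma projFun_add (ω ξ : ℝ) (U V : L2 ω) :
    projFun ω ξ (U + V) = projFun ω ξ U + projFun ω ξ V := by
  apply Lp.ext
  filter_upwards [projFun_ae ω ξ (U + V), Lp.coeFn_add (projFun ω ξ U) (projFun ω ξ V),
    projFun_ae ω ξ U, projFun_ae ω ξ V, Lp.coeFn_add U V] with t h1 h2 h3 h4 h5
  rw [h1, h2, Pi.add_apply, h3, h4]
  by_cases ht : t ∈ Icc 0 ξ
  · rw [indicator_of_mem ht, indicator_of_mem ht, indicator_of_mem ht, h5, Pi.add_apply]
  · rw [indicator_of_notMem ht, indicator_of_notMem ht, indicator_of_notMem ht, add_zero]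

lemma projFun_smul (ω ξ : ℝ) (c : ℂ) (U : L2 ω) :
    projFun ω ξ (c • U) = c • projFun ω ξ U := by
  apply Lp.ext
  filter_upwards [projFun_ae ω ξ (c • U), Lp.coeFn_smul c (projFun ω ξ U),
    projFun_ae ω ξ U, Lp.coeFn_smul c U] with t h1 h2 h3 h5
  rw [h1, h2, Pi.smul_apply, h3]
  by_cases ht : t ∈ Icc 0 ξ
  · rw [indicator_of_mem ht, indicator_of_mem ht, h5, Pi.smul_apply]
  · rw [indicator_of_notMem ht, indicator_of_notMem ht, smul_zero]

lemma norm_projFun_le (ω ξ : ℝ) (U : L2 ω) : ‖projFun ω ξ U‖ ≤ ‖U‖ := by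
  unfold projFun
  rw [Lp.norm_toLp, Lp.norm_def]
  exact ENNReal.toReal_mono (Lp.eLpNorm_ne_top U) (eLpNorm_indicator_le _)

/-- The projection `P_ξ` : multiplication by the indicator of `[0, ξ]`. -/
noncomputable def proj (ω ξ : ℝ) : L2 ω →L[ℂ] L2 ω :=
  LinearMap.mkContinuous
    { toFun := projFun ω ξ
      map_add' := projFun_add ω ξ
      map_smul' := projFun_smul ω ξ } 1
    (fun U => by rw [one_mul]; exact norm_projFun_le ω ξ U)

lemma proj_apply (ω ξ : ℝ) (U : L2 ω) : proj ω ξ U = projFun ω ξ U := rfl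

lemma proj_ae (ω ξ : ℝ) (U : L2 ω) :
    (proj ω ξ U : ℝ → ℂ) =ᵐ[mu ω] (Icc 0 ξ).indicator (U : ℝ → ℂ) :=
  projFun_ae ω ξ U

lemma norm_proj_apply_le (ω ξ : ℝ) (U : L2 ω) : ‖proj ω ξ U‖ ≤ ‖U‖ := norm_projFun_le ω ξ U

lemma norm_proj_le (ω ξ : ℝ) : ‖proj ω ξ‖ ≤ 1 :=
  ContinuousLinearMap.opNorm_le_bound _ zero_le_one fun U => by
    rw [one_mul]; exact norm_proj_apply_le ω ξ U

end Pool.Agent.Results.MP_8e7914_an.NoFactorization
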