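import Pool.Agent.Helper593.Fac2

open MeasureTheory Set Filter
open scoped ENNReal NNReal Topology Interval ComplexConjugate

namespace Pool.Agent.Results.MP_8e7914_an.NoFactorization

lemma eLpNorm_KK_le {a : ℝ} (ha : 0 < a) {g : ℝ → ℂ} (hg : AEStronglyMeasurable g volume) :
    eLpNorm (KK a g) 2 volume ≤ ENNReal.ofReal (2 * eps) * eLpNorm g 2 volume := by
  rw [eLpNorm_eq_lintegral_rpow_enorm_toReal (by norm_num) (by norm_num),
    eLpNorm_eq_lintegral_rpow_enorm_toReal (by norm_num) (by norm_num)]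
  simp only [ENNReal.toReal_ofNat]
  have h := lintegral_KK_sq_le ha hg
  have h2 := ENNReal.rpow_le_rpow h (by norm_num : (0:ℝ) ≤ 1 / 2)
  rw [ENNReal.mul_rpow_of_nonneg _ _ (by norm_num)] at h2
  have e : (ENNReal.ofReal (2 * eps) ^ 2) ^ ((1:ℝ) / 2) = ENNReal.ofReal (2 * eps) := by
    rw [← ENNReal.rpow_natCast, ← ENNReal.rpow_mul]; norm_num
  rw [e] at h2
  simpa using h2

lemma KK_ext_memLp {ω a : ℝ} (ha : 0 < a) (U : L2 ω) : MemLp (KK a (ext U)) 2 (mu ω) := by
  refine MemLp.restrict _ ⟨(continuous_KK (ext_integrable U) a).aestronglyMeasurable, ?_⟩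
  refine lt_of_le_of_lt (eLpNorm_KK_le ha (ext_memLp U).1) ?_
  exact ENNReal.mul_lt_top ENNReal.ofReal_lt_top (ext_memLp U).2

open Classical in
/-- `K_a` as a map of `L²(0, ω)`. -/
noncomputable def KopFun (ω a : ℝ) (U : L2 ω) : L2 ω :=
  if ha : 0 < a then (KK_ext_memLp ha U).toLp _ else 0

lemma KopFun_ae {ω a : ℝ} (ha : 0 < a) (U : L2 ω) :
    (KopFun ω a U : ℝ → ℂ) =ᵐ[mu ω] KK a (ext U) := by
  unfold KopFun
  rw [dif_pos ha]
  exact MemLp.coeFn_toLp _

lemma KK_ext_add {ω a : ℝ} (U V : L2 ω) (x : ℝ) :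
    KK a (ext (U + V)) x = KK a (ext U) x + KK a (ext V) x := by
  rw [KK_congr_ae (ext_add U V), KK_add (ext_integrable U) (ext_integrable V)]

lemma KK_ext_sub {ω a : ℝ} (U V : L2 ω) (x : ℝ) :
    KK a (ext (U - V)) x = KK a (ext U) x - KK a (ext V) x := by
  rw [KK_congr_ae (ext_sub U V), KK_sub (ext_integrable U) (ext_integrable V)]

lemma KK_ext_smul {ω a : ℝ} (c : ℂ) (U : L2 ω) (x : ℝ) :
    KK a (ext (c • U)) x = c * KK a (ext U) x := by
  rw [KK_congr_ae (ext_smul c U), KK_smul]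

lemma KopFun_add (ω a : ℝ) (U V : L2 ω) :
    KopFun ω a (U + V) = KopFun ω a U + KopFun ω a V := by
  by_cases ha : 0 < a
  · apply Lp.ext
    filter_upwards [KopFun_ae ha (U + V), Lp.coeFn_add (KopFun ω a U) (KopFun ω a V),
      KopFun_ae ha U, KopFun_ae ha V] with t h1 h2 h3 h4
    rw [h1, h2, Pi.add_apply, h3, h4, KK_ext_add]
  · unfold KopFun
    rw [dif_neg ha, dif_neg ha, dif_neg ha, add_zero]

lemma KopFun_smul (ω a : ℝ) (c : ℂ) (U : L2 ω) :
    KopFun ω a (c • U) = c • KopFun ω a U := by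
  by_cases ha : 0 < a
  · apply Lp.ext
    filter_upwards [KopFun_ae ha (c • U), Lp.coeFn_smul c (KopFun ω a U),
      KopFun_ae ha U] with t h1 h2 h3
    rw [h1, h2, Pi.smul_apply, h3, KK_ext_smul, smul_eq_mul]
  · unfold KopFun
    rw [dif_neg ha, dif_neg ha, smul_zero]

lemma norm_KopFun_le (ω a : ℝ) (U : L2 ω) : ‖KopFun ω a U‖ ≤ 2 * eps * ‖U‖ := by
  by_cases ha : 0 < a
  · unfold KopFun
    rw [dif_pos ha, Lp.norm_toLp]
    have h1 : eLpNorm (KK a (ext U)) 2 (mu ω) ≤ ENNReal.ofReal (2 * eps) * ‖U‖ₑ := by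
      refine (eLpNorm_mono_measure _ Measure.restrict_le_self).trans ?_
      refine (eLpNorm_KK_le ha (ext_memLp U).1).trans ?_
      rw [eLpNorm_ext]
    have h2 := ENNReal.toReal_mono (by finiteness) h1
    rw [ENNReal.toReal_mul, ENNReal.toReal_ofReal (by have := eps_pos; positivity),
      toReal_enorm] at h2
    exact h2
  · unfold KopFun
    rw [dif_neg ha, norm_zero]
    have := eps_pos
    positivity

/-- The operator `K_a` on `L²(0, ω)`. -/
noncomputable def Kop (ω a : ℝ) : L2 ω →L[ℂ] L2 ω :=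
  LinearMap.mkContinuous
    { toFun := KopFun ω a
      map_add' := KopFun_add ω a
      map_smul' := KopFun_smul ω a } (2 * eps)
    (norm_KopFun_le ω a)

lemma Kop_ae {ω a : ℝ} (ha : 0 < a) (U : L2 ω) :
    (Kop ω a U : ℝ → ℂ) =ᵐ[mu ω] KK a (ext U) := KopFun_ae ha U

lemma norm_Kop_apply_le (ω a : ℝ) (U : L2 ω) : ‖Kop ω a U‖ ≤ 2 * eps * ‖U‖ :=
  norm_KopFun_le ω a U

lemma norm_Kop_le (ω a : ℝ) : ‖Kop ω a‖ ≤ 2 * eps :=
  ContinuousLinearMap.opNorm_le_bound _ (by have := eps_pos; positivity) (norm_Kop_apply_le ω a)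

lemma integral_mul_ext {ω : ℝ} (f : ℝ → ℂ) (V : L2 ω) :
    ∫ x, f x * ext V x = ∫ x, f x * V x ∂(mu ω) := by
  rw [← integral_indicator measurableSet_Ioc]
  congr 1
  funext x
  unfold ext
  by_cases h : x ∈ Ioc 0 ω
  · rw [indicator_of_mem h, indicator_of_mem h]
  · rw [indicator_of_notMem h, indicator_of_notMem h, mul_zero]

/-- bilinear antisymmetry -/
lemma Kop_antisymm (ω a : ℝ) (U V : L2 ω) :
    ∫ x, Kop ω a U x * V x ∂(mu ω) = - ∫ x, U x * Kop ω a V x ∂(mu ω) := by
  by_cases ha : 0 < a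
  · have h := integral_KK_mul ha (ext_integrable U) (ext_integrable V)
    rw [integral_mul_ext] at h
    have e1 : ∫ x, ext U x * KK a (ext V) x = ∫ x, U x * Kop ω a V x ∂(mu ω) := by
      have : ∫ x, ext U x * KK a (ext V) x = ∫ x, KK a (ext V) x * ext U x := by
        congr 1; funext x; ring
      rw [this, integral_mul_ext]
      apply integral_congr_ae
      filter_upwards [Kop_ae ha V] with x hx
      rw [hx, mul_comm]
    rw [e1] at h
    rw [← h]
    apply integral_congr_ae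
    filter_upwards [Kop_ae ha U] with x hx
    rw [hx]
  · have h0 : ∀ W : L2 ω, Kop ω a W = 0 := by
      intro W
      change KopFun ω a W = 0
      unfold KopFun
      rw [dif_neg ha]
    rw [h0, h0]
    have h1 : ∫ x, (0 : L2 ω) x * V x ∂(mu ω) = 0 := by
      rw [← integral_zero ℝ ℂ (μ := mu ω)]
      apply integral_congr_ae
      filter_upwards [Lp.coeFn_zero ℂ 2 (mu ω)] with x hx
      rw [hx]; simp
    have h2 : ∫ x, U x * (0 : L2 ω) x ∂(mu ω) = 0 := by
      rw [← integral_zero ℝ ℂ (μ := mu ω)]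
      apply integral_congr_ae
      filter_upwards [Lp.coeFn_zero ℂ 2 (mu ω)] with x hx
      rw [hx]; simp
    rw [h1, h2, neg_zero]

lemma KK_conj (a : ℝ) (g : ℝ → ℂ) (x : ℝ) :
    KK a (fun t => conj (g t)) x = conj (KK a g x) := by
  unfold KK
  rw [map_mul, map_sub, Complex.conj_ofReal, ← intervalIntegral.intervalIntegral_conj, ← intervalIntegral.intervalIntegral_conj]

/-- sesquilinear antisymmetry -/
lemma Kop_inner (ω a : ℝ) (U V : L2 ω) :
    inner ℂ (Kop ω a U) V = - inner ℂ U (Kop ω a V) := by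
  by_cases ha : 0 < a
  · rw [L2.inner_def, L2.inner_def]
    have hc : Integrable (fun t => conj (ext U t)) := by
      exact (ext_integrable U).congr' (by
        exact (continuous_star.comp_aestronglyMeasurable (ext_integrable U).1)) (by simp)
    have h := integral_KK_mul ha hc (ext_integrable V)
    rw [integral_mul_ext] at h
    have e1 : ∫ x, conj (ext U x) * KK a (ext V) x = ∫ x, inner ℂ (U x) (Kop ω a V x) ∂(mu ω) := by
      rw [← integral_indicator measurableSet_Ioc]
      have hK := Kop_ae ha V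
      rw [Filter.EventuallyEq, ae_restrict_iff' measurableSet_Ioc] at hK
      apply integral_congr_ae
      filter_upwards [hK] with x hx
      unfold ext
      by_cases h : x ∈ Ioc 0 ω
      · rw [indicator_of_mem h, indicator_of_mem h, hx h, RCLike.inner_apply, mul_comm]
        rfl
      · rw [indicator_of_notMem h, indicator_of_notMem h, map_zero, zero_mul]
    rw [e1] at h
    rw [← h]
    apply integral_congr_ae
    filter_upwards [Kop_ae ha U] with x hx
    rw [hx, KK_conj, RCLike.inner_apply, mul_comm]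
  · have h0 : ∀ W : L2 ω, Kop ω a W = 0 := by
      intro W
      change KopFun ω a W = 0
      unfold KopFun
      rw [dif_neg ha]
    rw [h0, h0, inner_zero_left, inner_zero_right, neg_zero]

end Pool.Agent.Results.MP_8e7914_an.NoFactorization
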