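import Pool.Agent.Helper593.Fac3

open MeasureTheory Set Filter
open scoped ENNReal NNReal Topology Interval ComplexConjugate

namespace Pool.Agent.Results.MP_8e7914_an.NoFactorization

/-! ### The bilinear pairing -/

/-- The bilinear pairing `∫_0^ω U V`. -/
noncomputable def pair {ω : ℝ} (U V : L2 ω) : ℂ := ∫ x, U x * V x ∂(mu ω)

lemma integrable_mul {ω : ℝ} (U V : L2 ω) : Integrable (fun x => U x * V x) (mu ω) :=
  (Lp.memLp U).integrable_mul (Lp.memLp V)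

lemma pair_comm {ω : ℝ} (U V : L2 ω) : pair U V = pair V U := by
  unfold pair
  congr 1
  funext x
  ring

lemma pair_add_left {ω : ℝ} (U U' V : L2 ω) : pair (U + U') V = pair U V + pair U' V := by
  unfold pair
  rw [← integral_add (integrable_mul U V) (integrable_mul U' V)]
  apply integral_congr_ae
  filter_upwards [Lp.coeFn_add U U'] with x hx
  rw [hx, Pi.add_apply, add_mul]

lemma pair_sub_left {ω : ℝ} (U U' V : L2 ω) : pair (U - U') V = pair U V - pair U' V := by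
  unfold pair
  rw [← integral_sub (integrable_mul U V) (integrable_mul U' V)]
  apply integral_congr_ae
  filter_upwards [Lp.coeFn_sub U U'] with x hx
  rw [hx, Pi.sub_apply, sub_mul]

lemma pair_sub_right {ω : ℝ} (U V V' : L2 ω) : pair U (V - V') = pair U V - pair U V' := by
  rw [pair_comm, pair_sub_left, pair_comm V, pair_comm V']

lemma pair_add_right {ω : ℝ} (U V V' : L2 ω) : pair U (V + V') = pair U V + pair U V' := by
  rw [pair_comm, pair_add_left, pair_comm V, pair_comm V']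

lemma pair_smul_left {ω : ℝ} (c : ℂ) (U V : L2 ω) : pair (c • U) V = c * pair U V := by
  unfold pair
  rw [← integral_const_mul]
  apply integral_congr_ae
  filter_upwards [Lp.coeFn_smul c U] with x hx
  rw [hx, Pi.smul_apply, smul_eq_mul, mul_assoc]

lemma pair_smul_right {ω : ℝ} (c : ℂ) (U V : L2 ω) : pair U (c • V) = c * pair U V := by
  rw [pair_comm, pair_smul_left, pair_comm]

lemma pair_zero_left {ω : ℝ} (V : L2 ω) : pair (0 : L2 ω) V = 0 := by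
  have := pair_smul_left (0 : ℂ) (0 : L2 ω) V
  rwa [zero_smul, zero_mul] at this

lemma pair_neg_left {ω : ℝ} (U V : L2 ω) : pair (-U) V = - pair U V := by
  have := pair_smul_left (-1 : ℂ) U V
  rwa [neg_one_smul, neg_one_mul] at this

lemma norm_pair_le {ω : ℝ} (U V : L2 ω) : ‖pair U V‖ ≤ ‖U‖ * ‖V‖ := by
  -- compare with an inner product
  have h1 : ‖pair U V‖ ≤ ∫ x, ‖U x‖ * ‖V x‖ ∂(mu ω) := by
    unfold pair
    refine (norm_integral_le_integral_norm _).trans (le_of_eq ?_)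
    congr 1
    funext x
    rw [norm_mul]
  have h2 := integral_mul_norm_le_Lp_mul_Lq (μ := mu ω) (f := (U : ℝ → ℂ)) (g := (V : ℝ → ℂ))
    (p := 2) (q := 2) Real.HolderConjugate.two_two
    (by simpa using Lp.memLp U) (by simpa using Lp.memLp V)
  have h3 : ∀ W : L2 ω, (∫ x, ‖W x‖ ^ (2:ℝ) ∂(mu ω)) ^ (1 / (2:ℝ)) = ‖W‖ := by
    intro W
    rw [Lp.norm_def, eLpNorm_eq_lintegral_rpow_enorm_toReal (by norm_num) (by norm_num),
      ← ENNReal.toReal_rpow, integral_eq_lintegral_of_nonneg_ae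
        (Eventually.of_forall fun x => by positivity)
        ((Lp.aestronglyMeasurable W).norm.aemeasurable.pow_const _).aestronglyMeasurable]
    simp only [ENNReal.toReal_ofNat]
    congr 2
    apply lintegral_congr
    intro x
    rw [← ofReal_norm, ENNReal.ofReal_rpow_of_nonneg (norm_nonneg _) (by norm_num)]
  rw [h3, h3] at h2
  exact h1.trans h2

/-! ### Properties of the projections -/

lemma proj_proj {ω ξ ξ' : ℝ} (h : ξ ≤ ξ') (U : L2 ω) :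
    proj ω ξ (proj ω ξ' U) = proj ω ξ U := by
  apply Lp.ext
  filter_upwards [proj_ae ω ξ (proj ω ξ' U), proj_ae ω ξ' U, proj_ae ω ξ U] with x h1 h2 h3
  rw [h1, h3]
  by_cases hx : x ∈ Icc 0 ξ
  · rw [indicator_of_mem hx, indicator_of_mem hx, h2, indicator_of_mem]
    exact ⟨hx.1, hx.2.trans h⟩
  · rw [indicator_of_notMem hx, indicator_of_notMem hx]

lemma proj_proj' {ω ξ ξ' : ℝ} (h : ξ ≤ ξ') (U : L2 ω) :
    proj ω ξ' (proj ω ξ U) = proj ω ξ U := by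
  apply Lp.ext
  filter_upwards [proj_ae ω ξ' (proj ω ξ U), proj_ae ω ξ U] with x h1 h2
  rw [h1, h2]
  by_cases hx : x ∈ Icc 0 ξ'
  · rw [indicator_of_mem hx, h2]
  · rw [indicator_of_notMem hx, indicator_of_notMem]
    exact fun h' => hx ⟨h'.1, h'.2.trans h⟩

lemma pair_proj {ω ξ : ℝ} (U V : L2 ω) : pair (proj ω ξ U) V = pair U (proj ω ξ V) := by
  unfold pair
  apply integral_congr_ae
  filter_upwards [proj_ae ω ξ U, proj_ae ω ξ V] with x h1 h2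
  rw [h1, h2]
  by_cases hx : x ∈ Icc 0 ξ
  · rw [indicator_of_mem hx, indicator_of_mem hx]
  · rw [indicator_of_notMem hx, indicator_of_notMem hx, zero_mul, mul_zero]

lemma inner_proj {ω ξ : ℝ} (U V : L2 ω) :
    inner ℂ (proj ω ξ U) V = inner ℂ U (proj ω ξ V) := by
  rw [L2.inner_def, L2.inner_def]
  apply integral_congr_ae
  filter_upwards [proj_ae ω ξ U, proj_ae ω ξ V] with x h1 h2
  rw [h1, h2]
  by_cases hx : x ∈ Icc 0 ξ
  · rw [indicator_of_mem hx, indicator_of_mem hx]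
  · rw [indicator_of_notMem hx, indicator_of_notMem hx, inner_zero_left, inner_zero_right]

lemma proj_top {ω ξ : ℝ} (h : ω ≤ ξ) (U : L2 ω) : proj ω ξ U = U := by
  apply Lp.ext
  filter_upwards [proj_ae ω ξ U, ae_restrict_mem measurableSet_Ioc] with x h1 h2
  rw [h1, indicator_of_mem]
  exact ⟨h2.1.le, h2.2.trans h⟩

/-! ### Solving `(1 + P T P) U = P f` -/

/-- `U = (1 + P_ξ T P_ξ)⁻¹ P_ξ f`. -/
noncomputable def Us {ω : ℝ} (T : L2 ω →L[ℂ] L2 ω) (ξ : ℝ) (f : L2 ω) : L2 ω :=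
  Ring.inverse (1 + (proj ω ξ).comp (T.comp (proj ω ξ))) (proj ω ξ f)

lemma norm_comp_le {ω : ℝ} (T : L2 ω →L[ℂ] L2 ω) (ξ : ℝ) :
    ‖(proj ω ξ).comp (T.comp (proj ω ξ))‖ ≤ ‖T‖ := by
  calc ‖(proj ω ξ).comp (T.comp (proj ω ξ))‖ ≤ ‖proj ω ξ‖ * ‖T.comp (proj ω ξ)‖ :=
        ContinuousLinearMap.opNorm_comp_le _ _
    _ ≤ 1 * (‖T‖ * ‖proj ω ξ‖) := by
        refine mul_le_mul (norm_proj_le ω ξ) (ContinuousLinearMap.opNorm_comp_le _ _)
          (norm_nonneg _) zero_le_one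
    _ ≤ 1 * (‖T‖ * 1) := by
        have := norm_proj_le ω ξ
        have := norm_nonneg T
        gcongr
    _ = ‖T‖ := by ring

lemma isUnit_one_add {ω : ℝ} {T : L2 ω →L[ℂ] L2 ω} (hT : ‖T‖ ≤ 1 / 2) (ξ : ℝ) :
    IsUnit (1 + (proj ω ξ).comp (T.comp (proj ω ξ))) := by
  have h : ‖-((proj ω ξ).comp (T.comp (proj ω ξ)))‖ < 1 := by
    rw [norm_neg]
    exact lt_of_le_of_lt ((norm_comp_le T ξ).trans hT) (by norm_num)
  have := isUnit_one_sub_of_norm_lt_one h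
  rwa [sub_neg_eq_add] at this

lemma Us_eq0 {ω : ℝ} {T : L2 ω →L[ℂ] L2 ω} (hT : ‖T‖ ≤ 1 / 2) (ξ : ℝ) (f : L2 ω) :
    Us T ξ f + proj ω ξ (T (proj ω ξ (Us T ξ f))) = proj ω ξ f := by
  have h := Ring.mul_inverse_cancel _ (isUnit_one_add hT ξ)
  have h2 := congrArg (fun A : L2 ω →L[ℂ] L2 ω => A (proj ω ξ f)) h
  simp only [mul_apply_eq_comp, one_apply_eq_self] at h2
  rw [_root_.add_apply, one_apply_eq_self] at h2
  exact h2

lemma proj_Us {ω : ℝ} {T : L2 ω →L[ℂ] L2 ω} (hT : ‖T‖ ≤ 1 / 2) (ξ : ℝ) (f : L2 ω) :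
    proj ω ξ (Us T ξ f) = Us T ξ f := by
  have h := Us_eq0 hT ξ f
  have h2 : Us T ξ f = proj ω ξ (f - T (proj ω ξ (Us T ξ f))) := by
    rw [map_sub]
    exact eq_sub_of_add_eq h
  rw [h2, proj_proj le_rfl]

lemma Us_eq {ω : ℝ} {T : L2 ω →L[ℂ] L2 ω} (hT : ‖T‖ ≤ 1 / 2) (ξ : ℝ) (f : L2 ω) :
    Us T ξ f + proj ω ξ (T (Us T ξ f)) = proj ω ξ f := by
  have h := Us_eq0 hT ξ f
  rwa [proj_Us hT] at h

lemma Us_eq' {ω : ℝ} {T : L2 ω →L[ℂ] L2 ω} (hT : ‖T‖ ≤ 1 / 2) (ξ : ℝ) (f : L2 ω) :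
    Us T ξ f = proj ω ξ (f - T (Us T ξ f)) := by
  rw [map_sub]
  exact eq_sub_of_add_eq (Us_eq hT ξ f)

/-- basic a priori estimate -/
lemma norm_le_of_eq {ω : ℝ} {T : L2 ω →L[ℂ] L2 ω} (hT : ‖T‖ ≤ 1 / 2) {ξ : ℝ} {D g : L2 ω}
    (h : D + proj ω ξ (T D) = g) : ‖D‖ ≤ 2 * ‖g‖ := by
  have h1 : ‖proj ω ξ (T D)‖ ≤ 1 / 2 * ‖D‖ :=
    (norm_proj_apply_le ω ξ _).trans ((T.le_opNorm D).trans
      (mul_le_mul_of_nonneg_right hT (norm_nonneg _)))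
  have h2 : ‖D‖ ≤ ‖g‖ + ‖proj ω ξ (T D)‖ := by
    have : D = g - proj ω ξ (T D) := eq_sub_of_add_eq h
    calc ‖D‖ = ‖g - proj ω ξ (T D)‖ := by rw [← this]
      _ ≤ _ := norm_sub_le _ _
  linarith

lemma eq_of_eq {ω : ℝ} {T : L2 ω →L[ℂ] L2 ω} (hT : ‖T‖ ≤ 1 / 2) {ξ : ℝ} {D f : L2 ω}
    (h : D + proj ω ξ (T D) = proj ω ξ f) : D = Us T ξ f := by
  have h2 := Us_eq hT ξ f
  have h3 : (D - Us T ξ f) + proj ω ξ (T (D - Us T ξ f)) = 0 := by
    rw [map_sub, map_sub]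
    have : (D - Us T ξ f) + (proj ω ξ (T D) - proj ω ξ (T (Us T ξ f))) =
      (D + proj ω ξ (T D)) - (Us T ξ f + proj ω ξ (T (Us T ξ f))) := by abel
    rw [this, h, h2, sub_self]
  have h4 := norm_le_of_eq hT h3
  rw [norm_zero, mul_zero] at h4
  exact sub_eq_zero.mp (norm_le_zero_iff.mp h4)

lemma norm_Us_le {ω : ℝ} {T : L2 ω →L[ℂ] L2 ω} (hT : ‖T‖ ≤ 1 / 2) (ξ : ℝ) (f : L2 ω) :
    ‖Us T ξ f‖ ≤ 2 * ‖f‖ :=
  (norm_le_of_eq hT (Us_eq hT ξ f)).trans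
    (mul_le_mul_of_nonneg_left (norm_proj_apply_le ω ξ f) (by norm_num))

lemma Us_add {ω : ℝ} (T : L2 ω →L[ℂ] L2 ω) (ξ : ℝ) (f g : L2 ω) :
    Us T ξ (f + g) = Us T ξ f + Us T ξ g := by
  unfold Us; rw [map_add, map_add]

lemma Us_sub {ω : ℝ} (T : L2 ω →L[ℂ] L2 ω) (ξ : ℝ) (f g : L2 ω) :
    Us T ξ (f - g) = Us T ξ f - Us T ξ g := by
  unfold Us; rw [map_sub, map_sub]

lemma Us_smul {ω : ℝ} (T : L2 ω →L[ℂ] L2 ω) (ξ : ℝ) (c : ℂ) (f : L2 ω) :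
    Us T ξ (c • f) = c • Us T ξ f := by
  unfold Us; rw [map_smul, map_smul]

/-- change of operator and right-hand side -/
lemma norm_Us_sub_Us_le {ω : ℝ} {T T' : L2 ω →L[ℂ] L2 ω} (hT : ‖T‖ ≤ 1 / 2) (hT' : ‖T'‖ ≤ 1 / 2)
    (ξ : ℝ) (f f' : L2 ω) :
    ‖Us T' ξ f' - Us T ξ f‖ ≤ 2 * (‖f' - f‖ + ‖(T' - T) (Us T ξ f)‖) := by
  have h1 := Us_eq hT ξ f
  have h2 := Us_eq hT' ξ f'
  have h3 : (Us T' ξ f' - Us T ξ f) + proj ω ξ (T' (Us T' ξ f' - Us T ξ f)) =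
      proj ω ξ ((f' - f) - (T' - T) (Us T ξ f)) := by
    rw [map_sub, map_sub, map_sub, map_sub, _root_.sub_apply, map_sub, ← h1, ← h2]
    abel
  refine (norm_le_of_eq hT' h3).trans ?_
  refine mul_le_mul_of_nonneg_left ?_ (by norm_num)
  exact (norm_proj_apply_le ω ξ _).trans (norm_sub_le _ _)

/-- change of `ξ` -/
lemma norm_Us_sub_Us_le' {ω : ℝ} {T : L2 ω →L[ℂ] L2 ω} (hT : ‖T‖ ≤ 1 / 2) {ξ ξ' : ℝ}
    (_h : ξ ≤ ξ') (f : L2 ω) :
    ‖Us T ξ' f - Us T ξ f‖ ≤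
      2 * ‖proj ω ξ' (f - T (Us T ξ f)) - proj ω ξ (f - T (Us T ξ f))‖ := by
  have h1 := Us_eq' hT ξ f
  have h2 := Us_eq hT ξ' f
  apply norm_le_of_eq hT (ξ := ξ')
  have e1 : proj ω ξ' (T (Us T ξ' f - Us T ξ f)) =
      proj ω ξ' (T (Us T ξ' f)) - proj ω ξ' (T (Us T ξ f)) := by rw [map_sub, map_sub]
  rw [e1]
  have e2 : Us T ξ' f - Us T ξ f + (proj ω ξ' (T (Us T ξ' f)) - proj ω ξ' (T (Us T ξ f))) =
      (Us T ξ' f + proj ω ξ' (T (Us T ξ' f))) - proj ω ξ' (T (Us T ξ f)) - Us T ξ f := by abel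
  rw [e2, h2, ← map_sub, ← h1]

end Pool.Agent.Results.MP_8e7914_an.NoFactorization
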