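import Pool.Agent.Helper593.Fac4

open MeasureTheory Set Filter
open scoped ENNReal NNReal Topology Interval ComplexConjugate

namespace Pool.Agent.Results.MP_8e7914_an.NoFactorization

/-! ### Norm estimates from pointwise bounds -/

lemma enorm_sq_eq {ω : ℝ} (U : L2 ω) : ‖U‖ₑ ^ 2 = ∫⁻ x, ‖U x‖ₑ ^ 2 ∂(mu ω) := by
  rw [← lintegral_ext_sq, ← lintegral_indicator measurableSet_Ioc]
  congr 1
  funext x
  unfold ext
  by_cases h : x ∈ Ioc 0 ω
  · rw [indicator_of_mem h, indicator_of_mem h]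
  · rw [indicator_of_notMem h, indicator_of_notMem h]; simp

lemma norm_sq_le {ω : ℝ} (hω : 0 ≤ ω) {U : L2 ω} {A B v : ℝ} (hA : 0 ≤ A) (hB : 0 ≤ B)
    (hv0 : 0 ≤ v) {s : Set ℝ}
    (hs : MeasurableSet s) (h : ∀ᵐ x ∂(mu ω), ‖U x‖ ^ 2 ≤ A + s.indicator (fun _ => B) x)
    (hv : volume s ≤ ENNReal.ofReal v) : ‖U‖ ^ 2 ≤ A * ω + B * v := by
  have h1 : ‖U‖ₑ ^ 2 ≤ ENNReal.ofReal (A * ω + B * v) := by
    rw [enorm_sq_eq]
    calc ∫⁻ x, ‖U x‖ₑ ^ 2 ∂(mu ω)
        ≤ ∫⁻ x, (ENNReal.ofReal A + s.indicator (fun _ => ENNReal.ofReal B) x) ∂(mu ω) := by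
          apply lintegral_mono_ae
          filter_upwards [h] with x hx
          rw [← ofReal_norm, ← ENNReal.ofReal_pow (norm_nonneg _)]
          by_cases hxs : x ∈ s
          · rw [indicator_of_mem hxs] at hx ⊢
            rw [← ENNReal.ofReal_add hA hB]
            exact ENNReal.ofReal_le_ofReal hx
          · rw [indicator_of_notMem hxs] at hx ⊢
            rw [add_zero] at hx ⊢
            exact ENNReal.ofReal_le_ofReal hx
      _ = ENNReal.ofReal A * (mu ω) univ + ENNReal.ofReal B * (mu ω) s := by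
          rw [lintegral_add_left measurable_const, lintegral_const, lintegral_indicator hs,
            setLIntegral_const]
      _ ≤ ENNReal.ofReal A * ENNReal.ofReal ω + ENNReal.ofReal B * ENNReal.ofReal v := by
          gcongr
          · rw [Measure.restrict_apply_univ, Real.volume_Ioc, sub_zero]
          · exact (Measure.restrict_le_self _).trans hv
      _ = ENNReal.ofReal (A * ω + B * v) := by
          rw [← ENNReal.ofReal_mul hA, ← ENNReal.ofReal_mul hB, ← ENNReal.ofReal_add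
            (by positivity) (by positivity)]
  rw [← ofReal_norm, ← ENNReal.ofReal_pow (norm_nonneg _)] at h1
  exact (ENNReal.ofReal_le_ofReal_iff (by positivity)).mp h1

lemma norm_le_of_bound {ω : ℝ} (hω : 0 ≤ ω) {U : L2 ω} {c : ℝ} (hc : 0 ≤ c)
    (h : ∀ᵐ x ∂(mu ω), ‖U x‖ ≤ c) : ‖U‖ ≤ c * √ω := by
  have := norm_sq_le hω (U := U) (A := c ^ 2) (B := 0) (v := 0) (s := ∅) (by positivity) le_rfl
    le_rfl MeasurableSet.empty
    (by filter_upwards [h] with x hx; rw [indicator_empty, add_zero]; gcongr) (by simp)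
  rw [zero_mul, add_zero] at this
  have h2 : ‖U‖ ^ 2 ≤ (c * √ω) ^ 2 := by rw [mul_pow, Real.sq_sqrt hω]; exact this
  exact (pow_le_pow_iff_left₀ (norm_nonneg _) (by positivity) (by norm_num)).mp h2

lemma norm_proj_sub_proj_le {ω : ℝ} (hω : 0 ≤ ω) {V : L2 ω} {c : ℝ} (hc : 0 ≤ c)
    (h : ∀ᵐ x ∂(mu ω), ‖V x‖ ≤ c) {ξ ξ' : ℝ} (hξ : ξ ≤ ξ') :
    ‖proj ω ξ' V - proj ω ξ V‖ ≤ c * √(ξ' - ξ) := by
  have := norm_sq_le hω (U := proj ω ξ' V - proj ω ξ V) (A := 0) (B := c ^ 2) (v := ξ' - ξ)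
    (s := Ioc ξ ξ') le_rfl (by positivity) (by linarith) measurableSet_Ioc
    (by
      filter_upwards [h, Lp.coeFn_sub (proj ω ξ' V) (proj ω ξ V), proj_ae ω ξ' V, proj_ae ω ξ V,
        ae_restrict_mem measurableSet_Ioc] with x hx h1 h2 h3 h4
      rw [h1, Pi.sub_apply, h2, h3, zero_add]
      by_cases hx1 : x ≤ ξ
      · rw [indicator_of_mem (s := Icc 0 ξ') ⟨h4.1.le, hx1.trans hξ⟩,
          indicator_of_mem (s := Icc 0 ξ) ⟨h4.1.le, hx1⟩, sub_self, norm_zero,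
          indicator_of_notMem (fun h' => not_lt.mpr hx1 h'.1)]
        norm_num
      · by_cases hx2 : x ≤ ξ'
        · rw [indicator_of_mem (s := Icc 0 ξ') ⟨h4.1.le, hx2⟩,
            indicator_of_notMem (s := Icc 0 ξ) (fun h' => hx1 h'.2), sub_zero,
            indicator_of_mem (s := Ioc ξ ξ') ⟨not_le.mp hx1, hx2⟩]
          gcongr
        · rw [indicator_of_notMem (s := Icc 0 ξ') (fun h' => hx2 h'.2),
            indicator_of_notMem (s := Icc 0 ξ) (fun h' => hx1 h'.2), sub_zero, norm_zero,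
            indicator_of_notMem (s := Ioc ξ ξ') (fun h' => hx2 h'.2)]
          norm_num)
    (by rw [Real.volume_Ioc])
  rw [zero_mul, zero_add] at this
  have h2 : ‖proj ω ξ' V - proj ω ξ V‖ ^ 2 ≤ (c * √(ξ' - ξ)) ^ 2 := by
    rw [mul_pow, Real.sq_sqrt (by linarith)]; exact this
  exact (pow_le_pow_iff_left₀ (norm_nonneg _) (by positivity) (by norm_num)).mp h2

/-! ### Nice operators -/

/-- Operators with a pointwise defined, Hölder continuous image, which are antisymmetric for the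
bilinear pairing. -/
structure Nice {ω : ℝ} (T : L2 ω →L[ℂ] L2 ω) (ev : L2 ω → ℝ → ℂ) (C : ℝ) : Prop where
  nonneg : 0 ≤ C
  ae : ∀ U, (T U : ℝ → ℂ) =ᵐ[mu ω] ev U
  bd : ∀ U x, ‖ev U x‖ ≤ C * ‖U‖
  hol : ∀ U x y, ‖ev U x - ev U y‖ ≤ C * √|x - y| * ‖U‖
  sub : ∀ U V x, ev (U - V) x = ev U x - ev V x
  anti : ∀ U V, pair (T U) V = - pair U (T V)

lemma Nice.neg {ω : ℝ} {T : L2 ω →L[ℂ] L2 ω} {ev : L2 ω → ℝ → ℂ} {C : ℝ} (h : Nice T ev C) :
    Nice (-T) (fun U x => - ev U x) C where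
  nonneg := h.nonneg
  ae := by
    intro U
    rw [_root_.neg_apply]
    filter_upwards [Lp.coeFn_neg (T U), h.ae U] with x h1 h2
    rw [h1, Pi.neg_apply, h2]
  bd := by intro U x; rw [norm_neg]; exact h.bd U x
  hol := by
    intro U x y
    have : - ev U x - - ev U y = -(ev U x - ev U y) := by ring
    rw [this, norm_neg]; exact h.hol U x y
  sub := by intro U V x; rw [h.sub]; ring
  anti := by
    intro U V
    rw [_root_.neg_apply, _root_.neg_apply, pair_neg_left, h.anti, pair_comm U (-T V),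
      pair_neg_left, pair_comm (T V)]

/-- The pointwise defined solution `ũ(ξ, x) = φ(x) - (T U_ξ)(x)`. -/
noncomputable def sol {ω : ℝ} (T : L2 ω →L[ℂ] L2 ω) (ev : L2 ω → ℝ → ℂ) (φ : ℝ → ℂ) (f : L2 ω)
    (ξ x : ℝ) : ℂ := φ x - ev (Us T ξ f) x

section

variable {ω : ℝ} {T : L2 ω →L[ℂ] L2 ω} {ev : L2 ω → ℝ → ℂ} {C : ℝ}

lemma Us_ae (hN : Nice T ev C) (hT : ‖T‖ ≤ 1 / 2) {φ : ℝ → ℂ} {f : L2 ω}
    (hf : (f : ℝ → ℂ) =ᵐ[mu ω] φ) (ξ : ℝ) :
    (Us T ξ f : ℝ → ℂ) =ᵐ[mu ω] (Icc 0 ξ).indicator (sol T ev φ f ξ) := by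
  have h := Us_eq' hT ξ f
  have h1 := proj_ae ω ξ (f - T (Us T ξ f))
  rw [← h] at h1
  filter_upwards [h1, Lp.coeFn_sub f (T (Us T ξ f)), hf, hN.ae (Us T ξ f)] with x h1 h2 h3 h4
  rw [h1]
  by_cases hx : x ∈ Icc 0 ξ
  · rw [indicator_of_mem hx, indicator_of_mem hx, h2, Pi.sub_apply, h3, h4]; rfl
  · rw [indicator_of_notMem hx, indicator_of_notMem hx]

lemma ext_Us_ae (hN : Nice T ev C) (hT : ‖T‖ ≤ 1 / 2) {φ : ℝ → ℂ} {f : L2 ω}
    (hf : (f : ℝ → ℂ) =ᵐ[mu ω] φ) {ξ : ℝ} (hξ : ξ ≤ ω) :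
    ext (Us T ξ f) =ᵐ[volume] (Ioc 0 ξ).indicator (sol T ev φ f ξ) := by
  refine (ext_congr (Us_ae hN hT hf ξ)).trans (Eventually.of_forall fun x => ?_)
  by_cases hx : x ∈ Ioc 0 ξ
  · rw [indicator_of_mem hx, indicator_of_mem (s := Ioc 0 ω) ⟨hx.1, hx.2.trans hξ⟩,
      indicator_of_mem (s := Icc 0 ξ) ⟨hx.1.le, hx.2⟩]
  · rw [indicator_of_notMem hx]
    by_cases hx2 : x ∈ Ioc 0 ω
    · rw [indicator_of_mem hx2, indicator_of_notMem (s := Icc 0 ξ)]
      exact fun h => hx ⟨hx2.1, h.2⟩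
    · rw [indicator_of_notMem hx2]

/-- The exact difference formula. -/
lemma diff_formula (hN : Nice T ev C) (hT : ‖T‖ ≤ 1 / 2) {φ ψ : ℝ → ℂ} {f g : L2 ω}
    (hf : (f : ℝ → ℂ) =ᵐ[mu ω] φ) (hg : (g : ℝ → ℂ) =ᵐ[mu ω] ψ) {ξ ξ' : ℝ} (h0 : 0 ≤ ξ)
    (hξ : ξ ≤ ξ') (hξ' : ξ' ≤ ω) :
    pair (Us T ξ' f) g - pair (Us T ξ f) g =
      ∫ x in ξ..ξ', sol T ev φ f ξ' x * sol (-T) (fun U x => - ev U x) ψ g ξ x := by
  have hTn : ‖-T‖ ≤ 1 / 2 := by rw [norm_neg]; exact hT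
  set U' := Us T ξ' f with hU'
  set U := Us T ξ f with hU
  set W := Us (-T) ξ g with hW
  have e1 : proj ω ξ ((U' - U) + T (U' - U)) = 0 := by
    have a1 := Us_eq hT ξ' f
    have a2 := Us_eq hT ξ f
    have a3 : proj ω ξ (U' + proj ω ξ' (T U')) = proj ω ξ (proj ω ξ' f) := by
      rw [hU', a1]
    rw [map_add, proj_proj hξ, proj_proj hξ] at a3
    have a4 : proj ω ξ (U + proj ω ξ (T U)) = proj ω ξ (proj ω ξ f) := by
      rw [hU, a2]
    rw [map_add, proj_proj le_rfl, proj_proj le_rfl] at a4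
    have a5 : (U' - U) + T (U' - U) = (U' + T U') - (U + T U) := by
      rw [map_sub]; abel
    rw [a5, map_sub, map_add, map_add, a3, a4, sub_self]
  have e2 : pair ((U' - U) + T (U' - U)) W = 0 := by
    have : W = proj ω ξ W := (proj_Us hTn ξ g).symm
    rw [this, ← pair_proj, e1, pair_zero_left]
  have e3 : pair (U' - U) (W - T W) = 0 := by
    rw [pair_sub_right, ← neg_neg (pair (U' - U) (T W)), ← hN.anti, sub_neg_eq_add, ← e2,
      pair_add_left]
  have e4 : pair U' g - pair U g = pair (U' - U) (g - (W - T W)) := by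
    rw [pair_sub_right, e3, sub_zero, pair_sub_left]
  rw [e4]
  unfold pair
  rw [intervalIntegral.integral_of_le hξ, ← integral_indicator measurableSet_Ioc,
    ← integral_indicator measurableSet_Ioc]
  apply integral_congr_ae
  have f1 := Us_ae hN hT hf ξ'
  have f2 := Us_ae hN hT hf ξ
  have f3 := Us_ae hN.neg hTn hg ξ
  have f4 := Lp.coeFn_sub U' U
  have f5 := Lp.coeFn_sub g (W - T W)
  have f6 := Lp.coeFn_sub W (T W)
  have f7 := hN.ae W
  have fall : ∀ᵐ x ∂(mu ω), (U' - U : L2 ω) x * (g - (W - T W) : L2 ω) x =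
      (Ioc ξ ξ').indicator (fun x => sol T ev φ f ξ' x *
        sol (-T) (fun U x => - ev U x) ψ g ξ x) x := by
    have f8 : proj ω ξ (W - T W) = proj ω ξ g := by
      have := Us_eq hTn ξ g
      rw [← hW] at this
      rw [map_sub, ← this, _root_.neg_apply, map_neg, ← sub_eq_add_neg]
      congr 1
      exact (proj_Us hTn ξ g)
    have f9 := proj_ae ω ξ (W - T W)
    have f10 := proj_ae ω ξ g
    rw [f8] at f9
    filter_upwards [f1, f2, f3, f4, f5, f6, f7, f9, f10, hf, hg,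
      ae_restrict_mem measurableSet_Ioc] with x h1 h2 h3 h4 h5 h6 h7 h9 h10 hf hg hx
    rw [h4, h5, Pi.sub_apply, Pi.sub_apply]
    by_cases hx1 : x ≤ ξ
    · have hmem : x ∈ Icc 0 ξ := ⟨hx.1.le, hx1⟩
      rw [indicator_of_notMem (s := Ioc ξ ξ') (fun h' => not_lt.mpr hx1 h'.1)]
      rw [indicator_of_mem hmem] at h9 h10
      rw [← h10, h9, sub_self, mul_zero]
    · by_cases hx2 : x ≤ ξ'
      · rw [indicator_of_mem (s := Ioc ξ ξ') ⟨not_le.mp hx1, hx2⟩]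
        rw [h1, h2, indicator_of_mem (s := Icc 0 ξ') ⟨hx.1.le, hx2⟩,
          indicator_of_notMem (s := Icc 0 ξ) (fun h' => hx1 h'.2), sub_zero, h6, Pi.sub_apply,
          h3, indicator_of_notMem (s := Icc 0 ξ) (fun h' => hx1 h'.2), h7, hg]
        simp only [sol]
        ring
      · rw [indicator_of_notMem (s := Ioc ξ ξ') (fun h' => hx2 h'.2), h1, h2,
          indicator_of_notMem (s := Icc 0 ξ') (fun h' => hx2 h'.2),
          indicator_of_notMem (s := Icc 0 ξ) (fun h' => hx1 h'.2), sub_zero, zero_mul]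
  rw [ae_restrict_iff' measurableSet_Ioc] at fall
  filter_upwards [fall] with x hx
  by_cases h : x ∈ Ioc 0 ω
  · rw [indicator_of_mem h]; exact hx h
  · rw [indicator_of_notMem h, indicator_of_notMem]
    exact fun h' => h ⟨lt_of_le_of_lt h0 h'.1, h'.2.trans hξ'⟩

/-- modulus of continuity of `U_ξ` in `ξ` -/
lemma norm_Us_xi_le (hω : 0 ≤ ω) (hN : Nice T ev C) (hT : ‖T‖ ≤ 1 / 2) {φ : ℝ → ℂ} {f : L2 ω}
    (hf : (f : ℝ → ℂ) =ᵐ[mu ω] φ) {c : ℝ} (hc : 0 ≤ c) (hφ : ∀ x ∈ Icc 0 ω, ‖φ x‖ ≤ c)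
    (ξ ξ' : ℝ) :
    ‖Us T ξ' f - Us T ξ f‖ ≤ 2 * (c + C * (2 * ‖f‖)) * √|ξ' - ξ| := by
  wlog h : ξ ≤ ξ' generalizing ξ ξ'
  · have := this ξ' ξ (le_of_not_ge h)
    rwa [norm_sub_rev, abs_sub_comm]
  have h1 := norm_Us_sub_Us_le' hT h f
  have hb : ∀ᵐ x ∂(mu ω), ‖(f - T (Us T ξ f) : L2 ω) x‖ ≤ c + C * (2 * ‖f‖) := by
    filter_upwards [Lp.coeFn_sub f (T (Us T ξ f)), hf, hN.ae (Us T ξ f),
      ae_restrict_mem measurableSet_Ioc] with x h1 h2 h3 h4
    rw [h1, Pi.sub_apply, h2, h3]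
    refine (norm_sub_le _ _).trans (add_le_add (hφ x ⟨h4.1.le, h4.2⟩) ?_)
    exact (hN.bd _ _).trans (mul_le_mul_of_nonneg_left (norm_Us_le hT ξ f) hN.nonneg)
  have hc2 : 0 ≤ c + C * (2 * ‖f‖) := by have := hN.nonneg; positivity
  have h2 := norm_proj_sub_proj_le hω hc2 hb h
  rw [abs_of_nonneg (by linarith)]
  calc _ ≤ _ := h1
    _ ≤ 2 * ((c + C * (2 * ‖f‖)) * √(ξ' - ξ)) := mul_le_mul_of_nonneg_left h2 (by norm_num)
    _ = _ := by ring

lemma sol_modulus (hω : 0 ≤ ω) (hN : Nice T ev C) (hT : ‖T‖ ≤ 1 / 2) {φ : ℝ → ℂ} {f : L2 ω}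
    (hf : (f : ℝ → ℂ) =ᵐ[mu ω] φ) {c : ℝ} (hc : 0 ≤ c) (hφ : ∀ x ∈ Icc 0 ω, ‖φ x‖ ≤ c)
    (ξ ξ' x y : ℝ) :
    ‖sol T ev φ f ξ' x - sol T ev φ f ξ y‖ ≤ ‖φ x - φ y‖ + C * √|x - y| * (2 * ‖f‖) +
      C * (2 * (c + C * (2 * ‖f‖)) * √|ξ' - ξ|) := by
  have e : sol T ev φ f ξ' x - sol T ev φ f ξ y = (φ x - φ y) -
      (ev (Us T ξ' f) x - ev (Us T ξ' f) y) - ev (Us T ξ' f - Us T ξ f) y := by
    rw [hN.sub]; unfold sol; ring
  rw [e]
  refine (norm_sub_le _ _).trans (add_le_add ((norm_sub_le _ _).trans (add_le_add le_rfl ?_)) ?_)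
  · refine (hN.hol _ _ _).trans ?_
    have := hN.nonneg
    exact mul_le_mul_of_nonneg_left (norm_Us_le hT ξ' f) (by positivity)
  · exact (hN.bd _ _).trans (mul_le_mul_of_nonneg_left
      (norm_Us_xi_le hω hN hT hf hc hφ ξ ξ') hN.nonneg)

lemma norm_sol_le (hN : Nice T ev C) (hT : ‖T‖ ≤ 1 / 2) {φ : ℝ → ℂ} {f : L2 ω}
    {c : ℝ} (hφ : ∀ x ∈ Icc 0 ω, ‖φ x‖ ≤ c)
    (ξ : ℝ) {x : ℝ} (hx : x ∈ Icc 0 ω) :
    ‖sol T ev φ f ξ x‖ ≤ c + C * (2 * ‖f‖) := by
  unfold sol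
  refine (norm_sub_le _ _).trans (add_le_add (hφ x hx) ?_)
  exact (hN.bd _ _).trans (mul_le_mul_of_nonneg_left (norm_Us_le hT ξ f) hN.nonneg)

lemma exists_bound_cont {φ : ℝ → ℂ} (hφc : Continuous φ) (ω : ℝ) :
    ∃ c : ℝ, 0 ≤ c ∧ ∀ x ∈ Icc 0 ω, ‖φ x‖ ≤ c := by
  obtain ⟨c, hc⟩ := (isCompact_Icc (a := (0:ℝ)) (b := ω)).exists_bound_of_continuousOn
    hφc.continuousOn
  exact ⟨max c 0, le_max_right _ _, fun x hx => (hc x hx).trans (le_max_left _ _)⟩

/-- joint continuity of the solution -/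
lemma continuous_sol (hω : 0 ≤ ω) (hN : Nice T ev C) (hT : ‖T‖ ≤ 1 / 2) {φ : ℝ → ℂ}
    (hφc : Continuous φ) {f : L2 ω} (hf : (f : ℝ → ℂ) =ᵐ[mu ω] φ) :
    Continuous (fun p : ℝ × ℝ => sol T ev φ f p.1 p.2) := by
  obtain ⟨c, hc, hφ⟩ := exists_bound_cont hφc ω
  rw [continuous_iff_continuousAt]
  rintro ⟨ξ, y⟩
  rw [ContinuousAt, tendsto_iff_norm_sub_tendsto_zero]
  refine squeeze_zero (fun _ => norm_nonneg _)
    (fun p => sol_modulus hω hN hT hf hc hφ ξ p.1 p.2 y) ?_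
  have : Continuous (fun p : ℝ × ℝ => ‖φ p.2 - φ y‖ + C * √|p.2 - y| * (2 * ‖f‖) +
      C * (2 * (c + C * (2 * ‖f‖)) * √|p.1 - ξ|)) := by fun_prop
  have h2 := this.tendsto (ξ, y)
  simpa using h2

/-- The bilinear form is the primitive of the product of the right-end values. -/
lemma pair_Us_eq_integral (hω : 0 ≤ ω) (hN : Nice T ev C) (hT : ‖T‖ ≤ 1 / 2) {φ ψ : ℝ → ℂ}
    (hφc : Continuous φ) (hψc : Continuous ψ) {f g : L2 ω}
    (hf : (f : ℝ → ℂ) =ᵐ[mu ω] φ) (hg : (g : ℝ → ℂ) =ᵐ[mu ω] ψ) {ξ : ℝ} (h0 : 0 ≤ ξ)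
    (hξ : ξ ≤ ω) :
    pair (Us T ξ f) g = ∫ t in (0:ℝ)..ξ, sol T ev φ f t t *
      sol (-T) (fun U x => - ev U x) ψ g t t := by
  have hTn : ‖-T‖ ≤ 1 / 2 := by rw [norm_neg]; exact hT
  have hc1 := continuous_sol hω hN hT hφc hf
  have hc2 := continuous_sol hω hN.neg hTn hψc hg
  obtain ⟨c, hc, hφ⟩ := exists_bound_cont hφc ω
  have hcont : Continuous (fun ξ => pair (Us T ξ f) g) := by
    have hU : Continuous (fun ξ => Us T ξ f) := by
      rw [continuous_iff_continuousAt]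
      intro ξ
      rw [ContinuousAt, tendsto_iff_norm_sub_tendsto_zero]
      refine squeeze_zero (fun _ => norm_nonneg _)
        (fun p => norm_Us_xi_le hω hN hT hf hc hφ ξ p) ?_
      have : Continuous (fun p : ℝ => 2 * (c + C * (2 * ‖f‖)) * √|p - ξ|) := by fun_prop
      simpa using this.tendsto ξ
    rw [continuous_iff_continuousAt]
    intro ξ
    rw [ContinuousAt, tendsto_iff_norm_sub_tendsto_zero]
    refine squeeze_zero (fun _ => norm_nonneg _) (g := fun p => ‖Us T p f - Us T ξ f‖ * ‖g‖)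
      (fun p => by rw [← pair_sub_left]; exact norm_pair_le _ _) ?_
    have := (tendsto_iff_norm_sub_tendsto_zero.mp (hU.tendsto ξ)).mul_const ‖g‖
    simpa using this
  have hzero : pair (Us T 0 f) g = 0 := by
    have : Us T 0 f = 0 := by
      have h1 := Us_ae hN hT hf 0
      apply Lp.ext
      filter_upwards [h1, Lp.coeFn_zero ℂ 2 (mu ω), ae_restrict_mem measurableSet_Ioc] with x h1 h2 h3
      rw [h1, h2, indicator_of_notMem (fun h' => not_le.mpr h3.1 h'.2)]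
      rfl
    rw [this, pair_zero_left]
  have hd1 : Continuous (fun t : ℝ => sol T ev φ f t t) :=
    hc1.comp (continuous_id.prodMk continuous_id)
  have hd2 : Continuous (fun t : ℝ => sol (-T) (fun U x => - ev U x) ψ g t t) :=
    hc2.comp (continuous_id.prodMk continuous_id)
  have key := intervalIntegral.integral_eq_sub_of_hasDeriv_right_of_le h0
    (f := fun ξ => pair (Us T ξ f) g)
    (f' := fun t => sol T ev φ f t t * sol (-T) (fun U x => - ev U x) ψ g t t)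
    hcont.continuousOn ?_ ((show Continuous (fun t => sol T ev φ f t t *
      sol (-T) (fun U x => - ev U x) ψ g t t) from hd1.mul hd2).intervalIntegrable _ _)
  · rw [key, hzero, sub_zero]
  · intro s hs
    rw [hasDerivWithinAt_iff_isLittleO, Asymptotics.isLittleO_iff]
    intro δ hδ
    -- joint continuity of the integrand
    have hcc : Continuous (fun p : ℝ × ℝ => sol T ev φ f p.1 p.2 *
        sol (-T) (fun U x => - ev U x) ψ g s p.2) := by
      exact hc1.mul (hc2.comp (continuous_const.prodMk continuous_snd))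
    have hcat := hcc.continuousAt (x := (s, s))
    rw [Metric.continuousAt_iff] at hcat
    obtain ⟨r, hr, hcat⟩ := hcat δ hδ
    have hsω : s < ω := lt_of_lt_of_le hs.2 hξ
    have hmem : Ioo s (min ω (s + r)) ∈ 𝓝[>] s := by
      apply Ioo_mem_nhdsGT
      exact lt_min hsω (by linarith)
    filter_upwards [hmem] with s' hs'
    have h1 := diff_formula hN hT hf hg (hs.1.le) hs'.1.le (hs'.2.le.trans (min_le_left _ _))
    have h2 : s' - s = ∫ _x in s..s', (1:ℝ) := by simp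
    rw [h1]
    have h3 : (∫ x in s..s', sol T ev φ f s' x * sol (-T) (fun U x => - ev U x) ψ g s x) -
        (s' - s) • (sol T ev φ f s s * sol (-T) (fun U x => - ev U x) ψ g s s) =
        ∫ x in s..s', (sol T ev φ f s' x * sol (-T) (fun U x => - ev U x) ψ g s x -
          sol T ev φ f s s * sol (-T) (fun U x => - ev U x) ψ g s s) := by
      rw [intervalIntegral.integral_sub, intervalIntegral.integral_const]
      · exact (hcc.comp (continuous_const.prodMk continuous_id)).intervalIntegrable _ _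
      · exact intervalIntegrable_const
    rw [h3, Real.norm_eq_abs]
    apply intervalIntegral.norm_integral_le_of_norm_le_const
    intro x hx
    rw [uIoc_of_le hs'.1.le] at hx
    have h4 : dist ((s', x) : ℝ × ℝ) (s, s) < r := by
      have h5 : s' < s + r := lt_of_lt_of_le hs'.2 (min_le_right _ _)
      rw [Prod.dist_eq, Real.dist_eq, Real.dist_eq]
      apply max_lt
      · rw [abs_of_pos (by linarith [hs'.1])]; linarith
      · rw [abs_of_pos (by linarith [hx.1])]; linarith [hx.2]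
    have := hcat h4
    rw [dist_eq_norm] at this
    exact this.le

end

end Pool.Agent.Results.MP_8e7914_an.NoFactorization
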