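import Pool.Agent.Helper593.Fac5

open MeasureTheory Set Filter
open scoped ENNReal NNReal Topology Interval ComplexConjugate

namespace Pool.Agent.Results.MP_8e7914_an.NoFactorization

/-! ### Hölder estimates for `K_a U` -/

lemma norm_integral_ext_le {ω : ℝ} (U : L2 ω) (u v : ℝ) :
    ‖∫ t in u..v, ext U t‖ ≤ √|u - v| * ‖U‖ := by
  wlog h : u ≤ v generalizing u v
  · have := this v u (le_of_not_ge h)
    rwa [intervalIntegral.integral_symm, norm_neg, abs_sub_comm] at this
  rw [intervalIntegral.integral_of_le h]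
  have h1 : ‖∫ t in Ioc u v, ext U t‖ₑ ≤ ENNReal.ofReal (√|u - v| * ‖U‖) := by
    refine (enorm_integral_le_lintegral_enorm _).trans ?_
    have h2 := sq_lintegral_le (Ioc u v) (ext_memLp U).1
    have h3 : ∫⁻ t in Ioc u v, ‖ext U t‖ₑ ^ 2 ≤ ‖U‖ₑ ^ 2 := by
      rw [← lintegral_ext_sq]; exact setLIntegral_le_lintegral _ _
    have h4 : (∫⁻ t in Ioc u v, ‖ext U t‖ₑ) ^ 2 ≤ (ENNReal.ofReal (√|u - v| * ‖U‖)) ^ 2 := by
      refine h2.trans ?_
      rw [Real.volume_Ioc, ENNReal.ofReal_mul (by positivity), mul_pow]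
      have e1 : ENNReal.ofReal √|u - v| ^ 2 = ENNReal.ofReal (v - u) := by
        rw [← ENNReal.ofReal_pow (by positivity), Real.sq_sqrt (abs_nonneg _), abs_sub_comm,
          abs_of_nonneg (by linarith)]
      rw [e1, ofReal_norm]
      gcongr
    exact (ENNReal.pow_le_pow_left_iff two_ne_zero).mp h4
  rw [← ofReal_norm] at h1
  exact (ENNReal.ofReal_le_ofReal_iff (by positivity)).mp h1

lemma norm_KK_ext_le {ω a : ℝ} (ha : 0 < a) (U : L2 ω) (x : ℝ) :
    ‖KK a (ext U) x‖ ≤ 2 * eps / √a * ‖U‖ := by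
  unfold KK
  rw [norm_mul, Complex.norm_real, Real.norm_eq_abs, abs_of_pos (div_pos eps_pos ha)]
  have h1 := norm_integral_ext_le U (x - a) x
  have h2 := norm_integral_ext_le U x (x + a)
  have e1 : |x - a - x| = a := by
    rw [sub_sub_cancel_left, abs_neg, abs_of_pos ha]
  have e2 : |x - (x + a)| = a := by
    rw [sub_add_cancel_left, abs_neg, abs_of_pos ha]
  rw [e1] at h1
  rw [e2] at h2
  have hsa : 0 < √a := Real.sqrt_pos.mpr ha
  calc eps / a * ‖(∫ t in (x - a)..x, ext U t) - ∫ t in x..(x + a), ext U t‖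
      ≤ eps / a * (√a * ‖U‖ + √a * ‖U‖) := by
        refine mul_le_mul_of_nonneg_left ?_ (div_pos eps_pos ha).le
        exact (norm_sub_le _ _).trans (add_le_add h1 h2)
    _ = 2 * eps / √a * ‖U‖ := by
        have hs : √a * √a = a := Real.mul_self_sqrt ha.le
        rw [div_mul_eq_mul_div, div_mul_eq_mul_div, div_eq_div_iff ha.ne' hsa.ne']
        calc eps * (√a * ‖U‖ + √a * ‖U‖) * √a = 2 * eps * ‖U‖ * (√a * √a) := by ring
          _ = _ := by rw [hs]

lemma norm_KK_ext_sub_le {ω a : ℝ} (ha : 0 < a) (U : L2 ω) (x y : ℝ) :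
    ‖KK a (ext U) x - KK a (ext U) y‖ ≤ 4 * eps / a * √|x - y| * ‖U‖ := by
  have hi : ∀ u v : ℝ, IntervalIntegrable (ext U) volume u v := fun u v =>
    (ext_integrable U).intervalIntegrable
  have e : KK a (ext U) x - KK a (ext U) y = ((eps / a : ℝ) : ℂ) *
      (2 * (∫ t in y..x, ext U t) - (∫ t in (y - a)..(x - a), ext U t) -
        ∫ t in (y + a)..(x + a), ext U t) := by
    unfold KK
    have i1 : (∫ t in (x - a)..x, ext U t) = (∫ t in (x - a)..(y - a), ext U t) +
        (∫ t in (y - a)..y, ext U t) + ∫ t in y..x, ext U t := by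
      rw [intervalIntegral.integral_add_adjacent_intervals (hi _ _) (hi _ _),
        intervalIntegral.integral_add_adjacent_intervals (hi _ _) (hi _ _)]
    have i2 : (∫ t in x..(x + a), ext U t) = (∫ t in x..y, ext U t) +
        (∫ t in y..(y + a), ext U t) + ∫ t in (y + a)..(x + a), ext U t := by
      rw [intervalIntegral.integral_add_adjacent_intervals (hi _ _) (hi _ _),
        intervalIntegral.integral_add_adjacent_intervals (hi _ _) (hi _ _)]
    rw [i1, i2, intervalIntegral.integral_symm (x - a) (y - a), intervalIntegral.integral_symm x y]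
    ring
  rw [e, norm_mul, Complex.norm_real, Real.norm_eq_abs, abs_of_pos (div_pos eps_pos ha)]
  have h1 := norm_integral_ext_le U y x
  have h2 := norm_integral_ext_le U (y - a) (x - a)
  have h3 := norm_integral_ext_le U (y + a) (x + a)
  have e1 : |y - x| = |x - y| := abs_sub_comm _ _
  have e2 : |y - a - (x - a)| = |x - y| := by rw [sub_sub_sub_cancel_right, abs_sub_comm]
  have e3 : |y + a - (x + a)| = |x - y| := by rw [add_sub_add_right_eq_sub, abs_sub_comm]
  rw [e1] at h1
  rw [e2] at h2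
  rw [e3] at h3
  calc eps / a * ‖2 * (∫ t in y..x, ext U t) - (∫ t in (y - a)..(x - a), ext U t) -
        ∫ t in (y + a)..(x + a), ext U t‖
      ≤ eps / a * (2 * (√|x - y| * ‖U‖) + √|x - y| * ‖U‖ + √|x - y| * ‖U‖) := by
        refine mul_le_mul_of_nonneg_left ?_ (div_pos eps_pos ha).le
        refine (norm_sub_le _ _).trans (add_le_add ((norm_sub_le _ _).trans (add_le_add ?_ h2)) h3)
        rw [norm_mul]
        simp only [Complex.norm_ofNat]
        exact mul_le_mul_of_nonneg_left h1 (by norm_num)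
    _ = 4 * eps / a * √|x - y| * ‖U‖ := by ring

/-! ### Finite sums of the `K_a` -/

/-- `T_l = ∑_{a ∈ l} K_a`. -/
noncomputable def Tl (ω : ℝ) (l : List ℝ) : L2 ω →L[ℂ] L2 ω := (l.map (Kop ω)).sum

/-- pointwise version of `T_l U` -/
noncomputable def evl {ω : ℝ} (l : List ℝ) (U : L2 ω) (x : ℝ) : ℂ :=
  (l.map fun a => KK a (ext U) x).sum

/-- the constant for `T_l` -/
noncomputable def cst (l : List ℝ) : ℝ := (l.map fun a => 4 * eps / a + 2 * eps / √a).sum

lemma Tl_nil (ω : ℝ) : Tl ω [] = 0 := rfl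

lemma Tl_cons (ω a : ℝ) (l : List ℝ) : Tl ω (a :: l) = Kop ω a + Tl ω l := by
  simp [Tl]

lemma evl_cons {ω : ℝ} (a : ℝ) (l : List ℝ) (U : L2 ω) (x : ℝ) :
    evl (a :: l) U x = KK a (ext U) x + evl l U x := by
  simp [evl]

lemma cst_cons (a : ℝ) (l : List ℝ) :
    cst (a :: l) = (4 * eps / a + 2 * eps / √a) + cst l := by
  simp [cst]

lemma nice_Tl (ω : ℝ) (l : List ℝ) (hl : ∀ a ∈ l, 0 < a) :
    Nice (Tl ω l) (evl l) (cst l) := by
  induction l with
  | nil =>
    refine ⟨by simp [cst], ?_, ?_, ?_, ?_, ?_⟩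
    · intro U
      rw [Tl_nil, _root_.zero_apply]
      filter_upwards [Lp.coeFn_zero ℂ 2 (mu ω)] with x hx
      rw [hx]; simp [evl]
    · intro U x; simp [evl, cst]
    · intro U x y; simp [evl, cst]
    · intro U V x; simp [evl]
    · intro U V
      rw [Tl_nil, _root_.zero_apply, _root_.zero_apply, pair_zero_left, pair_comm, pair_zero_left,
        neg_zero]
  | cons a l ih =>
    have ha : 0 < a := hl a (List.mem_cons_self)
    have ih := ih (fun b hb => hl b (List.mem_cons_of_mem _ hb))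
    have hsa : 0 < √a := Real.sqrt_pos.mpr ha
    have he := eps_pos
    refine ⟨?_, ?_, ?_, ?_, ?_, ?_⟩
    · rw [cst_cons]
      have := ih.nonneg
      positivity
    · intro U
      rw [Tl_cons, _root_.add_apply]
      filter_upwards [Lp.coeFn_add (Kop ω a U) (Tl ω l U), Kop_ae ha U, ih.ae U] with x h1 h2 h3
      rw [h1, Pi.add_apply, h2, h3, evl_cons]
    · intro U x
      rw [evl_cons, cst_cons]
      refine (norm_add_le _ _).trans ?_
      rw [add_mul]
      refine add_le_add ?_ (ih.bd U x)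
      refine (norm_KK_ext_le ha U x).trans ?_
      refine mul_le_mul_of_nonneg_right ?_ (norm_nonneg _)
      have : 0 ≤ 4 * eps / a := by positivity
      linarith
    · intro U x y
      rw [evl_cons, evl_cons, cst_cons]
      have e : KK a (ext U) x + evl l U x - (KK a (ext U) y + evl l U y) =
        (KK a (ext U) x - KK a (ext U) y) + (evl l U x - evl l U y) := by ring
      rw [e]
      refine (norm_add_le _ _).trans ?_
      rw [add_mul, add_mul]
      refine add_le_add ?_ (ih.hol U x y)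
      refine (norm_KK_ext_sub_le ha U x y).trans ?_
      refine mul_le_mul_of_nonneg_right ?_ (norm_nonneg _)
      refine mul_le_mul_of_nonneg_right ?_ (Real.sqrt_nonneg _)
      have : 0 ≤ 2 * eps / √a := by positivity
      linarith
    · intro U V x
      rw [evl_cons, evl_cons, evl_cons, KK_ext_sub, ih.sub]
      ring
    · intro U V
      rw [Tl_cons, _root_.add_apply, _root_.add_apply, pair_add_left, pair_add_right, ih.anti]
      have := Kop_antisymm ω a U V
      change pair (Kop ω a U) V = - pair U (Kop ω a V) at this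
      rw [this]
      ring

/-- signed version -/
noncomputable def opS (ω : ℝ) (σ : ℂ) (l : List ℝ) : L2 ω →L[ℂ] L2 ω := σ • Tl ω l

/-- signed version -/
noncomputable def evS {ω : ℝ} (σ : ℂ) (l : List ℝ) (U : L2 ω) (x : ℝ) : ℂ := σ * evl l U x

lemma nice_opS (ω : ℝ) {σ : ℂ} (hσ : ‖σ‖ = 1) {l : List ℝ} (hl : ∀ a ∈ l, 0 < a) :
    Nice (opS ω σ l) (evS σ l) (cst l) := by
  have h := nice_Tl ω l hl
  refine ⟨h.nonneg, ?_, ?_, ?_, ?_, ?_⟩
  · intro U
    unfold opS
    rw [_root_.smul_apply]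
    filter_upwards [Lp.coeFn_smul σ (Tl ω l U), h.ae U] with x h1 h2
    rw [h1, Pi.smul_apply, h2, smul_eq_mul]
    rfl
  · intro U x
    unfold evS
    rw [norm_mul, hσ, one_mul]
    exact h.bd U x
  · intro U x y
    unfold evS
    rw [← mul_sub, norm_mul, hσ, one_mul]
    exact h.hol U x y
  · intro U V x
    unfold evS
    rw [h.sub]
    ring
  · intro U V
    unfold opS
    rw [_root_.smul_apply, _root_.smul_apply, pair_smul_left, pair_smul_right, h.anti]
    ring

lemma norm_opS (ω : ℝ) {σ : ℂ} (hσ : ‖σ‖ = 1) (l : List ℝ) : ‖opS ω σ l‖ = ‖Tl ω l‖ := by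
  unfold opS
  rw [norm_smul, hσ, one_mul]

lemma opS_cons_apply (ω : ℝ) (σ : ℂ) (a : ℝ) (l : List ℝ) (U : L2 ω) :
    opS ω σ (a :: l) U = σ • Kop ω a U + opS ω σ l U := by
  unfold opS
  rw [Tl_cons, smul_add]
  rfl

lemma evS_cons {ω : ℝ} (σ : ℂ) (a : ℝ) (l : List ℝ) (U : L2 ω) (x : ℝ) :
    evS σ (a :: l) U x = σ * KK a (ext U) x + evS σ l U x := by
  unfold evS
  rw [evl_cons]
  ring

/-- `K_a` is small on functions with a small oscillation at scale `a`. -/
lemma norm_Kop_sq_le {ω a : ℝ} (ha : 0 < a) {ξ : ℝ} (h0 : 0 ≤ ξ) (hξ : ξ ≤ ω)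
    {U : L2 ω} {v : ℝ → ℂ} (hU : ext U =ᵐ[volume] (Ioc 0 ξ).indicator v) {c δ : ℝ}
    (hc : 0 ≤ c)
    (hv : ∀ x ∈ Ioc 0 ξ, ‖v x‖ ≤ c)
    (hv2 : ∀ x ∈ Ioc 0 ξ, ∀ y ∈ Ioc 0 ξ, |x - y| ≤ a → ‖v x - v y‖ ≤ δ) :
    ‖Kop ω a U‖ ^ 2 ≤ (2 * eps * δ) ^ 2 * ω + (2 * eps * c) ^ 2 * (3 * a) := by
  have hω : 0 ≤ ω := h0.trans hξ
  have he := eps_pos
  apply norm_sq_le hω (s := Ioo 0 a ∪ Ioc (ξ - a) (ξ + a)) (by positivity) (by positivity)
    (by positivity) (measurableSet_Ioo.union measurableSet_Ioc)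
  · filter_upwards [Kop_ae ha U, ae_restrict_mem measurableSet_Ioc] with x hx hx2
    rw [hx]
    by_cases hxs : x ∈ Ioo 0 a ∪ Ioc (ξ - a) (ξ + a)
    · rw [indicator_of_mem hxs]
      have h1 : ‖KK a (ext U) x‖ ≤ 2 * eps * c := by
        apply norm_KK_le ha
        filter_upwards [hU] with t ht _
        rw [ht]
        by_cases h : t ∈ Ioc 0 ξ
        · rw [indicator_of_mem h]; exact hv t h
        · rw [indicator_of_notMem h, norm_zero]; exact hc
      have h2 : ‖KK a (ext U) x‖ ^ 2 ≤ (2 * eps * c) ^ 2 := by gcongr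
      have h3 : 0 ≤ (2 * eps * δ) ^ 2 := sq_nonneg _
      linarith
    · rw [indicator_of_notMem hxs, add_zero]
      rw [mem_union, not_or] at hxs
      have h1 : a ≤ x := by
        by_contra h
        exact hxs.1 ⟨hx2.1, not_le.mp h⟩
      by_cases h2 : x ≤ ξ - a
      · have h3 : ‖KK a (ext U) x‖ ≤ 2 * eps * δ := by
          apply norm_KK_le_of_near ha (ext_integrable U) (v x)
          filter_upwards [hU] with t ht ht2
          have ht3 : t ∈ Ioc 0 ξ := ⟨by linarith [ht2.1], by linarith [ht2.2]⟩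
          rw [ht, indicator_of_mem ht3]
          apply hv2 t ht3 x ⟨hx2.1, by linarith⟩
          rw [abs_le]
          exact ⟨by linarith [ht2.1], by linarith [ht2.2]⟩
        gcongr
      · have h3 : ξ + a < x := by
          by_contra h
          exact hxs.2 ⟨not_le.mp h2, not_lt.mp h⟩
        have h4 : KK a (ext U) x = 0 := by
          apply KK_eq_zero ha
          filter_upwards [hU] with t ht ht2
          rw [ht, indicator_of_notMem]
          intro h
          linarith [ht2.1, h.2]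
        rw [h4, norm_zero, zero_pow two_ne_zero]
        positivity
  · refine (measure_union_le _ _).trans ?_
    rw [Real.volume_Ioo, Real.volume_Ioc, ← ENNReal.ofReal_add (by linarith) (by linarith)]
    apply ENNReal.ofReal_le_ofReal
    linarith

end Pool.Agent.Results.MP_8e7914_an.NoFactorization
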