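import Pool.Agent.Helper593.Fac6

open MeasureTheory Set Filter
open scoped ENNReal NNReal Topology Interval ComplexConjugate

namespace Pool.Agent.Results.MP_8e7914_an.NoFactorization

/-! ### Almost orthogonality -/

lemma almost_orthogonal {H : Type*} [NormedAddCommGroup H] [InnerProductSpace ℂ H]
    (T K : H →L[ℂ] H) (hT : ∀ x y, inner ℂ (T x) y = - inner ℂ x (T y))
    (hK : ∀ x y, inner ℂ (K x) y = - inner ℂ x (K y)) {m δ : ℝ} (hm : 0 ≤ m) (hδ : 0 ≤ δ)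
    (hTm : ‖T‖ ≤ m) (hKm : ‖K‖ ≤ m) (hKT : ∀ x, ‖K (T x)‖ ≤ δ * ‖x‖) (x : H) :
    ‖(T + K) x‖ ^ 2 ≤ (m ^ 2 + 4 * δ) * ‖x‖ ^ 2 := by
  have hTx : ∀ y, ‖T y‖ ≤ m * ‖y‖ := fun y => (T.le_opNorm y).trans
    (mul_le_mul_of_nonneg_right hTm (norm_nonneg _))
  have hKx : ∀ y, ‖K y‖ ≤ m * ‖y‖ := fun y => (K.le_opNorm y).trans
    (mul_le_mul_of_nonneg_right hKm (norm_nonneg _))
  set q : ℝ := ‖T x‖ ^ 2 + ‖K x‖ ^ 2 with hq
  set n : ℝ := ‖x‖ ^ 2 with hn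
  have hn0 : 0 ≤ n := sq_nonneg _
  have hq0 : 0 ≤ q := by positivity
  -- q ≤ ‖T²x + K²x‖ ‖x‖
  have h1 : q ≤ ‖T (T x) + K (K x)‖ * ‖x‖ := by
    have e1 : inner ℂ (T x) (T x) = - inner ℂ x (T (T x)) := hT x (T x)
    have e2 : inner ℂ (K x) (K x) = - inner ℂ x (K (K x)) := hK x (K x)
    have e3 : ((q : ℝ) : ℂ) = - inner ℂ x (T (T x) + K (K x)) := by
      rw [inner_add_right, neg_add, ← e1, ← e2, inner_self_eq_norm_sq_to_K,
        inner_self_eq_norm_sq_to_K, hq]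
      push_cast
      rfl
    calc q = ‖((q : ℝ) : ℂ)‖ := by rw [Complex.norm_real, Real.norm_eq_abs, abs_of_nonneg hq0]
      _ = ‖inner ℂ x (T (T x) + K (K x))‖ := by rw [e3, norm_neg]
      _ ≤ ‖x‖ * ‖T (T x) + K (K x)‖ := norm_inner_le_norm _ _
      _ = _ := mul_comm _ _
  have h2 : ‖T (T x) + K (K x)‖ ^ 2 ≤ m ^ 2 * q + 2 * (δ * m ^ 2 * n) := by
    have e1 : ‖T (T x) + K (K x)‖ ^ 2 = ‖T (T x)‖ ^ 2 +
        2 * RCLike.re (inner ℂ (T (T x)) (K (K x))) + ‖K (K x)‖ ^ 2 :=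
      norm_add_sq (𝕜 := ℂ) _ _
    have e2 : RCLike.re (inner ℂ (T (T x)) (K (K x))) ≤ δ * m ^ 2 * n := by
      have e3 : inner ℂ (T (T x)) (K (K x)) = - inner ℂ (K (T (T x))) (K x) := by
        rw [hK (T (T x)) (K x), neg_neg]
      have e4 : ‖inner ℂ (T (T x)) (K (K x))‖ ≤ δ * m ^ 2 * n := by
        rw [e3, norm_neg]
        calc ‖inner ℂ (K (T (T x))) (K x)‖ ≤ ‖K (T (T x))‖ * ‖K x‖ := norm_inner_le_norm _ _
          _ ≤ (δ * (m * ‖x‖)) * (m * ‖x‖) := by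
              refine mul_le_mul ((hKT _).trans (mul_le_mul_of_nonneg_left (hTx x) hδ)) (hKx x)
                (norm_nonneg _) (by positivity)
          _ = δ * m ^ 2 * n := by rw [hn]; ring
      exact (RCLike.re_le_norm _).trans e4
    have e5 : ‖T (T x)‖ ^ 2 ≤ m ^ 2 * ‖T x‖ ^ 2 := by
      rw [← mul_pow]; gcongr; exact hTx _
    have e6 : ‖K (K x)‖ ^ 2 ≤ m ^ 2 * ‖K x‖ ^ 2 := by
      rw [← mul_pow]; gcongr; exact hKx _
    rw [e1, hq]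
    nlinarith
  have h3 : q ^ 2 ≤ (m ^ 2 * q + 2 * (δ * m ^ 2 * n)) * n := by
    calc q ^ 2 ≤ (‖T (T x) + K (K x)‖ * ‖x‖) ^ 2 := by gcongr
      _ = ‖T (T x) + K (K x)‖ ^ 2 * n := by rw [mul_pow]
      _ ≤ _ := mul_le_mul_of_nonneg_right h2 hn0
  have h4 : q ≤ (m ^ 2 + 2 * δ) * n := by
    by_contra hcon
    rw [not_le] at hcon
    have hnpos : 0 < n ∨ n = 0 := (lt_or_eq_of_le hn0).imp id Eq.symm
    rcases hnpos with hnpos | hn00
    · have hm2 : 0 ≤ m ^ 2 := sq_nonneg _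
      have h5 : m ^ 2 * n ≤ q := by nlinarith
      have hqpos : 0 < q := by
        have : 0 ≤ (m ^ 2 + 2 * δ) * n := by positivity
        linarith
      have h6 : (m ^ 2 + 2 * δ) * n * q < q * q := mul_lt_mul_of_pos_right hcon hqpos
      have h7 : 0 ≤ 2 * δ * n * (q - m ^ 2 * n) := by
        apply mul_nonneg (by positivity); linarith
      nlinarith
    · rw [hn00] at h3 hcon
      rw [mul_zero] at h3 hcon
      nlinarith
  have h5 : ‖(T + K) x‖ ^ 2 ≤ q + 2 * (δ * n) := by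
    have e1 : (T + K) x = T x + K x := rfl
    have e2 : ‖T x + K x‖ ^ 2 = ‖T x‖ ^ 2 + 2 * RCLike.re (inner ℂ (T x) (K x)) + ‖K x‖ ^ 2 :=
      norm_add_sq (𝕜 := ℂ) _ _
    have e3 : inner ℂ (T x) (K x) = - inner ℂ (K (T x)) x := by
      rw [hK (T x) x, neg_neg]
    have e4 : ‖inner ℂ (T x) (K x)‖ ≤ δ * n := by
      rw [e3, norm_neg]
      calc ‖inner ℂ (K (T x)) x‖ ≤ ‖K (T x)‖ * ‖x‖ := norm_inner_le_norm _ _
        _ ≤ (δ * ‖x‖) * ‖x‖ := mul_le_mul_of_nonneg_right (hKT x) (norm_nonneg _)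
        _ = δ * n := by rw [hn]; ring
    have e5 := (RCLike.re_le_norm (inner ℂ (T x) (K x))).trans e4
    rw [e1, e2, hq]
    linarith
  nlinarith

lemma Tl_inner (ω : ℝ) (l : List ℝ) (U V : L2 ω) :
    inner ℂ (Tl ω l U) V = - inner ℂ U (Tl ω l V) := by
  induction l with
  | nil => rw [Tl_nil, _root_.zero_apply, _root_.zero_apply, inner_zero_left, inner_zero_right,
      neg_zero]
  | cons a l ih =>
    rw [Tl_cons, _root_.add_apply, _root_.add_apply, inner_add_left, inner_add_right, ih,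
      Kop_inner]
    ring

lemma norm_Kop_Tl_le {ω : ℝ} (hω : 0 ≤ ω) {a : ℝ} (ha : 0 < a) {l : List ℝ}
    (hl : ∀ a ∈ l, 0 < a) (U : L2 ω) :
    ‖Kop ω a (Tl ω l U)‖ ≤ (2 * eps * cst l * √(ω + 3) * √a) * ‖U‖ := by
  have hN := nice_Tl ω l hl
  have he := eps_pos
  have hC := hN.nonneg
  have h := norm_Kop_sq_le ha hω le_rfl (ext_congr (hN.ae U)) (c := cst l * ‖U‖)
    (δ := cst l * √a * ‖U‖) (by positivity) (fun x _ => hN.bd U x)
    (fun x _ y _ hxy => (hN.hol U x y).trans (by gcongr))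
  have h2 : (2 * eps * (cst l * √a * ‖U‖)) ^ 2 * ω + (2 * eps * (cst l * ‖U‖)) ^ 2 * (3 * a) =
      ((2 * eps * cst l * √(ω + 3) * √a) * ‖U‖) ^ 2 := by
    have e1 : √a ^ 2 = a := Real.sq_sqrt ha.le
    have e2 : √(ω + 3) ^ 2 = ω + 3 := Real.sq_sqrt (by linarith)
    calc _ = (2 * eps * cst l * ‖U‖) ^ 2 * (√a ^ 2 * ω + 3 * a) := by ring
      _ = (2 * eps * cst l * ‖U‖) ^ 2 * ((ω + 3) * a) := by rw [e1]; ring
      _ = (2 * eps * cst l * ‖U‖) ^ 2 * (√(ω + 3) ^ 2 * √a ^ 2) := by rw [e1, e2]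
      _ = _ := by ring
  rw [h2] at h
  exact (pow_le_pow_iff_left₀ (norm_nonneg _) (by positivity) (by norm_num)).mp h

/-- the norm bound is preserved by adding a sufficiently fine scale -/
lemma eventually_norm_lt {ω : ℝ} (hω : 0 ≤ ω) {l : List ℝ} (hl : ∀ a ∈ l, 0 < a)
    (hT : ‖Tl ω l‖ < 1 / 2) : ∀ᶠ a in 𝓝[>] (0:ℝ), ‖Tl ω (a :: l)‖ < 1 / 2 := by
  have he : eps = 1 / 10 := rfl
  have hC := (nice_Tl ω l hl).nonneg
  set m : ℝ := max ‖Tl ω l‖ (1 / 5) with hm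
  have hm0 : 0 ≤ m := le_max_of_le_right (by norm_num)
  have hm1 : m < 1 / 2 := max_lt hT (by norm_num)
  set κ : ℝ := 2 * eps * cst l * √(ω + 3) with hκ
  have hκ0 : 0 ≤ κ := by rw [hκ, he]; positivity
  have hlim : Tendsto (fun a : ℝ => m ^ 2 + 4 * (κ * √a)) (𝓝[>] 0) (𝓝 (m ^ 2)) := by
    have hc : Continuous (fun a : ℝ => m ^ 2 + 4 * (κ * √a)) := by fun_prop
    have := hc.tendsto 0
    simp only [Real.sqrt_zero, mul_zero, add_zero] at this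
    exact this.mono_left nhdsWithin_le_nhds
  have hlt : m ^ 2 < (1 / 2) ^ 2 := by gcongr
  filter_upwards [hlim.eventually (gt_mem_nhds hlt), self_mem_nhdsWithin] with a ha hapos
  rw [mem_Ioi] at hapos
  have h := almost_orthogonal (Tl ω l) (Kop ω a) (Tl_inner ω l) (Kop_inner ω a) hm0
    (δ := κ * √a) (by positivity) (le_max_left _ _)
    ((norm_Kop_le ω a).trans ((by rw [he]; norm_num : 2 * eps ≤ 1 / 5).trans (le_max_right _ _)))
    (fun x => norm_Kop_Tl_le hω hapos hl x)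
  rw [Tl_cons, add_comm]
  have hle : ‖Tl ω l + Kop ω a‖ ≤ √(m ^ 2 + 4 * (κ * √a)) := by
    apply ContinuousLinearMap.opNorm_le_bound _ (Real.sqrt_nonneg _)
    intro x
    have h2 : ‖(Tl ω l + Kop ω a) x‖ ^ 2 ≤ (√(m ^ 2 + 4 * (κ * √a)) * ‖x‖) ^ 2 := by
      rw [mul_pow, Real.sq_sqrt (by positivity)]
      exact h x
    exact (pow_le_pow_iff_left₀ (norm_nonneg _) (by positivity) (by norm_num)).mp h2
  refine lt_of_le_of_lt hle ?_
  rw [Real.sqrt_lt' (by norm_num)]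
  exact ha

/-! ### Smallness of `K_a` on solutions, uniformly in `ξ` -/

lemma eventually_Kop_Us {ω : ℝ} (hω : 0 ≤ ω) {T : L2 ω →L[ℂ] L2 ω} {ev : L2 ω → ℝ → ℂ} {C : ℝ}
    (hN : Nice T ev C) (hT : ‖T‖ ≤ 1 / 2) {φ : ℝ → ℂ} (hφc : Continuous φ) {f : L2 ω}
    (hf : (f : ℝ → ℂ) =ᵐ[mu ω] φ) {δ : ℝ} (hδ : 0 < δ) :
    ∀ᶠ a in 𝓝[>] (0:ℝ), ∀ ξ ∈ Icc 0 ω, ‖Kop ω a (Us T ξ f)‖ ≤ δ := by
  have he : eps = 1 / 10 := rfl
  obtain ⟨c, hc, hφ⟩ := exists_bound_cont hφc ω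
  have hC := hN.nonneg
  -- uniform continuity of φ on [0, ω]
  have huc := (isCompact_Icc (a := (0:ℝ)) (b := ω)).uniformContinuousOn_of_continuous
    hφc.continuousOn
  rw [Metric.uniformContinuousOn_iff_le] at huc
  set η : ℝ := δ / (√ω + 1) with hη
  have hη0 : 0 < η := by positivity
  obtain ⟨r, hr, huc⟩ := huc η hη0
  set c' : ℝ := c + C * (2 * ‖f‖) with hc'
  have hc'0 : 0 ≤ c' := by positivity
  have hlim : Tendsto (fun a : ℝ => (2 * eps * (η + C * √a * (2 * ‖f‖))) ^ 2 * ω +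
      (2 * eps * c') ^ 2 * (3 * a)) (𝓝[>] 0) (𝓝 ((2 * eps * η) ^ 2 * ω)) := by
    have hcn : Continuous (fun a : ℝ => (2 * eps * (η + C * √a * (2 * ‖f‖))) ^ 2 * ω +
      (2 * eps * c') ^ 2 * (3 * a)) := by fun_prop
    have := hcn.tendsto 0
    simp only [Real.sqrt_zero, mul_zero, zero_mul, add_zero] at this
    exact this.mono_left nhdsWithin_le_nhds
  have hlt : (2 * eps * η) ^ 2 * ω < δ ^ 2 := by
    have h1 : η * √ω < δ := by
      rw [hη, div_mul_eq_mul_div, div_lt_iff₀ (by positivity)]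
      nlinarith [Real.sqrt_nonneg ω]
    have h2 : (2 * eps * η) ^ 2 * ω = (2 * eps) ^ 2 * (η * √ω) ^ 2 := by
      rw [mul_pow η, Real.sq_sqrt hω]; ring
    have h3 : (η * √ω) ^ 2 < δ ^ 2 := by gcongr
    rw [h2, he]
    nlinarith [sq_nonneg (η * √ω)]
  filter_upwards [hlim.eventually (gt_mem_nhds hlt), self_mem_nhdsWithin,
    (nhdsWithin_le_nhds (gt_mem_nhds hr) : ∀ᶠ a in 𝓝[>] (0:ℝ), a < r)] with a ha hapos har ξ hξ
  rw [mem_Ioi] at hapos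
  have h := norm_Kop_sq_le hapos hξ.1 hξ.2 (ext_Us_ae hN hT hf hξ.2) (c := c')
    (δ := η + C * √a * (2 * ‖f‖)) hc'0
    (fun x hx => norm_sol_le hN hT hφ ξ ⟨hx.1.le, hx.2.trans hξ.2⟩)
    (fun x hx y hy hxy => by
      have := sol_modulus hω hN hT hf hc hφ ξ ξ x y
      rw [sub_self, abs_zero, Real.sqrt_zero, mul_zero, mul_zero, add_zero] at this
      refine this.trans (add_le_add ?_ ?_)
      · have h2 := huc x ⟨hx.1.le, hx.2.trans hξ.2⟩ y ⟨hy.1.le, hy.2.trans hξ.2⟩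
          (by rw [Real.dist_eq]; linarith)
        rwa [dist_eq_norm] at h2
      · gcongr)
  have h2 : ‖Kop ω a (Us T ξ f)‖ ^ 2 ≤ δ ^ 2 := h.trans ha.le
  exact (pow_le_pow_iff_left₀ (norm_nonneg _) hδ.le (by norm_num)).mp h2

lemma Us_zero {ω : ℝ} {ξ : ℝ} (hξ : ω ≤ ξ) (f : L2 ω) : Us (0 : L2 ω →L[ℂ] L2 ω) ξ f = f := by
  have h := Us_eq (T := (0 : L2 ω →L[ℂ] L2 ω)) (by rw [norm_zero]; norm_num) ξ f
  rw [_root_.zero_apply, map_zero, add_zero, proj_top hξ] at h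
  exact h

/-- strong convergence `K_a → 0` -/
lemma tendsto_Kop {ω : ℝ} (hω : 0 ≤ ω) (U : L2 ω) :
    Tendsto (fun a => ‖Kop ω a U‖) (𝓝[>] (0:ℝ)) (𝓝 0) := by
  have he : eps = 1 / 10 := rfl
  rw [Metric.tendsto_nhds]
  intro δ hδ
  -- approximate by a bounded continuous function
  obtain ⟨g, hg1, hg2⟩ := (Lp.memLp U).exists_boundedContinuous_eLpNorm_sub_le (by norm_num)
    (ε := ENNReal.ofReal δ) (by simpa using hδ)
  set G : L2 ω := hg2.toLp _ with hG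
  have hGae : (G : ℝ → ℂ) =ᵐ[mu ω] g := MemLp.coeFn_toLp _
  have hdist : ‖U - G‖ ≤ δ := by
    have h1 : (⇑U - ⇑g : ℝ → ℂ) =ᵐ[mu ω] (U - G : L2 ω) := by
      filter_upwards [Lp.coeFn_sub U G, hGae] with x hx1 hx2
      rw [hx1, Pi.sub_apply, Pi.sub_apply, hx2]
    rw [Lp.norm_def, ← eLpNorm_congr_ae h1]
    exact ENNReal.toReal_le_of_le_ofReal hδ.le hg1
  have hN0 : Nice (Tl ω []) (evl []) (cst []) := nice_Tl ω [] (by simp)
  have hT0 : ‖Tl ω []‖ ≤ 1 / 2 := by rw [Tl_nil, norm_zero]; norm_num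
  have hev := eventually_Kop_Us hω hN0 hT0 g.continuous hGae (δ := δ / 2) (by positivity)
  filter_upwards [hev] with a ha
  have h1 := ha ω ⟨hω, le_rfl⟩
  rw [Tl_nil, Us_zero le_rfl] at h1
  rw [dist_zero_right, Real.norm_eq_abs, abs_of_nonneg (norm_nonneg _)]
  have h2 : Kop ω a U = Kop ω a (U - G) + Kop ω a G := by rw [map_sub]; abel
  rw [h2]
  refine lt_of_le_of_lt (norm_add_le _ _) ?_
  have h3 := norm_Kop_apply_le ω a (U - G)
  rw [he] at h3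
  linarith

/-- convergence of the solutions when a fine scale is added, uniformly in `ξ` -/
lemma eventually_Us_close {ω : ℝ} (hω : 0 ≤ ω) {σ : ℂ} (hσ : ‖σ‖ = 1) {l : List ℝ}
    (hl : ∀ a ∈ l, 0 < a) (hT : ‖Tl ω l‖ < 1 / 2) {φ : ℝ → ℂ} (hφc : Continuous φ) {f : L2 ω}
    (hf : (f : ℝ → ℂ) =ᵐ[mu ω] φ) {δ : ℝ} (hδ : 0 < δ) :
    ∀ᶠ a in 𝓝[>] (0:ℝ), ∀ ξ ∈ Icc 0 ω,
      ‖Us (opS ω σ (a :: l)) ξ f - Us (opS ω σ l) ξ f‖ ≤ δ := by
  have hT' : ‖opS ω σ l‖ ≤ 1 / 2 := by rw [norm_opS ω hσ]; exact hT.le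
  filter_upwards [eventually_Kop_Us hω (nice_opS ω hσ hl) hT' hφc hf (δ := δ / 2) (by positivity),
    eventually_norm_lt hω hl hT] with a ha hn ξ hξ
  have hT'' : ‖opS ω σ (a :: l)‖ ≤ 1 / 2 := by rw [norm_opS ω hσ]; exact hn.le
  have h := norm_Us_sub_Us_le hT' hT'' ξ f f
  refine h.trans ?_
  have h2 : (opS ω σ (a :: l) - opS ω σ l) (Us (opS ω σ l) ξ f) =
      σ • Kop ω a (Us (opS ω σ l) ξ f) := by
    rw [_root_.sub_apply, opS_cons_apply]; abel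
  rw [h2, norm_smul, hσ, one_mul, sub_self, norm_zero, zero_add]
  have := ha ξ hξ
  linarith

end Pool.Agent.Results.MP_8e7914_an.NoFactorization
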