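import Pool.Agent.Helper593.Fac7

open MeasureTheory Set Filter
open scoped ENNReal NNReal Topology Interval ComplexConjugate

namespace Pool.Agent.Results.MP_8e7914_an.NoFactorization

/-! ### Sup-norm contraction -/

lemma sup_bound {ω a : ℝ} (ha : 0 < a) {σ : ℂ} (hσ : ‖σ‖ = 1) {ξ : ℝ} {U : L2 ω} {u h : ℝ → ℂ}
    (hU : ext U =ᵐ[volume] (Ioc 0 ξ).indicator u)
    (hu : ∀ x ∈ Ioc 0 ξ, u x = h x - σ * KK a (ext U) x) {c S : ℝ} (hc : 0 ≤ c)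
    (hh : ∀ x ∈ Ioc 0 ξ, ‖h x‖ ≤ c) (hS : ∀ x ∈ Ioc 0 ξ, ‖u x‖ ≤ S) :
    ∀ x ∈ Ioc 0 ξ, ‖u x‖ ≤ 5 / 4 * c := by
  have he : eps = 1 / 10 := rfl
  have key : ∀ n : ℕ, ∀ x ∈ Ioc 0 ξ, ‖u x‖ ≤ 5 / 4 * c + |S| / 5 ^ n := by
    intro n
    induction n with
    | zero =>
      intro x hx
      have := hS x hx
      have h2 := le_abs_self S
      rw [pow_zero, div_one]
      linarith
    | succ n ih =>
      intro x hx
      have h1 : ‖KK a (ext U) x‖ ≤ 2 * eps * (5 / 4 * c + |S| / 5 ^ n) := by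
        apply norm_KK_le ha
        filter_upwards [hU] with t ht _
        rw [ht]
        by_cases h : t ∈ Ioc 0 ξ
        · rw [indicator_of_mem h]; exact ih t h
        · rw [indicator_of_notMem h, norm_zero]; positivity
      rw [hu x hx]
      have h2 : ‖h x - σ * KK a (ext U) x‖ ≤ c + 2 * eps * (5 / 4 * c + |S| / 5 ^ n) := by
        refine (norm_sub_le _ _).trans (add_le_add (hh x hx) ?_)
        rw [norm_mul, hσ, one_mul]
        exact h1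
      refine h2.trans (le_of_eq ?_)
      rw [he, pow_succ]
      field_simp
      ring
  intro x hx
  have hlim : Tendsto (fun n : ℕ => 5 / 4 * c + |S| / 5 ^ n) atTop (𝓝 (5 / 4 * c + 0)) := by
    apply Tendsto.const_add
    exact tendsto_const_nhds.div_atTop (tendsto_pow_atTop_atTop_of_one_lt (by norm_num))
  rw [add_zero] at hlim
  exact ge_of_tendsto hlim (Eventually.of_forall fun n => key n x hx)

/-! ### The local propagation lemma -/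

lemma jstep {e : ℝ → ℂ} {a ξ ρ S : ℝ} (ha : 0 < a) (hρ : 0 ≤ ρ) (hS : 0 ≤ S) (J : ℕ)
    (hξ : (J + 1) * a ≤ ξ) (h1 : ∀ x ∈ Ioc 0 ξ, ‖e x‖ ≤ S)
    (h2 : ∀ x, ξ - J * a ≤ x → x ≤ ξ → ∀ s, 0 ≤ s →
      (∀ t ∈ Ioc (x - a) (x + a), t ∈ Ioc 0 ξ → ‖e t‖ ≤ s) → ‖e x‖ ≤ ρ + s / 5) :
    ‖e ξ‖ ≤ 5 / 4 * ρ + S / 5 ^ J := by
  have key : ∀ n : ℕ, n ≤ J → ∀ x, ξ - (J - n) * a ≤ x → x ≤ ξ →
      ‖e x‖ ≤ 5 / 4 * ρ + S / 5 ^ n := by
    intro n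
    induction n with
    | zero =>
      intro _ x hx1 hx2
      have hx : x ∈ Ioc 0 ξ := by
        refine ⟨?_, hx2⟩
        simp only [Nat.cast_zero, sub_zero] at hx1
        nlinarith
      rw [pow_zero, div_one]
      have := h1 x hx
      linarith
    | succ n ih =>
      intro hn x hx1 hx2
      have hnJ : (n : ℝ) + 1 ≤ J := by exact_mod_cast hn
      push_cast at hx1
      have h3 : ‖e x‖ ≤ ρ + (5 / 4 * ρ + S / 5 ^ n) / 5 := by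
        apply h2 x _ hx2 _ (by positivity)
        · intro t ht1 ht2
          apply ih (by omega) t _ ht2.2
          nlinarith [ht1.1]
        · have hn0 : (0:ℝ) ≤ n := Nat.cast_nonneg n
          nlinarith
      refine h3.trans (le_of_eq ?_)
      rw [pow_succ]
      field_simp
      ring
  have := key J le_rfl ξ (by simp) le_rfl
  exact this

/-! ### Continuous right-hand sides -/

lemma memLp_cont (ω : ℝ) (φ : C(ℝ, ℂ)) : MemLp φ 2 (mu ω) := by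
  obtain ⟨c, _, hφ⟩ := exists_bound_cont φ.continuous ω
  refine MemLp.of_bound φ.continuous.aestronglyMeasurable c ?_
  filter_upwards [ae_restrict_mem measurableSet_Ioc] with x hx
  exact hφ x ⟨hx.1.le, hx.2⟩

/-- the element of `L²(0, ω)` given by a continuous function -/
noncomputable def toL (ω : ℝ) (φ : C(ℝ, ℂ)) : L2 ω := (memLp_cont ω φ).toLp _

lemma toL_ae (ω : ℝ) (φ : C(ℝ, ℂ)) : (toL ω φ : ℝ → ℂ) =ᵐ[mu ω] φ := MemLp.coeFn_toLp _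

lemma toL_add (ω : ℝ) (φ ψ : C(ℝ, ℂ)) : toL ω (φ + ψ) = toL ω φ + toL ω ψ := by
  apply Lp.ext
  filter_upwards [toL_ae ω (φ + ψ), Lp.coeFn_add (toL ω φ) (toL ω ψ), toL_ae ω φ, toL_ae ω ψ]
    with x h1 h2 h3 h4
  rw [h1, h2, Pi.add_apply, h3, h4]
  rfl

/-- Right-end value of the solution. -/
noncomputable def Fv (ω : ℝ) (σ : ℂ) (l : List ℝ) (φ : C(ℝ, ℂ)) (ξ : ℝ) : ℂ :=
  sol (opS ω σ l) (evS σ l) φ (toL ω φ) ξ ξ

/-- `β_σ(a)` : right-end value at `ω` for a single scale. -/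
noncomputable def bet (ω : ℝ) (σ : ℂ) (a : ℝ) : ℂ := Fv ω σ [a] 1 ω

section

variable {ω : ℝ} {σ : ℂ} {l : List ℝ}

/-- the slowly varying part -/
noncomputable def hh (ω : ℝ) (σ : ℂ) (l : List ℝ) (a : ℝ) (φ : C(ℝ, ℂ)) (ξ x : ℝ) : ℂ :=
  φ x - evS σ l (Us (opS ω σ (a :: l)) ξ (toL ω φ)) x

lemma sol_eq_hh (a : ℝ) (φ : C(ℝ, ℂ)) (ξ x : ℝ) :
    sol (opS ω σ (a :: l)) (evS σ (a :: l)) φ (toL ω φ) ξ x =
      hh ω σ l a φ ξ x - σ * KK a (ext (Us (opS ω σ (a :: l)) ξ (toL ω φ))) x := by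
  unfold sol hh
  rw [evS_cons]
  ring

lemma norm_hh_le (hσ : ‖σ‖ = 1) (hl : ∀ a ∈ l, 0 < a) {a : ℝ}
    (hT : ‖Tl ω (a :: l)‖ ≤ 1 / 2) {φ : C(ℝ, ℂ)} {c : ℝ} (hφ : ∀ x ∈ Icc 0 ω, ‖φ x‖ ≤ c)
    (ξ : ℝ) {x : ℝ} (hx : x ∈ Icc 0 ω) :
    ‖hh ω σ l a φ ξ x‖ ≤ c + cst l * (2 * ‖toL ω φ‖) := by
  have hN := nice_opS ω hσ hl
  have hT' : ‖opS ω σ (a :: l)‖ ≤ 1 / 2 := by rw [norm_opS ω hσ]; exact hT
  unfold hh
  refine (norm_sub_le _ _).trans (add_le_add (hφ x hx) ?_)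
  exact (hN.bd _ _).trans (mul_le_mul_of_nonneg_left (norm_Us_le hT' ξ _) hN.nonneg)

lemma norm_hh_sub_le (hσ : ‖σ‖ = 1) (hl : ∀ a ∈ l, 0 < a) {a : ℝ}
    (hT : ‖Tl ω (a :: l)‖ ≤ 1 / 2) (φ : C(ℝ, ℂ)) (ξ x y : ℝ) :
    ‖hh ω σ l a φ ξ x - hh ω σ l a φ ξ y‖ ≤
      ‖φ x - φ y‖ + cst l * √|x - y| * (2 * ‖toL ω φ‖) := by
  have hN := nice_opS ω hσ hl
  have hT' : ‖opS ω σ (a :: l)‖ ≤ 1 / 2 := by rw [norm_opS ω hσ]; exact hT
  have e : hh ω σ l a φ ξ x - hh ω σ l a φ ξ y = (φ x - φ y) -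
      (evS σ l (Us (opS ω σ (a :: l)) ξ (toL ω φ)) x -
        evS σ l (Us (opS ω σ (a :: l)) ξ (toL ω φ)) y) := by
    unfold hh; ring
  rw [e]
  refine (norm_sub_le _ _).trans (add_le_add le_rfl ?_)
  have := hN.nonneg
  exact (hN.hol _ _ _).trans (mul_le_mul_of_nonneg_left (norm_Us_le hT' ξ _) (by positivity))

/-- sup bound for the solution with a fine scale, in terms of a bound for the slow part -/
lemma sol_bound (hσ : ‖σ‖ = 1) (hl : ∀ a ∈ l, 0 < a) {a : ℝ} (ha : 0 < a)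
    (hT : ‖Tl ω (a :: l)‖ ≤ 1 / 2) (φ : C(ℝ, ℂ)) {ξ : ℝ} (hξ : ξ ≤ ω) {c : ℝ} (hc : 0 ≤ c)
    (hh' : ∀ x ∈ Ioc 0 ξ, ‖hh ω σ l a φ ξ x‖ ≤ c) :
    ∀ x ∈ Ioc 0 ξ, ‖sol (opS ω σ (a :: l)) (evS σ (a :: l)) φ (toL ω φ) ξ x‖ ≤ 5 / 4 * c := by
  have hl' : ∀ b ∈ a :: l, 0 < b := by
    intro b hb
    rcases List.mem_cons.mp hb with rfl | hb
    · exact ha
    · exact hl b hb
  have hN := nice_opS ω hσ hl'
  have hT' : ‖opS ω σ (a :: l)‖ ≤ 1 / 2 := by rw [norm_opS ω hσ]; exact hT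
  obtain ⟨c', hc', hφ'⟩ := exists_bound_cont φ.continuous ω
  exact sup_bound ha hσ (ext_Us_ae hN hT' (toL_ae ω φ) hξ) (fun x _ => sol_eq_hh a φ ξ x) hc hh'
    (fun x hx => norm_sol_le hN hT' hφ' ξ ⟨hx.1.le, hx.2.trans hξ⟩)

/-- one propagation step for the difference with the model problem -/
lemma step_main (hω : 0 < ω) (hσ : ‖σ‖ = 1) (hl : ∀ a ∈ l, 0 < a) {a : ℝ} (ha : 0 < a)
    (hT : ‖Tl ω (a :: l)‖ ≤ 1 / 2) (φ : C(ℝ, ℂ)) {ξ : ℝ} (hξ : ξ ≤ ω) {x s : ℝ} (hx1 : a ≤ x)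
    (hx2 : x ≤ ξ) (hs : 0 ≤ s)
    (hyp : ∀ t ∈ Ioc (x - a) (x + a), t ∈ Ioc 0 ξ →
      ‖sol (opS ω σ (a :: l)) (evS σ (a :: l)) φ (toL ω φ) ξ t -
        hh ω σ l a φ ξ ξ * sol (opS ω σ [a]) (evS σ [a]) (1 : C(ℝ, ℂ)) (toL ω 1) ω
          (t + (ω - ξ))‖ ≤ s) :
    ‖sol (opS ω σ (a :: l)) (evS σ (a :: l)) φ (toL ω φ) ξ x -
        hh ω σ l a φ ξ ξ * sol (opS ω σ [a]) (evS σ [a]) (1 : C(ℝ, ℂ)) (toL ω 1) ω
          (x + (ω - ξ))‖ ≤ ‖hh ω σ l a φ ξ x - hh ω σ l a φ ξ ξ‖ + s / 5 := by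
  have he : eps = 1 / 10 := rfl
  have hl' : ∀ b ∈ a :: l, 0 < b := by
    intro b hb
    rcases List.mem_cons.mp hb with rfl | hb
    · exact ha
    · exact hl b hb
  have hl1 : ∀ b ∈ [a], 0 < b := by
    intro b hb; rw [List.mem_singleton.mp hb]; exact ha
  have hN := nice_opS ω hσ hl'
  have hN1 := nice_opS ω hσ hl1
  have hT' : ‖opS ω σ (a :: l)‖ ≤ 1 / 2 := by rw [norm_opS ω hσ]; exact hT
  have hT1 : ‖opS ω σ [a]‖ ≤ 1 / 2 := by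
    rw [norm_opS ω hσ, Tl_cons, Tl_nil, add_zero]
    exact (norm_Kop_le ω a).trans (by rw [he]; norm_num)
  set U := Us (opS ω σ (a :: l)) ξ (toL ω φ) with hU
  set W := Us (opS ω σ [a]) ω (toL ω 1) with hW
  set H : ℂ := hh ω σ l a φ ξ ξ with hH
  have hUae := ext_Us_ae hN hT' (toL_ae ω φ) hξ
  have hWae := ext_Us_ae hN1 hT1 (toL_ae ω 1) (le_refl ω)
  rw [← hU] at hUae
  rw [← hW] at hWae
  have hWae2 : ∀ᵐ t : ℝ, ext W (t + (ω - ξ)) = (Ioc 0 ω).indicator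
      (sol (opS ω σ [a]) (evS σ [a]) (1 : C(ℝ, ℂ)) (toL ω 1) ω) (t + (ω - ξ)) :=
    (measurePreserving_add_right volume (ω - ξ)).quasiMeasurePreserving.ae hWae
  -- the model problem
  have hw : sol (opS ω σ [a]) (evS σ [a]) (1 : C(ℝ, ℂ)) (toL ω 1) ω (x + (ω - ξ)) =
      1 - σ * KK a (ext W) (x + (ω - ξ)) := by
    rw [sol_eq_hh]
    unfold hh evS evl
    simp [hW]
  have e1 : KK a (ext U) x - H * KK a (ext W) (x + (ω - ξ)) =
      KK a (fun t => ext U t - H * ext W (t + (ω - ξ))) x := by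
    have hWi : Integrable (fun t => ext W (t + (ω - ξ))) :=
      (ext_integrable W).comp_add_right (ω - ξ)
    rw [KK_sub (ext_integrable U) (hWi.const_mul H), KK_smul, KK_translate]
  have e2 : ‖KK a (fun t => ext U t - H * ext W (t + (ω - ξ))) x‖ ≤ 2 * eps * s := by
    apply norm_KK_le ha
    filter_upwards [hUae, hWae2] with t h1 h2 ht
    rw [h1, h2]
    by_cases h : t ∈ Ioc 0 ξ
    · rw [indicator_of_mem h, indicator_of_mem (s := Ioc 0 ω)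
        (show t + (ω - ξ) ∈ Ioc 0 ω from ⟨by linarith [h.1], by linarith [h.2]⟩)]
      exact hyp t ht h
    · have ht0 : 0 < t := by linarith [ht.1]
      have htξ : ξ < t := by
        by_contra h'
        exact h ⟨ht0, not_lt.mp h'⟩
      rw [indicator_of_notMem h, indicator_of_notMem (s := Ioc 0 ω)
        (fun h' : t + (ω - ξ) ∈ Ioc 0 ω => by linarith [h'.2]), mul_zero, sub_zero, norm_zero]
      exact hs
  rw [sol_eq_hh, hw, ← hU]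
  have e3 : hh ω σ l a φ ξ x - σ * KK a (ext U) x - H * (1 - σ * KK a (ext W) (x + (ω - ξ))) =
      (hh ω σ l a φ ξ x - H) - σ * (KK a (ext U) x - H * KK a (ext W) (x + (ω - ξ))) := by ring
  rw [e3, e1]
  refine (norm_sub_le _ _).trans (add_le_add le_rfl ?_)
  rw [norm_mul, hσ, one_mul]
  refine e2.trans (le_of_eq ?_)
  rw [he]; ring

lemma norm_Kop_le_half (ω a : ℝ) : ‖Tl ω [a]‖ ≤ 1 / 2 := by
  have he : eps = 1 / 10 := rfl
  rw [Tl_cons, Tl_nil, add_zero]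
  exact (norm_Kop_le ω a).trans (by rw [he]; norm_num)

lemma hh_nil (a : ℝ) (φ : C(ℝ, ℂ)) (ξ x : ℝ) : hh ω σ [] a φ ξ x = φ x := by
  unfold hh evS evl
  simp

/-- sup bound for the model problem -/
lemma model_bound (hσ : ‖σ‖ = 1) {a : ℝ} (ha : 0 < a) {ξ : ℝ} (hξ : ξ ≤ ω) :
    ∀ x ∈ Ioc 0 ξ, ‖sol (opS ω σ [a]) (evS σ [a]) (1 : C(ℝ, ℂ)) (toL ω 1) ξ x‖ ≤ 5 / 4 := by
  intro x hx
  have := sol_bound (l := []) hσ (by simp) ha (norm_Kop_le_half ω a) (1 : C(ℝ, ℂ)) hξ zero_le_one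
    (fun y _ => by rw [hh_nil]; simp) x hx
  rwa [mul_one] at this

/-- **Boundary transfer.**  Adding a fine scale multiplies the right-end values by `β_σ(a)`. -/
lemma transfer (hω : 0 < ω) (hσ : ‖σ‖ = 1) (hl : ∀ a ∈ l, 0 < a) (hT : ‖Tl ω l‖ < 1 / 2)
    (φ : C(ℝ, ℂ)) {η δ : ℝ} (hη : 0 < η) (hδ : 0 < δ) :
    ∀ᶠ a in 𝓝[>] (0:ℝ), ∀ ξ ∈ Icc η ω,
      ‖Fv ω σ (a :: l) φ ξ - bet ω σ a * Fv ω σ l φ ξ‖ ≤ δ := by
  obtain ⟨c, hc, hφ⟩ := exists_bound_cont φ.continuous ω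
  have hN := nice_opS ω hσ hl
  have hC := hN.nonneg
  set ch : ℝ := c + cst l * (2 * ‖toL ω φ‖) with hch
  have hch0 : 0 ≤ ch := by positivity
  -- choose J
  obtain ⟨J, hJ⟩ : ∃ J : ℕ, 5 / 2 * ch / 5 ^ J ≤ δ / 3 := by
    have : Tendsto (fun n : ℕ => 5 / 2 * ch / 5 ^ n) atTop (𝓝 0) :=
      tendsto_const_nhds.div_atTop (tendsto_pow_atTop_atTop_of_one_lt (by norm_num))
    exact ((this.eventually (gt_mem_nhds (by positivity : (0:ℝ) < δ / 3))).exists).imp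
      fun n hn => hn.le
  -- uniform continuity
  have huc := (isCompact_Icc (a := (0:ℝ)) (b := ω)).uniformContinuousOn_of_continuous
    φ.continuous.continuousOn
  rw [Metric.uniformContinuousOn_iff_le] at huc
  obtain ⟨r, hr, huc⟩ := huc (δ / 10) (by positivity)
  have hlim1 : Tendsto (fun a : ℝ => cst l * √(J * a) * (2 * ‖toL ω φ‖)) (𝓝[>] 0) (𝓝 0) := by
    have hcn : Continuous (fun a : ℝ => cst l * √(J * a) * (2 * ‖toL ω φ‖)) := by fun_prop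
    have := hcn.tendsto 0
    simp only [mul_zero, Real.sqrt_zero, zero_mul] at this
    exact this.mono_left nhdsWithin_le_nhds
  have hlim2 : Tendsto (fun a : ℝ => (J + 1) * a) (𝓝[>] 0) (𝓝 0) := by
    have hcn : Continuous (fun a : ℝ => ((J:ℝ) + 1) * a) := by fun_prop
    have := hcn.tendsto 0
    simp only [mul_zero] at this
    exact this.mono_left nhdsWithin_le_nhds
  filter_upwards [self_mem_nhdsWithin, eventually_norm_lt hω.le hl hT,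
    eventually_Us_close hω.le hσ hl hT φ.continuous (toL_ae ω φ)
      (δ := δ / 3 / (5 / 4 * (cst l + 1))) (by positivity),
    hlim1.eventually (gt_mem_nhds (by positivity : (0:ℝ) < δ / 10)),
    hlim2.eventually (gt_mem_nhds (lt_min hη hr))] with a ha hTa hUa ha1 ha2 ξ hξ
  rw [mem_Ioi] at ha
  have hξ0 : 0 < ξ := lt_of_lt_of_le hη hξ.1
  have hJa : 0 ≤ J * a := by positivity
  have ha2η : (J + 1) * a < η := ha2.trans_le (min_le_left _ _)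
  have ha2r : (J + 1) * a < r := ha2.trans_le (min_le_right _ _)
  -- the comparison function
  set e : ℝ → ℂ := fun x => sol (opS ω σ (a :: l)) (evS σ (a :: l)) φ (toL ω φ) ξ x -
        hh ω σ l a φ ξ ξ * sol (opS ω σ [a]) (evS σ [a]) (1 : C(ℝ, ℂ)) (toL ω 1) ω
          (x + (ω - ξ)) with he
  have hbh : ∀ x ∈ Icc 0 ω, ‖hh ω σ l a φ ξ x‖ ≤ ch := fun x hx =>
    norm_hh_le hσ hl hTa.le hφ ξ hx
  have hbu := sol_bound hσ hl ha hTa.le φ hξ.2 hch0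
    (fun x hx => hbh x ⟨hx.1.le, hx.2.trans hξ.2⟩)
  have hbe : ∀ x ∈ Ioc 0 ξ, ‖e x‖ ≤ 5 / 2 * ch := by
    intro x hx
    have h1 := hbu x hx
    have h2 := model_bound (ω := ω) hσ ha (le_refl ω) (x + (ω - ξ))
      ⟨by linarith [hx.1, hξ.2], by linarith [hx.2]⟩
    have h3 := hbh ξ ⟨hξ0.le, hξ.2⟩
    rw [he]
    refine (norm_sub_le _ _).trans ?_
    rw [norm_mul]
    have h4 := mul_le_mul h3 h2 (norm_nonneg _) hch0
    linarith
  have hstep : ∀ x, ξ - J * a ≤ x → x ≤ ξ → ∀ s, 0 ≤ s →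
      (∀ t ∈ Ioc (x - a) (x + a), t ∈ Ioc 0 ξ → ‖e t‖ ≤ s) → ‖e x‖ ≤ δ / 5 + s / 5 := by
    intro x hx1 hx2 s hs hyp
    have hxa : a ≤ x := by nlinarith [hξ.1]
    have h1 := step_main hω hσ hl ha hTa.le φ hξ.2 hxa hx2 hs hyp
    have h2 := norm_hh_sub_le hσ hl hTa.le φ ξ x ξ
    have h3 : |x - ξ| ≤ J * a := by
      rw [abs_sub_comm, abs_of_nonneg (by linarith)]; linarith
    have h4 : ‖φ x - φ ξ‖ ≤ δ / 10 := by
      have := huc x ⟨by linarith, hx2.trans hξ.2⟩ ξ ⟨hξ0.le, hξ.2⟩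
        (by rw [Real.dist_eq]; nlinarith)
      rwa [dist_eq_norm] at this
    have h5 : cst l * √|x - ξ| * (2 * ‖toL ω φ‖) ≤ δ / 10 := by
      refine le_trans ?_ ha1.le
      gcongr
    calc ‖e x‖ ≤ ‖hh ω σ l a φ ξ x - hh ω σ l a φ ξ ξ‖ + s / 5 := h1
      _ ≤ δ / 5 + s / 5 := by linarith
  have hfin := jstep ha (by positivity : (0:ℝ) ≤ δ / 5) (by positivity : 0 ≤ 5 / 2 * ch) J
    (by linarith [hξ.1]) hbe hstep
  have heξ : e ξ = Fv ω σ (a :: l) φ ξ - hh ω σ l a φ ξ ξ * bet ω σ a := by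
    rw [he]
    simp only
    have : ξ + (ω - ξ) = ω := by ring
    rw [this]
    rfl
  have hβ : ‖bet ω σ a‖ ≤ 5 / 4 := model_bound hσ ha le_rfl ω ⟨hω, le_rfl⟩
  have hdiff : ‖hh ω σ l a φ ξ ξ - Fv ω σ l φ ξ‖ ≤ cst l *
      (δ / 3 / (5 / 4 * (cst l + 1))) := by
    have e1 : hh ω σ l a φ ξ ξ - Fv ω σ l φ ξ =
        - evS σ l (Us (opS ω σ (a :: l)) ξ (toL ω φ) - Us (opS ω σ l) ξ (toL ω φ)) ξ := by
      rw [hN.sub]
      unfold hh Fv sol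
      ring
    rw [e1, norm_neg]
    exact (hN.bd _ _).trans (mul_le_mul_of_nonneg_left (hUa ξ ⟨hξ0.le, hξ.2⟩) hC)
  have e2 : Fv ω σ (a :: l) φ ξ - bet ω σ a * Fv ω σ l φ ξ =
      e ξ + bet ω σ a * (hh ω σ l a φ ξ ξ - Fv ω σ l φ ξ) := by
    rw [heξ]; ring
  rw [e2]
  refine (norm_add_le _ _).trans ?_
  rw [norm_mul]
  have h6 : ‖bet ω σ a‖ * ‖hh ω σ l a φ ξ ξ - Fv ω σ l φ ξ‖ ≤
      5 / 4 * (cst l * (δ / 3 / (5 / 4 * (cst l + 1)))) :=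
    mul_le_mul hβ hdiff (norm_nonneg _) (by norm_num)
  have h7 : 5 / 4 * (cst l * (δ / 3 / (5 / 4 * (cst l + 1)))) ≤ δ / 3 := by
    have : 5 / 4 * (cst l * (δ / 3 / (5 / 4 * (cst l + 1)))) =
        δ / 3 * (cst l / (cst l + 1)) := by field_simp
    rw [this]
    have h8 : cst l / (cst l + 1) ≤ 1 := by
      rw [div_le_one (by positivity)]; linarith
    nlinarith
  linarith

end

end Pool.Agent.Results.MP_8e7914_an.NoFactorization
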