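import Pool.Agent.Helper593.Fac8

open MeasureTheory Set Filter
open scoped ENNReal NNReal Topology Interval ComplexConjugate

namespace Pool.Agent.Results.MP_8e7914_an.NoFactorization

lemma int_close {ω : ℝ} (_hω : 0 < ω) {F : ℝ → ℂ} (hF : Continuous F)
    {c δ η : ℝ} (hη0 : 0 < η) (hη : η ≤ ω) (hδ : 0 ≤ δ)
    (h1 : ∀ ξ ∈ Icc η ω, ‖F ξ‖ ≤ δ) (h2 : ∀ ξ ∈ Ioc 0 ω, ‖F ξ‖ ≤ c) :
    ∫ x in (0:ℝ)..ω, ‖F x‖ ≤ c * η + δ * ω := by
  have hi : ∀ u v : ℝ, IntervalIntegrable (fun x => ‖F x‖) volume u v := fun u v =>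
    hF.norm.intervalIntegrable u v
  rw [← intervalIntegral.integral_add_adjacent_intervals (hi 0 η) (hi η ω)]
  refine add_le_add ?_ ?_
  · have := intervalIntegral.norm_integral_le_of_norm_le_const (a := 0) (b := η)
      (f := fun x => ‖F x‖) (C := c) (fun x hx => by
        rw [uIoc_of_le hη0.le] at hx
        rw [norm_norm]
        exact h2 x ⟨hx.1, hx.2.trans hη⟩)
    rw [sub_zero, abs_of_pos hη0] at this
    exact (Real.le_norm_self _).trans this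
  · have := intervalIntegral.norm_integral_le_of_norm_le_const (a := η) (b := ω)
      (f := fun x => ‖F x‖) (C := δ) (fun x hx => by
        rw [uIoc_of_le hη] at hx
        rw [norm_norm]
        exact h1 x ⟨hx.1.le, hx.2⟩)
    rw [abs_of_nonneg (by linarith)] at this
    refine (Real.le_norm_self _).trans (this.trans ?_)
    exact mul_le_mul_of_nonneg_left (by linarith) hδ

lemma norm_Us_le_proj {ω : ℝ} {T : L2 ω →L[ℂ] L2 ω} (hT : ‖T‖ ≤ 1 / 2) (ξ : ℝ) (f : L2 ω) :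
    ‖Us T ξ f‖ ≤ 2 * ‖proj ω ξ f‖ :=
  norm_le_of_eq hT (Us_eq hT ξ f)

lemma norm_proj_le_sqrt {ω : ℝ} (hω : 0 ≤ ω) {V : L2 ω} {c : ℝ} (hc : 0 ≤ c)
    (h : ∀ᵐ x ∂(mu ω), ‖V x‖ ≤ c) {ξ : ℝ} (hξ : 0 ≤ ξ) :
    ‖proj ω ξ V‖ ≤ c * √ξ := by
  have h1 := norm_proj_sub_proj_le hω hc h hξ
  have h2 : proj ω 0 V = 0 := by
    apply Lp.ext
    filter_upwards [proj_ae ω 0 V, Lp.coeFn_zero ℂ 2 (mu ω), ae_restrict_mem measurableSet_Ioc]
      with x h1 h2 h3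
    rw [h1, h2, indicator_of_notMem (fun h' => not_le.mpr h3.1 h'.2)]
    rfl
  rwa [h2, sub_zero, sub_zero] at h1

lemma toL_one_le (ω : ℝ) : ∀ᵐ x ∂(mu ω), ‖(toL ω 1 : L2 ω) x‖ ≤ 1 := by
  filter_upwards [toL_ae ω 1] with x hx
  rw [hx]; simp

section

variable {ω : ℝ} {σ : ℂ} {l : List ℝ}

/-- uniform bound for the right-end values -/
lemma eventually_Fv_le (hω : 0 < ω) (hσ : ‖σ‖ = 1) (hl : ∀ a ∈ l, 0 < a) (hT : ‖Tl ω l‖ < 1 / 2)
    (φ : C(ℝ, ℂ)) : ∃ c : ℝ, 0 ≤ c ∧ ∀ᶠ a in 𝓝[>] (0:ℝ), ∀ ξ ∈ Ioc 0 ω,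
      ‖Fv ω σ (a :: l) φ ξ‖ ≤ c := by
  obtain ⟨c, hc, hφ⟩ := exists_bound_cont φ.continuous ω
  have hC := (nice_opS ω hσ hl).nonneg
  refine ⟨5 / 4 * (c + cst l * (2 * ‖toL ω φ‖)), by positivity, ?_⟩
  filter_upwards [self_mem_nhdsWithin, eventually_norm_lt hω.le hl hT] with a ha hTa ξ hξ
  rw [mem_Ioi] at ha
  exact sol_bound hσ hl ha hTa.le φ hξ.2 (by positivity)
    (fun x hx => norm_hh_le hσ hl hTa.le hφ ξ ⟨hx.1.le, hx.2.trans hξ.2⟩) ξ ⟨hξ.1, le_rfl⟩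

lemma Fv_le (hσ : ‖σ‖ = 1) (hl : ∀ a ∈ l, 0 < a) (hT : ‖Tl ω l‖ < 1 / 2)
    (φ : C(ℝ, ℂ)) : ∃ c : ℝ, 0 ≤ c ∧ ∀ ξ ∈ Ioc 0 ω, ‖Fv ω σ l φ ξ‖ ≤ c := by
  obtain ⟨c, hc, hφ⟩ := exists_bound_cont φ.continuous ω
  have hN := nice_opS ω hσ hl
  have hC := hN.nonneg
  have hT' : ‖opS ω σ l‖ ≤ 1 / 2 := by rw [norm_opS ω hσ]; exact hT.le
  exact ⟨c + cst l * (2 * ‖toL ω φ‖), by positivity, fun ξ hξ =>
    norm_sol_le hN hT' hφ ξ ⟨hξ.1.le, hξ.2⟩⟩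

/-- near `0` the right-end values are close to `1` -/
lemma eventually_near_zero (hω : 0 < ω) (hσ : ‖σ‖ = 1) (hl : ∀ a ∈ l, 0 < a)
    (hT : ‖Tl ω l‖ < 1 / 2) : ∃ η : ℝ, 0 < η ∧ η ≤ ω ∧ ∀ᶠ a in 𝓝[>] (0:ℝ), ∀ ξ ∈ Ioc 0 η,
      ‖Fv ω σ (a :: l) 1 ξ - 1‖ ≤ 3 / 10 := by
  have he : eps = 1 / 10 := rfl
  have hN := nice_opS ω hσ hl
  have hC := hN.nonneg
  have hlim : Tendsto (fun η : ℝ => cst l * (2 * √η)) (𝓝[>] 0) (𝓝 0) := by
    have hcn : Continuous (fun η : ℝ => cst l * (2 * √η)) := by fun_prop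
    have := hcn.tendsto 0
    simp only [mul_zero, Real.sqrt_zero] at this
    exact this.mono_left nhdsWithin_le_nhds
  obtain ⟨η, hη1, hη2, hη3⟩ := ((hlim.eventually (gt_mem_nhds (by norm_num : (0:ℝ) < 1 / 25))).and
    ((eventually_mem_nhdsWithin (s := Ioi (0:ℝ)) (a := 0)).and
    (nhdsWithin_le_nhds (gt_mem_nhds hω) : ∀ᶠ a in 𝓝[>] (0:ℝ), a < ω))).exists
  rw [mem_Ioi] at hη2
  refine ⟨η, hη2, hη3.le, ?_⟩
  filter_upwards [self_mem_nhdsWithin, eventually_norm_lt hω.le hl hT] with a ha hTa ξ hξ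
  rw [mem_Ioi] at ha
  have hT' : ‖opS ω σ (a :: l)‖ ≤ 1 / 2 := by rw [norm_opS ω hσ]; exact hTa.le
  have hξω : ξ ≤ ω := hξ.2.trans hη3.le
  have hl' : ∀ b ∈ a :: l, 0 < b := by
    intro b hb
    rcases List.mem_cons.mp hb with rfl | hb
    · exact ha
    · exact hl b hb
  set U := Us (opS ω σ (a :: l)) ξ (toL ω 1) with hU
  have hUn : ‖U‖ ≤ 2 * √η := by
    have h1 := norm_Us_le_proj hT' ξ (toL ω 1)
    have h2 := norm_proj_le_sqrt hω.le zero_le_one (toL_one_le ω) hξ.1.le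
    have h3 : √ξ ≤ √η := Real.sqrt_le_sqrt hξ.2
    rw [one_mul] at h2
    rw [hU]; linarith
  have hθ : ∀ x, ‖hh ω σ l a 1 ξ x - 1‖ ≤ 1 / 25 := by
    intro x
    have e1 : hh ω σ l a 1 ξ x - 1 = - evS σ l U x := by
      unfold hh; simp [hU]
    rw [e1, norm_neg]
    exact (hN.bd U x).trans ((mul_le_mul_of_nonneg_left hUn hC).trans hη1.le)
  have hθ2 : ∀ x ∈ Ioc 0 ξ, ‖hh ω σ l a 1 ξ x‖ ≤ 26 / 25 := by
    intro x _
    have h1 := hθ x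
    have h2 : ‖hh ω σ l a 1 ξ x‖ ≤ ‖hh ω σ l a 1 ξ x - 1‖ + ‖(1:ℂ)‖ := norm_le_norm_sub_add _ _
    rw [norm_one] at h2
    linarith
  have hu := sol_bound hσ hl ha hTa.le (1 : C(ℝ, ℂ)) hξω (by norm_num) hθ2
  have hK : ‖KK a (ext U) ξ‖ ≤ 2 * eps * (5 / 4 * (26 / 25)) := by
    apply norm_KK_le ha
    filter_upwards [ext_Us_ae (nice_opS ω hσ hl') hT' (toL_ae ω 1) hξω] with t ht _
    rw [hU, ht]
    by_cases h : t ∈ Ioc 0 ξ
    · rw [indicator_of_mem h]; exact hu t h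
    · rw [indicator_of_notMem h, norm_zero]; norm_num
  have e2 : Fv ω σ (a :: l) 1 ξ - 1 = (hh ω σ l a 1 ξ ξ - 1) - σ * KK a (ext U) ξ := by
    unfold Fv
    rw [sol_eq_hh]
    ring
  rw [e2]
  refine (norm_sub_le _ _).trans ?_
  rw [norm_mul, hσ, one_mul]
  have := hθ ξ
  rw [he] at hK
  linarith

lemma bet_le (hω : 0 < ω) (hσ : ‖σ‖ = 1) {a : ℝ} (ha : 0 < a) : ‖bet ω σ a‖ ≤ 5 / 4 :=
  model_bound hσ ha le_rfl ω ⟨hω, le_rfl⟩

/-- the single-scale value is close to `1 - σ ε` -/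
lemma bet_close (hσ : ‖σ‖ = 1) {a : ℝ} (ha : 0 < a) (haω : a ≤ ω) :
    ‖bet ω σ a - (1 - σ * (1 / 10))‖ ≤ 1 / 40 := by
  have he : eps = 1 / 10 := rfl
  have hl1 : ∀ b ∈ [a], 0 < b := by
    intro b hb; rw [List.mem_singleton.mp hb]; exact ha
  have hN1 := nice_opS ω hσ hl1
  have hT1 : ‖opS ω σ [a]‖ ≤ 1 / 2 := by
    rw [norm_opS ω hσ]; exact norm_Kop_le_half ω a
  set W := Us (opS ω σ [a]) ω (toL ω 1) with hW
  set w : ℝ → ℂ := sol (opS ω σ [a]) (evS σ [a]) (1 : C(ℝ, ℂ)) (toL ω 1) ω with hw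
  have hWae := ext_Us_ae hN1 hT1 (toL_ae ω 1) (le_refl ω)
  rw [← hW, ← hw] at hWae
  have hwb : ∀ x ∈ Ioc 0 ω, ‖w x‖ ≤ 5 / 4 := model_bound hσ ha le_rfl
  have hweq : ∀ x, w x = 1 - σ * KK a (ext W) x := by
    intro x
    rw [hw, sol_eq_hh, hh_nil]
    rfl
  have hw1 : ∀ x ∈ Ioc 0 ω, ‖w x - 1‖ ≤ 1 / 4 := by
    intro x hx
    rw [hweq, sub_sub_cancel_left, norm_neg, norm_mul, hσ, one_mul]
    have : ‖KK a (ext W) x‖ ≤ 2 * eps * (5 / 4) := by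
      apply norm_KK_le ha
      filter_upwards [hWae] with t ht _
      rw [ht]
      by_cases h : t ∈ Ioc 0 ω
      · rw [indicator_of_mem h]; exact hwb t h
      · rw [indicator_of_notMem h, norm_zero]; norm_num
    refine this.trans ?_
    rw [he]; norm_num
  -- the integral over the last window
  have e1 : (∫ t in ω..(ω + a), ext W t) = 0 := by
    rw [intervalIntegral.integral_congr_ae (g := fun _ => (0:ℂ))]
    · simp
    · filter_upwards [hWae] with t ht h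
      rw [uIoc_of_le (by linarith)] at h
      rw [ht, indicator_of_notMem]
      exact fun h' => not_le.mpr h.1 h'.2
  have e2 : ‖(∫ t in (ω - a)..ω, ext W t) - a‖ ≤ 1 / 4 * a := by
    have e3 : (∫ t in (ω - a)..ω, ext W t) - a = ∫ t in (ω - a)..ω, (ext W t - 1) := by
      rw [intervalIntegral.integral_sub (ext_integrable W).intervalIntegrable
        intervalIntegrable_const, intervalIntegral.integral_const]
      simp
    rw [e3]
    have := intervalIntegral.norm_integral_le_of_norm_le_const_ae (a := ω - a) (b := ω)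
      (f := fun t => ext W t - 1) (C := 1 / 4) (by
        filter_upwards [hWae] with t ht h
        rw [uIoc_of_le (by linarith)] at h
        have hmem : t ∈ Ioc 0 ω := ⟨by linarith [h.1], h.2⟩
        rw [ht, indicator_of_mem hmem]
        exact hw1 t hmem)
    rwa [sub_sub_cancel, abs_of_pos ha] at this
  have e4 : bet ω σ a - (1 - σ * (1 / 10)) =
      - σ * (((eps / a : ℝ) : ℂ) * ((∫ t in (ω - a)..ω, ext W t) - a)) := by
    have : bet ω σ a = w ω := rfl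
    rw [this, hweq]
    unfold KK
    rw [e1, sub_zero, mul_sub ((eps / a : ℝ) : ℂ)]
    have e5 : ((eps / a : ℝ) : ℂ) * (a : ℂ) = 1 / 10 := by
      rw [← Complex.ofReal_mul, div_mul_cancel₀ _ ha.ne', he]
      push_cast; ring
    rw [e5]
    ring
  rw [e4, norm_mul, norm_neg, hσ, one_mul, norm_mul, Complex.norm_real, Real.norm_eq_abs,
    abs_of_pos (div_pos eps_pos ha)]
  calc eps / a * ‖(∫ t in (ω - a)..ω, ext W t) - a‖ ≤ eps / a * (1 / 4 * a) :=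
        mul_le_mul_of_nonneg_left e2 (div_pos eps_pos ha).le
    _ = 1 / 40 := by rw [he]; field_simp; norm_num

lemma bet_neg_ge {a : ℝ} (ha : 0 < a) (haω : a ≤ ω) :
    43 / 40 ≤ ‖bet ω (-1) a‖ := by
  have h := bet_close (σ := -1) (by simp) ha haω
  have h2 : ‖(1 - (-1 : ℂ) * (1 / 10))‖ = 11 / 10 := by
    have : (1 - (-1 : ℂ) * (1 / 10)) = ((11 / 10 : ℝ) : ℂ) := by push_cast; norm_num
    rw [this, Complex.norm_real]; norm_num
  have h3 := norm_le_norm_sub_add (1 - (-1 : ℂ) * (1 / 10)) (bet ω (-1) a)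
  rw [norm_sub_rev (1 - (-1 : ℂ) * (1 / 10)) (bet ω (-1) a), h2] at h3
  linarith

end

end Pool.Agent.Results.MP_8e7914_an.NoFactorization
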