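import Mathlib

/-!
Definitions for the lacunary maximal function along a convex curve (problem `MP_cb927e_an`).
-/

namespace Pool.Agent.Helper593.Lac

open MeasureTheory Set
open scoped ENNReal NNReal

/-- The Euclidean plane. -/
abbrev E2 := EuclideanSpace ℝ (Fin 2)

/-- Arclength on `∂Ω`: one-dimensional Hausdorff measure restricted to the boundary of `Ω`. -/
noncomputable def arc (Ω : Set E2) : Measure E2 := (Measure.hausdorffMeasure 1).restrict (frontier Ω)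

/-- `A_k f (x) = ∫_{∂Ω} f (x - 2^k y) σ(dy)`. -/
noncomputable def avg (Ω : Set E2) (k : ℤ) (f : E2 → ℂ) (x : E2) : ℂ :=
  ∫ y, f (x - (2 : ℝ) ^ k • y) ∂(arc Ω)

/-- `M f (x) = sup_k |A_k f (x)|`. -/
noncomputable def maxFn (Ω : Set E2) (f : E2 → ℂ) (x : E2) : ℝ≥0∞ := ⨆ k : ℤ, ‖avg Ω k f x‖ₑ

/-- `M` is bounded on `L^p(ℝ²)`. -/
def MaxBounded (Ω : Set E2) (p : ℝ) : Prop :=
  ∃ C : ℝ≥0, ∀ f : E2 → ℂ, MemLp f (ENNReal.ofReal p) volume →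
    (∫⁻ x, maxFn Ω f x ^ p) ^ (1 / p) ≤ C * eLpNorm f (ENNReal.ofReal p) volume

/-- The supporting line with outer normal `θ`: `{z : ⟨z,θ⟩ = sup_{y ∈ Ω} ⟨y,θ⟩}`. -/
def linePlus (Ω : Set E2) (θ : E2) : Set E2 :=
  {z | inner ℝ z θ = sSup ((fun y : E2 => inner ℝ y θ) '' Ω)}

/-- The opposite supporting line: `{z : ⟨z,θ⟩ = inf_{y ∈ Ω} ⟨y,θ⟩}`. -/
def lineMinus (Ω : Set E2) (θ : E2) : Set E2 :=
  {z | inner ℝ z θ = sInf ((fun y : E2 => inner ℝ y θ) '' Ω)}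

/-- The cap `C^+(θ,δ)`. -/
def capPlus (Ω : Set E2) (θ : E2) (δ : ℝ) : Set E2 :=
  {y | y ∈ frontier Ω ∧ Metric.infDist y (linePlus Ω θ) ≤ δ}

/-- The cap `C^-(θ,δ)`. -/
def capMinus (Ω : Set E2) (θ : E2) (δ : ℝ) : Set E2 :=
  {y | y ∈ frontier Ω ∧ Metric.infDist y (lineMinus Ω θ) ≤ δ}

/-- `Λ(θ,δ)`, the larger of the arclengths of the two caps. -/
noncomputable def Lam (Ω : Set E2) (θ : E2) (δ : ℝ) : ℝ≥0∞ :=
  max (arc Ω (capPlus Ω θ δ)) (arc Ω (capMinus Ω θ δ))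

/-- For `0 < δ < δ₀` opposite caps are disjoint. -/
def CapsDisjoint (Ω : Set E2) (δ₀ : ℝ) : Prop :=
  ∀ θ : E2, ‖θ‖ = 1 → ∀ δ, 0 < δ → δ < δ₀ → Disjoint (capPlus Ω θ δ) (capMinus Ω θ δ)

/-- Condition `(G_p)`, in the strongest reading: an admissible `δ₀` exists, and for every
admissible `δ₀` the integrals `I_p(θ) = ∫_0^{δ₀} Λ(θ,δ)^p dδ/δ` are bounded uniformly in `θ`. -/
def CondG (Ω : Set E2) (p : ℝ) : Prop :=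
  (∃ δ₀ : ℝ, 0 < δ₀ ∧ CapsDisjoint Ω δ₀) ∧
  ∀ δ₀ : ℝ, 0 < δ₀ → CapsDisjoint Ω δ₀ → ∃ A : ℝ≥0, ∀ θ : E2, ‖θ‖ = 1 →
    ∫⁻ δ in Ioo 0 δ₀, Lam Ω θ δ ^ p * ENNReal.ofReal (δ⁻¹) ≤ A

end Pool.Agent.Helper593.Lac
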