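import Mathlib

/-!
One-dimensional geometry of a profile `4 - x^2 - dev x`, where `dev` is a disjoint family of
quadratic bumps that flatten the parabola on a family of cells.
-/

namespace Pool.Agent.Helper593.Lac

open Set

/-- A family of cells `[l c, r c]` in `[-1,1]` with disjoint interiors. -/
structure Cells (ι : Type) where
  l : ι → ℝ
  r : ι → ℝ
  η : ι → ℝ
  l_lt : ∀ c, l c < r c
  l_ge : ∀ c, -1 ≤ l c
  r_le : ∀ c, r c ≤ 1
  η_pos : ∀ c, 0 < η c
  η_le : ∀ c, η c ≤ 1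
  disj : ∀ c d, c ≠ d → r c ≤ l d ∨ r d ≤ l c

namespace Cells

variable {ι : Type} (C : Cells ι)

/-- one bump -/
noncomputable def bump (c : ι) (x : ℝ) : ℝ :=
  max 0 ((1 - C.η c / 2) * ((x - C.l c) * (C.r c - x)))

/-- total deviation from the parabola -/
noncomputable def dev (x : ℝ) : ℝ := ⨆ c, C.bump c x

/-- the profile -/
noncomputable def prof (x : ℝ) : ℝ := 4 - x ^ 2 - C.dev x

/-- the reflected family -/
def neg : Cells ι where
  l c := - C.r c
  r c := - C.l c
  η := C.η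
  l_lt c := by have := C.l_lt c; simpa using this
  l_ge c := by have := C.r_le c; simpa using this
  r_le c := by have := C.l_ge c; linarith
  η_pos := C.η_pos
  η_le := C.η_le
  disj c d h := by
    rcases C.disj c d h with h' | h'
    · right; simpa using h'
    · left; simpa using h'

lemma bump_nonneg (c : ι) (x : ℝ) : 0 ≤ C.bump c x := le_max_left _ _

lemma bump_le (c : ι) (x : ℝ) : C.bump c x ≤ 1 := by
  have h1 := C.l_lt c; have h2 := C.l_ge c; have h3 := C.r_le c
  have h4 := C.η_pos c; have h5 := C.η_le c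
  apply max_le zero_le_one
  have h6 : (x - C.l c) * (C.r c - x) ≤ 1 := by
    nlinarith [sq_nonneg (x - C.l c - (C.r c - x))]
  rcases le_or_gt 0 ((x - C.l c) * (C.r c - x)) with h | h
  · nlinarith
  · nlinarith

lemma bdd (x : ℝ) : BddAbove (range fun c => C.bump c x) :=
  ⟨1, by rintro _ ⟨c, rfl⟩; exact C.bump_le c x⟩

lemma bump_le_dev (c : ι) (x : ℝ) : C.bump c x ≤ C.dev x := le_ciSup (C.bdd x) c

lemma dev_nonneg (x : ℝ) : 0 ≤ C.dev x := Real.iSup_nonneg fun c => C.bump_nonneg c x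

lemma dev_le (x : ℝ) : C.dev x ≤ 1 := by
  rcases isEmpty_or_nonempty ι with h | h
  · simp [dev, Real.iSup_of_isEmpty]
  · exact ciSup_le fun c => C.bump_le c x

lemma bump_lip (c : ι) (x y : ℝ) : C.bump c x ≤ C.bump c y + 2 * |x - y| := by
  have h1 := C.l_lt c; have h2 := C.l_ge c; have h3 := C.r_le c
  have h4 := C.η_pos c; have h5 := C.η_le c
  have h0 := C.bump_nonneg c y
  have habs := abs_nonneg (x - y)
  have hx1 := le_abs_self (x - y)
  have hx2 := neg_abs_le (x - y)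
  rcases le_or_gt ((1 - C.η c / 2) * ((x - C.l c) * (C.r c - x))) 0 with h | h
  · unfold bump at *
    rw [max_eq_left h]
    linarith
  have ha : 0 < 1 - C.η c / 2 := by linarith
  have ha1 : 1 - C.η c / 2 ≤ 1 := by linarith
  have hxx : 0 < (x - C.l c) * (C.r c - x) := (mul_pos_iff_of_pos_left ha).1 h
  have hxl : C.l c < x := by
    by_contra hc
    push Not at hc
    nlinarith
  have hxr : x < C.r c := by
    by_contra hc
    push Not at hc
    nlinarith
  have e1 : C.bump c x = (1 - C.η c / 2) * ((x - C.l c) * (C.r c - x)) := max_eq_right h.le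
  rcases lt_or_ge y (C.l c) with hy | hy
  · rw [e1]
    have : (x - C.l c) * (C.r c - x) ≤ 2 * (x - C.l c) := by nlinarith
    nlinarith
  rcases lt_or_ge (C.r c) y with hy' | hy'
  · rw [e1]
    have : (x - C.l c) * (C.r c - x) ≤ 2 * (C.r c - x) := by nlinarith
    nlinarith
  have e2 : (1 - C.η c / 2) * ((y - C.l c) * (C.r c - y)) ≤ C.bump c y := le_max_right _ _
  rw [e1]
  have e3 : (x - C.l c) * (C.r c - x) - (y - C.l c) * (C.r c - y)
      = (x - y) * (C.l c + C.r c - x - y) := by ring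
  have e4 : |(x - y) * (C.l c + C.r c - x - y)| ≤ |x - y| * 2 := by
    rw [abs_mul]
    apply mul_le_mul_of_nonneg_left _ (abs_nonneg _)
    rw [abs_le]; constructor <;> linarith
  have e5 := le_abs_self ((x - y) * (C.l c + C.r c - x - y))
  nlinarith

lemma dev_lip (x y : ℝ) : C.dev x ≤ C.dev y + 2 * |x - y| := by
  rcases isEmpty_or_nonempty ι with h | h
  · simp [dev, Real.iSup_of_isEmpty]
  · apply ciSup_le
    intro c
    have := C.bump_lip c x y
    have := C.bump_le_dev c y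
    linarith

lemma dev_abs (x y : ℝ) : |C.dev x - C.dev y| ≤ 2 * |x - y| := by
  rw [abs_le]
  have h1 := C.dev_lip x y
  have h2 := C.dev_lip y x
  rw [abs_sub_comm y x] at h2
  constructor <;> linarith

lemma continuous_dev : Continuous C.dev := by
  have : LipschitzWith 2 C.dev := by
    apply LipschitzWith.of_dist_le_mul
    intro x y
    simpa [Real.dist_eq] using C.dev_abs x y
  exact this.continuous

lemma continuous_prof : Continuous C.prof := by
  unfold prof
  exact (by fun_prop : Continuous fun x : ℝ => 4 - x ^ 2).sub C.continuous_dev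

lemma bump_eq_zero {c : ι} {x : ℝ} (h : x ≤ C.l c ∨ C.r c ≤ x) : C.bump c x = 0 := by
  have h1 := C.l_lt c
  have h4 := C.η_pos c; have h5 := C.η_le c
  unfold bump
  apply max_eq_left
  have ha : 0 < 1 - C.η c / 2 := by linarith
  apply mul_nonpos_of_nonneg_of_nonpos ha.le
  rcases h with h | h
  · exact mul_nonpos_of_nonpos_of_nonneg (by linarith) (by linarith)
  · exact mul_nonpos_of_nonneg_of_nonpos (by linarith) (by linarith)

lemma dev_eq_of_mem {c : ι} {x : ℝ} (h : x ∈ Icc (C.l c) (C.r c)) :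
    C.dev x = (1 - C.η c / 2) * ((x - C.l c) * (C.r c - x)) := by
  have h4 := C.η_pos c; have h5 := C.η_le c
  have ha : 0 < 1 - C.η c / 2 := by linarith
  have hnn : 0 ≤ (1 - C.η c / 2) * ((x - C.l c) * (C.r c - x)) :=
    mul_nonneg ha.le (mul_nonneg (by linarith [h.1]) (by linarith [h.2]))
  have e : C.bump c x = (1 - C.η c / 2) * ((x - C.l c) * (C.r c - x)) := max_eq_right hnn
  have : Nonempty ι := ⟨c⟩
  apply le_antisymm
  · apply ciSup_le
    intro d
    rcases eq_or_ne c d with rfl | hcd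
    · exact e.le
    · have : C.bump d x = 0 := by
        apply C.bump_eq_zero
        rcases C.disj c d hcd with h' | h'
        · left; linarith [h.2]
        · right; linarith [h.1]
      rw [this]; exact hnn
  · rw [← e]; exact C.bump_le_dev c x

/-- outside the open cells the deviation vanishes -/
lemma dev_eq_zero {x : ℝ} (h : ∀ c, x ≤ C.l c ∨ C.r c ≤ x) : C.dev x = 0 := by
  apply le_antisymm _ (C.dev_nonneg x)
  rcases isEmpty_or_nonempty ι with h' | h'
  · simp [dev, Real.iSup_of_isEmpty]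
  · apply ciSup_le
    intro c
    rw [C.bump_eq_zero (h c)]

lemma dev_l (c : ι) : C.dev (C.l c) = 0 := by
  rw [C.dev_eq_of_mem ⟨le_rfl, (C.l_lt c).le⟩]; ring

lemma dev_r (c : ι) : C.dev (C.r c) = 0 := by
  rw [C.dev_eq_of_mem ⟨(C.l_lt c).le, le_rfl⟩]; ring

lemma prof_le (x : ℝ) : C.prof x ≤ 4 - x ^ 2 := by
  have := C.dev_nonneg x
  unfold prof; linarith

lemma prof_eq_of_mem {c : ι} {x : ℝ} (h : x ∈ Icc (C.l c) (C.r c)) :
    C.prof x = 4 - x ^ 2 - (1 - C.η c / 2) * ((x - C.l c) * (C.r c - x)) := by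
  unfold prof; rw [C.dev_eq_of_mem h]

lemma dev_out {x : ℝ} (h : 1 ≤ |x|) : C.dev x = 0 := by
  apply C.dev_eq_zero
  intro c
  have h2 := C.l_ge c; have h3 := C.r_le c
  rcases le_abs.1 h with h | h
  · right; linarith
  · left; linarith

lemma prof_nonneg {x : ℝ} (h : x ∈ Icc (-2 : ℝ) 2) : 0 ≤ C.prof x := by
  unfold prof
  rcases le_or_gt 1 |x| with h1 | h1
  · rw [C.dev_out h1]
    nlinarith [h.1, h.2]
  · have := C.dev_le x
    have h2 := abs_lt.1 h1
    nlinarith [h2.1, h2.2]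

lemma prof_pos {x : ℝ} (h : x ∈ Ioo (-2 : ℝ) 2) : 0 < C.prof x := by
  unfold prof
  rcases le_or_gt 1 |x| with h1 | h1
  · rw [C.dev_out h1]
    nlinarith [h.1, h.2]
  · have := C.dev_le x
    have h2 := abs_lt.1 h1
    nlinarith [h2.1, h2.2]

lemma prof_neg_fam (x : ℝ) : C.neg.prof x = C.prof (-x) := by
  unfold prof dev
  have : ∀ c, C.neg.bump c x = C.bump c (-x) := by
    intro c
    unfold bump neg
    congr 1
    simp only
    ring
  simp [this]

/-- concavity -/
lemma concave_prof : ConcaveOn ℝ univ C.prof := by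
  refine ⟨convex_univ, ?_⟩
  intro x _ y _ a b ha hb hab
  simp only [smul_eq_mul]
  have hb' : b = 1 - a := by linarith
  have hP : a * (4 - x ^ 2) + b * (4 - y ^ 2) ≤ 4 - (a * x + b * y) ^ 2 := by
    subst hb'
    nlinarith [mul_nonneg ha hb, mul_nonneg (mul_nonneg ha hb) (sq_nonneg (x - y))]
  have key : ∀ c, C.bump c (a * x + b * y) ≤ 4 - (a * x + b * y) ^ 2
      - (a * C.prof x + b * C.prof y) := by
    intro c
    have h1 := C.l_lt c; have h4 := C.η_pos c; have h5 := C.η_le c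
    apply max_le
    · have e1 := C.prof_le x
      have e2 := C.prof_le y
      nlinarith [mul_le_mul_of_nonneg_left e1 ha, mul_le_mul_of_nonneg_left e2 hb]
    · have q : ∀ z, C.prof z ≤ 4 - z ^ 2 - (1 - C.η c / 2) * ((z - C.l c) * (C.r c - z)) := by
        intro z
        have : (1 - C.η c / 2) * ((z - C.l c) * (C.r c - z)) ≤ C.dev z :=
          (le_max_right _ _).trans (C.bump_le_dev c z)
        unfold prof; linarith
      have e1 := mul_le_mul_of_nonneg_left (q x) ha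
      have e2 := mul_le_mul_of_nonneg_left (q y) hb
      have e3 : a * (4 - x ^ 2 - (1 - C.η c / 2) * ((x - C.l c) * (C.r c - x)))
          + b * (4 - y ^ 2 - (1 - C.η c / 2) * ((y - C.l c) * (C.r c - y)))
          ≤ 4 - (a * x + b * y) ^ 2
            - (1 - C.η c / 2) * ((a * x + b * y - C.l c) * (C.r c - (a * x + b * y))) := by
        subst hb'
        have : 0 ≤ C.η c / 2 * (a * (1 - a) * (x - y) ^ 2) :=
          mul_nonneg (by linarith) (mul_nonneg (mul_nonneg ha hb) (sq_nonneg _))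
        nlinarith
      linarith
  have : C.dev (a * x + b * y) ≤ 4 - (a * x + b * y) ^ 2 - (a * C.prof x + b * C.prof y) := by
    rcases isEmpty_or_nonempty ι with h' | h'
    · have : C.dev (a * x + b * y) = 0 := by simp [dev, Real.iSup_of_isEmpty]
      rw [this]
      have e1 := C.prof_le x
      have e2 := C.prof_le y
      nlinarith [mul_le_mul_of_nonneg_left e1 ha, mul_le_mul_of_nonneg_left e2 hb]
    · exact ciSup_le key
  unfold prof at *
  linarith

/-- Lipschitz bound on `[-2,2]` -/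
lemma prof_lip {x y : ℝ} (hx : x ∈ Icc (-2 : ℝ) 2) (hy : y ∈ Icc (-2 : ℝ) 2) :
    |C.prof x - C.prof y| ≤ 6 * |x - y| := by
  have h1 := C.dev_abs x y
  have e : C.prof x - C.prof y = (x - y) * (-(x + y)) + -(C.dev x - C.dev y) := by
    unfold prof; ring
  rw [e]
  refine (abs_add_le _ _).trans ?_
  rw [abs_mul, abs_neg (C.dev x - C.dev y)]
  have : |(-(x + y))| ≤ 4 := by
    rw [abs_le]; constructor <;> linarith [hx.1, hx.2, hy.1, hy.2]
  nlinarith [abs_nonneg (x - y)]

/-- beyond a touching point to the right of the maximiser -/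
lemma right_touch {S x₀ ρ x : ℝ} (hx₀ : x₀ ∈ Icc (-2 : ℝ) 2)
    (hmax : ∀ x ∈ Icc (-2 : ℝ) 2, C.prof x - S * x ≤ C.prof x₀ - S * x₀)
    (hρ : x₀ < ρ) (hρ2 : ρ ≤ 2) (ht : C.dev ρ = 0) (hx : ρ ≤ x) :
    (x - ρ) ^ 2 ≤ (C.prof x₀ - S * x₀) - (C.prof x - S * x) := by
  have hM := hmax ρ ⟨by linarith [hx₀.1], hρ2⟩
  have e1 : C.prof ρ = 4 - ρ ^ 2 := by unfold prof; rw [ht]; ring
  have e2 := C.prof_le x₀
  have e3 := C.prof_le x
  have hS : 0 ≤ S + ρ + x₀ := by
    by_contra hc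
    push Not at hc
    have : (ρ - x₀) * (S + ρ + x₀) < 0 := mul_neg_of_pos_of_neg (by linarith) hc
    rw [e1] at hM
    nlinarith
  rw [e1] at hM
  nlinarith [mul_nonneg (sub_nonneg.2 hx) hS, mul_nonneg (sub_nonneg.2 hx) (sub_nonneg.2 hρ.le)]

/-- strong concavity inside the contact cell -/
lemma right_cell {S x₀ x : ℝ} {c : ι} (hx₀ : x₀ ∈ Icc (-2 : ℝ) 2)
    (hmax : ∀ x ∈ Icc (-2 : ℝ) 2, C.prof x - S * x ≤ C.prof x₀ - S * x₀)
    (hl : C.l c ≤ x₀) (hx : x₀ ≤ x) (hr : x ≤ C.r c) (hlt : x₀ < C.r c) :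
    C.η c / 2 * (x - x₀) ^ 2 ≤ (C.prof x₀ - S * x₀) - (C.prof x - S * x) := by
  have h1 := C.l_lt c; have h2 := C.l_ge c; have h3 := C.r_le c
  have h4 := C.η_pos c; have h5 := C.η_le c
  have e0 : ∀ z, x₀ ≤ z → z ≤ C.r c → (C.prof x₀ - S * x₀) - (C.prof z - S * z)
      = (z - x₀) * ((C.η c * x₀ + (1 - C.η c / 2) * (C.l c + C.r c) + S)
        + C.η c / 2 * (z - x₀)) := by
    intro z hz hz'
    rw [C.prof_eq_of_mem ⟨hl, by linarith⟩, C.prof_eq_of_mem ⟨by linarith, hz'⟩]
    ring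
  have hD : 0 ≤ C.η c * x₀ + (1 - C.η c / 2) * (C.l c + C.r c) + S := by
    by_contra hc
    push Not at hc
    set D := C.η c * x₀ + (1 - C.η c / 2) * (C.l c + C.r c) + S with hDdef
    set z := x₀ + min (C.r c - x₀) (-D / C.η c) with hz
    have hz1 : 0 < min (C.r c - x₀) (-D / C.η c) :=
      lt_min (by linarith) (div_pos (by linarith) h4)
    have hz2 : min (C.r c - x₀) (-D / C.η c) ≤ C.r c - x₀ := min_le_left _ _
    have hz3 : min (C.r c - x₀) (-D / C.η c) ≤ -D / C.η c := min_le_right _ _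
    have hz4 : C.η c * (z - x₀) ≤ -D := by
      have : z - x₀ ≤ -D / C.η c := by rw [hz]; linarith
      calc C.η c * (z - x₀) ≤ C.η c * (-D / C.η c) := mul_le_mul_of_nonneg_left this h4.le
        _ = -D := by field_simp
    have h6 := hmax z ⟨by linarith [hx₀.1], by linarith⟩
    have h7 := e0 z (by linarith) (by linarith)
    have h8 : 0 < z - x₀ := by linarith
    have h9 : D + C.η c / 2 * (z - x₀) < 0 := by linarith
    have := mul_neg_of_pos_of_neg h8 h9
    linarith
  rw [e0 x hx hr]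
  nlinarith [mul_nonneg (sub_nonneg.2 hx) hD]

/-- touching points close to the right of a point in no cell -/
lemma touch_near {x₀ ε : ℝ} (hε : 0 < ε) (h : ∀ c, ¬ (C.l c ≤ x₀ ∧ x₀ < C.r c)) :
    ∃ ρ, x₀ < ρ ∧ ρ ≤ x₀ + ε ∧ C.dev ρ = 0 := by
  by_contra hc
  push Not at hc
  have h1 := hc (x₀ + ε) (by linarith) le_rfl
  have h2 : ¬ ∀ c, x₀ + ε ≤ C.l c ∨ C.r c ≤ x₀ + ε := fun h => h1 (C.dev_eq_zero h)
  push Not at h2
  obtain ⟨c, hc1, hc2⟩ := h2
  have h3 : C.l c ≤ x₀ := by
    by_contra hlt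
    push Not at hlt
    exact hc (C.l c) hlt hc1.le (C.dev_l c)
  exact h c ⟨h3, by linarith⟩

/-- the contribution of the contact cell -/
noncomputable def B (o : Option ι) (δ : ℝ) : ℝ :=
  match o with
  | none => 0
  | some c => min (C.r c - C.l c) (Real.sqrt (2 * δ / C.η c))

/-- the superlevel set -/
def D (S x₀ δ : ℝ) : Set ℝ :=
  {x | x ∈ Icc (-2 : ℝ) 2 ∧ (C.prof x₀ - S * x₀) - (C.prof x - S * x) ≤ δ}

lemma B_nonneg (o : Option ι) {δ : ℝ} : 0 ≤ C.B o δ := by
  cases o with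
  | none => exact le_rfl
  | some c => exact le_min (by linarith [C.l_lt c]) (Real.sqrt_nonneg _)

/-- right half of the superlevel set -/
lemma right_half {S x₀ : ℝ} (hx₀ : x₀ ∈ Icc (-2 : ℝ) 2)
    (hmax : ∀ x ∈ Icc (-2 : ℝ) 2, C.prof x - S * x ≤ C.prof x₀ - S * x₀) :
    ∃ o : Option ι, ∀ δ, 0 < δ →
      MeasureTheory.volume (C.D S x₀ δ ∩ Ici x₀) ≤ ENNReal.ofReal (2 * Real.sqrt δ + C.B o δ) := by
  rcases eq_or_lt_of_le hx₀.2 with h2 | h2
  · refine ⟨none, fun δ hδ => ?_⟩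
    have : C.D S x₀ δ ∩ Ici x₀ ⊆ {x₀} := by
      rintro x ⟨⟨hx, _⟩, hx'⟩
      simp only [mem_singleton_iff]
      have := hx.2
      have h3 : x₀ ≤ x := hx'
      linarith
    refine (MeasureTheory.measure_mono this).trans ?_
    simp
  by_cases hc : ∃ c, C.l c ≤ x₀ ∧ x₀ < C.r c
  · obtain ⟨c, hc1, hc2⟩ := hc
    refine ⟨some c, fun δ hδ => ?_⟩
    have h1 := C.l_lt c; have h2 := C.l_ge c; have h3 := C.r_le c
    have h4 := C.η_pos c; have h5 := C.η_le c
    have hsub : C.D S x₀ δ ∩ Ici x₀ ⊆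
        Icc x₀ (x₀ + C.B (some c) δ) ∪ Icc (C.r c) (C.r c + Real.sqrt δ) := by
      rintro x ⟨⟨hx, hxδ⟩, hx'⟩
      have h3 : x₀ ≤ x := hx'
      rcases le_or_gt x (C.r c) with h | h
      · left
        refine ⟨h3, ?_⟩
        have hcell := C.right_cell hx₀ hmax hc1 h3 h hc2
        have : x - x₀ ≤ C.B (some c) δ := by
          apply le_min
          · linarith
          · apply Real.le_sqrt_of_sq_le
            rw [le_div_iff₀ h4]
            nlinarith
        linarith
      · right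
        refine ⟨h.le, ?_⟩
        have ht := C.right_touch hx₀ hmax hc2 (by linarith) (C.dev_r c) h.le
        have : x - C.r c ≤ Real.sqrt δ := by
          apply Real.le_sqrt_of_sq_le
          linarith
        linarith
    refine (MeasureTheory.measure_mono hsub).trans ?_
    refine (MeasureTheory.measure_union_le _ _).trans ?_
    rw [Real.volume_Icc, Real.volume_Icc, ← ENNReal.ofReal_add]
    · apply ENNReal.ofReal_le_ofReal
      have := Real.sqrt_nonneg δ
      linarith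
    · have := C.B_nonneg (some c) (δ := δ); linarith
    · have := Real.sqrt_nonneg δ; linarith
  · push Not at hc
    refine ⟨none, fun δ hδ => ?_⟩
    have hε : 0 < min (Real.sqrt δ) (2 - x₀) := lt_min (Real.sqrt_pos.2 hδ) (by linarith)
    obtain ⟨ρ, hρ1, hρ2, hρ3⟩ := C.touch_near hε (fun c hcc => by
      have := hc c hcc.1; linarith [hcc.2])
    have hm1 := min_le_left (Real.sqrt δ) (2 - x₀)
    have hm2 := min_le_right (Real.sqrt δ) (2 - x₀)
    have hsub : C.D S x₀ δ ∩ Ici x₀ ⊆ Icc x₀ (ρ + Real.sqrt δ) := by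
      rintro x ⟨⟨hx, hxδ⟩, hx'⟩
      have h3 : x₀ ≤ x := hx'
      refine ⟨h3, ?_⟩
      rcases le_or_gt x ρ with h | h
      · have := Real.sqrt_nonneg δ; linarith
      · have ht := C.right_touch hx₀ hmax hρ1 (by linarith) hρ3 h.le
        have : x - ρ ≤ Real.sqrt δ := by
          apply Real.le_sqrt_of_sq_le
          linarith
        linarith
    refine (MeasureTheory.measure_mono hsub).trans ?_
    rw [Real.volume_Icc]
    apply ENNReal.ofReal_le_ofReal
    simp only [B]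
    linarith

/-- the full one dimensional estimate -/
lemma oneD {S x₀ : ℝ} (hx₀ : x₀ ∈ Icc (-2 : ℝ) 2)
    (hmax : ∀ x ∈ Icc (-2 : ℝ) 2, C.prof x - S * x ≤ C.prof x₀ - S * x₀) :
    ∃ o₁ o₂ : Option ι, ∀ δ, 0 < δ →
      MeasureTheory.volume (C.D S x₀ δ) ≤
        ENNReal.ofReal (4 * Real.sqrt δ + C.B o₁ δ + C.B o₂ δ) := by
  obtain ⟨o₁, h₁⟩ := C.right_half hx₀ hmax
  have hx₀' : -x₀ ∈ Icc (-2 : ℝ) 2 := ⟨by linarith [hx₀.2], by linarith [hx₀.1]⟩
  have hmax' : ∀ x ∈ Icc (-2 : ℝ) 2,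
      C.neg.prof x - (-S) * x ≤ C.neg.prof (-x₀) - (-S) * (-x₀) := by
    intro x hx
    rw [C.prof_neg_fam, C.prof_neg_fam, neg_neg]
    have := hmax (-x) ⟨by linarith [hx.2], by linarith [hx.1]⟩
    linarith
  obtain ⟨o₂, h₂⟩ := C.neg.right_half hx₀' hmax'
  refine ⟨o₁, o₂, fun δ hδ => ?_⟩
  have hB : C.neg.B o₂ δ = C.B o₂ δ := by
    cases o₂ with
    | none => rfl
    | some c =>
      simp only [B, neg]
      congr 1
      ring
  have hD : C.D S x₀ δ ∩ Iic x₀ = (fun x => -x) ⁻¹' (C.neg.D (-S) (-x₀) δ ∩ Ici (-x₀)) := by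
    ext x
    simp only [D, mem_inter_iff, mem_setOf_eq, mem_preimage, C.prof_neg_fam, neg_neg,
      mem_Ici, mem_Iic, neg_le_neg_iff, mem_Icc]
    constructor
    · rintro ⟨⟨⟨ha, hb⟩, hc⟩, hd⟩
      exact ⟨⟨⟨by linarith, by linarith⟩, by linarith⟩, hd⟩
    · rintro ⟨⟨⟨ha, hb⟩, hc⟩, hd⟩
      exact ⟨⟨⟨by linarith, by linarith⟩, by linarith⟩, hd⟩
  have hvol : MeasureTheory.volume (C.D S x₀ δ ∩ Iic x₀) =
      MeasureTheory.volume (C.neg.D (-S) (-x₀) δ ∩ Ici (-x₀)) := by
    rw [hD]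
    have := MeasureTheory.Measure.measure_preimage_neg
      (MeasureTheory.volume : MeasureTheory.Measure ℝ) (C.neg.D (-S) (-x₀) δ ∩ Ici (-x₀))
    exact this
  have hsub : C.D S x₀ δ ⊆ (C.D S x₀ δ ∩ Ici x₀) ∪ (C.D S x₀ δ ∩ Iic x₀) := by
    intro x hx
    rcases le_total x₀ x with h | h
    · exact Or.inl ⟨hx, h⟩
    · exact Or.inr ⟨hx, h⟩
  refine (MeasureTheory.measure_mono hsub).trans ((MeasureTheory.measure_union_le _ _).trans ?_)
  rw [hvol]
  refine (add_le_add (h₁ δ hδ) (h₂ δ hδ)).trans ?_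
  rw [hB, ← ENNReal.ofReal_add]
  · apply ENNReal.ofReal_le_ofReal; linarith
  · have := C.B_nonneg o₁ (δ := δ); have := Real.sqrt_nonneg δ; linarith
  · have := C.B_nonneg o₂ (δ := δ); have := Real.sqrt_nonneg δ; linarith

end Cells

end Pool.Agent.Helper593.Lac
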