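import Pool.Agent.Helper593.Lac6

/-!
Stage A: the test set for large exponents.
-/

namespace Pool.Agent.Helper593.Lac

open MeasureTheory Set Filter Topology
open scoped ENNReal NNReal

/-- the set of lines -/
def EA (q n : ℕ) (w R : ℝ) : Set E2 :=
  {z | (z 0 ∈ Icc 0 R ∧ z 1 ∈ Icc 0 R) ∧ ∃ j : ℕ, j ∈ Finset.Ico (2 ^ q) (2 ^ (q + 1)) ∧ ∃ L : ℤ,
    |z 1 - (2 * j + 1) / 2 ^ (q + n + 3) * z 0 - L * (1 / (2 ^ (q + n + 3)) ^ 2)| ≤ 2 * w}

lemma EA_eq (q n : ℕ) (w R : ℝ) : EA q n w R =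
    ⋃ j ∈ Finset.Ico (2 ^ q) (2 ^ (q + 1)), {z : E2 | (z 0 ∈ Icc 0 R ∧ z 1 ∈ Icc 0 R) ∧ ∃ L : ℤ,
    |z 1 - (2 * (j : ℕ) + 1) / 2 ^ (q + n + 3) * z 0 - L * (1 / (2 ^ (q + n + 3)) ^ 2)| ≤ 2 * w} := by
  ext z
  simp only [EA, mem_ofPred_eq, mem_iUnion]
  constructor
  · rintro ⟨h, j, hj, L, hL⟩
    exact ⟨j, hj, h, L, hL⟩
  · rintro ⟨j, hj, h, L, hL⟩
    exact ⟨h, j, hj, L, hL⟩

lemma meas_EAj (q n : ℕ) (w R : ℝ) (j : ℕ) : MeasurableSet
    {z : E2 | (z 0 ∈ Icc 0 R ∧ z 1 ∈ Icc 0 R) ∧ ∃ L : ℤ,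
    |z 1 - (2 * (j : ℕ) + 1) / 2 ^ (q + n + 3) * z 0 - L * (1 / (2 ^ (q + n + 3)) ^ 2)| ≤ 2 * w} := by
  have h0 : Measurable fun z : E2 => z 0 := by fun_prop
  have h1 : Measurable fun z : E2 => z 1 := by fun_prop
  have : {z : E2 | ∃ L : ℤ,
    |z 1 - (2 * (j : ℕ) + 1) / 2 ^ (q + n + 3) * z 0 - L * (1 / (2 ^ (q + n + 3)) ^ 2)| ≤ 2 * w}
    = ⋃ L : ℤ, {z : E2 |
    |z 1 - (2 * (j : ℕ) + 1) / 2 ^ (q + n + 3) * z 0 - L * (1 / (2 ^ (q + n + 3)) ^ 2)| ≤ 2 * w} := by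
    ext z; simp
  have hm : MeasurableSet {z : E2 | ∃ L : ℤ,
    |z 1 - (2 * (j : ℕ) + 1) / 2 ^ (q + n + 3) * z 0 - L * (1 / (2 ^ (q + n + 3)) ^ 2)| ≤ 2 * w} := by
    rw [this]
    refine MeasurableSet.iUnion fun L => measurableSet_le ?_ measurable_const
    fun_prop
  exact ((h0 measurableSet_Icc).inter (h1 measurableSet_Icc)).inter hm

lemma meas_EA (q n : ℕ) (w R : ℝ) : MeasurableSet (EA q n w R) := by
  rw [EA_eq]
  exact Finset.measurableSet_biUnion _ fun j _ => meas_EAj q n w R j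

lemma vol_EA {q n : ℕ} {w R : ℝ} (hw : 0 ≤ w) (hw2 : 4 * w ≤ 1 / (2 ^ (q + n + 3)) ^ 2)
    (hR : 0 ≤ R) : volume (EA q n w R) ≤
      ENNReal.ofReal (2 ^ q * (R * ((R * (2 ^ (q + n + 3)) ^ 2 + 2) * (4 * w)))) := by
  have hone : ∀ j ∈ Finset.Ico (2 ^ q) (2 ^ (q + 1)), volume
      {z : E2 | (z 0 ∈ Icc 0 R ∧ z 1 ∈ Icc 0 R) ∧ ∃ L : ℤ,
        |z 1 - (2 * (j : ℕ) + 1) / 2 ^ (q + n + 3) * z 0 - L * (1 / (2 ^ (q + n + 3)) ^ 2)| ≤ 2 * w}
      ≤ ENNReal.ofReal (R * ((R * (2 ^ (q + n + 3)) ^ 2 + 2) * (4 * w))) := by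
    intro j _
    refine (slice_le (A := 0) (B := R)
      (m := ENNReal.ofReal ((R * (2 ^ (q + n + 3)) ^ 2 + 2) * (4 * w))) (meas_EAj q n w R j)
      (fun z hz => hz.1.1) ?_).trans ?_
    · intro x _
      have hp := periodic_upper (A := 0) (B := R) (c := (2 * (j : ℕ) + 1) / 2 ^ (q + n + 3) * x)
        (d := 1 / (2 ^ (q + n + 3)) ^ 2) (β := 2 * w) (by positivity) (by positivity)
        (by linarith) hR
      have e1 : ((R - 0) / (1 / (2 ^ (q + n + 3)) ^ 2) + 2) * (2 * (2 * w))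
          = (R * (2 ^ (q + n + 3)) ^ 2 + 2) * (4 * w) := by
        rw [div_div_eq_mul_div]; ring
      rw [e1] at hp
      refine le_trans (measure_mono ?_) hp
      intro y hy
      simp only [mem_ofPred_eq] at hy
      simp only [Matrix.cons_val_zero, Matrix.cons_val_one] at hy
      exact ⟨hy.1.2, hy.2⟩
    · rw [sub_zero, ← ENNReal.ofReal_mul hR]
  rw [EA_eq]
  refine (measure_biUnion_finset_le _ _).trans ((Finset.sum_le_sum hone).trans ?_)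
  rw [Finset.sum_const, Nat.card_Ico, nsmul_eq_mul]
  have : 2 ^ (q + 1) - 2 ^ q = 2 ^ q := by rw [pow_succ]; omega
  rw [this, ENNReal.ofReal_mul (p := 2 ^ q) (by positivity)]
  apply le_of_eq
  congr 1
  rw [ENNReal.ofReal_pow (by norm_num)]
  norm_num

/-- the small squares -/
def SA (x₀ y₀ w : ℝ) : Set E2 := {z | z 0 ∈ Ico x₀ (x₀ + w) ∧ z 1 ∈ Ico y₀ (y₀ + w)}

lemma meas_SA (x₀ y₀ w : ℝ) : MeasurableSet (SA x₀ y₀ w) := by
  have h0 : Measurable fun z : E2 => z 0 := by fun_prop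
  have h1 : Measurable fun z : E2 => z 1 := by fun_prop
  exact (h0 measurableSet_Ico).inter (h1 measurableSet_Ico)

lemma vol_SA {x₀ y₀ w : ℝ} (hw : 0 ≤ w) : ENNReal.ofReal (w ^ 2) ≤ volume (SA x₀ y₀ w) := by
  have h := le_slice (T := SA x₀ y₀ w) (meas_SA x₀ y₀ w) (G := Ico x₀ (x₀ + w)) measurableSet_Ico
    (m := ENNReal.ofReal w) (by
      intro x hx
      have : {y : ℝ | (!₂[x, y] : E2) ∈ SA x₀ y₀ w} = Ico y₀ (y₀ + w) := by
        ext y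
        simp only [SA, mem_ofPred_eq]
        simp only [Matrix.cons_val_zero, Matrix.cons_val_one]
        exact ⟨fun h => h.2, fun h => ⟨hx, h⟩⟩
      rw [this, Real.volume_Ico]
      apply ENNReal.ofReal_le_ofReal; linarith)
  refine le_trans ?_ h
  rw [Real.volume_Ico, ← ENNReal.ofReal_mul (by linarith)]
  apply ENNReal.ofReal_le_ofReal; nlinarith

lemma aux_sq {w A r r' Y : ℝ} (hw : 0 < w) {m m' : ℕ} (k1 : 0 ≤ r) (k2 : r ≤ w) (k3 : 0 ≤ r')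
    (k4 : r' ≤ w) (k5 : A + 2 * w * m + r ≤ Y) (k6 : Y < A + 2 * w * m + r + w)
    (k7 : A + 2 * w * m' + r' ≤ Y) (k8 : Y < A + 2 * w * m' + r' + w) : m = m' := by
  rcases lt_trichotomy m m' with h | h | h
  · have h9 : (m : ℝ) + 1 ≤ m' := by exact_mod_cast h
    have h10 := mul_le_mul_of_nonneg_left h9 (by linarith : 0 ≤ 2 * w)
    linarith
  · exact h
  · have h9 : (m' : ℝ) + 1 ≤ m := by exact_mod_cast h
    have h10 := mul_le_mul_of_nonneg_left h9 (by linarith : 0 ≤ 2 * w)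
    linarith

lemma aux_rem {w r : ℝ} (hw : 0 < w) (h : 0 ≤ r) (h' : r ≤ 1) : 0 ≤ r * w ∧ r * w ≤ w :=
  ⟨mul_nonneg h hw.le, by
    calc r * w ≤ 1 * w := mul_le_mul_of_nonneg_right h' hw.le
      _ = w := one_mul w⟩

lemma aux_N {w v N : ℝ} (hw : 0 < w) (h : v + 1 ≤ N) : 2 * w * v + 2 * w ≤ 2 * (w * N) := by
  calc 2 * w * v + 2 * w = 2 * (w * (v + 1)) := by ring
    _ ≤ 2 * (w * N) := by
      apply mul_le_mul_of_nonneg_left _ (by norm_num)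
      exact mul_le_mul_of_nonneg_left h hw.le

namespace Cells

variable {ι : Type} (C : Cells ι) (a b : ℝ)

/-- membership of the whole arc -/
lemma stageA_point {q n K k : ℕ} {η w R : ℝ} (hblk : C.Blk q n η) (hη : 0 ≤ η) (hw0 : 0 < w)
    (ha : 0 ≤ a) (ha1 : a ≤ 1) (hb : 0 ≤ b) (hb1 : b ≤ 1)
    (hkη : (2 : ℝ) ^ k * η ≤ w) (hR : R = 2 ^ (K + 5)) (hkK : k ≤ K)
    {X : E2} {M₀ M₁ : ℤ} {ξ ζ : ℝ} (hξ0 : 0 ≤ ξ) (hξ1 : ξ ≤ w) (hζ0 : 0 ≤ ζ) (hζ1 : ζ ≤ w)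
    (hX0 : X 0 - 2 ^ k * a = M₀ / 2 ^ (q + n + 3) + ξ)
    (hX1 : X 1 - 2 ^ k * b = M₁ / (2 ^ (q + n + 3)) ^ 2 + ζ)
    (hXb0 : X 0 ∈ Icc (R / 4) (3 * R / 4)) (hXb1 : X 1 ∈ Icc (R / 4) (3 * R / 4))
    {x : ℝ} (hx : x ∈ Ico ((2 : ℝ) ^ q / 2 ^ (q + n + 3)) (2 ^ (q + 1) / 2 ^ (q + n + 3))) :
    X - (2 : ℝ) ^ k • (!₂[a + x, b - C.prof x] : E2) ∈ EA q n w R := by
  obtain ⟨j, hj1, hj2, c, hl, hr, hηc, hxc⟩ := blk_point hblk hx
  set H : ℝ := 2 ^ (q + n + 3) with hH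
  have hHpos : 0 < H := by positivity
  have hz := z_ident (C := C) a b (η := η) hHpos hl hr hηc hxc (X 0) (X 1) (2 ^ k)
  have hbump := bump_bound (C := C) (K := 2 ^ k) (by positivity) hη hkη hxc
  have hl1 := C.l_ge c
  have hr1 := C.r_le c
  have hl0 : 0 ≤ C.l c := by rw [hl]; positivity
  have hx0 : 0 ≤ x := hl0.trans hxc.1
  have hx1 : x ≤ 1 := hxc.2.trans hr1
  have hk1 : (0 : ℝ) < 2 ^ k := by positivity
  have hkR : (2 : ℝ) ^ k * 8 ≤ R / 4 := by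
    rw [hR]
    have : (2 : ℝ) ^ k ≤ 2 ^ K := pow_le_pow_right₀ (by norm_num) hkK
    have e : (2 : ℝ) ^ (K + 5) = 2 ^ K * 32 := by rw [pow_add]; norm_num
    rw [e]; linarith
  have hp4 := prof_le_four (C := C) x
  have hp0 := C.prof_nonneg (x := x) ⟨by linarith, by linarith⟩
  have e0 : (X - (2 : ℝ) ^ k • (!₂[a + x, b - C.prof x] : E2)) 0 = X 0 - 2 ^ k * (a + x) := by
    simp
  have e1 : (X - (2 : ℝ) ^ k • (!₂[a + x, b - C.prof x] : E2)) 1 = X 1 - 2 ^ k * (b - C.prof x) := by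
    simp
  refine ⟨⟨?_, ?_⟩, j, Finset.mem_Ico.2 ⟨hj1, hj2⟩,
    M₁ - (2 * j + 1) * M₀ + 2 ^ k * (4 * (2 ^ (q + n + 3)) ^ 2 + j * (j + 1)), ?_⟩
  · rw [e0]
    have h1 : 0 ≤ 2 ^ k * (a + x) := by positivity
    have h2 : 2 ^ k * (a + x) ≤ 2 ^ k * 8 := by
      apply mul_le_mul_of_nonneg_left _ hk1.le; linarith
    exact ⟨by linarith [hXb0.1], by linarith [hXb0.2]⟩
  · rw [e1]
    have h1 : -(2 ^ k * 8) ≤ 2 ^ k * (b - C.prof x) := by
      have := mul_le_mul_of_nonneg_left (show -8 ≤ b - C.prof x by linarith) hk1.le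
      linarith
    have h2 : 2 ^ k * (b - C.prof x) ≤ 2 ^ k * 8 := by
      apply mul_le_mul_of_nonneg_left _ hk1.le; linarith
    exact ⟨by linarith [hXb1.1], by linarith [hXb1.2]⟩
  · rw [e0, e1, hz, hX0, hX1]
    push_cast
    have hjh : (2 * (j : ℝ) + 1) / H ≤ 1 := by
      rw [div_le_one hHpos, hH]
      have : (j : ℝ) + 1 ≤ 2 ^ (q + 1) := by exact_mod_cast hj2
      have e : (2 : ℝ) ^ (q + n + 3) = 2 ^ (q + 1) * (2 ^ n * 4) := by
        rw [show q + n + 3 = (q + 1) + n + 2 by ring, pow_add, pow_add]; ring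
      have h3 : (1 : ℝ) ≤ 2 ^ n := one_le_pow₀ (by norm_num)
      have h4 : (0 : ℝ) < 2 ^ (q + 1) := by positivity
      rw [e]
      nlinarith
    have hjh0 : 0 ≤ (2 * (j : ℝ) + 1) / H := by positivity
    have key : (M₁ / H ^ 2 + ζ) - (2 * j + 1) / H * (M₀ / H + ξ) + 2 ^ k * (4 + j * (j + 1) / H ^ 2)
        + 2 ^ k * (η / 2 * ((x - C.l c) * (C.r c - x)))
        - (M₁ - (2 * j + 1) * M₀ + 2 ^ k * (4 * H ^ 2 + j * (j + 1))) * (1 / H ^ 2)
        = ζ - (2 * j + 1) / H * ξ + 2 ^ k * (η / 2 * ((x - C.l c) * (C.r c - x))) := by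
      field_simp
      ring
    rw [key, abs_le]
    have h5 : 0 ≤ (2 * (j : ℝ) + 1) / H * ξ := mul_nonneg hjh0 hξ0
    have h6 : (2 * (j : ℝ) + 1) / H * ξ ≤ w := by
      calc (2 * (j : ℝ) + 1) / H * ξ ≤ 1 * w := mul_le_mul hjh hξ1 hξ0 (by norm_num)
        _ = w := one_mul _
    constructor
    · linarith [hbump.1]
    · linarith [hbump.2]

/-- Stage A. -/
lemma stageA {q n κ s : ℕ} {η p : ℝ} (hp : 1 < p) (hs : ((n : ℝ) + 3) * p + 4 ≤ s)
    (ha : 0 ≤ a) (ha1 : a ≤ 1) (hb : 0 ≤ b) (hb1 : b ≤ 1)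
    (hblk : C.Blk q n η) (hη : 0 ≤ η)
    (hηK : 2 ^ (κ + (3 * (q + n + 3) + s + 1) * 2 ^ (3 * (q + n + 3) + 2 * s)) * η
      ≤ 1 / 2 ^ (3 * (q + n + 3) + s + 1))
    (hda : Dig a κ (3 * (q + n + 3) + s + 1) (2 ^ (3 * (q + n + 3) + 2 * s))
      (fun i => 2 * (i % 2 ^ (2 * (q + n + 3) + s))))
    (hdb : Dig b κ (3 * (q + n + 3) + s + 1) (2 ^ (3 * (q + n + 3) + 2 * s))
      (fun i => 2 * ((i / 2 ^ (2 * (q + n + 3) + s)) % 2 ^ ((q + n + 3) + s)))) :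
    ∃ E' : Set E2, MeasurableSet E' ∧ volume E' < ⊤ ∧
      2 ^ n * volume E' < ∫⁻ x, maxFn (C.body a b) (E'.indicator fun _ => (1 : ℂ)) x ^ p := by
  set ν : ℕ := q + n + 3 with hν
  set t : ℕ := 3 * ν + s + 1 with ht
  set α : ℕ := 2 * ν + s with hα
  set β : ℕ := ν + s with hβ
  set I : ℕ := 2 ^ (3 * ν + 2 * s) with hI
  set K : ℕ := κ + t * I with hK
  set w : ℝ := 1 / 2 ^ t with hw
  set R : ℝ := 2 ^ (K + 5) with hR
  have hwpos : 0 < w := by positivity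
  have hRpos : 0 < R := by positivity
  have hIab : I = 2 ^ α * 2 ^ β := by
    rw [hI, ← pow_add]; congr 1; omega
  -- the digits
  have hda' := hda
  have hdb' := hdb
  choose! u₀ rem₀ hr00 hr01 hdx using hda'
  choose! u₁ rem₁ hr10 hr11 hdy using hdb'
  set N : ℕ := 2 ^ (K + 3 + t) with hN
  let idx : ℕ × ℕ → ℕ := fun v => v.1 % 2 ^ α + 2 ^ α * (v.2 % 2 ^ β)
  have hidx : ∀ v, idx v < I := by
    intro v
    have h1 : v.1 % 2 ^ α < 2 ^ α := Nat.mod_lt _ (by positivity)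
    have h2 : v.2 % 2 ^ β < 2 ^ β := Nat.mod_lt _ (by positivity)
    rw [hIab]
    calc v.1 % 2 ^ α + 2 ^ α * (v.2 % 2 ^ β) < 2 ^ α + 2 ^ α * (v.2 % 2 ^ β) := by omega
      _ = 2 ^ α * (v.2 % 2 ^ β + 1) := by ring
      _ ≤ 2 ^ α * 2 ^ β := Nat.mul_le_mul_left _ h2
  have hidx1 : ∀ v, idx v % 2 ^ α = v.1 % 2 ^ α := by
    intro v
    simp only [idx]
    rw [Nat.add_mul_mod_self_left, Nat.mod_mod]
  have hidx2 : ∀ v, (idx v / 2 ^ α) % 2 ^ β = v.2 % 2 ^ β := by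
    intro v
    have h1 : v.1 % 2 ^ α < 2 ^ α := Nat.mod_lt _ (by positivity)
    simp only [idx]
    rw [Nat.add_mul_div_left _ _ (by positivity), Nat.div_eq_of_lt h1, zero_add, Nat.mod_mod]
  let Sq : ℕ × ℕ → Set E2 := fun v =>
    SA (R / 4 + 2 * w * v.1 + rem₀ (idx v) * w) (R / 4 + 2 * w * v.2 + rem₁ (idx v) * w) w
  set Fs : Finset (ℕ × ℕ) := Finset.range N ×ˢ Finset.range N with hFs
  set F : Set E2 := ⋃ v ∈ Fs, Sq v with hF
  have hFm : MeasurableSet F := Finset.measurableSet_biUnion _ fun v _ => meas_SA _ _ _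
  -- R in terms of N
  have hRN : R = 4 * (w * N) := by
    rw [hR, hw, hN]; push_cast
    rw [show K + 3 + t = (K + 3) + t by ring, pow_add (2 : ℝ) (K + 3) t, pow_add (2 : ℝ) K 5,
      pow_add (2 : ℝ) K 3]
    field_simp
    norm_num
  have hdisj : (Fs : Set (ℕ × ℕ)).PairwiseDisjoint Sq := by
    intro v hv v' hv' hvv
    apply Set.disjoint_left.2
    rintro X ⟨⟨h1, h2⟩, h3, h4⟩ ⟨⟨h5, h6⟩, h7, h8⟩
    have hi1 := hr00 (idx v) (hidx v)
    have hi2 := hr01 (idx v) (hidx v)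
    have hi3 := hr00 (idx v') (hidx v')
    have hi4 := hr01 (idx v') (hidx v')
    have hi5 := hr10 (idx v) (hidx v)
    have hi6 := hr11 (idx v) (hidx v)
    have hi7 := hr10 (idx v') (hidx v')
    have hi8 := hr11 (idx v') (hidx v')
    have g1 := aux_rem hwpos hi1 hi2
    have g2 := aux_rem hwpos hi3 hi4
    have g3 := aux_rem hwpos hi5 hi6
    have g4 := aux_rem hwpos hi7 hi8
    apply hvv
    exact Prod.ext
      (aux_sq hwpos g1.1 g1.2 g2.1 g2.2 h1 h2 h5 h6)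
      (aux_sq hwpos g3.1 g3.2 g4.1 g4.2 h3 h4 h7 h8)
  have hFvol : ENNReal.ofReal ((N : ℝ) ^ 2 * w ^ 2) ≤ volume F := by
    rw [hF, measure_biUnion_finset hdisj fun v _ => meas_SA _ _ _]
    calc ENNReal.ofReal ((N : ℝ) ^ 2 * w ^ 2) = ∑ _v ∈ Fs, ENNReal.ofReal (w ^ 2) := by
          rw [Finset.sum_const, hFs, Finset.card_product, Finset.card_range, nsmul_eq_mul,
            ENNReal.ofReal_mul (by positivity)]
          congr 1
          rw [← ENNReal.ofReal_natCast]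
          congr 1
          push_cast; ring
      _ ≤ _ := Finset.sum_le_sum fun v _ => vol_SA hwpos.le
  -- the pointwise bound
  set σ : ℝ := 2 ^ q / 2 ^ ν with hσ
  have hσpos : 0 < σ := by positivity
  have hpt : ∀ X ∈ F, ENNReal.ofReal σ ≤
      maxFn (C.body a b) ((EA q n w R).indicator fun _ => (1 : ℂ)) X := by
    intro X hX
    simp only [hF, mem_iUnion] at hX
    obtain ⟨v, hv, ⟨h1, h2⟩, h3, h4⟩ := hX
    rw [hFs, Finset.mem_product, Finset.mem_range, Finset.mem_range] at hv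
    have hi1 := hr00 (idx v) (hidx v)
    have hi2 := hr01 (idx v) (hidx v)
    have hi5 := hr10 (idx v) (hidx v)
    have hi6 := hr11 (idx v) (hidx v)
    have g1 := aux_rem hwpos hi1 hi2
    have g3 := aux_rem hwpos hi5 hi6
    set k : ℕ := κ + t * idx v with hk
    have hkK : k ≤ K := by
      have := Nat.mul_le_mul_left t (hidx v).le
      omega
    refine le_trans ?_ (C.maxFn_ge a b (meas_EA q n w R) k X)
    have hvol : ENNReal.ofReal σ ≤ volume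
        (Ico ((2 : ℝ) ^ q / 2 ^ (q + n + 3)) (2 ^ (q + 1) / 2 ^ (q + n + 3))) := by
      rw [Real.volume_Ico]
      apply ENNReal.ofReal_le_ofReal
      rw [hσ, ← hν, pow_succ]; apply le_of_eq; ring
    refine hvol.trans (C.arc_ge a b ?_ ?_)
    · intro x hx
      obtain ⟨j, hj1, hj2, c, hl, hr, hηc, hxc⟩ := blk_point hblk hx
      have := C.l_ge c; have := C.r_le c
      exact ⟨by linarith [hxc.1], by linarith [hxc.2]⟩
    · intro x hx
      have hdx' := hdx (idx v) (hidx v)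
      have hdy' := hdy (idx v) (hidx v)
      beta_reduce at hdx' hdy'
      rw [hidx1] at hdx'
      rw [hidx2] at hdy'
      obtain ⟨m1, hm1⟩ : ∃ m1 : ℕ, (v.1 : ℝ) = (v.1 % 2 ^ α : ℕ) + 2 ^ α * (m1 : ℝ) := by
        refine ⟨v.1 / 2 ^ α, ?_⟩
        have := Nat.mod_add_div v.1 (2 ^ α)
        exact_mod_cast this.symm
      obtain ⟨m2, hm2⟩ : ∃ m2 : ℕ, (v.2 : ℝ) = (v.2 % 2 ^ β : ℕ) + 2 ^ β * (m2 : ℝ) := by
        refine ⟨v.2 / 2 ^ β, ?_⟩
        have := Nat.mod_add_div v.2 (2 ^ β)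
        exact_mod_cast this.symm
      have hwα : 2 * w * 2 ^ α = 1 / 2 ^ ν := by
        rw [hw, ht, hα, show 3 * ν + s + 1 = ν + (2 * ν + s) + 1 by ring, pow_succ,
          pow_add (2 : ℝ) ν]
        field_simp
      have hwβ : 2 * w * 2 ^ β = 1 / (2 ^ ν) ^ 2 := by
        rw [hw, ht, hβ, show 3 * ν + s + 1 = ν + ν + (ν + s) + 1 by ring, pow_succ,
          pow_add (2 : ℝ) (ν + ν), pow_add (2 : ℝ) ν ν]
        field_simp
      have hR4 : R / 4 = 2 ^ (K + 3) := by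
        rw [hR, show K + 5 = (K + 3) + 2 by ring, pow_add]; ring
      have hvN1 : (v.1 : ℝ) + 1 ≤ N := by exact_mod_cast hv.1
      have hvN2 : (v.2 : ℝ) + 1 ≤ N := by exact_mod_cast hv.2
      refine C.stageA_point a b (K := K) (k := k) (η := η) (w := w) (R := R)
        (M₀ := (2 ^ ν * (2 ^ (K + 3) - u₀ (idx v)) + (m1 : ℤ)))
        (M₁ := ((2 ^ ν) ^ 2 * (2 ^ (K + 3) - u₁ (idx v)) + (m2 : ℤ)))
        (ξ := X 0 - (R / 4 + 2 * w * v.1 + rem₀ (idx v) * w))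
        (ζ := X 1 - (R / 4 + 2 * w * v.2 + rem₁ (idx v) * w))
        hblk hη hwpos ha ha1 hb hb1 ?_ rfl hkK (by linarith) (by linarith) (by linarith)
        (by linarith) ?_ ?_ ?_ ?_ hx
      · refine le_trans ?_ hηK
        apply mul_le_mul_of_nonneg_right _ hη
        exact pow_le_pow_right₀ (by norm_num) hkK
      · have e1 : (2 : ℝ) ^ k * a = u₀ (idx v) + (2 * w) * (v.1 % 2 ^ α : ℕ) + rem₀ (idx v) * w := by
          rw [hk, hdx', hw]; push_cast; ring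
        rw [e1, ← hν]
        push_cast
        have e2 : ((2 : ℝ) ^ ν * (2 ^ (K + 3) - u₀ (idx v)) + (m1 : ℝ)) / 2 ^ ν
            = (2 ^ (K + 3) - u₀ (idx v)) + (m1 : ℝ) * (1 / 2 ^ ν) := by
          field_simp
        rw [e2, ← hwα, hR4]
        have e3 : 2 * w * (v.1 : ℝ) = 2 * w * ((v.1 % 2 ^ α : ℕ) + 2 ^ α * (m1 : ℝ)) := by
          rw [← hm1]
        rw [e3]
        ring
      · have e1 : (2 : ℝ) ^ k * b = u₁ (idx v) + (2 * w) * (v.2 % 2 ^ β : ℕ) + rem₁ (idx v) * w := by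
          rw [hk, hdy', hw]; push_cast; ring
        rw [e1, ← hν]
        push_cast
        have e2 : (((2 : ℝ) ^ ν) ^ 2 * (2 ^ (K + 3) - u₁ (idx v)) + (m2 : ℝ)) / (2 ^ ν) ^ 2
            = (2 ^ (K + 3) - u₁ (idx v)) + (m2 : ℝ) * (1 / (2 ^ ν) ^ 2) := by
          field_simp
        rw [e2, ← hwβ, hR4]
        have e3 : 2 * w * (v.2 : ℝ) = 2 * w * ((v.2 % 2 ^ β : ℕ) + 2 ^ β * (m2 : ℝ)) := by
          rw [← hm2]
        rw [e3]
        ring
      · have := aux_N hwpos hvN1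
        have h0 : 0 ≤ 2 * w * (v.1 : ℝ) := by positivity
        exact ⟨by linarith, by linarith⟩
      · have := aux_N hwpos hvN2
        have h0 : 0 ≤ 2 * w * (v.2 : ℝ) := by positivity
        exact ⟨by linarith, by linarith⟩
  refine ⟨EA q n w R, meas_EA q n w R, ?_, ?_⟩
  · refine (vol_EA hwpos.le ?_ hRpos.le).trans_lt ENNReal.ofReal_lt_top
    rw [hw, ← hν, ht, ← pow_mul]
    rw [mul_one_div, div_le_div_iff₀ (by positivity) (by positivity), one_mul]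
    calc (4 : ℝ) * 2 ^ (ν * 2) = 2 ^ (ν * 2 + 2) := by rw [pow_add]; norm_num; ring
      _ ≤ 2 ^ (3 * ν + s + 1) := pow_le_pow_right₀ (by norm_num) (by omega)
  · refine lt_of_lt_of_le ?_ (lint_ge hFm (by linarith : (0 : ℝ) ≤ p) hpt)
    have hw4 : 4 * w ≤ 1 / (2 ^ (q + n + 3)) ^ 2 := by
      rw [hw, ← hν, ht, ← pow_mul]
      rw [mul_one_div, div_le_div_iff₀ (by positivity) (by positivity), one_mul]
      calc (4 : ℝ) * 2 ^ (ν * 2) = 2 ^ (ν * 2 + 2) := by rw [pow_add]; norm_num; ring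
        _ ≤ 2 ^ (3 * ν + s + 1) := pow_le_pow_right₀ (by norm_num) (by omega)
    have hV := vol_EA hwpos.le hw4 hRpos.le
    refine lt_of_le_of_lt (mul_le_mul_right hV (2 ^ n)) (lt_of_lt_of_le ?_
      (mul_le_mul_right hFvol (ENNReal.ofReal σ ^ p)))
    rw [ENNReal.ofReal_rpow_of_pos hσpos, ← ENNReal.ofReal_mul (by positivity)]
    have h2n : (2 : ℝ≥0∞) ^ n = ENNReal.ofReal (2 ^ n) := by
      rw [ENNReal.ofReal_pow (by norm_num)]; norm_num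
    rw [h2n, ← ENNReal.ofReal_mul (by positivity)]
    rw [ENNReal.ofReal_lt_ofReal_iff (by positivity)]
    -- real inequality
    have hσp : (2 : ℝ) ^ (4 - (s : ℝ)) ≤ σ ^ p := by
      have e1 : σ = (2 : ℝ) ^ (-((n : ℝ) + 3)) := by
        rw [hσ, hν, Real.rpow_neg (by norm_num), show q + n + 3 = q + (n + 3) by ring,
          pow_add]
        have : (2 : ℝ) ^ ((n : ℝ) + 3) = 2 ^ (n + 3) := by
          rw [← Real.rpow_natCast]; push_cast; rfl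
        rw [this]
        field_simp
      rw [e1, ← Real.rpow_mul (by norm_num)]
      apply Real.rpow_le_rpow_of_exponent_le (by norm_num)
      linarith
    have hwN : (w * N) ^ 2 = R ^ 2 / 16 := by rw [hRN]; ring
    have hR1 : 2 ≤ R * (2 ^ (q + n + 3)) ^ 2 := by
      have h1 : (2 : ℝ) ≤ R := by
        rw [hR, pow_add]
        have : (1 : ℝ) ≤ 2 ^ K := one_le_pow₀ (by norm_num)
        nlinarith
      have h2 : (1 : ℝ) ≤ (2 ^ (q + n + 3)) ^ 2 := one_le_pow₀ (one_le_pow₀ (by norm_num))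
      nlinarith
    have hs4 : (2 : ℝ) ^ (4 - (s : ℝ)) = 16 / 2 ^ s := by
      rw [Real.rpow_sub (by norm_num), Real.rpow_natCast]; norm_num
    calc 2 ^ n * (2 ^ q * (R * ((R * (2 ^ (q + n + 3)) ^ 2 + 2) * (4 * w))))
        ≤ 2 ^ n * (2 ^ q * (R * ((2 * (R * (2 ^ (q + n + 3)) ^ 2)) * (4 * w)))) := by
          gcongr; linarith
      _ = (8 / 2 ^ s) * (R ^ 2 / 16) := by
          rw [hw, ht, hν]
          rw [show 3 * (q + n + 3) + s + 1 = (q + n + 3) + (q + n + 3) + q + n + s + 4 by ring]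
          simp only [pow_add]
          field_simp
          norm_num
      _ < (16 / 2 ^ s) * (R ^ 2 / 16) := by
          apply mul_lt_mul_of_pos_right _ (by positivity)
          apply div_lt_div_of_pos_right (by norm_num) (by positivity)
      _ ≤ σ ^ p * (R ^ 2 / 16) := by
          rw [← hs4]
          exact mul_le_mul_of_nonneg_right hσp (by positivity)
      _ = σ ^ p * ((N : ℝ) ^ 2 * w ^ 2) := by rw [← hwN]; ring

end Cells

end Pool.Agent.Helper593.Lac
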