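import Pool.Agent.Helper593.Lac8

/-!
Stage B, main estimate.
-/

namespace Pool.Agent.Helper593.Lac

open MeasureTheory Set Filter Topology
open scoped ENNReal NNReal

namespace Cells

variable {ι : Type} (C : Cells ι) (a b : ℝ)

/-- the piece of one arc that hits the lattice neighbourhood -/
lemma stageB_point {K k j : ℕ} {H η w R : ℝ} {c : ι} {x : ℝ} (hH : 1 ≤ H)
    (hl : C.l c = j / H) (hr : C.r c = (j + 1) / H) (hηc : C.η c = η)
    (hxc : x ∈ Icc (C.l c) (C.r c)) (hjh : (2 * (j : ℝ) + 1) / H ≤ 1)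
    (hη : 0 ≤ η) (hw0 : 0 < w)
    (ha : 0 ≤ a) (ha1 : a ≤ 1) (hb : 0 ≤ b) (hb1 : b ≤ 1)
    (hkη : (2 : ℝ) ^ k * η ≤ w) (hR : R = 2 ^ (K + 5)) (hkK : k ≤ K)
    {X : E2} {m L : ℤ} {U₀ U₁ i Hn : ℕ} (hHn : (Hn : ℝ) = H) {r₀ r₁ ε : ℝ}
    (hr00 : 0 ≤ r₀) (hr01 : r₀ ≤ 1) (hr10 : 0 ≤ r₁) (hr11 : r₁ ≤ 1)
    (hka : (2 : ℝ) ^ k * a = U₀ + r₀ * w) (hkb : (2 : ℝ) ^ k * b = U₁ + (i + r₁) * w)
    (hD0 : i * w ≤ X 1 - (2 * j + 1) / H * X 0 - L * (1 / H ^ 2))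
    (hD1 : X 1 - (2 * j + 1) / H * X 0 - L * (1 / H ^ 2) ≤ i * w + w)
    (hε0 : 0 ≤ ε) (hε1 : ε ≤ w)
    (hz0 : X 0 - 2 ^ k * (a + x) = -(m / H) - ε)
    (hXb0 : X 0 ∈ Icc (R / 4) (3 * R / 4)) (hXb1 : X 1 ∈ Icc (R / 4) (3 * R / 4)) :
    X - (2 : ℝ) ^ k • (!₂[a + x, b - C.prof x] : E2) ∈ GB H w R := by
  have hHpos : 0 < H := by linarith
  have hz := z_ident (C := C) a b (η := η) hHpos hl hr hηc hxc (X 0) (X 1) (2 ^ k)
  have hbump := bump_bound (C := C) (K := 2 ^ k) (by positivity) hη hkη hxc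
  have hl1 := C.l_ge c
  have hr1 := C.r_le c
  have hl0 : 0 ≤ C.l c := by rw [hl]; positivity
  have hx0 : 0 ≤ x := hl0.trans hxc.1
  have hx1 : x ≤ 1 := hxc.2.trans hr1
  have hk1 : (0 : ℝ) < 2 ^ k := by positivity
  have hkR : (2 : ℝ) ^ k * 8 ≤ R / 4 := by
    rw [hR]
    have : (2 : ℝ) ^ k ≤ 2 ^ K := pow_le_pow_right₀ (by norm_num) hkK
    have e : (2 : ℝ) ^ (K + 5) = 2 ^ K * 32 := by rw [pow_add]; norm_num
    rw [e]; linarith
  have hp4 := prof_le_four (C := C) x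
  have hp0 := C.prof_nonneg (x := x) ⟨by linarith, by linarith⟩
  have e0 : (X - (2 : ℝ) ^ k • (!₂[a + x, b - C.prof x] : E2)) 0 = X 0 - 2 ^ k * (a + x) := by
    simp
  have e1 : (X - (2 : ℝ) ^ k • (!₂[a + x, b - C.prof x] : E2)) 1 = X 1 - 2 ^ k * (b - C.prof x) := by
    simp
  refine ⟨⟨?_, -m, ?_⟩, ⟨?_, L - U₁ * Hn ^ 2 + (2 * j + 1) * U₀ * Hn
    + 2 ^ k * (4 * Hn ^ 2 + j * (j + 1)) - (2 * j + 1) * m, ?_⟩⟩
  · rw [e0]
    have h1 : 0 ≤ 2 ^ k * (a + x) := by positivity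
    have h2 : 2 ^ k * (a + x) ≤ 2 ^ k * 8 := by
      apply mul_le_mul_of_nonneg_left _ hk1.le; linarith
    exact ⟨by linarith [hXb0.1], by linarith [hXb0.2]⟩
  · rw [e0, hz0]
    have : -(m / H) - ε - 0 - ((-m : ℤ) : ℝ) * (1 / H) = -ε := by push_cast; ring
    rw [this, abs_neg, abs_of_nonneg hε0]
    exact hε1
  · rw [e1]
    have h1 : -(2 ^ k * 8) ≤ 2 ^ k * (b - C.prof x) := by
      have := mul_le_mul_of_nonneg_left (show -8 ≤ b - C.prof x by linarith) hk1.le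
      linarith
    have h2 : 2 ^ k * (b - C.prof x) ≤ 2 ^ k * 8 := by
      apply mul_le_mul_of_nonneg_left _ hk1.le; linarith
    exact ⟨by linarith [hXb1.1], by linarith [hXb1.2]⟩
  · rw [e1]
    push_cast
    rw [hHn]
    rw [hz0] at hz
    have hjh0 : 0 ≤ (2 * (j : ℝ) + 1) / H := by positivity
    set D : ℝ := X 1 - (2 * j + 1) / H * X 0 - L * (1 / H ^ 2) with hD
    set Z : ℝ := 2 ^ k * (η / 2 * ((x - C.l c) * (C.r c - x))) with hZ
    have key : X 1 - 2 ^ k * (b - C.prof x) - 0 - (L - U₁ * H ^ 2 + (2 * j + 1) * U₀ * H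
        + 2 ^ k * (4 * H ^ 2 + j * (j + 1)) - (2 * j + 1) * m) * (1 / H ^ 2)
        = (D - i * w) - r₁ * w + (2 * j + 1) / H * (r₀ * w) + Z - (2 * j + 1) / H * ε := by
      have h1 : X 1 - 2 ^ k * (b - C.prof x) = (2 * j + 1) / H * (-(m / H) - ε)
          + ((X 1 - 2 ^ k * b) - (2 * j + 1) / H * (X 0 - 2 ^ k * a)
            + 2 ^ k * (4 + j * (j + 1) / H ^ 2) + Z) := by linarith
      rw [h1, hka, hkb, hD]
      field_simp
      ring
    rw [key, abs_le]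
    have h5 : 0 ≤ (2 * (j : ℝ) + 1) / H * (r₀ * w) := by positivity
    have h7 := aux_rem' hw0 hr00 hr01
    have h8 := aux_rem' hw0 hr10 hr11
    have h6 : (2 * (j : ℝ) + 1) / H * (r₀ * w) ≤ w := by
      calc (2 * (j : ℝ) + 1) / H * (r₀ * w) ≤ 1 * w := mul_le_mul hjh h7.2 h7.1 (by norm_num)
        _ = w := one_mul _
    have h9 : 0 ≤ (2 * (j : ℝ) + 1) / H * ε := by positivity
    have h10 : (2 * (j : ℝ) + 1) / H * ε ≤ w := by
      calc (2 * (j : ℝ) + 1) / H * ε ≤ 1 * w := mul_le_mul hjh hε1 hε0 (by norm_num)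
        _ = w := one_mul _
    constructor
    · linarith [hbump.1]
    · linarith [hbump.2]

/-- pointwise lower bound for the maximal function -/
lemma stageB_max {q n κ s K : ℕ} {η w R H : ℝ} (hH : H = 2 ^ (q + n + 3))
    (hw : w = 1 / 2 ^ (3 * (q + n + 3) + s)) (hKdef : K = κ + (3 * (q + n + 3) + s) * 2 ^ s)
    (hR : R = 2 ^ (K + 5)) (hκ : 2 ≤ κ)
    (ha : 0 ≤ a) (ha1 : a ≤ 1) (hb : 0 ≤ b) (hb1 : b ≤ 1)
    (hblk : C.Blk q n η) (hη : 0 ≤ η) (hηK : 2 ^ K * η ≤ w)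
    (hda : Dig a κ (3 * (q + n + 3) + s) (2 ^ s) (fun _ => 0))
    (hdb : Dig b κ (3 * (q + n + 3) + s) (2 ^ s) (fun i => i % 2 ^ s))
    {X : E2} (hX : X ∈ TB (2 ^ q) H (R / 4) (3 * R / 4)) :
    ENNReal.ofReal (w / 2) ≤
      maxFn (C.body a b) ((GB H w R).indicator fun _ => (1 : ℂ)) X := by
  have hHpos : 0 < H := by rw [hH]; positivity
  have hH1 : 1 ≤ H := by rw [hH]; exact one_le_pow₀ (by norm_num)
  have hwpos : 0 < w := by rw [hw]; positivity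
  obtain ⟨⟨hX0, hX1⟩, j, hj, L, hD0, hD1⟩ := hX
  rw [Finset.mem_Ico] at hj
  set D : ℝ := X 1 - (2 * j + 1) / H * X 0 - L * (1 / H ^ 2) with hD
  have hH3 : 1 / H ^ 3 = 2 ^ s * w := by
    rw [hH, hw, ← pow_mul, show 3 * (q + n + 3) + s = (q + n + 3) * 3 + s by ring, pow_add]
    field_simp
  set i : ℕ := ⌊D / w⌋₊ with hi
  have hi1 : (i : ℝ) ≤ D / w := Nat.floor_le (div_nonneg hD0 hwpos.le)
  have hi2 : D / w < i + 1 := Nat.lt_floor_add_one _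
  have hi3 : (i : ℝ) * w ≤ D := (le_div_iff₀ hwpos).1 hi1
  have hi4 : D < i * w + w := by
    have := (div_lt_iff₀ hwpos).1 hi2
    linarith
  have hiI : i < 2 ^ s := by
    have h1 : (i : ℝ) * w < 2 ^ s * w := by rw [← hH3]; linarith
    have h2 : (i : ℝ) < 2 ^ s := lt_of_mul_lt_mul_right h1 hwpos.le
    exact_mod_cast h2
  obtain ⟨U₀, r₀, hr00, hr01, hka⟩ := hda i hiI
  obtain ⟨U₁, r₁, hr10, hr11, hkb⟩ := hdb i hiI
  beta_reduce at hka hkb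
  rw [Nat.mod_eq_of_lt hiI] at hkb
  set k : ℕ := κ + (3 * (q + n + 3) + s) * i with hk
  have hkK : k ≤ K := by
    have := Nat.mul_le_mul_left (3 * (q + n + 3) + s) hiI.le
    omega
  have hk2 : 2 ≤ k := by omega
  have hk4 : (4 : ℝ) ≤ 2 ^ k := by
    calc (4 : ℝ) = 2 ^ 2 := by norm_num
      _ ≤ 2 ^ k := pow_le_pow_right₀ (by norm_num) hk2
  have hkpos : (0 : ℝ) < 2 ^ k := by positivity
  have hj2 : j < 2 ^ (q + 1) := by rw [pow_succ]; omega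
  obtain ⟨c, hl, hr, hηc⟩ := hblk j hj.1 hj2
  rw [← hH] at hl hr
  have hjh : (2 * (j : ℝ) + 1) / H ≤ 1 := by
    rw [div_le_one hHpos, hH]
    have : (j : ℝ) + 1 ≤ 2 ^ (q + 1) := by exact_mod_cast hj2
    have e : (2 : ℝ) ^ (q + n + 3) = 2 ^ (q + 1) * (2 ^ n * 4) := by
      rw [show q + n + 3 = (q + 1) + n + 2 by ring, pow_add, pow_add]; ring
    have h3 : (1 : ℝ) ≤ 2 ^ n := one_le_pow₀ (by norm_num)
    have h4 : (0 : ℝ) < 2 ^ (q + 1) := by positivity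
    rw [e]
    nlinarith
  refine le_trans ?_ (C.maxFn_ge a b (meas_GB H w R) k X)
  set c₀ : ℝ := (X 0 - 2 ^ k * a) / 2 ^ k with hc₀
  have hper := periodic_lower (A := (j : ℝ) / H) (B := ((j : ℝ) + 1) / H) (c := c₀)
    (d := 1 / H / 2 ^ k) (β := w / 2 ^ k) (by positivity) (by positivity) (by
      apply div_le_div_of_nonneg_right _ hkpos.le
      rw [hw, hH]
      apply one_div_le_one_div_of_le (by positivity)
      exact pow_le_pow_right₀ (by norm_num) (by omega))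
  have hvol : ENNReal.ofReal (w / 2) ≤ ENNReal.ofReal
      ((((j : ℝ) + 1) / H - (j : ℝ) / H) / (1 / H / 2 ^ k) * (w / 2 ^ k) - 2 * (w / 2 ^ k)) := by
    apply ENNReal.ofReal_le_ofReal
    have e : (((j : ℝ) + 1) / H - (j : ℝ) / H) / (1 / H / 2 ^ k) * (w / 2 ^ k) - 2 * (w / 2 ^ k)
        = w - 2 * (w / 2 ^ k) := by
      field_simp; ring
    rw [e]
    have : w / 2 ^ k ≤ w / 4 := div_le_div_of_nonneg_left hwpos.le (by norm_num) hk4
    linarith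
  rw [sub_mul] at hper
  refine hvol.trans (hper.trans (C.arc_ge a b ?_ ?_))
  · rintro x ⟨hx, _⟩
    have h1 := C.l_ge c; have h2 := C.r_le c
    rw [hl] at h1; rw [hr] at h2
    exact ⟨by linarith [hx.1], by linarith [hx.2]⟩
  · rintro x ⟨hx, m, hm0, hm1⟩
    have hxc : x ∈ Icc (C.l c) (C.r c) := by rw [hl, hr]; exact ⟨hx.1, hx.2.le⟩
    refine C.stageB_point a b (K := K) (k := k) (j := j) (H := H) (η := η) (w := w) (R := R)
      (c := c) (m := m) (L := L) (U₀ := U₀) (U₁ := U₁) (i := i) (Hn := 2 ^ (q + n + 3))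
      (r₀ := r₀) (r₁ := r₁) (ε := 2 ^ k * (x - c₀ - m * (1 / H / 2 ^ k)))
      hH1 hl hr hηc hxc hjh hη hwpos ha ha1 hb hb1 ?_ hR hkK (by rw [hH]; push_cast; rfl)
      hr00 hr01 hr10 hr11 ?_ ?_ hi3 hi4.le (by positivity) ?_ ?_ ⟨hX0.1, hX0.2.le⟩
      ⟨hX1.1, hX1.2.le⟩
    · refine le_trans ?_ hηK
      apply mul_le_mul_of_nonneg_right _ hη
      exact pow_le_pow_right₀ (by norm_num) hkK
    · rw [hka, hw]; push_cast; ring
    · rw [hkb, hw]; push_cast; ring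
    · rw [lt_div_iff₀ hkpos] at hm1
      linarith
    · rw [hc₀]
      field_simp
      ring

/-- Stage B. -/
lemma stageB {q n κ s : ℕ} {η p : ℝ} (hp : 1 < p)
    (hfin : ((3 * ((q : ℝ) + n + 3) + s) + 1) * p + 2 * n + 13 + 3 * ((q : ℝ) + n + 3)
      < 2 * (3 * ((q : ℝ) + n + 3) + s))
    (hκ : 2 ≤ κ)
    (ha : 0 ≤ a) (ha1 : a ≤ 1) (hb : 0 ≤ b) (hb1 : b ≤ 1)
    (hblk : C.Blk q n η) (hη : 0 ≤ η)
    (hηK : 2 ^ (κ + (3 * (q + n + 3) + s) * 2 ^ s) * η ≤ 1 / 2 ^ (3 * (q + n + 3) + s))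
    (hda : Dig a κ (3 * (q + n + 3) + s) (2 ^ s) (fun _ => 0))
    (hdb : Dig b κ (3 * (q + n + 3) + s) (2 ^ s) (fun i => i % 2 ^ s)) :
    ∃ E' : Set E2, MeasurableSet E' ∧ volume E' < ⊤ ∧
      2 ^ n * volume E' < ∫⁻ x, maxFn (C.body a b) (E'.indicator fun _ => (1 : ℂ)) x ^ p := by
  set K : ℕ := κ + (3 * (q + n + 3) + s) * 2 ^ s with hK
  set w : ℝ := 1 / 2 ^ (3 * (q + n + 3) + s) with hw
  set H : ℝ := 2 ^ (q + n + 3) with hH
  set R : ℝ := 2 ^ (K + 5) with hR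
  have hwpos : 0 < w := by positivity
  have hRpos : 0 < R := by positivity
  have hHpos : 0 < H := by positivity
  have hH2 : 2 ≤ H := by
    rw [hH, show q + n + 3 = (q + n + 2) + 1 by ring, pow_succ]
    have : (1 : ℝ) ≤ 2 ^ (q + n + 2) := one_le_pow₀ (by norm_num)
    linarith
  have hR16 : 16 ≤ R := by
    rw [hR, show K + 5 = (K + 1) + 4 by ring, pow_add]
    have : (1 : ℝ) ≤ 2 ^ (K + 1) := one_le_pow₀ (by norm_num)
    linarith
  have hM : 8 * (((2 ^ q : ℕ)) : ℝ) ≤ H := by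
    push_cast
    rw [hH, show q + n + 3 = q + 3 + n by ring, pow_add (2 : ℝ) (q + 3) n, pow_add (2 : ℝ) q 3]
    have h1 : (1 : ℝ) ≤ 2 ^ n := one_le_pow₀ (by norm_num)
    have h2 : (0 : ℝ) < 2 ^ q := by positivity
    nlinarith
  have hw8 : 8 * w ≤ 1 / H ^ 2 := by
    rw [hw, hH, ← pow_mul, mul_one_div, div_le_div_iff₀ (by positivity) (by positivity), one_mul]
    calc (8 : ℝ) * 2 ^ ((q + n + 3) * 2) = 2 ^ ((q + n + 3) * 2 + 3) := by rw [pow_add]; ring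
      _ ≤ 2 ^ (3 * (q + n + 3) + s) := pow_le_pow_right₀ (by norm_num) (by omega)
  have hV := vol_GB (by linarith : (1 : ℝ) ≤ H) hwpos.le hw8 hRpos.le
  have hT := vol_TB hH2 hM hR16
  refine ⟨GB H w R, meas_GB H w R, hV.trans_lt ENNReal.ofReal_lt_top, ?_⟩
  refine lt_of_lt_of_le ?_ (lint_ge (meas_TB (2 ^ q) H (R / 4) (3 * R / 4))
    (by linarith : (0 : ℝ) ≤ p) (fun X hX => C.stageB_max a b hH hw hK hR hκ ha ha1 hb hb1 hblk
      hη hηK hda hdb hX))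
  refine lt_of_le_of_lt (mul_le_mul_right hV (2 ^ n)) (lt_of_lt_of_le ?_
      (mul_le_mul_right hT (ENNReal.ofReal (w / 2) ^ p)))
  rw [ENNReal.ofReal_rpow_of_pos (by positivity), ← ENNReal.ofReal_mul (by positivity)]
  have h2n : (2 : ℝ≥0∞) ^ n = ENNReal.ofReal (2 ^ n) := by
    rw [ENNReal.ofReal_pow (by norm_num)]; norm_num
  rw [h2n, ← ENNReal.ofReal_mul (by positivity)]
  rw [ENNReal.ofReal_lt_ofReal_iff (by positivity)]
  have hRH1 : 2 ≤ R * H := by nlinarith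
  have hRH2 : 2 ≤ R * H ^ 2 := by nlinarith
  have hreal : 2 ^ (2 * n + 13) * H ^ 3 * w ^ 2 < (w / 2) ^ p := by
    have e1 : w / 2 = (2 : ℝ) ^ (-((3 * ((q : ℝ) + n + 3) + s) + 1)) := by
      rw [Real.rpow_neg (by norm_num), hw]
      have : (2 : ℝ) ^ ((3 * ((q : ℝ) + n + 3) + s) + 1) = 2 ^ (3 * (q + n + 3) + s + 1) := by
        rw [← Real.rpow_natCast]; push_cast; rfl
      rw [this, pow_succ]
      field_simp
    have e2 : 2 ^ (2 * n + 13) * H ^ 3 * w ^ 2 = (2 : ℝ) ^ (((2 * n + 13 : ℕ) : ℝ)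
        + ((3 * (q + n + 3) : ℕ) : ℝ) - ((2 * (3 * (q + n + 3) + s) : ℕ) : ℝ)) := by
      rw [Real.rpow_sub (by norm_num), Real.rpow_add (by norm_num), Real.rpow_natCast,
        Real.rpow_natCast, Real.rpow_natCast, hH, hw, ← pow_mul, one_div_pow, ← pow_mul,
        mul_comm 2 (3 * (q + n + 3) + s), mul_comm 3 (q + n + 3)]
      ring
    rw [e1, e2, ← Real.rpow_mul (by norm_num)]
    apply Real.rpow_lt_rpow_of_exponent_lt (by norm_num)
    push_cast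
    linarith
  have hMH : (((2 ^ q : ℕ)) : ℝ) / H = 1 / 2 ^ (n + 3) := by
    rw [hH, show q + n + 3 = q + (n + 3) by ring, pow_add]
    push_cast
    field_simp
  rw [hMH]
  calc 2 ^ n * (((R * H + 2) * (2 * w)) * ((R * H ^ 2 + 2) * (8 * w)))
      ≤ 2 ^ n * (((2 * (R * H)) * (2 * w)) * ((2 * (R * H ^ 2)) * (8 * w))) := by
        gcongr <;> linarith
    _ = (2 ^ (2 * n + 13) * H ^ 3 * w ^ 2) * (R ^ 2 / 2 ^ (n + 7)) := by
        rw [show 2 * n + 13 = n + n + 13 by ring]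
        simp only [pow_add]
        field_simp
        ring
    _ < (w / 2) ^ p * (R ^ 2 / 2 ^ (n + 7)) :=
        mul_lt_mul_of_pos_right hreal (by positivity)
    _ = (w / 2) ^ p * (1 / 2 ^ (n + 3) * R ^ 2 / 16) := by
        congr 1
        simp only [pow_add]
        field_simp
        norm_num

end Cells

end Pool.Agent.Helper593.Lac
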