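import Pool.Agent.Helper593.Lac4
import Pool.Agent.Helper593.Lac7
import Pool.Agent.Helper593.Lac9

/-!
Choice of parameters and assembly.
-/

namespace Pool.Agent.Helper593.Lac

open MeasureTheory Set Filter Topology
open scoped ENNReal NNReal

/-- what a stage has to provide -/
structure StageSpec (p : ℝ) (n κ q t I : ℕ) (e0 e1 : ℕ → ℕ) : Prop where
  e0_lt : ∀ i, e0 i < 2 ^ t
  e1_lt : ∀ i, e1 i < 2 ^ t
  gp : ((κ + t * I + t : ℕ) : ℝ) + 2 * ((q + n + 3 : ℕ) : ℝ) ≤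
    (2 : ℝ) ^ (((q + n + 3 : ℕ) : ℝ) * p)
  out : ∀ (ι : Type) (C : Cells ι) (a b : ℝ), 0 ≤ a → a ≤ 1 → 0 ≤ b → b ≤ 1 →
    C.Blk q n (1 / 2 ^ (κ + t * I + t)) → Dig a κ t I e0 → Dig b κ t I e1 →
    ∃ E' : Set E2, MeasurableSet E' ∧ volume E' < ⊤ ∧
      2 ^ n * volume E' < ∫⁻ x, maxFn (C.body a b) (E'.indicator fun _ => (1 : ℂ)) x ^ p

lemma eventually_lin {c D : ℝ} (hc : 0 < c) :
    ∀ᶠ ν : ℕ in atTop, D * (ν : ℝ) ≤ (2 : ℝ) ^ (c * (ν : ℝ)) := by
  have hr0 : 0 < (2 : ℝ) ^ (-c) := by positivity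
  have hr1 : (2 : ℝ) ^ (-c) < 1 := Real.rpow_lt_one_of_one_lt_of_neg (by norm_num) (by linarith)
  have h := tendsto_pow_const_mul_const_pow_of_abs_lt_one 1
    (by rw [abs_of_pos hr0]; exact hr1 : |(2 : ℝ) ^ (-c)| < 1)
  have h2 : Tendsto (fun ν : ℕ => D * ((ν : ℝ) ^ 1 * ((2 : ℝ) ^ (-c)) ^ ν)) atTop (𝓝 (D * 0)) :=
    h.const_mul D
  rw [mul_zero] at h2
  filter_upwards [h2.eventually_lt_const one_pos] with ν hν
  have e : ((2 : ℝ) ^ (-c)) ^ ν = ((2 : ℝ) ^ (c * (ν : ℝ)))⁻¹ := by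
    rw [← Real.rpow_natCast, ← Real.rpow_mul (by norm_num), ← Real.rpow_neg (by norm_num)]
    congr 1; ring
  rw [e, pow_one] at hν
  have hpos : 0 < (2 : ℝ) ^ (c * (ν : ℝ)) := by positivity
  have := mul_lt_mul_of_pos_right hν hpos
  rw [one_mul] at this
  have e2 : D * ((ν : ℝ) * ((2 : ℝ) ^ (c * (ν : ℝ)))⁻¹) * (2 : ℝ) ^ (c * (ν : ℝ)) = D * ν := by
    field_simp
  linarith

lemma specA {p : ℝ} (hp : 3 < p) (n κ : ℕ) :
    ∃ (q t I : ℕ) (e0 e1 : ℕ → ℕ), StageSpec p n κ q t I e0 e1 := by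
  obtain ⟨s, hs⟩ := exists_nat_ge (((n : ℝ) + 3) * p + 4)
  have hev := eventually_lin (c := p - 3) (D := (κ : ℝ) + (s + 4) * (2 ^ (2 * s) + 1) + 2)
    (by linarith)
  obtain ⟨ν, h1, h2⟩ := (hev.and (eventually_ge_atTop (n + 3))).exists
  obtain ⟨q, hq⟩ : ∃ q, ν = q + n + 3 := ⟨ν - (n + 3), by omega⟩
  refine ⟨q, 3 * (q + n + 3) + s + 1, 2 ^ (3 * (q + n + 3) + 2 * s),
    fun i => 2 * (i % 2 ^ (2 * (q + n + 3) + s)),
    fun i => 2 * ((i / 2 ^ (2 * (q + n + 3) + s)) % 2 ^ ((q + n + 3) + s)), ?_⟩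
  rw [← hq]
  have hν1 : (1 : ℝ) ≤ ν := by
    have : 1 ≤ ν := by omega
    exact_mod_cast this
  refine ⟨?_, ?_, ?_, ?_⟩
  · intro i
    have := Nat.mod_lt i (show 0 < 2 ^ (2 * ν + s) by positivity)
    calc 2 * (i % 2 ^ (2 * ν + s)) < 2 * 2 ^ (2 * ν + s) := by omega
      _ = 2 ^ (2 * ν + s + 1) := by ring
      _ ≤ 2 ^ (3 * ν + s + 1) := Nat.pow_le_pow_right (by norm_num) (by omega)
  · intro i
    have := Nat.mod_lt (i / 2 ^ (2 * ν + s)) (show 0 < 2 ^ (ν + s) by positivity)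
    calc 2 * ((i / 2 ^ (2 * ν + s)) % 2 ^ (ν + s)) < 2 * 2 ^ (ν + s) := by omega
      _ = 2 ^ (ν + s + 1) := by ring
      _ ≤ 2 ^ (3 * ν + s + 1) := Nat.pow_le_pow_right (by norm_num) (by omega)
  · rw [← hq]
    have h3 : (1 : ℝ) ≤ 2 ^ (3 * ν) := one_le_pow₀ (by norm_num)
    have h4 : (2 : ℝ) ^ ((ν : ℝ) * p) = 2 ^ (3 * ν) * (2 : ℝ) ^ ((p - 3) * (ν : ℝ)) := by
      rw [← Real.rpow_natCast, ← Real.rpow_add (by norm_num)]
      congr 1; push_cast; ring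
    rw [h4]
    push_cast
    have h5 : (2 : ℝ) ^ (3 * ν + 2 * s) = 2 ^ (3 * ν) * 2 ^ (2 * s) := by rw [pow_add]
    rw [h5]
    set T : ℝ := 2 ^ (3 * ν) with hT
    set S : ℝ := 2 ^ (2 * s) with hS
    have hS1 : 1 ≤ S := one_le_pow₀ (by norm_num)
    have hs0 : (0 : ℝ) ≤ s := Nat.cast_nonneg s
    have hκ0 : (0 : ℝ) ≤ κ := Nat.cast_nonneg κ
    have h6 : 3 * (ν : ℝ) + s + 1 ≤ (s + 4) * ν := by nlinarith
    have hTν : 1 ≤ T * ν := by nlinarith
    calc (κ : ℝ) + (3 * ν + s + 1) * (T * S) + (3 * ν + s + 1) + 2 * ν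
        ≤ κ * (T * ν) + ((s + 4) * ν) * (T * S) + ((s + 4) * ν) * T + 2 * ν * T := by
          have a1 : (κ : ℝ) ≤ κ * (T * ν) := le_mul_of_one_le_right hκ0 hTν
          have a2 : (3 * (ν : ℝ) + s + 1) * (T * S) ≤ ((s + 4) * ν) * (T * S) :=
            mul_le_mul_of_nonneg_right h6 (by positivity)
          have a3 : (3 * (ν : ℝ) + s + 1) ≤ ((s + 4) * ν) * T :=
            h6.trans (le_mul_of_one_le_right (by positivity) h3)
          have a4 : 2 * (ν : ℝ) ≤ 2 * ν * T := le_mul_of_one_le_right (by positivity) h3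
          linarith
      _ = T * ((κ + (s + 4) * (S + 1) + 2) * ν) := by ring
      _ ≤ T * (2 : ℝ) ^ ((p - 3) * (ν : ℝ)) := mul_le_mul_of_nonneg_left h1 (by positivity)
  · intro ι C a b ha ha1 hb hb1 hblk hda hdb
    rw [hq] at hda hdb hblk
    refine C.stageA a b (by linarith) hs ha ha1 hb hb1 hblk (by positivity) ?_ hda hdb
    rw [pow_add (2 : ℝ) (κ + _) _]
    apply le_of_eq
    field_simp

lemma specB {p : ℝ} (hp : 1 < p) (hp2 : p ^ 2 + p < 3) (n κ : ℕ) (hκ : 2 ≤ κ) :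
    ∃ (q t I : ℕ) (e0 e1 : ℕ → ℕ), StageSpec p n κ q t I e0 e1 := by
  have hp3 : p < 2 := by nlinarith
  set c₀ : ℝ := 3 - p - p ^ 2 with hc₀
  have hc₀pos : 0 < c₀ := by rw [hc₀]; linarith
  have hc₀1 : c₀ ≤ 1 := by rw [hc₀]; nlinarith
  have hev := eventually_lin (c := c₀ / 2) (D := (κ : ℝ) + 12) (by linarith)
  obtain ⟨m, hm⟩ := exists_nat_gt ((2 * (n : ℝ) + 15) / (c₀ / 2))
  obtain ⟨ν, h1, h2, h2'⟩ := (hev.and ((eventually_ge_atTop (n + 3)).and
    (eventually_ge_atTop m))).exists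
  obtain ⟨q, hq⟩ : ∃ q, ν = q + n + 3 := ⟨ν - (n + 3), by omega⟩
  have hν1 : (1 : ℝ) ≤ ν := by
    have : 1 ≤ ν := by omega
    exact_mod_cast this
  set s : ℕ := ⌊(p - c₀ / 2) * ν⌋₊ with hs
  have hs1 : (s : ℝ) ≤ (p - c₀ / 2) * ν := Nat.floor_le (by
    apply mul_nonneg _ (by linarith); linarith)
  have hs2 : (p - c₀ / 2) * ν < s + 1 := Nat.lt_floor_add_one _
  have hνbig : 2 * (n : ℝ) + 15 < c₀ / 2 * ν := by
    have h3 : (m : ℝ) ≤ ν := by exact_mod_cast h2'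
    have := (div_lt_iff₀ (by linarith : 0 < c₀ / 2)).1 (hm.trans_le h3)
    linarith
  refine ⟨q, 3 * (q + n + 3) + s, 2 ^ s, fun _ => 0, fun i => i % 2 ^ s, ?_⟩
  refine ⟨fun _ => by positivity, ?_, ?_, ?_⟩
  · intro i
    calc i % 2 ^ s < 2 ^ s := Nat.mod_lt _ (by positivity)
      _ ≤ 2 ^ (3 * (q + n + 3) + s) := Nat.pow_le_pow_right (by norm_num) (by omega)
  · rw [← hq]
    push_cast
    have hs0 : (0 : ℝ) ≤ s := Nat.cast_nonneg s
    have hκ0 : (0 : ℝ) ≤ κ := Nat.cast_nonneg κ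
    set T : ℝ := (2 : ℝ) ^ ((p - c₀ / 2) * (ν : ℝ)) with hT
    have hT1 : 1 ≤ T := Real.one_le_rpow (by norm_num) (mul_nonneg (by linarith) (by linarith))
    have h3 : (2 : ℝ) ^ s ≤ T := by
      rw [← Real.rpow_natCast]
      exact Real.rpow_le_rpow_of_exponent_le (by norm_num) hs1
    have h4 : (2 : ℝ) ^ ((ν : ℝ) * p) = T * (2 : ℝ) ^ (c₀ / 2 * (ν : ℝ)) := by
      rw [hT, ← Real.rpow_add (by norm_num)]
      congr 1; ring
    have h5 : 3 * (ν : ℝ) + s ≤ 5 * ν := by nlinarith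
    have hTν : 1 ≤ T * ν := by nlinarith
    rw [h4]
    calc (κ : ℝ) + (3 * ν + s) * 2 ^ s + (3 * ν + s) + 2 * ν
        ≤ κ * (T * ν) + (5 * ν) * T + (5 * ν) * T + 2 * ν * T := by
          have a1 : (κ : ℝ) ≤ κ * (T * ν) := le_mul_of_one_le_right hκ0 hTν
          have a2 : (3 * (ν : ℝ) + s) * 2 ^ s ≤ (5 * ν) * T :=
            mul_le_mul h5 h3 (by positivity) (by positivity)
          have a3 : (3 * (ν : ℝ) + s) ≤ (5 * ν) * T :=
            h5.trans (le_mul_of_one_le_right (by positivity) hT1)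
          have a4 : 2 * (ν : ℝ) ≤ 2 * ν * T := le_mul_of_one_le_right (by positivity) hT1
          linarith
      _ = T * ((κ + 12) * ν) := by ring
      _ ≤ T * (2 : ℝ) ^ (c₀ / 2 * (ν : ℝ)) := mul_le_mul_of_nonneg_left h1 (by positivity)
  · intro ι C a b ha ha1 hb hb1 hblk hda hdb
    refine C.stageB a b hp ?_ hκ ha ha1 hb hb1 hblk (by positivity) ?_ hda hdb
    · have hqν : (q : ℝ) + n + 3 = ν := by rw [hq]; push_cast; ring
      rw [hqν]
      -- (3ν+s)(2-p) > 3ν + 2n + 13 + p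
      have h6 : (p - c₀ / 2) * ν - 1 ≤ s := by linarith
      have h7 : ((3 + p - c₀ / 2) * ν - 1) * (2 - p) ≤ (3 * ν + s) * (2 - p) := by
        apply mul_le_mul_of_nonneg_right _ (by linarith)
        linarith
      have h8 : (3 + p - c₀ / 2) * (2 - p) = 3 + c₀ - c₀ / 2 * (2 - p) := by
        rw [hc₀]; ring
      have h9 : c₀ / 2 * (2 - p) ≤ c₀ / 2 := by nlinarith
      have h10 : (3 + c₀ / 2) * ν ≤ (3 + p - c₀ / 2) * (2 - p) * ν := by
        apply mul_le_mul_of_nonneg_right _ (by linarith)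
        rw [h8]; linarith
      nlinarith
    · rw [pow_add (2 : ℝ) (κ + _) _]
      apply le_of_eq
      field_simp

/-- the family of cells from the block data -/
noncomputable def mkCells (q Q : ℕ → ℕ) : Cells (Σ n : ℕ, Fin (2 ^ q n)) where
  l c := ((2 : ℝ) ^ q c.1 + (c.2 : ℕ)) / 2 ^ (q c.1 + c.1 + 3)
  r c := ((2 : ℝ) ^ q c.1 + (c.2 : ℕ) + 1) / 2 ^ (q c.1 + c.1 + 3)
  η c := 1 / 2 ^ Q c.1
  l_lt c := by
    apply div_lt_div_of_pos_right _ (by positivity)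
    linarith
  l_ge c := by
    have : (0 : ℝ) ≤ ((2 : ℝ) ^ q c.1 + (c.2 : ℕ)) / 2 ^ (q c.1 + c.1 + 3) := by positivity
    linarith
  r_le c := by
    rw [div_le_one (by positivity)]
    have h1 : ((c.2 : ℕ) : ℝ) + 1 ≤ 2 ^ q c.1 := by exact_mod_cast c.2.2
    have h2 : (2 : ℝ) ^ (q c.1 + c.1 + 3) = 2 ^ q c.1 * (2 ^ c.1 * 8) := by
      rw [pow_add, pow_add]; ring
    have h3 : (1 : ℝ) ≤ 2 ^ c.1 := one_le_pow₀ (by norm_num)
    have h4 : (0 : ℝ) < 2 ^ q c.1 := by positivity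
    rw [h2]
    nlinarith
  η_pos c := by positivity
  η_le c := by
    rw [div_le_one (by positivity)]
    exact one_le_pow₀ (by norm_num)
  disj c d hcd := by
    obtain ⟨n, i⟩ := c
    obtain ⟨m, j⟩ := d
    simp only
    have key : ∀ (n m : ℕ) (i : Fin (2 ^ q n)) (j : Fin (2 ^ q m)), n < m →
        ((2 : ℝ) ^ q m + (j : ℕ) + 1) / 2 ^ (q m + m + 3) ≤
          ((2 : ℝ) ^ q n + (i : ℕ)) / 2 ^ (q n + n + 3) := by
      intro n m i j hnm
      have h1 : ((j : ℕ) : ℝ) + 1 ≤ 2 ^ q m := by exact_mod_cast j.2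
      calc ((2 : ℝ) ^ q m + (j : ℕ) + 1) / 2 ^ (q m + m + 3)
          ≤ (2 * 2 ^ q m) / 2 ^ (q m + m + 3) := by
            apply div_le_div_of_nonneg_right _ (by positivity)
            linarith
        _ = 1 / 2 ^ (m + 2) := by
            rw [show q m + m + 3 = q m + 1 + (m + 2) by ring, pow_add, pow_add (2 : ℝ) (q m) 1]
            field_simp
        _ ≤ 1 / 2 ^ (n + 3) := by
            apply one_div_le_one_div_of_le (by positivity)
            exact pow_le_pow_right₀ (by norm_num) (by omega)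
        _ = 2 ^ q n / 2 ^ (q n + n + 3) := by
            rw [show q n + n + 3 = q n + (n + 3) by ring, pow_add (2 : ℝ) (q n) (n + 3)]
            field_simp
        _ ≤ _ := by
            apply div_le_div_of_nonneg_right _ (by positivity)
            have : (0 : ℝ) ≤ (i : ℕ) := Nat.cast_nonneg _
            linarith
    rcases lt_trichotomy n m with h | h | h
    · right; exact key n m i j h
    · subst h
      have hij : i ≠ j := by
        intro h; apply hcd; rw [h]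
      have hij' : (i : ℕ) ≠ (j : ℕ) := fun h => hij (Fin.ext h)
      rcases lt_or_gt_of_ne hij' with h | h
      · left
        apply div_le_div_of_nonneg_right _ (by positivity)
        have : ((i : ℕ) : ℝ) + 1 ≤ (j : ℕ) := by exact_mod_cast h
        linarith
      · right
        apply div_le_div_of_nonneg_right _ (by positivity)
        have : ((j : ℕ) : ℝ) + 1 ≤ (i : ℕ) := by exact_mod_cast h
        linarith
    · left; exact key m n j i h

lemma mkCells_blk (q Q : ℕ → ℕ) (n : ℕ) : (mkCells q Q).Blk (q n) n (1 / 2 ^ Q n) := by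
  intro j hj1 hj2
  refine ⟨⟨n, ⟨j - 2 ^ q n, by rw [pow_succ] at hj2; omega⟩⟩, ?_, ?_, rfl⟩
  · simp only [mkCells]
    congr 1
    rw [Nat.cast_sub hj1]; push_cast; ring
  · simp only [mkCells]
    congr 1
    rw [Nat.cast_sub hj1]; push_cast; ring

/-- The counterexamples. -/
theorem counterexample {p : ℝ} (hp : 1 < p)
    (hspec : ∀ n κ : ℕ, 2 ≤ κ → ∃ (q t I : ℕ) (e0 e1 : ℕ → ℕ), StageSpec p n κ q t I e0 e1) :
    ∃ Ω : Set E2, Bornology.IsBounded Ω ∧ IsOpen Ω ∧ Convex ℝ Ω ∧ (0 : E2) ∈ Ω ∧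
      CondG Ω p ∧ ¬ MaxBounded Ω p := by
  choose! q t I e0 e1 hS using hspec
  obtain ⟨κ, hκ0, hκ⟩ : ∃ κ : ℕ → ℕ, κ 0 = 2 ∧ ∀ n, κ (n + 1) = κ n + t n (κ n) * I n (κ n) :=
    ⟨fun n => Nat.rec 2 (fun n k => k + t n k * I n k) n, rfl, fun n => rfl⟩
  have hκ2 : ∀ n, 2 ≤ κ n := by
    intro n
    induction n with
    | zero => exact hκ0.ge
    | succ n ih => rw [hκ]; omega
  have hS' : ∀ n, StageSpec p n (κ n) (q n (κ n)) (t n (κ n)) (I n (κ n)) (e0 n (κ n))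
      (e1 n (κ n)) := fun n => hS n (κ n) (hκ2 n)
  obtain ⟨a, ha0, ha1, hda⟩ := digits_exist κ (fun n => t n (κ n)) (fun n => I n (κ n)) hκ
    (fun n => e0 n (κ n)) (fun n => (hS' n).e0_lt)
  obtain ⟨b, hb0, hb1, hdb⟩ := digits_exist κ (fun n => t n (κ n)) (fun n => I n (κ n)) hκ
    (fun n => e1 n (κ n)) (fun n => (hS' n).e1_lt)
  set qq : ℕ → ℕ := fun n => q n (κ n) with hqq
  set Q : ℕ → ℕ := fun n => κ n + t n (κ n) * I n (κ n) + t n (κ n) with hQ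
  set C := mkCells qq Q with hC
  refine ⟨C.body a b, C.isBounded_body a b, C.isOpen_body a b, C.convex_body a b, ?_, ?_, ?_⟩
  · -- origin
    have hdev : C.dev (0 - a) = 0 := by
      apply C.dev_eq_zero
      intro c
      left
      have : (0 : ℝ) ≤ C.l c := by
        simp only [hC, mkCells]; positivity
      linarith
    simp only [Cells.body, mem_ofPred_eq, PiLp.zero_apply]
    unfold Cells.prof
    rw [hdev, zero_sub, abs_neg, abs_of_nonneg hb0]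
    nlinarith
  · -- (G_p)
    apply C.condG_body a b hp (zero_le_one)
    · intro c
      have hlen : C.r c - C.l c = 1 / 2 ^ (qq c.1 + c.1 + 3) := by
        simp only [hC, mkCells]; ring
      rw [hlen, div_le_one (by positivity)]
      exact one_le_pow₀ (by norm_num)
    · intro c
      have hlen : C.r c - C.l c = 1 / 2 ^ (qq c.1 + c.1 + 3) := by
        simp only [hC, mkCells]; ring
      have hη : C.η c = 1 / 2 ^ Q c.1 := rfl
      rw [hlen, hη, one_div_one_div, one_div_one_div, Real.log_pow, Real.log_pow]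
      have hgp := (hS' c.1).gp
      set ν : ℕ := qq c.1 + c.1 + 3 with hν
      have e1 : (1 / (2 : ℝ) ^ ν) ^ p = ((2 : ℝ) ^ ((ν : ℝ) * p))⁻¹ := by
        rw [Real.div_rpow (by norm_num) (by positivity), Real.one_rpow, one_div,
          ← Real.rpow_natCast, ← Real.rpow_mul (by norm_num)]
      rw [e1]
      have hlog : Real.log 2 ≤ 1 := by
        have := Real.log_two_lt_d9; linarith
      have hlog0 : 0 ≤ Real.log 2 := Real.log_nonneg (by norm_num)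
      have hpos : 0 < (2 : ℝ) ^ ((ν : ℝ) * p) := by positivity
      rw [inv_mul_le_iff₀ hpos, mul_one]
      have h1 : (Q c.1 : ℝ) * Real.log 2 + 2 * ((ν : ℝ) * Real.log 2)
          = ((Q c.1 : ℝ) + 2 * (ν : ℝ)) * Real.log 2 := by ring
      rw [h1]
      have h2 : ((Q c.1 : ℝ) + 2 * (ν : ℝ)) * Real.log 2 ≤ ((Q c.1 : ℝ) + 2 * (ν : ℝ)) * 1 :=
        mul_le_mul_of_nonneg_left hlog (by positivity)
      have h3 : (Q c.1 : ℝ) + 2 * (ν : ℝ) ≤ (2 : ℝ) ^ ((ν : ℝ) * p) := hgp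
      linarith
  · apply not_bounded hp
    intro n
    exact (hS' n).out _ C a b ha0 ha1 hb0 hb1 (mkCells_blk qq Q n) (hda n) (hdb n)

/-- Final form. -/
theorem final (p : ℝ) (hp : 3 < p ∨ (1 < p ∧ p ^ 2 + p < 3)) :
    ∃ Ω : Set E2, Bornology.IsBounded Ω ∧ IsOpen Ω ∧ Convex ℝ Ω ∧ (0 : E2) ∈ Ω ∧
      CondG Ω p ∧ ¬ MaxBounded Ω p := by
  rcases hp with hp | ⟨hp, hp2⟩
  · exact counterexample (by linarith) fun n κ _ => specA hp n κ
  · exact counterexample hp fun n κ hκ => specB hp hp2 n κ hκ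

end Pool.Agent.Helper593.Lac
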