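import Mathlib

/-!
The two elementary integrals behind condition `(G_p)`.
-/

namespace Pool.Agent.Helper593.Lac

open Set MeasureTheory

lemma lint_inv {a b : ℝ} (ha : 0 < a) (hab : a ≤ b) :
    ∫⁻ x in Ioc a b, ENNReal.ofReal (x⁻¹) = ENNReal.ofReal (Real.log (b / a)) := by
  rw [← integral_inv_of_pos ha (ha.trans_le hab), intervalIntegral.integral_of_le hab,
    ofReal_integral_eq_lintegral_ofReal]
  · have h : IntervalIntegrable (fun x : ℝ => x⁻¹) volume a b := by
      apply intervalIntegral.intervalIntegrable_inv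
      · intro x hx
        rw [uIcc_of_le hab] at hx
        have := hx.1
        intro h0; linarith
      · exact continuousOn_id
    exact (intervalIntegrable_iff_integrableOn_Ioc_of_le hab).1 h
  · filter_upwards [ae_restrict_mem measurableSet_Ioc] with x hx
    exact inv_nonneg.2 (ha.trans hx.1).le

lemma lint_rpow {s b : ℝ} (hs : -1 < s) (hb : 0 ≤ b) :
    ∫⁻ x in Ioc 0 b, ENNReal.ofReal (x ^ s) = ENNReal.ofReal (b ^ (s + 1) / (s + 1)) := by
  have h1 : ∫ x in (0 : ℝ)..b, x ^ s = b ^ (s + 1) / (s + 1) := by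
    rw [integral_rpow (Or.inl hs), Real.zero_rpow (by linarith), sub_zero]
  rw [← h1, intervalIntegral.integral_of_le hb, ofReal_integral_eq_lintegral_ofReal]
  · exact (intervalIntegrable_iff_integrableOn_Ioc_of_le hb).1
      (intervalIntegral.intervalIntegrable_rpow' hs)
  · filter_upwards [ae_restrict_mem measurableSet_Ioc] with x hx
    exact Real.rpow_nonneg hx.1.le _

/-- the contribution of one contact cell -/
lemma lint_cell {p h η δ₀ : ℝ} (hp : 1 < p) (h0 : 0 < h) (h1 : h ≤ 1) (hη : 0 < η)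
    (hη1 : η ≤ 1) (hδ₀ : 0 < δ₀) :
    ∫⁻ δ in Ioo 0 δ₀, ENNReal.ofReal (min h (Real.sqrt (60 * δ / η))) ^ p
        * ENNReal.ofReal (δ⁻¹) ≤
      ENNReal.ofReal (2 + h ^ p * (|Real.log (60 * δ₀)| + Real.log (1 / η)
        + 2 * Real.log (1 / h))) := by
  set d := η * h ^ 2 / 60 with hd
  have hdpos : 0 < d := by positivity
  have hlog1 : 0 ≤ Real.log (1 / η) := Real.log_nonneg (by rw [le_div_iff₀ hη]; linarith)
  have hlog2 : 0 ≤ Real.log (1 / h) := Real.log_nonneg (by rw [le_div_iff₀ h0]; linarith)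
  have hhp : h ^ p ≤ 1 := Real.rpow_le_one h0.le h1 (by linarith)
  have hhp0 : 0 < h ^ p := Real.rpow_pos_of_pos h0 p
  have hsub : Ioo 0 δ₀ ⊆ Ioc 0 d ∪ Ioc d (max d δ₀) := by
    intro x hx
    rcases le_or_gt x d with h | h
    · exact Or.inl ⟨hx.1, h⟩
    · exact Or.inr ⟨h, hx.2.le.trans (le_max_right _ _)⟩
  have hI1 : ∫⁻ δ in Ioc 0 d, ENNReal.ofReal (min h (Real.sqrt (60 * δ / η))) ^ p
        * ENNReal.ofReal (δ⁻¹) ≤ ENNReal.ofReal 2 := by
    calc ∫⁻ δ in Ioc 0 d, ENNReal.ofReal (min h (Real.sqrt (60 * δ / η))) ^ p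
        * ENNReal.ofReal (δ⁻¹)
        ≤ ∫⁻ δ in Ioc 0 d, ENNReal.ofReal (h ^ (p - 1) * Real.sqrt (60 / η))
            * ENNReal.ofReal (δ ^ (-1/2 : ℝ)) := by
          apply setLIntegral_mono' measurableSet_Ioc
          intro δ hδ
          have hδ0 : 0 < δ := hδ.1
          have hs0 : 0 < Real.sqrt (60 * δ / η) := Real.sqrt_pos.2 (by positivity)
          have hm0 : 0 < min h (Real.sqrt (60 * δ / η)) := lt_min h0 hs0
          rw [ENNReal.ofReal_rpow_of_pos hm0, ← ENNReal.ofReal_mul (by positivity),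
            ← ENNReal.ofReal_mul (by positivity)]
          apply ENNReal.ofReal_le_ofReal
          have e1 : min h (Real.sqrt (60 * δ / η)) ^ p
              = min h (Real.sqrt (60 * δ / η)) ^ (p - 1) * min h (Real.sqrt (60 * δ / η)) := by
            rw [← Real.rpow_add_one hm0.ne']; congr 1; ring
          have e2 : min h (Real.sqrt (60 * δ / η)) ^ (p - 1) ≤ h ^ (p - 1) :=
            Real.rpow_le_rpow hm0.le (min_le_left _ _) (by linarith)
          have e3 : Real.sqrt (60 * δ / η) = Real.sqrt (60 / η) * Real.sqrt δ := by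
            rw [← Real.sqrt_mul (by positivity)]; congr 1; ring
          have e4 : δ ^ (-1/2 : ℝ) = Real.sqrt δ * δ⁻¹ := by
            rw [Real.sqrt_eq_rpow, ← Real.rpow_neg_one, ← Real.rpow_add hδ0]; norm_num
          rw [e1, e4, mul_assoc, mul_assoc]
          apply mul_le_mul e2 _ (by positivity) (by positivity)
          rw [← mul_assoc, ← e3]
          exact mul_le_mul_of_nonneg_right (min_le_right _ _) (by positivity)
      _ = ENNReal.ofReal (h ^ (p - 1) * Real.sqrt (60 / η)) *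
            ENNReal.ofReal (d ^ (-1/2 + 1 : ℝ) / (-1/2 + 1)) := by
          rw [lintegral_const_mul' _ _ ENNReal.ofReal_ne_top, lint_rpow (by norm_num) hdpos.le]
      _ ≤ ENNReal.ofReal 2 := by
          rw [← ENNReal.ofReal_mul (by positivity)]
          apply ENNReal.ofReal_le_ofReal
          have e1 : d ^ (-1/2 + 1 : ℝ) = Real.sqrt d := by
            rw [Real.sqrt_eq_rpow]; norm_num
          have e2 : Real.sqrt (60 / η) * Real.sqrt d = h := by
            rw [← Real.sqrt_mul (by positivity)]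
            have : 60 / η * d = h ^ 2 := by rw [hd]; field_simp
            rw [this, Real.sqrt_sq h0.le]
          have e3 : h ^ (p - 1) * h = h ^ p := by
            rw [← Real.rpow_add_one h0.ne']; congr 1; ring
          rw [e1]
          calc h ^ (p - 1) * Real.sqrt (60 / η) * (Real.sqrt d / (-1/2 + 1))
              = 2 * (h ^ (p - 1) * (Real.sqrt (60 / η) * Real.sqrt d)) := by ring
            _ = 2 * h ^ p := by rw [e2, e3]
            _ ≤ 2 := by linarith
  have hI2 : ∫⁻ δ in Ioc d (max d δ₀), ENNReal.ofReal (min h (Real.sqrt (60 * δ / η))) ^ p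
        * ENNReal.ofReal (δ⁻¹) ≤ ENNReal.ofReal (h ^ p * (|Real.log (60 * δ₀)|
          + Real.log (1 / η) + 2 * Real.log (1 / h))) := by
    calc ∫⁻ δ in Ioc d (max d δ₀), ENNReal.ofReal (min h (Real.sqrt (60 * δ / η))) ^ p
        * ENNReal.ofReal (δ⁻¹)
        ≤ ∫⁻ δ in Ioc d (max d δ₀), ENNReal.ofReal (h ^ p) * ENNReal.ofReal (δ⁻¹) := by
          apply setLIntegral_mono' measurableSet_Ioc
          intro δ hδ
          have hδ0 : 0 < δ := hdpos.trans hδ.1
          have hs0 : 0 < Real.sqrt (60 * δ / η) := Real.sqrt_pos.2 (by positivity)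
          have hm0 : 0 < min h (Real.sqrt (60 * δ / η)) := lt_min h0 hs0
          gcongr
          rw [ENNReal.ofReal_rpow_of_pos hm0]
          exact ENNReal.ofReal_le_ofReal
            (Real.rpow_le_rpow hm0.le (min_le_left _ _) (by linarith))
      _ = ENNReal.ofReal (h ^ p) * ENNReal.ofReal (Real.log (max d δ₀ / d)) := by
          rw [lintegral_const_mul' _ _ ENNReal.ofReal_ne_top, lint_inv hdpos (le_max_left _ _)]
      _ ≤ _ := by
          rw [← ENNReal.ofReal_mul hhp0.le]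
          apply ENNReal.ofReal_le_ofReal
          apply mul_le_mul_of_nonneg_left _ hhp0.le
          rcases le_total δ₀ d with h' | h'
          · rw [max_eq_left h', div_self hdpos.ne', Real.log_one]
            positivity
          · rw [max_eq_right h']
            have : δ₀ / d = (60 * δ₀) * (1 / η) * (1 / h) ^ 2 := by
              rw [hd]; field_simp
            rw [this, Real.log_mul (by positivity) (by positivity),
              Real.log_mul (by positivity) (by positivity), Real.log_pow]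
            have := le_abs_self (Real.log (60 * δ₀))
            push_cast
            linarith
  calc ∫⁻ δ in Ioo 0 δ₀, ENNReal.ofReal (min h (Real.sqrt (60 * δ / η))) ^ p
        * ENNReal.ofReal (δ⁻¹)
      ≤ ∫⁻ δ in Ioc 0 d ∪ Ioc d (max d δ₀),
          ENNReal.ofReal (min h (Real.sqrt (60 * δ / η))) ^ p * ENNReal.ofReal (δ⁻¹) :=
        lintegral_mono_set hsub
    _ ≤ _ := lintegral_union_le _ _ _
    _ ≤ ENNReal.ofReal 2 + ENNReal.ofReal (h ^ p * (|Real.log (60 * δ₀)|
          + Real.log (1 / η) + 2 * Real.log (1 / h))) := add_le_add hI1 hI2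
    _ = _ := by rw [← ENNReal.ofReal_add (by norm_num) (by positivity)]

lemma ennreal_three {p : ℝ} (hp : 0 ≤ p) (a b c : ENNReal) :
    (a + b + c) ^ p ≤ 3 ^ p * (a ^ p + b ^ p + c ^ p) := by
  have h : a + b + c ≤ 3 * max (max a b) c := by
    have h1 : a ≤ max (max a b) c := (le_max_left a b).trans (le_max_left _ _)
    have h2 : b ≤ max (max a b) c := (le_max_right a b).trans (le_max_left _ _)
    have h3 : c ≤ max (max a b) c := le_max_right _ _
    calc a + b + c ≤ max (max a b) c + max (max a b) c + max (max a b) c := by gcongr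
      _ = 3 * max (max a b) c := by ring
  refine (ENNReal.rpow_le_rpow h hp).trans ?_
  rw [ENNReal.mul_rpow_of_nonneg _ _ hp]
  gcongr
  rcases le_total (max a b) c with h | h
  · rw [max_eq_right h]; exact le_add_self
  · rw [max_eq_left h]
    rcases le_total a b with h' | h'
    · rw [max_eq_right h', add_assoc]
      exact le_add_self.trans' le_self_add
    · rw [max_eq_left h', add_assoc]
      exact le_self_add

/-- The integral condition from the pointwise one-dimensional bounds. -/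
lemma lint_total {p δ₀ c A₀ h₁ h₂ η₁ η₂ K : ℝ} (hp : 1 < p) (hδ₀ : 0 < δ₀) (hc : 0 ≤ c)
    (hK : 0 ≤ K)
    (h10 : 0 < h₁) (h11 : h₁ ≤ 1) (hη10 : 0 < η₁) (hη11 : η₁ ≤ 1)
    (h20 : 0 < h₂) (h21 : h₂ ≤ 1) (hη20 : 0 < η₂) (hη21 : η₂ ≤ 1)
    (hA1 : h₁ ^ p * (Real.log (1 / η₁) + 2 * Real.log (1 / h₁)) ≤ A₀)
    (hA2 : h₂ ^ p * (Real.log (1 / η₂) + 2 * Real.log (1 / h₂)) ≤ A₀)
    (L : ℝ → ENNReal)
    (hL : ∀ δ, 0 < δ → δ < δ₀ → L δ ≤ ENNReal.ofReal (K * (c * Real.sqrt δ
      + min h₁ (Real.sqrt (60 * δ / η₁)) + min h₂ (Real.sqrt (60 * δ / η₂))))) :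
    ∫⁻ δ in Ioo 0 δ₀, L δ ^ p * ENNReal.ofReal (δ⁻¹) ≤
      ENNReal.ofReal K ^ p * (3 ^ p * (ENNReal.ofReal (c ^ p * (δ₀ ^ (p / 2) / (p / 2)))
        + ENNReal.ofReal (2 + |Real.log (60 * δ₀)| + A₀)
        + ENNReal.ofReal (2 + |Real.log (60 * δ₀)| + A₀))) := by
  have hp0 : 0 ≤ p := by linarith
  have cellb : ∀ h η : ℝ, 0 < h → h ≤ 1 → 0 < η → η ≤ 1 →
      h ^ p * (Real.log (1 / η) + 2 * Real.log (1 / h)) ≤ A₀ →
      ∫⁻ δ in Ioo 0 δ₀, ENNReal.ofReal (min h (Real.sqrt (60 * δ / η))) ^ p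
        * ENNReal.ofReal (δ⁻¹) ≤ ENNReal.ofReal (2 + |Real.log (60 * δ₀)| + A₀) := by
    intro h η a1 a2 a3 a4 a5
    refine (lint_cell hp a1 a2 a3 a4 hδ₀).trans (ENNReal.ofReal_le_ofReal ?_)
    have hhp : h ^ p ≤ 1 := Real.rpow_le_one a1.le a2 (by linarith)
    have := abs_nonneg (Real.log (60 * δ₀))
    nlinarith
  have hsq : ∫⁻ δ in Ioo 0 δ₀, ENNReal.ofReal (c * Real.sqrt δ) ^ p * ENNReal.ofReal (δ⁻¹)
      ≤ ENNReal.ofReal (c ^ p * (δ₀ ^ (p / 2) / (p / 2))) := by
    calc ∫⁻ δ in Ioo 0 δ₀, ENNReal.ofReal (c * Real.sqrt δ) ^ p * ENNReal.ofReal (δ⁻¹)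
        ≤ ∫⁻ δ in Ioc 0 δ₀, ENNReal.ofReal (c * Real.sqrt δ) ^ p * ENNReal.ofReal (δ⁻¹) :=
          lintegral_mono_set Ioo_subset_Ioc_self
      _ = ∫⁻ δ in Ioc 0 δ₀, ENNReal.ofReal (c ^ p) * ENNReal.ofReal (δ ^ (p / 2 - 1)) := by
          apply setLIntegral_congr_fun measurableSet_Ioc
          intro δ hδ
          have hδ0 : 0 < δ := hδ.1
          simp only
          rw [ENNReal.ofReal_rpow_of_nonneg (by positivity) hp0,
            ← ENNReal.ofReal_mul (by positivity), ← ENNReal.ofReal_mul (by positivity)]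
          congr 1
          rw [Real.mul_rpow hc (Real.sqrt_nonneg _), Real.sqrt_eq_rpow, ← Real.rpow_mul hδ0.le,
            mul_assoc, ← Real.rpow_neg_one, ← Real.rpow_add hδ0]
          congr 2
          ring
      _ = _ := by
          rw [lintegral_const_mul' _ _ ENNReal.ofReal_ne_top, lint_rpow (by linarith) hδ₀.le,
            ← ENNReal.ofReal_mul (by positivity)]
          have e : p / 2 - 1 + 1 = p / 2 := by ring
          rw [e]
  calc ∫⁻ δ in Ioo 0 δ₀, L δ ^ p * ENNReal.ofReal (δ⁻¹)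
      ≤ ∫⁻ δ in Ioo 0 δ₀, ENNReal.ofReal K ^ p * (3 ^ p * (
          (ENNReal.ofReal (c * Real.sqrt δ) ^ p * ENNReal.ofReal (δ⁻¹)
          + ENNReal.ofReal (min h₁ (Real.sqrt (60 * δ / η₁))) ^ p * ENNReal.ofReal (δ⁻¹))
          + ENNReal.ofReal (min h₂ (Real.sqrt (60 * δ / η₂))) ^ p * ENNReal.ofReal (δ⁻¹))) := by
        apply setLIntegral_mono' measurableSet_Ioo
        intro δ hδ
        have h1 := hL δ hδ.1 hδ.2
        have h2 : ENNReal.ofReal (K * (c * Real.sqrt δ
            + min h₁ (Real.sqrt (60 * δ / η₁)) + min h₂ (Real.sqrt (60 * δ / η₂))))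
            = ENNReal.ofReal K * (ENNReal.ofReal (c * Real.sqrt δ)
              + ENNReal.ofReal (min h₁ (Real.sqrt (60 * δ / η₁)))
              + ENNReal.ofReal (min h₂ (Real.sqrt (60 * δ / η₂)))) := by
          rw [ENNReal.ofReal_mul hK, ENNReal.ofReal_add (by positivity) (by positivity),
            ENNReal.ofReal_add (by positivity) (by positivity)]
        calc L δ ^ p * ENNReal.ofReal (δ⁻¹)
            ≤ (ENNReal.ofReal K * (ENNReal.ofReal (c * Real.sqrt δ)
              + ENNReal.ofReal (min h₁ (Real.sqrt (60 * δ / η₁)))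
              + ENNReal.ofReal (min h₂ (Real.sqrt (60 * δ / η₂))))) ^ p
                * ENNReal.ofReal (δ⁻¹) := by
              gcongr
              exact h1.trans h2.le
          _ ≤ (ENNReal.ofReal K ^ p * (3 ^ p * (ENNReal.ofReal (c * Real.sqrt δ) ^ p
              + ENNReal.ofReal (min h₁ (Real.sqrt (60 * δ / η₁))) ^ p
              + ENNReal.ofReal (min h₂ (Real.sqrt (60 * δ / η₂))) ^ p)))
                * ENNReal.ofReal (δ⁻¹) := by
              rw [ENNReal.mul_rpow_of_nonneg _ _ hp0]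
              gcongr
              exact ennreal_three hp0 _ _ _
          _ = _ := by ring
    _ = ENNReal.ofReal K ^ p * (3 ^ p * (
          (∫⁻ δ in Ioo 0 δ₀, ENNReal.ofReal (c * Real.sqrt δ) ^ p * ENNReal.ofReal (δ⁻¹))
          + (∫⁻ δ in Ioo 0 δ₀, ENNReal.ofReal (min h₁ (Real.sqrt (60 * δ / η₁))) ^ p
              * ENNReal.ofReal (δ⁻¹))
          + ∫⁻ δ in Ioo 0 δ₀, ENNReal.ofReal (min h₂ (Real.sqrt (60 * δ / η₂))) ^ p
              * ENNReal.ofReal (δ⁻¹))) := by
        have m0 : Measurable fun δ : ℝ =>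
            ENNReal.ofReal (c * Real.sqrt δ) ^ p * ENNReal.ofReal (δ⁻¹) := by fun_prop
        have m1 : Measurable fun δ : ℝ =>
            ENNReal.ofReal (min h₁ (Real.sqrt (60 * δ / η₁))) ^ p * ENNReal.ofReal (δ⁻¹) := by
          fun_prop
        have m01 : Measurable fun δ : ℝ =>
            ENNReal.ofReal (c * Real.sqrt δ) ^ p * ENNReal.ofReal (δ⁻¹)
            + ENNReal.ofReal (min h₁ (Real.sqrt (60 * δ / η₁))) ^ p * ENNReal.ofReal (δ⁻¹) := by
          fun_prop
        rw [lintegral_const_mul', lintegral_const_mul', lintegral_add_left m01,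
          lintegral_add_left m0]
        · exact ENNReal.rpow_ne_top_of_nonneg hp0 (by norm_num)
        · exact ENNReal.rpow_ne_top_of_nonneg hp0 ENNReal.ofReal_ne_top
    _ ≤ _ := by
        gcongr
        · exact cellb h₁ η₁ h10 h11 hη10 hη11 hA1
        · exact cellb h₂ η₂ h20 h21 hη20 hη21 hA2

end Pool.Agent.Helper593.Lac
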