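import Pool.Agent.Helper593.Lac0
import Pool.Agent.Helper593.Lac1
import Pool.Agent.Helper593.Lac2

/-!
Planar geometry: the convex body `{|z 1 - b| < prof (z 0 - a)}` satisfies `(G_p)`.
-/

namespace Pool.Agent.Helper593.Lac

open MeasureTheory Set Filter Topology
open scoped ENNReal NNReal

namespace Cells

variable {ι : Type} (C : Cells ι) (a b : ℝ)

/-- the planar body -/
def body : Set E2 := {z | |z 1 - b| < C.prof (z 0 - a)}

lemma inner_coord (y θ : E2) : inner ℝ y θ = θ 0 * y 0 + θ 1 * y 1 := by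
  rw [PiLp.inner_apply, Fin.sum_univ_two]
  simp

lemma norm_sq_coord (y : E2) : ‖y‖ ^ 2 = y 0 ^ 2 + y 1 ^ 2 := by
  rw [EuclideanSpace.norm_sq_eq, Fin.sum_univ_two]
  simp

lemma isOpen_body : IsOpen (C.body a b) := by
  apply isOpen_lt
  · fun_prop
  · exact C.continuous_prof.comp (by fun_prop)

lemma convex_body : Convex ℝ (C.body a b) := by
  intro x hx y hy s t hs ht hst
  simp only [body, mem_ofPred_eq] at *
  have hc := C.concave_prof.2 (mem_univ (x 0 - a)) (mem_univ (y 0 - a)) hs ht hst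
  simp only [smul_eq_mul] at hc
  have e1 : (s • x + t • y) 0 - a = s * (x 0 - a) + t * (y 0 - a) := by
    simp only [PiLp.add_apply, PiLp.smul_apply, smul_eq_mul]
    have : t = 1 - s := by linarith
    subst this; ring
  have e2 : (s • x + t • y) 1 - b = s * (x 1 - b) + t * (y 1 - b) := by
    simp only [PiLp.add_apply, PiLp.smul_apply, smul_eq_mul]
    have : t = 1 - s := by linarith
    subst this; ring
  rw [e1, e2]
  refine lt_of_lt_of_le ?_ hc
  refine (abs_add_le _ _).trans_lt ?_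
  rw [abs_mul, abs_mul, abs_of_nonneg hs, abs_of_nonneg ht]
  rcases eq_or_lt_of_le hs with h0 | h0
  · rw [← h0]; have : t = 1 := by linarith
    rw [this]; linarith
  · have h1 := mul_lt_mul_of_pos_left hx h0
    have h2 := mul_le_mul_of_nonneg_left hy.le ht
    linarith

lemma body_coord {z : E2} (hz : z ∈ C.body a b) : |z 0 - a| < 2 ∧ |z 1 - b| < 4 := by
  have h1 : |z 1 - b| < C.prof (z 0 - a) := hz
  have h2 := C.prof_le (z 0 - a)
  have h3 := abs_nonneg (z 1 - b)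
  have h4 : (z 0 - a) ^ 2 < 4 := by linarith
  refine ⟨?_, ?_⟩
  · apply abs_lt_of_sq_lt_sq _ (by norm_num); linarith
  · nlinarith [sq_nonneg (z 0 - a)]

lemma isBounded_body : Bornology.IsBounded (C.body a b) := by
  rw [isBounded_iff_forall_norm_le]
  refine ⟨|a| + 2 + (|b| + 4), fun z hz => ?_⟩
  obtain ⟨h1, h2⟩ := C.body_coord a b hz
  have h3 : |z 0| ≤ |a| + 2 := by
    have := abs_add_le (z 0 - a) a
    rw [sub_add_cancel] at this; linarith
  have h4 : |z 1| ≤ |b| + 4 := by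
    have := abs_add_le (z 1 - b) b
    rw [sub_add_cancel] at this; linarith
  apply le_of_sq_le_sq _ (by positivity)
  rw [norm_sq_coord, ← sq_abs (z 0), ← sq_abs (z 1)]
  have := abs_nonneg (z 0)
  have := abs_nonneg (z 1)
  nlinarith

lemma frontier_subset : frontier (C.body a b) ⊆ {z | |z 1 - b| = C.prof (z 0 - a)} := by
  apply frontier_lt_subset_eq
  · fun_prop
  · exact C.continuous_prof.comp (by fun_prop)

lemma frontier_coord {z : E2} (hz : z ∈ frontier (C.body a b)) :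
    |z 1 - b| = C.prof (z 0 - a) ∧ z 0 - a ∈ Icc (-2 : ℝ) 2 := by
  have h1 := C.frontier_subset a b hz
  refine ⟨h1, ?_⟩
  have h1' : |z 1 - b| = C.prof (z 0 - a) := h1
  have h2 := C.prof_le (z 0 - a)
  have h3 := abs_nonneg (z 1 - b)
  have h4 : (z 0 - a) ^ 2 ≤ 2 ^ 2 := by linarith
  exact abs_le.1 (abs_le_of_sq_le_sq h4 (by norm_num))

/-- boundary points are in the closure -/
lemma mem_closure_body {x y : ℝ} (hx : x ∈ Icc (-2 : ℝ) 2) (hy : |y| ≤ C.prof x) :
    (!₂[a + x, b + y] : E2) ∈ closure (C.body a b) := by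
  have hcont : Continuous fun t : ℝ => (!₂[a + t * x, b + t * y] : E2) := by
    apply (PiLp.continuous_toLp 2 _).comp
    apply continuous_pi
    intro i
    fin_cases i
    · simp; fun_prop
    · simp; fun_prop
  have htend : Tendsto (fun t : ℝ => (!₂[a + t * x, b + t * y] : E2)) (𝓝[<] 1)
      (𝓝 (!₂[a + x, b + y] : E2)) := by
    have := (hcont.tendsto 1).mono_left (nhdsWithin_le_nhds (s := Iio (1 : ℝ)))
    simpa using this
  apply mem_closure_of_tendsto htend
  have h1 : ∀ᶠ t : ℝ in 𝓝[<] 1, t ∈ Ioo (0 : ℝ) 1 := Ioo_mem_nhdsLT (by norm_num)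
  filter_upwards [h1] with t ht
  simp only [body, mem_ofPred_eq]
  have e1 : (!₂[a + t * x, b + t * y] : E2) 1 - b = t * y := by simp
  have e2 : (!₂[a + t * x, b + t * y] : E2) 0 - a = t * x := by simp
  rw [e1, e2, abs_mul, abs_of_pos ht.1]
  have hc := C.concave_prof.2 (mem_univ x) (mem_univ 0) ht.1.le (by linarith [ht.2] : 0 ≤ 1 - t)
    (by ring)
  simp only [smul_eq_mul, mul_zero, add_zero] at hc
  have h0 : 0 < C.prof 0 := C.prof_pos ⟨by norm_num, by norm_num⟩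
  have := mul_le_mul_of_nonneg_left hy ht.1.le
  have := mul_pos (by linarith [ht.2] : 0 < 1 - t) h0
  linarith

lemma mem_frontier_body {x y : ℝ} (hx : x ∈ Icc (-2 : ℝ) 2) (hy : |y| = C.prof x) :
    (!₂[a + x, b + y] : E2) ∈ frontier (C.body a b) := by
  rw [(C.isOpen_body a b).frontier_eq]
  refine ⟨C.mem_closure_body a b hx hy.le, ?_⟩
  simp only [body, mem_ofPred_eq]
  simp [hy]

lemma bddAbove_body (θ : E2) :
    BddAbove ((fun y : E2 => inner ℝ y θ) '' (C.body a b)) := by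
  obtain ⟨R, hR⟩ := isBounded_iff_forall_norm_le.1 (C.isBounded_body a b)
  refine ⟨R * ‖θ‖, ?_⟩
  rintro _ ⟨y, hy, rfl⟩
  exact (real_inner_le_norm y θ).trans (mul_le_mul_of_nonneg_right (hR y hy) (norm_nonneg _))

lemma bddBelow_body (θ : E2) :
    BddBelow ((fun y : E2 => inner ℝ y θ) '' (C.body a b)) := by
  obtain ⟨R, hR⟩ := isBounded_iff_forall_norm_le.1 (C.isBounded_body a b)
  refine ⟨-(R * ‖θ‖), ?_⟩
  rintro _ ⟨y, hy, rfl⟩
  have h1 := (abs_le.1 (abs_real_inner_le_norm y θ)).1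
  have h2 := mul_le_mul_of_nonneg_right (hR y hy) (norm_nonneg θ)
  simp only
  linarith

lemma le_sup_closure {θ z : E2} (hz : z ∈ closure (C.body a b)) :
    inner ℝ z θ ≤ sSup ((fun y : E2 => inner ℝ y θ) '' (C.body a b)) := by
  have hcl : IsClosed {z : E2 | inner ℝ z θ ≤ sSup ((fun y : E2 => inner ℝ y θ) '' (C.body a b))} :=
    isClosed_le (by fun_prop) continuous_const
  exact closure_minimal (fun y hy => le_csSup (C.bddAbove_body a b θ) ⟨y, hy, rfl⟩) hcl hz

lemma inf_le_closure {θ z : E2} (hz : z ∈ closure (C.body a b)) :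
    sInf ((fun y : E2 => inner ℝ y θ) '' (C.body a b)) ≤ inner ℝ z θ := by
  have hcl : IsClosed {z : E2 | sInf ((fun y : E2 => inner ℝ y θ) '' (C.body a b)) ≤ inner ℝ z θ} :=
    isClosed_le continuous_const (by fun_prop)
  exact closure_minimal (fun y hy => csInf_le (C.bddBelow_body a b θ) ⟨y, hy, rfl⟩) hcl hz

lemma line_dist {θ y : E2} {H δ : ℝ} (hθ : ‖θ‖ = 1)
    (h : Metric.infDist y {z | inner ℝ z θ = H} ≤ δ) : |H - inner ℝ y θ| ≤ δ := by
  refine le_trans ?_ h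
  have hne : ({z : E2 | inner ℝ z θ = H}).Nonempty :=
    ⟨H • θ, by simp [inner_smul_left, hθ]⟩
  apply (Metric.le_infDist hne).2
  intro z hz
  have hz' : inner ℝ z θ = H := hz
  rw [← hz', ← inner_sub_left]
  refine (abs_real_inner_le_norm _ _).trans ?_
  rw [hθ, mul_one, ← dist_eq_norm, dist_comm]

/-- the set of `x` whose boundary points can lie in a cap -/
def Dset (u v δ : ℝ) : Set ℝ :=
  {x | x ∈ Icc (-2 : ℝ) 2 ∧ ∀ x' ∈ Icc (-2 : ℝ) 2,
    (u * x' + v * C.prof x') - (u * x + v * C.prof x) ≤ δ}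

lemma capPlus_sub {θ : E2} (hθ : ‖θ‖ = 1) (δ : ℝ) :
    capPlus (C.body a b) θ δ ⊆
      {y | y ∈ frontier (C.body a b) ∧ y 0 - a ∈ C.Dset (θ 0) |θ 1| δ} := by
  rintro y ⟨hy, hd⟩
  obtain ⟨hy1, hy2⟩ := C.frontier_coord a b hy
  refine ⟨hy, hy2, fun x' hx' => ?_⟩
  have hd' := (abs_le.1 (line_dist hθ hd)).2
  have hpr := C.prof_nonneg hx'
  have key : θ 0 * (a + x') + θ 1 * b + |θ 1| * C.prof x' ≤
      sSup ((fun y : E2 => inner ℝ y θ) '' (C.body a b)) := by
    rcases le_total 0 (θ 1) with h | h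
    · have := C.le_sup_closure a b (θ := θ) (C.mem_closure_body a b hx' (y := C.prof x')
        (abs_of_nonneg hpr).le)
      rw [inner_coord] at this
      rw [abs_of_nonneg h]; simp at this; linarith
    · have := C.le_sup_closure a b (θ := θ) (C.mem_closure_body a b hx' (y := -C.prof x')
        (by rw [abs_neg, abs_of_nonneg hpr]))
      rw [inner_coord] at this
      rw [abs_of_nonpos h]; simp at this; linarith
  rw [inner_coord] at hd'
  have h3 : θ 1 * (y 1 - b) ≤ |θ 1| * C.prof (y 0 - a) := by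
    rw [← hy1, ← abs_mul]; exact le_abs_self _
  linarith

lemma capMinus_sub {θ : E2} (hθ : ‖θ‖ = 1) (δ : ℝ) :
    capMinus (C.body a b) θ δ ⊆
      {y | y ∈ frontier (C.body a b) ∧ y 0 - a ∈ C.Dset (-θ 0) |θ 1| δ} := by
  rintro y ⟨hy, hd⟩
  obtain ⟨hy1, hy2⟩ := C.frontier_coord a b hy
  refine ⟨hy, hy2, fun x' hx' => ?_⟩
  have hd' := (abs_le.1 (line_dist hθ hd)).1
  have hpr := C.prof_nonneg hx'
  have key : sInf ((fun y : E2 => inner ℝ y θ) '' (C.body a b)) ≤
      θ 0 * (a + x') + θ 1 * b - |θ 1| * C.prof x' := by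
    rcases le_total 0 (θ 1) with h | h
    · have := C.inf_le_closure a b (θ := θ) (C.mem_closure_body a b hx' (y := -C.prof x')
        (by rw [abs_neg, abs_of_nonneg hpr]))
      rw [inner_coord] at this
      rw [abs_of_nonneg h]; simp at this; linarith
    · have := C.inf_le_closure a b (θ := θ) (C.mem_closure_body a b hx' (y := C.prof x')
        (abs_of_nonneg hpr).le)
      rw [inner_coord] at this
      rw [abs_of_nonpos h]; simp at this; linarith
  rw [inner_coord] at hd'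
  have h3 : -(θ 1 * (y 1 - b)) ≤ |θ 1| * C.prof (y 0 - a) := by
    rw [← hy1, ← abs_mul]; exact neg_le_abs _
  linarith

/-- lipschitz graph -/
lemma graph_lip (ε : ℝ) (hε : |ε| = 1) :
    LipschitzOnWith 7 (fun x : ℝ => (!₂[a + x, b + ε * C.prof x] : E2)) (Icc (-2 : ℝ) 2) := by
  apply LipschitzOnWith.of_dist_le_mul
  intro x hx y hy
  rw [dist_eq_norm]
  have h := C.prof_lip hx hy
  have habs := abs_nonneg (x - y)
  apply le_of_sq_le_sq _ (by positivity)
  rw [norm_sq_coord]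
  have e0 : (!₂[a + x, b + ε * C.prof x] - !₂[a + y, b + ε * C.prof y] : E2) 0 = x - y := by
    simp
  have e1 : (!₂[a + x, b + ε * C.prof x] - !₂[a + y, b + ε * C.prof y] : E2) 1
      = ε * (C.prof x - C.prof y) := by
    simp; ring
  rw [e0, e1, mul_pow, ← sq_abs ε, hε, Real.dist_eq, ← sq_abs (x - y),
    ← sq_abs (C.prof x - C.prof y)]
  have h7 : ((7 : ℝ≥0) : ℝ) = 7 := by norm_num
  rw [h7]
  have h0 := abs_nonneg (C.prof x - C.prof y)
  nlinarith

/-- arclength of a piece of the boundary over a set of abscissae -/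
lemma arc_piece_le {A : Set ℝ} (hA : A ⊆ Icc (-2 : ℝ) 2) :
    arc (C.body a b) {y | y ∈ frontier (C.body a b) ∧ y 0 - a ∈ A} ≤ 14 * volume A := by
  have hsub : {y | y ∈ frontier (C.body a b) ∧ y 0 - a ∈ A} ⊆
      (fun x : ℝ => (!₂[a + x, b + 1 * C.prof x] : E2)) '' A ∪
      (fun x : ℝ => (!₂[a + x, b + (-1) * C.prof x] : E2)) '' A := by
    rintro y ⟨hy, hyA⟩
    obtain ⟨hy1, hy2⟩ := C.frontier_coord a b hy
    have hpr := C.prof_nonneg hy2
    rcases (abs_eq hpr).1 hy1 with h | h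
    · left
      refine ⟨y 0 - a, hyA, ?_⟩
      ext i
      fin_cases i
      · simp
      · simp [← h]
    · right
      refine ⟨y 0 - a, hyA, ?_⟩
      ext i
      fin_cases i
      · simp
      · have : y 1 = b + -C.prof (y 0 - a) := by linarith
        simp [this]
  have hone : ∀ ε : ℝ, |ε| = 1 →
      (Measure.hausdorffMeasure 1 : Measure E2)
        ((fun x : ℝ => (!₂[a + x, b + ε * C.prof x] : E2)) '' A) ≤ 7 * volume A := by
    intro ε hε
    have := ((C.graph_lip a b ε hε).mono hA).hausdorffMeasure_image_le (d := 1) zero_le_one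
    rw [hausdorffMeasure_real] at this
    simpa using this
  unfold arc
  refine (Measure.restrict_apply_le _ _).trans ?_
  refine (measure_mono hsub).trans ((measure_union_le _ _).trans ?_)
  refine (add_le_add (hone 1 (by simp)) (hone (-1) (by simp))).trans ?_
  rw [← add_mul]; norm_num

lemma arc_finite : arc (C.body a b) univ < ⊤ := by
  have h : arc (C.body a b) univ ≤
      arc (C.body a b) {y | y ∈ frontier (C.body a b) ∧ y 0 - a ∈ Icc (-2 : ℝ) 2} := by
    unfold arc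
    have h1 : MeasurableSet (frontier (C.body a b)) := isClosed_frontier.measurableSet
    rw [Measure.restrict_apply MeasurableSet.univ, univ_inter]
    have hm : MeasurableSet {y : E2 | y ∈ frontier (C.body a b) ∧ y 0 - a ∈ Icc (-2 : ℝ) 2} := by
      have h2 : MeasurableSet {y : E2 | y 0 - a ∈ Icc (-2 : ℝ) 2} := by
        have : Measurable fun y : E2 => y 0 - a := by fun_prop
        exact this measurableSet_Icc
      exact h1.inter h2
    rw [Measure.restrict_apply hm]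
    apply measure_mono
    intro y hy
    exact ⟨⟨hy, (C.frontier_coord a b hy).2⟩, hy⟩
  refine h.trans_lt ((C.arc_piece_le a b le_rfl).trans_lt ?_)
  rw [Real.volume_Icc]
  exact ENNReal.mul_lt_top (by norm_num) ENNReal.ofReal_lt_top

instance : IsFiniteMeasure (arc (C.body a b)) := ⟨C.arc_finite a b⟩

/-- the one-dimensional superlevel set bound for all directions -/
lemma dset_bound {u v : ℝ} (hv : 0 ≤ v) (huv : u ^ 2 + v ^ 2 = 1) :
    ∃ o₁ o₂ : Option ι, ∀ δ₀ δ : ℝ, 0 < δ → δ < δ₀ →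
      volume (C.Dset u v δ) ≤ ENNReal.ofReal ((4 * Real.sqrt 30 + 2 * Real.sqrt δ₀) * Real.sqrt δ
        + C.B o₁ (30 * δ) + C.B o₂ (30 * δ)) := by
  have hsq30 : ∀ δ : ℝ, 0 < δ → Real.sqrt (30 * δ) = Real.sqrt 30 * Real.sqrt δ := by
    intro δ _
    rw [Real.sqrt_mul (by norm_num)]
  have hsqδ : ∀ δ₀ δ : ℝ, 0 < δ → δ < δ₀ → δ ≤ Real.sqrt δ₀ * Real.sqrt δ := by
    intro δ₀ δ h1 h2
    have h3 : Real.sqrt δ ≤ Real.sqrt δ₀ := Real.sqrt_le_sqrt h2.le
    have h4 := Real.mul_self_sqrt h1.le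
    have h5 := Real.sqrt_nonneg δ
    nlinarith
  rcases le_or_gt (1 / 30) v with h | h
  · have hvpos : 0 < v := by linarith
    have hcont : ContinuousOn (fun x => C.prof x - (-u / v) * x) (Icc (-2 : ℝ) 2) :=
      (C.continuous_prof.sub (by fun_prop)).continuousOn
    obtain ⟨x₀, hx₀, hmax⟩ := isCompact_Icc.exists_isMaxOn (nonempty_Icc.2 (by norm_num)) hcont
    have hmax' : ∀ x ∈ Icc (-2 : ℝ) 2,
        C.prof x - (-u / v) * x ≤ C.prof x₀ - (-u / v) * x₀ := fun x hx => hmax hx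
    obtain ⟨o₁, o₂, ho⟩ := C.oneD hx₀ hmax'
    refine ⟨o₁, o₂, fun δ₀ δ hδ hδ₀ => ?_⟩
    have hsub : C.Dset u v δ ⊆ C.D (-u / v) x₀ (30 * δ) := by
      rintro x ⟨hx, hx'⟩
      refine ⟨hx, ?_⟩
      have h1 := hx' x₀ hx₀
      have h2 : (u * x₀ + v * C.prof x₀) - (u * x + v * C.prof x)
          = v * ((C.prof x₀ - -u / v * x₀) - (C.prof x - -u / v * x)) := by
        field_simp; ring
      rw [h2] at h1
      have h3 := hmax' x hx
      have h4 : 0 ≤ (C.prof x₀ - -u / v * x₀) - (C.prof x - -u / v * x) := by linarith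
      nlinarith
    refine (measure_mono hsub).trans ((ho (30 * δ) (by linarith)).trans ?_)
    apply ENNReal.ofReal_le_ofReal
    rw [hsq30 δ hδ]
    have := mul_nonneg (Real.sqrt_nonneg δ₀) (Real.sqrt_nonneg δ)
    linarith
  · refine ⟨none, none, fun δ₀ δ hδ hδ₀ => ?_⟩
    have hu : 1 / 2 ≤ |u| - 6 * v := by
      have : (9 / 10) ^ 2 ≤ |u| ^ 2 := by rw [sq_abs]; nlinarith
      have := abs_le_of_sq_le_sq' this (abs_nonneg u)
      linarith [this.2]
    have hfin : volume (C.Dset u v δ) ≤ ENNReal.ofReal (2 * δ) := by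
      rcases le_total 0 u with h0 | h0
      · rw [abs_of_nonneg h0] at hu
        have hsub : C.Dset u v δ ⊆ Icc (2 - 2 * δ) 2 := by
          rintro x ⟨hx, hx'⟩
          refine ⟨?_, hx.2⟩
          have h1 := hx' 2 ⟨by norm_num, le_rfl⟩
          have h2 := (abs_le.1 (C.prof_lip (x := 2) (y := x) ⟨by norm_num, le_rfl⟩ hx)).1
          rw [abs_of_nonneg (by linarith [hx.2])] at h2
          nlinarith [hx.2]
        refine (measure_mono hsub).trans ?_
        rw [Real.volume_Icc]; apply ENNReal.ofReal_le_ofReal; linarith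
      · rw [abs_of_nonpos h0] at hu
        have hsub : C.Dset u v δ ⊆ Icc (-2) (-2 + 2 * δ) := by
          rintro x ⟨hx, hx'⟩
          refine ⟨hx.1, ?_⟩
          have h1 := hx' (-2) ⟨le_rfl, by norm_num⟩
          have h2 := (abs_le.1 (C.prof_lip (x := -2) (y := x) ⟨le_rfl, by norm_num⟩ hx)).1
          rw [abs_of_nonpos (by linarith [hx.1])] at h2
          nlinarith [hx.1]
        refine (measure_mono hsub).trans ?_
        rw [Real.volume_Icc]; apply ENNReal.ofReal_le_ofReal; linarith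
    refine hfin.trans (ENNReal.ofReal_le_ofReal ?_)
    have h1 := hsqδ δ₀ δ hδ hδ₀
    have h2 := mul_nonneg (Real.sqrt_nonneg 30) (Real.sqrt_nonneg δ)
    simp only [B]
    linarith

/-- cell data attached to an option -/
lemma opt_cell {p A₀ : ℝ} (hA₀ : 0 ≤ A₀) (hlen : ∀ c, C.r c - C.l c ≤ 1)
    (hcell : ∀ c, (C.r c - C.l c) ^ p *
      (Real.log (1 / C.η c) + 2 * Real.log (1 / (C.r c - C.l c))) ≤ A₀) (o : Option ι) :
    ∃ h η : ℝ, 0 < h ∧ h ≤ 1 ∧ 0 < η ∧ η ≤ 1 ∧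
      h ^ p * (Real.log (1 / η) + 2 * Real.log (1 / h)) ≤ A₀ ∧
      ∀ δ, 0 < δ → C.B o (30 * δ) ≤ min h (Real.sqrt (60 * δ / η)) := by
  cases o with
  | none =>
    refine ⟨1, 1, one_pos, le_rfl, one_pos, le_rfl, by simpa using hA₀, fun δ hδ => ?_⟩
    simp only [B]
    positivity
  | some c =>
    refine ⟨C.r c - C.l c, C.η c, by linarith [C.l_lt c], hlen c, C.η_pos c, C.η_le c, hcell c,
      fun δ hδ => ?_⟩
    simp only [B]
    have : 2 * (30 * δ) / C.η c = 60 * δ / C.η c := by ring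
    rw [this]

lemma capsDisjoint_body : CapsDisjoint (C.body a b) (1 / 2) := by
  intro θ hθ δ hδ hδ2
  rw [Set.disjoint_left]
  rintro y ⟨_, h1⟩ ⟨_, h2⟩
  have h1' := (abs_le.1 (line_dist hθ h1)).2
  have h2' := (abs_le.1 (line_dist hθ h2)).1
  have hn : θ 0 ^ 2 + θ 1 ^ 2 = 1 := by rw [← norm_sq_coord, hθ]; norm_num
  have hprof : ∀ s : ℝ, |s| ≤ 1 / 2 → 2 ≤ C.prof (s) := by
    intro s hs
    have h3 := C.dev_le s
    have h4 : s ^ 2 ≤ 1 / 4 := by
      rw [← sq_abs]; nlinarith [abs_nonneg s]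
    unfold prof; linarith
  have hθ0 : |θ 0| ≤ 1 := abs_le_one_iff_mul_self_le_one.2 (by nlinarith [sq_nonneg (θ 1)])
  have hθ1 : |θ 1| ≤ 1 := abs_le_one_iff_mul_self_le_one.2 (by nlinarith [sq_nonneg (θ 0)])
  have m1 : (!₂[a + θ 0 / 2, b + θ 1 / 2] : E2) ∈ C.body a b := by
    simp only [body, mem_ofPred_eq]
    simp only [PiLp.toLp_apply, Matrix.cons_val_zero, Matrix.cons_val_one, add_sub_cancel_left]
    have := hprof (θ 0 / 2) (by rw [abs_div, abs_two]; linarith)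
    have h5 : |θ 1 / 2| ≤ 1 / 2 := by rw [abs_div, abs_two]; linarith
    linarith
  have m2 : (!₂[a + -θ 0 / 2, b + -θ 1 / 2] : E2) ∈ C.body a b := by
    simp only [body, mem_ofPred_eq]
    simp only [PiLp.toLp_apply, Matrix.cons_val_zero, Matrix.cons_val_one, add_sub_cancel_left]
    have := hprof (-θ 0 / 2) (by rw [abs_div, abs_neg, abs_two]; linarith)
    have h5 : |-θ 1 / 2| ≤ 1 / 2 := by rw [abs_div, abs_neg, abs_two]; linarith
    linarith
  have k1 := C.le_sup_closure a b (θ := θ) (subset_closure m1)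
  have k2 := C.inf_le_closure a b (θ := θ) (subset_closure m2)
  rw [inner_coord] at k1 k2
  simp at k1 k2
  nlinarith

/-- `(G_p)` for the body -/
lemma condG_body {p A₀ : ℝ} (hp : 1 < p) (hA₀ : 0 ≤ A₀) (hlen : ∀ c, C.r c - C.l c ≤ 1)
    (hcell : ∀ c, (C.r c - C.l c) ^ p *
      (Real.log (1 / C.η c) + 2 * Real.log (1 / (C.r c - C.l c))) ≤ A₀) :
    CondG (C.body a b) p := by
  refine ⟨⟨1 / 2, by norm_num, C.capsDisjoint_body a b⟩, fun δ₀ hδ₀ _ => ?_⟩
  set c : ℝ := 4 * Real.sqrt 30 + 2 * Real.sqrt δ₀ with hc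
  have hcpos : 0 ≤ c := by positivity
  set Bd : ℝ≥0∞ := ENNReal.ofReal 14 ^ p * (3 ^ p * (ENNReal.ofReal (c ^ p * (δ₀ ^ (p / 2) / (p / 2)))
        + ENNReal.ofReal (2 + |Real.log (60 * δ₀)| + A₀)
        + ENNReal.ofReal (2 + |Real.log (60 * δ₀)| + A₀))) with hBd
  have hBdtop : Bd ≠ ⊤ := by
    have hp0 : 0 ≤ p := by linarith
    apply ENNReal.mul_ne_top (ENNReal.rpow_ne_top_of_nonneg hp0 ENNReal.ofReal_ne_top)
    apply ENNReal.mul_ne_top (ENNReal.rpow_ne_top_of_nonneg hp0 (by norm_num))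
    simp [ENNReal.add_eq_top]
  refine ⟨(Bd + Bd).toNNReal, fun θ hθ => ?_⟩
  rw [ENNReal.coe_toNNReal (by simp [hBdtop])]
  have hn : θ 0 ^ 2 + |θ 1| ^ 2 = 1 := by rw [sq_abs, ← norm_sq_coord, hθ]; norm_num
  have hn' : (-θ 0) ^ 2 + |θ 1| ^ 2 = 1 := by rw [neg_sq]; exact hn
  have main : ∀ u : ℝ, u ^ 2 + |θ 1| ^ 2 = 1 → ∃ F : ℝ → ℝ≥0∞, Measurable F ∧
      (∀ δ, 0 < δ → δ < δ₀ →
        arc (C.body a b) {y | y ∈ frontier (C.body a b) ∧ y 0 - a ∈ C.Dset u |θ 1| δ} ≤ F δ) ∧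
      ∫⁻ δ in Ioo 0 δ₀, F δ ^ p * ENNReal.ofReal (δ⁻¹) ≤ Bd := by
    intro u hu
    obtain ⟨o₁, o₂, ho⟩ := C.dset_bound (abs_nonneg (θ 1)) hu
    obtain ⟨h₁, η₁, a1, a2, a3, a4, a5, a6⟩ := C.opt_cell hA₀ hlen hcell o₁
    obtain ⟨h₂, η₂, b1, b2, b3, b4, b5, b6⟩ := C.opt_cell hA₀ hlen hcell o₂
    refine ⟨fun δ => ENNReal.ofReal (14 * (c * Real.sqrt δ
      + min h₁ (Real.sqrt (60 * δ / η₁)) + min h₂ (Real.sqrt (60 * δ / η₂)))), by fun_prop, ?_, ?_⟩
    · intro δ hδ hδ'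
      refine (C.arc_piece_le a b (fun x hx => hx.1)).trans ?_
      have h14 : (14 : ℝ≥0∞) = ENNReal.ofReal 14 := by norm_num
      simp only
      rw [ENNReal.ofReal_mul (by norm_num), h14]
      gcongr
      refine (ho δ₀ δ hδ hδ').trans (ENNReal.ofReal_le_ofReal ?_)
      have := a6 δ hδ
      have := b6 δ hδ
      linarith
    · exact lint_total hp hδ₀ hcpos (by norm_num) a1 a2 a3 a4 b1 b2 b3 b4 a5 b5 _
        (fun δ _ _ => le_rfl)
  obtain ⟨F₁, m1, f1, i1⟩ := main (θ 0) hn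
  obtain ⟨F₂, m2, f2, i2⟩ := main (-θ 0) hn'
  calc ∫⁻ δ in Ioo 0 δ₀, Lam (C.body a b) θ δ ^ p * ENNReal.ofReal (δ⁻¹)
      ≤ ∫⁻ δ in Ioo 0 δ₀, (F₁ δ ^ p * ENNReal.ofReal (δ⁻¹) + F₂ δ ^ p * ENNReal.ofReal (δ⁻¹)) := by
        apply setLIntegral_mono' measurableSet_Ioo
        intro δ hδ
        rw [← add_mul]
        gcongr
        have g1 : arc (C.body a b) (capPlus (C.body a b) θ δ) ≤ F₁ δ :=
          (measure_mono (C.capPlus_sub a b hθ δ)).trans (f1 δ hδ.1 hδ.2)
        have g2 : arc (C.body a b) (capMinus (C.body a b) θ δ) ≤ F₂ δ :=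
          (measure_mono (C.capMinus_sub a b hθ δ)).trans (f2 δ hδ.1 hδ.2)
        unfold Lam
        rcases le_total (arc (C.body a b) (capPlus (C.body a b) θ δ))
          (arc (C.body a b) (capMinus (C.body a b) θ δ)) with h | h
        · rw [max_eq_right h]
          exact (ENNReal.rpow_le_rpow g2 (by linarith)).trans le_add_self
        · rw [max_eq_left h]
          exact (ENNReal.rpow_le_rpow g1 (by linarith)).trans le_self_add
    _ = (∫⁻ δ in Ioo 0 δ₀, F₁ δ ^ p * ENNReal.ofReal (δ⁻¹))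
        + ∫⁻ δ in Ioo 0 δ₀, F₂ δ ^ p * ENNReal.ofReal (δ⁻¹) := by
        rw [lintegral_add_left]
        fun_prop
    _ ≤ Bd + Bd := add_le_add i1 i2

end Cells

end Pool.Agent.Helper593.Lac
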