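import Mathlib

/-!
A real number with prescribed blocks of binary digits.
-/

namespace Pool.Agent.Helper593.Lac

open Set

lemma digits_block (B : ℕ) (hB : 1 ≤ B) (e : ℕ → ℕ) (he : ∀ i, e i < B) (I : ℕ) :
    ∃ Z : ℕ, Z < B ^ I ∧ ∀ rem : ℝ, 0 ≤ rem → rem ≤ 1 → ∀ i < I, ∃ u : ℕ, ∃ rem' : ℝ,
      0 ≤ rem' ∧ rem' ≤ 1 ∧ ((Z : ℝ) + rem) / (B : ℝ) ^ I * (B : ℝ) ^ i = u + (e i + rem') / B := by
  have hB0 : (0 : ℝ) < B := by exact_mod_cast hB
  induction I with
  | zero => exact ⟨0, by simp, by intro rem _ _ i hi; omega⟩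
  | succ I ih =>
    obtain ⟨Z, hZ, h⟩ := ih
    refine ⟨Z * B + e I, ?_, ?_⟩
    · have := he I
      calc Z * B + e I < Z * B + B := by omega
        _ = (Z + 1) * B := by ring
        _ ≤ B ^ I * B := Nat.mul_le_mul_right _ hZ
        _ = B ^ (I + 1) := by ring
    · intro rem h0 h1 i hi
      have heI : (e I : ℝ) + 1 ≤ B := by exact_mod_cast he I
      rcases Nat.lt_succ_iff_lt_or_eq.1 hi with hi' | rfl
      · obtain ⟨u, rem', hr0, hr1, hu⟩ := h ((e I + rem) / B) (by positivity)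
          (by rw [div_le_one hB0]; linarith) i hi'
        refine ⟨u, rem', hr0, hr1, ?_⟩
        rw [← hu]
        push_cast
        have : (B : ℝ) ^ (I + 1) = B ^ I * B := by ring
        rw [this]
        field_simp
        ring
      · refine ⟨Z, rem, h0, h1, ?_⟩
        push_cast
        have : (B : ℝ) ^ (i + 1) = B ^ i * B := by ring
        rw [this]
        field_simp
        ring

/-- existence of the translation coordinate -/
lemma digits_exist (κ t I : ℕ → ℕ) (hκ : ∀ n, κ (n + 1) = κ n + t n * I n)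
    (e : ℕ → ℕ → ℕ) (he : ∀ n i, e n i < 2 ^ t n) :
    ∃ x : ℝ, 0 ≤ x ∧ x ≤ 1 ∧ ∀ n, ∀ i < I n, ∃ u : ℕ, ∃ rem : ℝ, 0 ≤ rem ∧ rem ≤ 1 ∧
      (2 : ℝ) ^ (κ n + t n * i) * x = u + (e n i + rem) / 2 ^ t n := by
  choose Z hZ hZ' using fun n => digits_block (2 ^ t n) Nat.one_le_two_pow (e n) (he n) (I n)
  obtain ⟨z, hz0, hz⟩ : ∃ z : ℕ → ℕ, z 0 = 0 ∧ ∀ n, z (n + 1) = z n * 2 ^ (t n * I n) + Z n :=
    ⟨fun n => Nat.rec 0 (fun n zn => zn * 2 ^ (t n * I n) + Z n) n, rfl, fun n => rfl⟩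
  have h2 : ∀ m : ℕ, (0 : ℝ) < 2 ^ m := fun m => by positivity
  have hZlt : ∀ n, Z n + 1 ≤ 2 ^ (t n * I n) := by
    intro n; have := hZ n; rw [← pow_mul] at this; exact this
  have hmono : Monotone fun n => (z n : ℝ) / 2 ^ κ n := by
    apply monotone_nat_of_le_succ
    intro n
    rw [hz, hκ, pow_add, div_le_div_iff₀ (h2 _) (by positivity)]
    push_cast
    have : (0 : ℝ) ≤ Z n * 2 ^ κ n := by positivity
    nlinarith
  have hanti : Antitone fun n => ((z n : ℝ) + 1) / 2 ^ κ n := by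
    apply antitone_nat_of_succ_le
    intro n
    rw [hz, hκ, pow_add, div_le_div_iff₀ (by positivity) (h2 _)]
    have h1 : (Z n : ℝ) + 1 ≤ 2 ^ (t n * I n) := by exact_mod_cast hZlt n
    push_cast
    nlinarith [mul_le_mul_of_nonneg_right h1 (h2 (κ n)).le]
  have hle : (fun n => (z n : ℝ) / 2 ^ κ n) ≤ fun n => ((z n : ℝ) + 1) / 2 ^ κ n := by
    intro n
    apply div_le_div_of_nonneg_right (by linarith) (h2 _).le
  have hmem := Monotone.ciSup_mem_iInter_Icc_of_antitone hmono hanti hle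
  set x : ℝ := ⨆ n, (z n : ℝ) / 2 ^ κ n with hx
  rw [mem_iInter] at hmem
  refine ⟨x, ?_, ?_, ?_⟩
  · exact le_trans (by positivity) (hmem 0).1
  · refine (hmem 0).2.trans ?_
    rw [hz0]
    simp only [Nat.cast_zero, zero_add]
    rw [div_le_one (h2 _)]
    exact one_le_pow₀ (by norm_num)
  · intro n i hi
    have hm := hmem (n + 1)
    set rem : ℝ := x * 2 ^ κ (n + 1) - z (n + 1) with hrem
    have hr0 : 0 ≤ rem := by
      have := (div_le_iff₀ (h2 (κ (n+1)))).1 hm.1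
      linarith
    have hr1 : rem ≤ 1 := by
      have := (le_div_iff₀ (h2 (κ (n+1)))).1 hm.2
      linarith
    obtain ⟨u, rem', h0, h1, hu⟩ := hZ' n rem hr0 hr1 i hi
    refine ⟨z n * 2 ^ (t n * i) + u, rem', h0, h1, ?_⟩
    have hx2 : x * 2 ^ κ (n + 1) = z n * 2 ^ (t n * I n) + Z n + rem := by
      rw [hrem, hz]; push_cast; ring
    have hx3 : x * 2 ^ κ n = z n + (Z n + rem) / 2 ^ (t n * I n) := by
      rw [hκ, pow_add] at hx2
      have : (z n : ℝ) + (Z n + rem) / 2 ^ (t n * I n)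
          = (z n * 2 ^ (t n * I n) + Z n + rem) / 2 ^ (t n * I n) := by
        field_simp
        ring
      rw [this, ← hx2]
      field_simp
    have e1 : (((2 : ℕ) ^ t n : ℕ) : ℝ) ^ I n = 2 ^ (t n * I n) := by
      push_cast; rw [← pow_mul]
    have e2 : (((2 : ℕ) ^ t n : ℕ) : ℝ) ^ i = 2 ^ (t n * i) := by
      push_cast; rw [← pow_mul]
    rw [e1, e2] at hu
    calc (2 : ℝ) ^ (κ n + t n * i) * x = (x * 2 ^ κ n) * 2 ^ (t n * i) := by rw [pow_add]; ring
      _ = z n * 2 ^ (t n * i) + (Z n + rem) / 2 ^ (t n * I n) * 2 ^ (t n * i) := by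
        rw [hx3]; ring
      _ = _ := by rw [hu]; push_cast; ring

end Pool.Agent.Helper593.Lac
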