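import Pool.Agent.Helper593.Lac3

/-!
Tools: slicing, periodic sets, lower bounds for the maximal function.
-/

namespace Pool.Agent.Helper593.Lac

open MeasureTheory Set Filter Topology
open scoped ENNReal NNReal

lemma pair_mp : MeasurePreserving (fun z : E2 => (z 0, z 1)) volume (volume : Measure (ℝ × ℝ)) :=
  (volume_preserving_finTwoArrow ℝ).comp (PiLp.volume_preserving_ofLp (Fin 2))

lemma meas_vec : Measurable fun q : ℝ × ℝ => (!₂[q.1, q.2] : E2) := by
  have : Continuous fun q : ℝ × ℝ => (!₂[q.1, q.2] : E2) := by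
    apply (PiLp.continuous_toLp 2 _).comp
    apply continuous_pi
    intro i
    fin_cases i
    · exact continuous_fst
    · exact continuous_snd
  exact this.measurable

lemma vec_eta (z : E2) : (!₂[z 0, z 1] : E2) = z := by
  ext i; fin_cases i <;> simp

lemma vol_eq_lintegral {T : Set E2} (hT : MeasurableSet T) :
    volume T = ∫⁻ x : ℝ, volume {y : ℝ | (!₂[x, y] : E2) ∈ T} := by
  have hT' : MeasurableSet ((fun q : ℝ × ℝ => (!₂[q.1, q.2] : E2)) ⁻¹' T) := meas_vec hT
  have h1 : (fun z : E2 => (z 0, z 1)) ⁻¹' ((fun q : ℝ × ℝ => (!₂[q.1, q.2] : E2)) ⁻¹' T) = T := by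
    ext z
    simp only [mem_preimage, vec_eta]
  have h2 := pair_mp.measure_preimage hT'.nullMeasurableSet
  rw [h1] at h2
  rw [h2, Measure.volume_eq_prod, Measure.prod_apply hT']
  rfl

lemma slice_le {T : Set E2} (hT : MeasurableSet T) {A B : ℝ} {m : ℝ≥0∞}
    (h1 : ∀ z ∈ T, z 0 ∈ Icc A B) (h2 : ∀ x ∈ Icc A B, volume {y : ℝ | (!₂[x, y] : E2) ∈ T} ≤ m) :
    volume T ≤ ENNReal.ofReal (B - A) * m := by
  rw [vol_eq_lintegral hT]
  calc ∫⁻ x : ℝ, volume {y : ℝ | (!₂[x, y] : E2) ∈ T}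
      ≤ ∫⁻ x : ℝ, (Icc A B).indicator (fun _ => m) x := by
        apply lintegral_mono
        intro x
        by_cases hx : x ∈ Icc A B
        · rw [indicator_of_mem hx]; exact h2 x hx
        · rw [indicator_of_notMem hx]
          have : {y : ℝ | (!₂[x, y] : E2) ∈ T} = ∅ := by
            ext y
            simp only [mem_ofPred_eq, mem_empty_iff_false, iff_false]
            intro hy
            apply hx
            have := h1 _ hy
            simpa using this
          simp only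
          rw [this]; simp
    _ = ENNReal.ofReal (B - A) * m := by
        rw [lintegral_indicator measurableSet_Icc, setLIntegral_const, Real.volume_Icc, mul_comm]

lemma le_slice {T : Set E2} (hT : MeasurableSet T) {G : Set ℝ} (hG : MeasurableSet G) {m : ℝ≥0∞}
    (h2 : ∀ x ∈ G, m ≤ volume {y : ℝ | (!₂[x, y] : E2) ∈ T}) :
    volume G * m ≤ volume T := by
  rw [vol_eq_lintegral hT]
  calc volume G * m = ∫⁻ x : ℝ, G.indicator (fun _ => m) x := by
        rw [lintegral_indicator hG, setLIntegral_const, mul_comm]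
    _ ≤ _ := by
        apply lintegral_mono
        intro x
        by_cases hx : x ∈ G
        · rw [indicator_of_mem hx]; exact h2 x hx
        · rw [indicator_of_notMem hx]; exact bot_le

/-- upper bound for a periodic set in an interval -/
lemma periodic_upper {A B c d β : ℝ} (hd : 0 < d) (hβ : 0 ≤ β) (h2 : 2 * β ≤ d) (hAB : A ≤ B) :
    volume {y : ℝ | y ∈ Icc A B ∧ ∃ m : ℤ, |y - c - m * d| ≤ β} ≤
      ENNReal.ofReal (((B - A) / d + 2) * (2 * β)) := by
  set m₀ : ℤ := ⌈(A - c - β) / d⌉ with hm₀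
  set m₁ : ℤ := ⌊(B - c + β) / d⌋ with hm₁
  have hsub : {y : ℝ | y ∈ Icc A B ∧ ∃ m : ℤ, |y - c - m * d| ≤ β} ⊆
      ⋃ m ∈ Finset.Icc m₀ m₁, Icc (c + m * d - β) (c + m * d + β) := by
    rintro y ⟨hy, m, hm⟩
    rw [abs_le] at hm
    simp only [mem_iUnion, Finset.mem_Icc]
    refine ⟨m, ⟨?_, ?_⟩, ?_, ?_⟩
    · rw [hm₀, Int.ceil_le, div_le_iff₀ hd]; linarith [hy.1]
    · rw [hm₁, Int.le_floor, le_div_iff₀ hd]; linarith [hy.2]
    · linarith
    · linarith
  refine (measure_mono hsub).trans ((measure_biUnion_finset_le _ _).trans ?_)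
  have : ∀ m ∈ Finset.Icc m₀ m₁, volume (Icc (c + m * d - β) (c + m * d + β))
      = ENNReal.ofReal (2 * β) := by
    intro m _
    rw [Real.volume_Icc]; congr 1; ring
  rw [Finset.sum_congr rfl this, Finset.sum_const, nsmul_eq_mul, Int.card_Icc]
  have hnn : 0 ≤ (B - A) / d := div_nonneg (by linarith) hd.le
  rw [ENNReal.ofReal_mul (p := (B - A) / d + 2) (by linarith)]
  gcongr
  rw [← ENNReal.ofReal_natCast]
  apply ENNReal.ofReal_le_ofReal
  have h3 : ((m₁ + 1 - m₀ : ℤ) : ℝ) ≤ (B - A) / d + 2 := by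
    push_cast
    have e1 : (m₁ : ℝ) ≤ (B - c + β) / d := Int.floor_le _
    have e2 : (A - c - β) / d ≤ m₀ := Int.le_ceil _
    have e3 : (B - c + β) / d - (A - c - β) / d = (B - A) / d + 2 * β / d := by ring
    have e4 : 2 * β / d ≤ 1 := by rw [div_le_one hd]; exact h2
    linarith
  rcases le_total 0 (m₁ + 1 - m₀) with h | h
  · have : (((m₁ + 1 - m₀).toNat : ℤ) : ℝ) = ((m₁ + 1 - m₀ : ℤ) : ℝ) := by
      rw [Int.toNat_of_nonneg h]
    have h4 : (((m₁ + 1 - m₀).toNat : ℕ) : ℝ) = (((m₁ + 1 - m₀).toNat : ℤ) : ℝ) := by norm_cast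
    rw [h4, this]; exact h3
  · rw [Int.toNat_of_nonpos h]
    simp only [Nat.cast_zero]
    linarith

/-- lower bound for a periodic set in an interval -/
lemma periodic_lower {A B c d β : ℝ} (hd : 0 < d) (hβ : 0 ≤ β) (h2 : β ≤ d) :
    ENNReal.ofReal (((B - A) / d - 2) * β) ≤
      volume {y : ℝ | y ∈ Ico A B ∧ ∃ m : ℤ, 0 ≤ y - c - m * d ∧ y - c - m * d < β} := by
  set m₀ : ℤ := ⌈(A - c) / d⌉ with hm₀
  set m₁ : ℤ := ⌊(B - β - c) / d⌋ with hm₁
  have hsub : (⋃ m ∈ Finset.Icc m₀ m₁, Ico (c + m * d) (c + m * d + β)) ⊆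
      {y : ℝ | y ∈ Ico A B ∧ ∃ m : ℤ, 0 ≤ y - c - m * d ∧ y - c - m * d < β} := by
    intro y hy
    simp only [mem_iUnion, Finset.mem_Icc] at hy
    obtain ⟨m, ⟨h3, h4⟩, h5, h6⟩ := hy
    rw [hm₀, Int.ceil_le, div_le_iff₀ hd] at h3
    rw [hm₁, Int.le_floor, le_div_iff₀ hd] at h4
    exact ⟨⟨by linarith, by linarith⟩, m, by linarith, by linarith⟩
  refine le_trans ?_ (measure_mono hsub)
  rw [measure_biUnion_finset]
  · have : ∀ m ∈ Finset.Icc m₀ m₁, volume (Ico (c + m * d) (c + m * d + β))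
        = ENNReal.ofReal β := by
      intro m _
      rw [Real.volume_Ico]; congr 1; ring
    rw [Finset.sum_congr rfl this, Finset.sum_const, nsmul_eq_mul, Int.card_Icc]
    have h3 : (B - A) / d - 2 ≤ ((m₁ + 1 - m₀ : ℤ) : ℝ) := by
      push_cast
      have e1 : (B - β - c) / d < m₁ + 1 := Int.lt_floor_add_one _
      have e2 : (m₀ : ℝ) < (A - c) / d + 1 := Int.ceil_lt_add_one _
      have e3 : (B - β - c) / d - (A - c) / d = (B - A) / d - β / d := by ring
      have e4 : β / d ≤ 1 := by rw [div_le_one hd]; exact h2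
      linarith
    rw [← ENNReal.ofReal_natCast, ← ENNReal.ofReal_mul (by positivity)]
    apply ENNReal.ofReal_le_ofReal
    apply mul_le_mul_of_nonneg_right _ hβ
    refine h3.trans ?_
    have : (m₁ + 1 - m₀ : ℤ) ≤ ((m₁ + 1 - m₀).toNat : ℤ) := Int.self_le_toNat _
    exact_mod_cast this
  · intro m _ m' _ hmm
    apply Set.disjoint_left.2
    rintro y ⟨h3, h4⟩ ⟨h5, h6⟩
    rcases lt_or_gt_of_ne hmm with h | h
    · have h7 : (m : ℝ) + 1 ≤ m' := by exact_mod_cast h
      nlinarith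
    · have h7 : (m' : ℝ) + 1 ≤ m := by exact_mod_cast h
      nlinarith
  · intro m _; exact measurableSet_Ico

namespace Cells

variable {ι : Type} (C : Cells ι) (a b : ℝ)

lemma maxFn_ge {E' : Set E2} (hE : MeasurableSet E') (k : ℕ) (X : E2) :
    arc (C.body a b) {y | X - (2 : ℝ) ^ k • y ∈ E'} ≤
      maxFn (C.body a b) (E'.indicator fun _ => (1 : ℂ)) X := by
  unfold maxFn
  refine le_trans ?_ (le_iSup _ (k : ℤ))
  unfold avg
  have hS : MeasurableSet {y : E2 | X - (2 : ℝ) ^ k • y ∈ E'} := by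
    have : Measurable fun y : E2 => X - (2 : ℝ) ^ k • y := by fun_prop
    exact this hE
  have h1 : ∀ y : E2, (E'.indicator (fun _ => (1 : ℂ)) (X - (2 : ℝ) ^ (k : ℤ) • y))
      = ({y : E2 | X - (2 : ℝ) ^ k • y ∈ E'}.indicator (fun _ => (1 : ℂ)) y) := by
    intro y
    rw [zpow_natCast]
    by_cases h : X - (2 : ℝ) ^ k • y ∈ E'
    · rw [indicator_of_mem h, indicator_of_mem (by exact h)]
    · rw [indicator_of_notMem h, indicator_of_notMem (by exact h)]
  rw [integral_congr_ae (Eventually.of_forall h1), integral_indicator_const _ hS]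
  have hfin : arc (C.body a b) {y | X - (2 : ℝ) ^ k • y ∈ E'} ≠ ⊤ := measure_ne_top _ _
  rw [enorm_smul, enorm_one, mul_one, Real.enorm_eq_ofReal measureReal_nonneg,
    Measure.real, ENNReal.ofReal_toReal hfin]

lemma arc_ge {S : Set E2} {A : Set ℝ} (hA : A ⊆ Icc (-2 : ℝ) 2)
    (h : ∀ x ∈ A, (!₂[a + x, b - C.prof x] : E2) ∈ S) :
    volume A ≤ arc (C.body a b) S := by
  unfold arc
  rw [Measure.restrict_apply' isClosed_frontier.measurableSet]
  have hlip : LipschitzWith 1 fun y : E2 => y 0 - a := by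
    apply LipschitzWith.of_dist_le_mul
    intro x y
    rw [Real.dist_eq, dist_eq_norm]
    simp only [NNReal.coe_one, one_mul]
    have : x 0 - a - (y 0 - a) = (x - y) 0 := by simp
    rw [this]
    apply abs_le_of_sq_le_sq _ (norm_nonneg _)
    rw [norm_sq_coord]
    nlinarith [sq_nonneg ((x - y) 1)]
  have hsub : A ⊆ (fun y : E2 => y 0 - a) '' (S ∩ frontier (C.body a b)) := by
    intro x hx
    refine ⟨!₂[a + x, b - C.prof x], ⟨h x hx, ?_⟩, by simp⟩
    have := C.mem_frontier_body a b (x := x) (y := -C.prof x) (hA hx)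
      (by rw [abs_neg, abs_of_nonneg (C.prof_nonneg (hA hx))])
    rwa [← sub_eq_add_neg] at this
  calc volume A ≤ volume ((fun y : E2 => y 0 - a) '' (S ∩ frontier (C.body a b))) :=
        measure_mono hsub
    _ = (Measure.hausdorffMeasure 1) ((fun y : E2 => y 0 - a) '' (S ∩ frontier (C.body a b))) := by
        rw [hausdorffMeasure_real]
    _ ≤ _ := by
        have := hlip.hausdorffMeasure_image_le (d := 1) zero_le_one
          (S ∩ frontier (C.body a b))
        simpa using this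

end Cells

/-- unboundedness from test sets -/
lemma not_bounded {Ω : Set E2} {p : ℝ} (hp : 1 < p)
    (h : ∀ n : ℕ, ∃ E' : Set E2, MeasurableSet E' ∧ volume E' < ⊤ ∧
      2 ^ n * volume E' < ∫⁻ x, maxFn Ω (E'.indicator fun _ => (1 : ℂ)) x ^ p) :
    ¬ MaxBounded Ω p := by
  rintro ⟨C, hC⟩
  have hp0 : 0 < p := by linarith
  obtain ⟨n, hn⟩ := pow_unbounded_of_one_lt ((C : ℝ) ^ p) (one_lt_two : (1 : ℝ) < 2)
  obtain ⟨E', hE, hfin, hlt⟩ := h n
  have hmem : MemLp (E'.indicator fun _ => (1 : ℂ)) (ENNReal.ofReal p) volume :=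
    memLp_indicator_const _ hE _ (Or.inr hfin.ne)
  have h1 := hC _ hmem
  have h2 : eLpNorm (E'.indicator fun _ => (1 : ℂ)) (ENNReal.ofReal p) volume
      = volume E' ^ (1 / p) := by
    rw [eLpNorm_indicator_const hE (by simpa using hp0) ENNReal.ofReal_ne_top,
      ENNReal.toReal_ofReal hp0.le]
    simp
  rw [h2] at h1
  have h3 := ENNReal.rpow_le_rpow h1 hp0.le
  rw [← ENNReal.rpow_mul, ENNReal.mul_rpow_of_nonneg _ _ hp0.le, ← ENNReal.rpow_mul,
    one_div_mul_cancel hp0.ne', ENNReal.rpow_one, ENNReal.rpow_one] at h3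
  have h4 : ((C : ℝ≥0∞) ^ p) ≤ 2 ^ n := by
    have : ((C : ℝ≥0∞) ^ p) = ENNReal.ofReal ((C : ℝ) ^ p) := by
      rw [← ENNReal.ofReal_rpow_of_nonneg C.coe_nonneg hp0.le, ENNReal.ofReal_coe_nnreal]
    rw [this]
    have h5 : (2 : ℝ≥0∞) ^ n = ENNReal.ofReal (2 ^ n) := by
      rw [ENNReal.ofReal_pow (by norm_num)]; norm_num
    rw [h5]
    exact ENNReal.ofReal_le_ofReal hn.le
  exact absurd (hlt.trans_le (h3.trans (mul_le_mul_left h4 _))) (lt_irrefl _)

end Pool.Agent.Helper593.Lac
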