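import Pool.Agent.Helper593.Lac5

/-!
Common facts about one block of cells and the translated body.
-/

namespace Pool.Agent.Helper593.Lac

open MeasureTheory Set Filter Topology
open scoped ENNReal NNReal

/-- digit property of one coordinate of the translation vector at one stage -/
def Dig (x : ℝ) (κ t I : ℕ) (e : ℕ → ℕ) : Prop :=
  ∀ i < I, ∃ u : ℕ, ∃ rem : ℝ, 0 ≤ rem ∧ rem ≤ 1 ∧
    (2 : ℝ) ^ (κ + t * i) * x = u + (e i + rem) / 2 ^ t

/-- slicing with a measurable set of abscissae -/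
lemma slice_le' {T : Set E2} (hT : MeasurableSet T) {G : Set ℝ} (hG : MeasurableSet G) {m : ℝ≥0∞}
    (h1 : ∀ z ∈ T, z 0 ∈ G) (h2 : ∀ x ∈ G, volume {y : ℝ | (!₂[x, y] : E2) ∈ T} ≤ m) :
    volume T ≤ volume G * m := by
  rw [vol_eq_lintegral hT]
  calc ∫⁻ x : ℝ, volume {y : ℝ | (!₂[x, y] : E2) ∈ T}
      ≤ ∫⁻ x : ℝ, G.indicator (fun _ => m) x := by
        apply lintegral_mono
        intro x
        by_cases hx : x ∈ G
        · rw [indicator_of_mem hx]; exact h2 x hx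
        · rw [indicator_of_notMem hx]
          have : {y : ℝ | (!₂[x, y] : E2) ∈ T} = ∅ := by
            ext y
            simp only [mem_ofPred_eq, mem_empty_iff_false, iff_false]
            intro hy
            apply hx
            have := h1 _ hy
            simpa using this
          simp only
          rw [this]; simp
    _ = volume G * m := by
        rw [lintegral_indicator hG, setLIntegral_const, mul_comm]

lemma lint_ge {F : Set E2} (hF : MeasurableSet F) {f : E2 → ℝ≥0∞} {c : ℝ≥0∞} {p : ℝ} (hp : 0 ≤ p)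
    (h : ∀ x ∈ F, c ≤ f x) : c ^ p * volume F ≤ ∫⁻ x, f x ^ p := by
  calc c ^ p * volume F = ∫⁻ _ in F, c ^ p := by rw [setLIntegral_const]
    _ ≤ ∫⁻ x in F, f x ^ p := setLIntegral_mono' hF fun x hx => ENNReal.rpow_le_rpow (h x hx) hp
    _ ≤ ∫⁻ x, f x ^ p := setLIntegral_le_lintegral _ _

namespace Cells

variable {ι : Type} (C : Cells ι) (a b : ℝ)

/-- the block number `n` of cells, with `2^q` cells of length `2^(-ν)`, `ν = q + n + 3`. -/
def Blk (q n : ℕ) (η : ℝ) : Prop :=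
  ∀ j : ℕ, 2 ^ q ≤ j → j < 2 ^ (q + 1) →
    ∃ c, C.l c = j / 2 ^ (q + n + 3) ∧ C.r c = (j + 1) / 2 ^ (q + n + 3) ∧ C.η c = η

variable {C}

lemma blk_point {q n : ℕ} {η : ℝ} (hblk : C.Blk q n η) {x : ℝ}
    (hx : x ∈ Ico ((2 : ℝ) ^ q / 2 ^ (q + n + 3)) (2 ^ (q + 1) / 2 ^ (q + n + 3))) :
    ∃ j : ℕ, 2 ^ q ≤ j ∧ j < 2 ^ (q + 1) ∧ ∃ c, C.l c = j / 2 ^ (q + n + 3) ∧
      C.r c = (j + 1) / 2 ^ (q + n + 3) ∧ C.η c = η ∧ x ∈ Icc (C.l c) (C.r c) := by
  have hH : (0 : ℝ) < 2 ^ (q + n + 3) := by positivity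
  have hx0 : 0 ≤ x * 2 ^ (q + n + 3) := by
    have := hx.1
    have h2 : (0 : ℝ) ≤ 2 ^ q / 2 ^ (q + n + 3) := by positivity
    exact mul_nonneg (h2.trans this) hH.le
  set j : ℕ := ⌊x * 2 ^ (q + n + 3)⌋₊ with hj
  have hj1 : (j : ℝ) ≤ x * 2 ^ (q + n + 3) := Nat.floor_le hx0
  have hj2 : x * 2 ^ (q + n + 3) < j + 1 := Nat.lt_floor_add_one _
  have hj3 : 2 ^ q ≤ j := by
    apply Nat.le_floor
    push_cast
    have := (div_le_iff₀ hH).1 hx.1
    exact this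
  have hj4 : j < 2 ^ (q + 1) := by
    have := (lt_div_iff₀ hH).1 hx.2
    have h3 : (j : ℝ) < 2 ^ (q + 1) := by linarith
    exact_mod_cast h3
  obtain ⟨c, h1, h2, h3⟩ := hblk j hj3 hj4
  refine ⟨j, hj3, hj4, c, h1, h2, h3, ?_, ?_⟩
  · rw [h1, div_le_iff₀ hH]; exact hj1
  · rw [h2, le_div_iff₀ hH]; exact hj2.le

lemma z_ident {H η : ℝ} (hH : 0 < H) {j : ℕ} {c : ι} (hl : C.l c = j / H)
    (hr : C.r c = (j + 1) / H) (hη : C.η c = η) {x : ℝ} (hx : x ∈ Icc (C.l c) (C.r c))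
    (X0 X1 K : ℝ) :
    (X1 - K * (b - C.prof x)) - (2 * j + 1) / H * (X0 - K * (a + x)) =
      (X1 - K * b) - (2 * j + 1) / H * (X0 - K * a) + K * (4 + j * (j + 1) / H ^ 2)
        + K * (η / 2 * ((x - C.l c) * (C.r c - x))) := by
  rw [C.prof_eq_of_mem hx, hη, hl, hr]
  field_simp
  ring

lemma bump_bound {K η w : ℝ} (hK : 0 ≤ K) (hη : 0 ≤ η) (hw : K * η ≤ w) {c : ι} {x : ℝ}
    (hx : x ∈ Icc (C.l c) (C.r c)) :
    0 ≤ K * (η / 2 * ((x - C.l c) * (C.r c - x))) ∧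
      K * (η / 2 * ((x - C.l c) * (C.r c - x))) ≤ w := by
  have h1 := C.l_ge c
  have h2 := C.r_le c
  have h3 : 0 ≤ (x - C.l c) * (C.r c - x) :=
    mul_nonneg (by linarith [hx.1]) (by linarith [hx.2])
  have h4 : (x - C.l c) * (C.r c - x) ≤ 1 := by
    nlinarith [sq_nonneg (x - C.l c - (C.r c - x)), hx.1, hx.2]
  have h5 : 0 ≤ K * η := mul_nonneg hK hη
  constructor
  · positivity
  · have : K * (η / 2 * ((x - C.l c) * (C.r c - x)))
        = (K * η) * ((x - C.l c) * (C.r c - x)) / 2 := by ring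
    rw [this]
    nlinarith

lemma prof_le_four (x : ℝ) : C.prof x ≤ 4 := by
  have := C.prof_le x
  nlinarith [sq_nonneg x]

end Cells

end Pool.Agent.Helper593.Lac
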