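import Pool.Agent.Helper593.Lac6

/-!
Stage B: the test set for small exponents.
-/

namespace Pool.Agent.Helper593.Lac

open MeasureTheory Set Filter Topology
open scoped ENNReal NNReal

lemma aux_rem' {w r : ℝ} (hw : 0 < w) (h : 0 ≤ r) (h' : r ≤ 1) : 0 ≤ r * w ∧ r * w ≤ w :=
  ⟨mul_nonneg h hw.le, by
    calc r * w ≤ 1 * w := mul_le_mul_of_nonneg_right h' hw.le
      _ = w := one_mul w⟩

/-- the neighbourhood of the lattice `H⁻¹ ℤ × H⁻² ℤ` -/
def GB (H w R : ℝ) : Set E2 :=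
  {z | (z 0 ∈ Icc 0 R ∧ ∃ m : ℤ, |z 0 - 0 - m * (1 / H)| ≤ w) ∧
    (z 1 ∈ Icc 0 R ∧ ∃ m : ℤ, |z 1 - 0 - m * (1 / H ^ 2)| ≤ 4 * w)}

lemma meas_per (d β A B : ℝ) :
    MeasurableSet {y : ℝ | y ∈ Icc A B ∧ ∃ m : ℤ, |y - 0 - m * d| ≤ β} := by
  have : {y : ℝ | y ∈ Icc A B ∧ ∃ m : ℤ, |y - 0 - m * d| ≤ β}
      = Icc A B ∩ ⋃ m : ℤ, {y : ℝ | |y - 0 - m * d| ≤ β} := by
    ext y; simp
  rw [this]
  exact measurableSet_Icc.inter (MeasurableSet.iUnion fun m =>
    measurableSet_le (by fun_prop) measurable_const)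

lemma meas_GB (H w R : ℝ) : MeasurableSet (GB H w R) := by
  have h0 : Measurable fun z : E2 => z 0 := by fun_prop
  have h1 : Measurable fun z : E2 => z 1 := by fun_prop
  exact (h0 (meas_per (1 / H) w 0 R)).inter (h1 (meas_per (1 / H ^ 2) (4 * w) 0 R))

lemma vol_GB {H w R : ℝ} (hH : 1 ≤ H) (hw : 0 ≤ w) (hw2 : 8 * w ≤ 1 / H ^ 2) (hR : 0 ≤ R) :
    volume (GB H w R) ≤
      ENNReal.ofReal (((R * H + 2) * (2 * w)) * ((R * H ^ 2 + 2) * (8 * w))) := by
  have hHpos : 0 < H := by linarith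
  have hw1 : 2 * w ≤ 1 / H := by
    refine le_trans (by linarith) (hw2.trans ?_)
    apply one_div_le_one_div_of_le hHpos
    nlinarith
  have hp0 := periodic_upper (A := 0) (B := R) (c := 0) (d := 1 / H) (β := w) (by positivity) hw
    hw1 hR
  have hp1 := periodic_upper (A := 0) (B := R) (c := 0) (d := 1 / H ^ 2) (β := 4 * w)
    (by positivity) (by linarith) (by linarith) hR
  have e0 : ((R - 0) / (1 / H) + 2) * (2 * w) = (R * H + 2) * (2 * w) := by
    rw [div_div_eq_mul_div]; ring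
  have e1 : ((R - 0) / (1 / H ^ 2) + 2) * (2 * (4 * w)) = (R * H ^ 2 + 2) * (8 * w) := by
    rw [div_div_eq_mul_div]; ring
  rw [e0] at hp0
  rw [e1] at hp1
  have h := slice_le' (meas_GB H w R) (meas_per (1 / H) w 0 R)
    (m := ENNReal.ofReal ((R * H ^ 2 + 2) * (8 * w))) (fun z hz => hz.1) (by
      intro x _
      refine le_trans (measure_mono ?_) hp1
      intro y hy
      simp only [GB, mem_ofPred_eq, Matrix.cons_val_zero, Matrix.cons_val_one] at hy
      exact hy.2)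
  refine h.trans ?_
  rw [ENNReal.ofReal_mul (p := (R * H + 2) * (2 * w)) (by positivity)]
  exact mul_le_mul' hp0 le_rfl

/-- the set of good points -/
def TB (M : ℕ) (H A B : ℝ) : Set E2 :=
  {z | (z 0 ∈ Ico A B ∧ z 1 ∈ Ico A B) ∧ ∃ j : ℕ, j ∈ Finset.Ico M (2 * M) ∧
    ∃ L : ℤ, 0 ≤ z 1 - (2 * j + 1) / H * z 0 - L * (1 / H ^ 2) ∧
      z 1 - (2 * j + 1) / H * z 0 - L * (1 / H ^ 2) < 1 / H ^ 3}

lemma meas_TB (M : ℕ) (H A B : ℝ) : MeasurableSet (TB M H A B) := by
  have h0 : Measurable fun z : E2 => z 0 := by fun_prop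
  have h1 : Measurable fun z : E2 => z 1 := by fun_prop
  have hm : MeasurableSet (⋃ j ∈ Finset.Ico M (2 * M), ⋃ L : ℤ,
      ({z : E2 | 0 ≤ z 1 - (2 * (j : ℕ) + 1) / H * z 0 - L * (1 / H ^ 2)} ∩
        {z : E2 | z 1 - (2 * (j : ℕ) + 1) / H * z 0 - L * (1 / H ^ 2) < 1 / H ^ 3})) := by
    refine Finset.measurableSet_biUnion _ fun j _ => MeasurableSet.iUnion fun L => ?_
    exact (measurableSet_le measurable_const (by fun_prop)).inter
      (measurableSet_lt (by fun_prop) measurable_const)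
  have : TB M H A B = ({z : E2 | z 0 ∈ Ico A B} ∩ {z : E2 | z 1 ∈ Ico A B}) ∩
      (⋃ j ∈ Finset.Ico M (2 * M), ⋃ L : ℤ,
      ({z : E2 | 0 ≤ z 1 - (2 * (j : ℕ) + 1) / H * z 0 - L * (1 / H ^ 2)} ∩
        {z : E2 | z 1 - (2 * (j : ℕ) + 1) / H * z 0 - L * (1 / H ^ 2) < 1 / H ^ 3})) := by
    ext z
    simp only [TB, mem_ofPred_eq, mem_inter_iff, mem_iUnion]
    constructor
    · rintro ⟨h, j, hj, L, hL1, hL2⟩
      exact ⟨h, j, hj, L, hL1, hL2⟩
    · rintro ⟨h, j, hj, L, hL1, hL2⟩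
      exact ⟨h, j, hj, L, hL1, hL2⟩
  rw [this]
  exact ((h0 measurableSet_Ico).inter (h1 measurableSet_Ico)).inter hm

/-- the bad abscissae -/
def badx (H : ℝ) (d : ℕ) (A B : ℝ) : Set ℝ :=
  {x | x ∈ Icc A B ∧ ∃ m : ℤ, |x - 0 - m * (1 / (2 * d * H))| ≤ 1 / (2 * d * H ^ 2)}

/-- the good abscissae -/
def goodx (M : ℕ) (H A B : ℝ) : Set ℝ := Ico A B \ ⋃ d ∈ Finset.Ico 1 M, badx H d A B

lemma vol_goodx {M : ℕ} {H R : ℝ} (hH : 2 ≤ H) (hM : 8 * (M : ℝ) ≤ H) (hR : 16 ≤ R) :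
    ENNReal.ofReal (R / 4) ≤ volume (goodx M H (R / 4) (3 * R / 4)) := by
  have hHpos : 0 < H := by linarith
  have hbad : ∀ d ∈ Finset.Ico 1 M, volume (badx H d (R / 4) (3 * R / 4)) ≤
      ENNReal.ofReal (R / H + 2 / H ^ 2) := by
    intro d hd
    have hd1 : (1 : ℝ) ≤ d := by exact_mod_cast (Finset.mem_Ico.1 hd).1
    have hdpos : (0 : ℝ) < d := by linarith
    refine (periodic_upper (A := R / 4) (B := 3 * R / 4) (c := 0) (d := 1 / (2 * d * H))
      (β := 1 / (2 * d * H ^ 2)) (by positivity) (by positivity) ?_ (by linarith)).trans ?_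
    · rw [mul_one_div, div_le_div_iff₀ (by positivity) (by positivity)]
      have : (0 : ℝ) < 2 * d * H := by positivity
      nlinarith
    · apply ENNReal.ofReal_le_ofReal
      have e : ((3 * R / 4 - R / 4) / (1 / (2 * d * H)) + 2) * (2 * (1 / (2 * d * H ^ 2)))
          = R / H + 2 / (d * H ^ 2) := by
        field_simp
        ring
      rw [e]
      have : 2 / (d * H ^ 2) ≤ 2 / H ^ 2 := by
        apply div_le_div_of_nonneg_left (by norm_num) (by positivity)
        nlinarith [sq_nonneg H]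
      linarith
  have hbadU : volume (⋃ d ∈ Finset.Ico 1 M, badx H d (R / 4) (3 * R / 4)) ≤
      ENNReal.ofReal (R / 4) := by
    refine (measure_biUnion_finset_le _ _).trans ((Finset.sum_le_sum hbad).trans ?_)
    rw [Finset.sum_const, Nat.card_Ico, nsmul_eq_mul, ← ENNReal.ofReal_natCast,
      ← ENNReal.ofReal_mul (by positivity)]
    apply ENNReal.ofReal_le_ofReal
    have h1 : ((M - 1 : ℕ) : ℝ) ≤ M := by exact_mod_cast Nat.sub_le M 1
    have h2 : R / H + 2 / H ^ 2 ≤ (R + 2) / H := by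
      rw [add_div]
      have : 2 / H ^ 2 ≤ 2 / H := by
        apply div_le_div_of_nonneg_left (by norm_num) hHpos
        nlinarith
      linarith
    have h3 : (0 : ℝ) ≤ (R + 2) / H := by positivity
    calc ((M - 1 : ℕ) : ℝ) * (R / H + 2 / H ^ 2) ≤ M * ((R + 2) / H) :=
          mul_le_mul h1 h2 (by positivity) (by positivity)
      _ ≤ (H / 8) * ((R + 2) / H) := mul_le_mul_of_nonneg_right (by linarith) h3
      _ = (R + 2) / 8 := by field_simp
      _ ≤ R / 4 := by linarith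
  have hsub : Ico (R / 4) (3 * R / 4) ⊆ goodx M H (R / 4) (3 * R / 4) ∪
      ⋃ d ∈ Finset.Ico 1 M, badx H d (R / 4) (3 * R / 4) := by
    intro x hx
    by_cases h : x ∈ ⋃ d ∈ Finset.Ico 1 M, badx H d (R / 4) (3 * R / 4)
    · exact Or.inr h
    · exact Or.inl ⟨hx, h⟩
  have h1 := (measure_mono hsub).trans (measure_union_le (μ := volume) _ _)
  rw [Real.volume_Ico] at h1
  have h2 : ENNReal.ofReal (3 * R / 4 - R / 4) = ENNReal.ofReal (R / 4) + ENNReal.ofReal (R / 4) := by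
    rw [← ENNReal.ofReal_add (by linarith) (by linarith)]; congr 1; ring
  rw [h2] at h1
  have h3 := h1.trans (add_le_add le_rfl hbadU)
  exact (ENNReal.add_le_add_iff_right ENNReal.ofReal_ne_top).1 h3

lemma meas_goodx (M : ℕ) (H A B : ℝ) : MeasurableSet (goodx M H A B) := by
  refine measurableSet_Ico.diff (Finset.measurableSet_biUnion _ fun d _ => meas_per _ _ A B)

lemma vol_TB {M : ℕ} {H R : ℝ} (hH : 2 ≤ H) (hM : 8 * (M : ℝ) ≤ H) (hR : 16 ≤ R) :
    ENNReal.ofReal (M / H * R ^ 2 / 16) ≤ volume (TB M H (R / 4) (3 * R / 4)) := by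
  have hHpos : 0 < H := by linarith
  have hslice : ∀ x ∈ goodx M H (R / 4) (3 * R / 4),
      ENNReal.ofReal (M / H * R / 4) ≤
        volume {y : ℝ | (!₂[x, y] : E2) ∈ TB M H (R / 4) (3 * R / 4)} := by
    rintro x ⟨hx, hxb⟩
    have hsub : (⋃ j ∈ Finset.Ico M (2 * M), {y : ℝ | y ∈ Ico (R / 4) (3 * R / 4) ∧ ∃ m : ℤ,
        0 ≤ y - (2 * (j : ℕ) + 1) / H * x - m * (1 / H ^ 2) ∧
        y - (2 * (j : ℕ) + 1) / H * x - m * (1 / H ^ 2) < 1 / H ^ 3}) ⊆
        {y : ℝ | (!₂[x, y] : E2) ∈ TB M H (R / 4) (3 * R / 4)} := by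
      intro y hy
      simp only [mem_iUnion] at hy
      obtain ⟨j, hj, hy1, m, hm1, hm2⟩ := hy
      simp only [TB, mem_ofPred_eq, Matrix.cons_val_zero, Matrix.cons_val_one]
      exact ⟨⟨hx, hy1⟩, j, hj, m, hm1, hm2⟩
    refine le_trans ?_ (measure_mono hsub)
    rw [measure_biUnion_finset]
    · have hone : ∀ j ∈ Finset.Ico M (2 * M), ENNReal.ofReal (R / 4 * (1 / H)) ≤
          volume {y : ℝ | y ∈ Ico (R / 4) (3 * R / 4) ∧ ∃ m : ℤ,
          0 ≤ y - (2 * (j : ℕ) + 1) / H * x - m * (1 / H ^ 2) ∧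
          y - (2 * (j : ℕ) + 1) / H * x - m * (1 / H ^ 2) < 1 / H ^ 3} := by
        intro j _
        refine le_trans ?_ (periodic_lower (A := R / 4) (B := 3 * R / 4)
          (c := (2 * (j : ℕ) + 1) / H * x) (d := 1 / H ^ 2) (β := 1 / H ^ 3) (by positivity)
          (by positivity) ?_)
        · apply ENNReal.ofReal_le_ofReal
          have e : ((3 * R / 4 - R / 4) / (1 / H ^ 2) - 2) * (1 / H ^ 3)
              = R / 4 * (1 / H) + (R / 4 * H ^ 2 - 2) / H ^ 3 := by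
            field_simp; ring
          rw [e]
          have : 0 ≤ (R / 4 * H ^ 2 - 2) / H ^ 3 := by
            apply div_nonneg _ (by positivity)
            nlinarith
          linarith
        · apply one_div_le_one_div_of_le (by positivity)
          have : H ^ 3 = H ^ 2 * H := by ring
          have h2 : 0 < H ^ 2 := by positivity
          nlinarith
      refine le_trans ?_ (Finset.sum_le_sum hone)
      rw [Finset.sum_const, Nat.card_Ico, nsmul_eq_mul, ← ENNReal.ofReal_natCast,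
        ← ENNReal.ofReal_mul (by positivity)]
      apply ENNReal.ofReal_le_ofReal
      have : 2 * M - M = M := by omega
      rw [this]
      apply le_of_eq; ring
    · -- disjointness
      have key : ∀ j j' : ℕ, M ≤ j → j < j' → j' < 2 * M → ∀ y : ℝ, ∀ m m' : ℤ,
          0 ≤ y - (2 * (j : ℕ) + 1) / H * x - m * (1 / H ^ 2) →
          y - (2 * (j : ℕ) + 1) / H * x - m * (1 / H ^ 2) < 1 / H ^ 3 →
          0 ≤ y - (2 * (j' : ℕ) + 1) / H * x - m' * (1 / H ^ 2) →
          y - (2 * (j' : ℕ) + 1) / H * x - m' * (1 / H ^ 2) < 1 / H ^ 3 → False := by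
        intro j j' hj hjj hj' y m m' k1 k2 k3 k4
        apply hxb
        simp only [mem_iUnion]
        refine ⟨j' - j, Finset.mem_Ico.2 ⟨by omega, by omega⟩, ⟨hx.1, hx.2.le⟩, m - m', ?_⟩
        have hd : ((j' - j : ℕ) : ℝ) = (j' : ℝ) - j := by
          rw [Nat.cast_sub hjj.le]
        have hdpos : 0 < ((j' - j : ℕ) : ℝ) := by
          rw [hd]; have : (j : ℝ) < j' := by exact_mod_cast hjj
          linarith
        set dd : ℝ := ((j' - j : ℕ) : ℝ) with hdd
        have e1 : (2 * dd / H) * (x - 0 - ((m - m' : ℤ) : ℝ) * (1 / (2 * dd * H)))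
            = (y - (2 * (j : ℕ) + 1) / H * x - m * (1 / H ^ 2))
              - (y - (2 * (j' : ℕ) + 1) / H * x - m' * (1 / H ^ 2)) := by
          rw [hd]
          have hne : (j' : ℝ) - j ≠ 0 := by rw [← hd]; exact hdpos.ne'
          push_cast
          field_simp
          ring
        have e2 : |(2 * dd / H) * (x - 0 - ((m - m' : ℤ) : ℝ) * (1 / (2 * dd * H)))| ≤ 1 / H ^ 3 := by
          rw [e1, abs_le]; constructor <;> linarith
        rw [abs_mul, abs_of_pos (by positivity : 0 < 2 * dd / H)] at e2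
        have e3 : 1 / (2 * dd * H ^ 2) = (H / (2 * dd)) * (1 / H ^ 3) := by
          field_simp
        rw [e3]
        calc |x - 0 - ((m - m' : ℤ) : ℝ) * (1 / (2 * dd * H))|
            = (H / (2 * dd)) * (2 * dd / H * |x - 0 - ((m - m' : ℤ) : ℝ) * (1 / (2 * dd * H))|) := by
              field_simp
          _ ≤ (H / (2 * dd)) * (1 / H ^ 3) := mul_le_mul_of_nonneg_left e2 (by positivity)
      intro j hj j' hj' hjj
      have hj := Finset.mem_Ico.1 (Finset.mem_coe.1 hj)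
      have hj' := Finset.mem_Ico.1 (Finset.mem_coe.1 hj')
      apply Set.disjoint_left.2
      rintro y ⟨_, m, k1, k2⟩ ⟨_, m', k3, k4⟩
      rcases lt_or_gt_of_ne hjj with h | h
      · exact key j j' hj.1 h hj'.2 y m m' k1 k2 k3 k4
      · exact key j' j hj'.1 h hj.2 y m' m k3 k4 k1 k2
    · intro j _
      have : {y : ℝ | y ∈ Ico (R / 4) (3 * R / 4) ∧ ∃ m : ℤ,
          0 ≤ y - (2 * (j : ℕ) + 1) / H * x - m * (1 / H ^ 2) ∧
          y - (2 * (j : ℕ) + 1) / H * x - m * (1 / H ^ 2) < 1 / H ^ 3}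
          = Ico (R / 4) (3 * R / 4) ∩ ⋃ m : ℤ,
          ({y : ℝ | 0 ≤ y - (2 * (j : ℕ) + 1) / H * x - m * (1 / H ^ 2)} ∩
          {y : ℝ | y - (2 * (j : ℕ) + 1) / H * x - m * (1 / H ^ 2) < 1 / H ^ 3}) := by
        ext y; simp
      rw [this]
      exact measurableSet_Ico.inter (MeasurableSet.iUnion fun m =>
        (measurableSet_le measurable_const (by fun_prop)).inter
          (measurableSet_lt (by fun_prop) measurable_const))
  have h := le_slice (meas_TB M H (R / 4) (3 * R / 4)) (meas_goodx M H (R / 4) (3 * R / 4)) hslice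
  refine le_trans ?_ h
  refine le_trans ?_ (mul_le_mul' (vol_goodx hH hM hR) le_rfl)
  rw [← ENNReal.ofReal_mul (by linarith)]
  apply ENNReal.ofReal_le_ofReal
  apply le_of_eq; ring

end Pool.Agent.Helper593.Lac
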