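import Mathlib

set_option linter.unusedSectionVars false

namespace Helper593.OneCross

open Finset

/-- weight of a pair with `|A| = r`, `|B| ≤ b` -/
noncomputable def w (b r : ℕ) : ℝ := 1 / (Nat.choose (b + r) b : ℝ)

lemma choose_pos' (b r : ℕ) : (0 : ℝ) < (Nat.choose (b + r) b : ℝ) := by
  exact_mod_cast Nat.choose_pos (Nat.le_add_right b r)

lemma w_pos (b r : ℕ) : 0 < w b r := by
  unfold w
  have := choose_pos' b r
  positivity

lemma w_zero (b : ℕ) : w b 0 = 1 := by simp [w]

lemma w_one (b : ℕ) : w b 1 = 1 / ((b : ℝ) + 1) := by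
  unfold w
  rw [Nat.choose_succ_self_right]
  push_cast
  rfl

/-- `(r+1) * w b r = (b + r + 1) * w b (r+1)` -/
lemma w_succ (b r : ℕ) : ((r : ℝ) + 1) * w b r = ((b : ℝ) + (r + 1)) * w b (r + 1) := by
  unfold w
  have h : (b + r + 1) * Nat.choose (b + r) b = Nat.choose (b + r + 1) b * (r + 1) := by
    have := Nat.add_one_mul_choose_eq (b + r) r
    have e1 : Nat.choose (b + r) r = Nat.choose (b + r) b := Nat.choose_symm_of_eq_add (by omega)
    have e2 : Nat.choose (b + r + 1) (r + 1) = Nat.choose (b + r + 1) b :=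
      Nat.choose_symm_of_eq_add (by omega)
    rw [e1, e2] at this
    exact this
  have h' : ((b : ℝ) + r + 1) * (Nat.choose (b + r) b : ℝ)
      = (Nat.choose (b + r + 1) b : ℝ) * ((r : ℝ) + 1) := by exact_mod_cast h
  have p1 := choose_pos' b r
  have p2 := choose_pos' b (r + 1)
  have e3 : b + (r + 1) = b + r + 1 := by omega
  rw [e3] at p2 ⊢
  field_simp
  linarith

variable {α ι : Type*} [DecidableEq α] [DecidableEq ι]

structure Sys (K : Finset ι) (A B : ι → Finset α) (X : Finset α) (b : ℕ) : Prop where
  sub : ∀ k ∈ K, A k ⊆ X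
  disj : ∀ k ∈ K, Disjoint (A k) (B k)
  one : ∀ k ∈ K, ∀ l ∈ K, k ≠ l → (A k ∩ B l).card = 1
  cardB : ∀ k ∈ K, (B k).card ≤ b

lemma Sys.derive {K : Finset ι} {A B : ι → Finset α} {X : Finset α} {b : ℕ}
    (h : Sys K A B X b) (z : α) :
    Sys (K.filter (fun k => z ∉ B k)) (fun k => (A k).erase z) B (X.erase z) b where
  sub := by
    intro k hk
    rw [mem_filter] at hk
    exact erase_subset_erase z (h.sub k hk.1)
  disj := by
    intro k hk
    rw [mem_filter] at hk
    exact (h.disj k hk.1).mono_left (erase_subset _ _)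
  one := by
    intro k hk l hl hkl
    rw [mem_filter] at hk hl
    have : (A k).erase z ∩ B l = A k ∩ B l := by
      ext x
      simp only [mem_inter, mem_erase]
      constructor
      · rintro ⟨⟨_, h1⟩, h2⟩; exact ⟨h1, h2⟩
      · rintro ⟨h1, h2⟩
        refine ⟨⟨?_, h1⟩, h2⟩
        rintro rfl
        exact hl.2 h2
    rw [this]
    exact h.one k hk.1 l hl.1 hkl
  cardB := by
    intro k hk
    rw [mem_filter] at hk
    exact h.cardB k hk.1

noncomputable def M (K : Finset ι) (A : ι → Finset α) (b : ℕ) : ℝ := ∑ k ∈ K, w b (A k).card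

/-- averaging -/
lemma averaging {K : Finset ι} {A B : ι → Finset α} {X : Finset α} {b : ℕ}
    (h : Sys K A B X b) (h1 : ∀ k ∈ K, 1 ≤ (A k).card) :
    (X.card : ℝ) * M K A b ≤
      ∑ z ∈ X, M (K.filter (fun k => z ∉ B k)) (fun k => (A k).erase z) b := by
  unfold M
  have swap : ∑ z ∈ X, ∑ k ∈ K.filter (fun k => z ∉ B k), w b ((A k).erase z).card
      = ∑ k ∈ K, ∑ z ∈ X.filter (fun z => z ∉ B k), w b ((A k).erase z).card := by
    rw [Finset.sum_congr rfl (fun z _ => Finset.sum_filter _ _)]
    rw [Finset.sum_comm]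
    refine Finset.sum_congr rfl (fun k _ => ?_)
    rw [Finset.sum_filter]
  rw [swap, Finset.mul_sum]
  refine Finset.sum_le_sum (fun k hk => ?_)
  have hA := h.sub k hk
  have hd := h.disj k hk
  have hb := h.cardB k hk
  have hr := h1 k hk
  obtain ⟨r, hr'⟩ : ∃ r, (A k).card = r + 1 := ⟨(A k).card - 1, by omega⟩
  have hsplit : X.filter (fun z => z ∉ B k) = A k ∪ (X.filter (fun z => z ∉ B k)) \ A k := by
    ext x
    simp only [mem_filter, mem_union, mem_sdiff]
    constructor
    · rintro ⟨h1, h2⟩
      by_cases hx : x ∈ A k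
      · exact Or.inl hx
      · exact Or.inr ⟨⟨h1, h2⟩, hx⟩
    · rintro (hx | hx)
      · exact ⟨hA hx, fun hxB => (Finset.disjoint_left.mp hd) hx hxB⟩
      · exact hx.1
  rw [hsplit, Finset.sum_union (Finset.disjoint_sdiff)]
  have s1 : ∑ z ∈ A k, w b ((A k).erase z).card = ((r : ℝ) + 1) * w b r := by
    rw [Finset.sum_congr rfl (fun z hz => by rw [Finset.card_erase_of_mem hz, hr', Nat.add_sub_cancel])]
    rw [Finset.sum_const, hr', nsmul_eq_mul]
    push_cast
    rfl
  have s2 : ∑ z ∈ (X.filter (fun z => z ∉ B k)) \ A k, w b ((A k).erase z).card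
      = (((X.filter (fun z => z ∉ B k)) \ A k).card : ℝ) * w b (r + 1) := by
    rw [Finset.sum_congr rfl (fun z hz => by
      rw [Finset.erase_eq_of_notMem (by simp only [mem_sdiff] at hz; exact hz.2), hr'])]
    rw [Finset.sum_const, nsmul_eq_mul]
  rw [s1, s2, hr']
  have hc : X.card ≤ ((X.filter (fun z => z ∉ B k)) \ A k).card + (r + 1) + b := by
    have hsub : X ⊆ ((X.filter (fun z => z ∉ B k)) \ A k) ∪ A k ∪ B k := by
      intro x hx
      simp only [mem_union, mem_sdiff, mem_filter]
      by_cases h3 : x ∈ B k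
      · exact Or.inr h3
      · by_cases h4 : x ∈ A k
        · exact Or.inl (Or.inr h4)
        · exact Or.inl (Or.inl ⟨⟨hx, h3⟩, h4⟩)
    calc X.card ≤ _ := card_le_card hsub
      _ ≤ _ := card_union_le _ _
      _ ≤ _ := by
        have := card_union_le ((X.filter (fun z => z ∉ B k)) \ A k) (A k)
        omega
  have hcR : (X.card : ℝ) ≤ (((X.filter (fun z => z ∉ B k)) \ A k).card : ℝ) + (r + 1) + b := by
    exact_mod_cast hc
  rw [w_succ]
  have wp := w_pos b (r + 1)
  nlinarith

/-- Bollobás -/
lemma bollobas (N : ℕ) : ∀ {K : Finset ι} {A B : ι → Finset α} {X : Finset α} {b : ℕ},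
    X.card = N → Sys K A B X b → M K A b ≤ 1 := by
  induction N with
  | zero =>
    intro K A B X b hX h
    have hXe : X = ∅ := Finset.card_eq_zero.mp hX
    have hA : ∀ k ∈ K, A k = ∅ := fun k hk => Finset.subset_empty.mp (hXe ▸ h.sub k hk)
    have hK : K.card ≤ 1 := by
      rw [Finset.card_le_one]
      intro k hk l hl
      by_contra hkl
      have := h.one k hk l hl hkl
      rw [hA k hk] at this
      simp at this
    unfold M
    calc ∑ k ∈ K, w b (A k).card = ∑ k ∈ K, (1 : ℝ) := by
          refine Finset.sum_congr rfl (fun k hk => ?_)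
          rw [hA k hk, card_empty, w_zero]
      _ = (K.card : ℝ) := by simp
      _ ≤ 1 := by exact_mod_cast hK
  | succ N ih =>
    intro K A B X b hX h
    by_cases h0 : ∃ k0 ∈ K, A k0 = ∅
    · obtain ⟨k0, hk0, hA0⟩ := h0
      have hK : K = {k0} := by
        ext l
        simp only [mem_singleton]
        constructor
        · intro hl
          by_contra hne
          have := h.one k0 hk0 l hl (fun e => hne e.symm)
          rw [hA0] at this
          simp at this
        · rintro rfl; exact hk0
      unfold M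
      rw [hK, Finset.sum_singleton, hA0, card_empty, w_zero]
    · push Not at h0
      have h1 : ∀ k ∈ K, 1 ≤ (A k).card := fun k hk =>
        Finset.card_pos.mpr (h0 k hk)
      have hav := averaging h h1
      have hle : ∑ z ∈ X, M (K.filter (fun k => z ∉ B k)) (fun k => (A k).erase z) b
          ≤ ∑ z ∈ X, (1 : ℝ) := by
        refine Finset.sum_le_sum (fun z hz => ?_)
        exact ih (by rw [Finset.card_erase_of_mem hz, hX]; rfl) (h.derive z)
      rw [Finset.sum_const, nsmul_eq_mul, mul_one] at hle
      have hXp : (0 : ℝ) < (X.card : ℝ) := by rw [hX]; positivity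
      have := hav.trans hle
      by_contra hc
      push Not at hc
      nlinarith

/-- linear bound: at most as many 2-element sets as points -/
lemma linear_bound {E : Finset ι} {A B : ι → Finset α} {X : Finset α} {b : ℕ}
    (h : Sys E A B X b) (hne : ∀ k ∈ E, (A k).Nonempty) :
    E.card ≤ (E.biUnion A).card := by
  classical
  rcases Nat.lt_or_ge 1 E.card with hE | hE
  · set V := E.biUnion A with hV
    let v : E → (V → ℝ) := fun k z => if (z : α) ∈ A k then 1 else 0
    have hli : LinearIndependent ℝ v := by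
      rw [Fintype.linearIndependent_iff]
      intro c hc
      have key : ∀ l : E, ∑ k : E, c k - c l = 0 := by
        intro l
        have h1 : ∑ z : V, (if (z : α) ∈ B l then (∑ k : E, c k • v k) z else 0) = 0 := by
          rw [hc]
          simp
        have h2 : ∑ z : V, (if (z : α) ∈ B l then (∑ k : E, c k • v k) z else 0)
            = ∑ k : E, c k * ((A k ∩ B l).card : ℝ) := by
          have e1 : ∀ z : V, (if (z : α) ∈ B l then (∑ k : E, c k • v k) z else 0)
              = ∑ k : E, c k * (if ((z : α) ∈ A k ∧ (z : α) ∈ B l) then 1 else 0) := by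
            intro z
            by_cases hz : (z : α) ∈ B l
            · simp [hz, v, Finset.sum_apply]
            · simp [hz]
          rw [Finset.sum_congr rfl (fun z _ => e1 z), Finset.sum_comm]
          refine Finset.sum_congr rfl (fun k _ => ?_)
          rw [← Finset.mul_sum]
          congr 1
          rw [Finset.sum_coe_sort V (fun z => if (z ∈ A k ∧ z ∈ B l) then (1 : ℝ) else 0)]
          rw [← Finset.sum_filter, Finset.sum_const, nsmul_eq_mul, mul_one]
          congr 2
          ext x
          simp only [mem_filter, mem_inter]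
          constructor
          · rintro ⟨_, h3⟩; exact h3
          · intro h3
            refine ⟨?_, h3⟩
            rw [hV, mem_biUnion]
            exact ⟨k, k.2, h3.1⟩
        rw [h2] at h1
        have h3 : ∀ k : E, c k * ((A k ∩ B l).card : ℝ) = c k - (if k = l then c k else 0) := by
          intro k
          by_cases hkl : k = l
          · subst hkl
            have : A k ∩ B k = ∅ := Finset.disjoint_iff_inter_eq_empty.mp (h.disj k k.2)
            simp [this]
          · have : (A k ∩ B l).card = 1 :=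
              h.one k k.2 l l.2 (fun e => hkl (Subtype.ext e))
            simp [this, hkl]
        rw [Finset.sum_congr rfl (fun k _ => h3 k), Finset.sum_sub_distrib] at h1
        simpa using h1
      have hs : ∑ k : E, c k = 0 := by
        have h4 : ∑ l : E, (∑ k : E, c k - c l) = 0 := by
          rw [Finset.sum_congr rfl (fun l _ => key l)]; simp
        rw [Finset.sum_sub_distrib, Finset.sum_const, nsmul_eq_mul] at h4
        have h5 : ((Finset.univ : Finset E).card : ℝ) = (E.card : ℝ) := by simp
        rw [h5] at h4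
        have h6 : (1 : ℝ) < (E.card : ℝ) := by exact_mod_cast hE
        have h7 : ((E.card : ℝ) - 1) * ∑ k : E, c k = 0 := by linarith
        rcases mul_eq_zero.mp h7 with h8 | h8
        · linarith
        · exact h8
      intro l
      have := key l
      linarith
    have := hli.fintype_card_le_finrank
    simpa using this
  · rcases Nat.eq_zero_or_pos E.card with h0 | h0
    · omega
    · obtain ⟨k, hk⟩ := Finset.card_pos.mp h0
      obtain ⟨x, hx⟩ := hne k hk
      have : 0 < (E.biUnion A).card := Finset.card_pos.mpr ⟨x, mem_biUnion.mpr ⟨k, hk, hx⟩⟩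
      omega

lemma w_succ_left (b r : ℕ) : ((b : ℝ) + 1 + r) * w (b + 1) r = ((b : ℝ) + 1) * w b r := by
  unfold w
  have h := Nat.add_one_mul_choose_eq (b + r) b
  have e3 : b + 1 + r = b + r + 1 := by omega
  rw [e3]
  have h' : ((b : ℝ) + r + 1) * (Nat.choose (b + r) b : ℝ)
      = (Nat.choose (b + r + 1) (b + 1) : ℝ) * ((b : ℝ) + 1) := by exact_mod_cast h
  have p1 := choose_pos' b r
  have p2 : (0 : ℝ) < (Nat.choose (b + r + 1) (b + 1) : ℝ) := by
    exact_mod_cast Nat.choose_pos (by omega)
  field_simp
  linarith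

lemma w_shrink (s r q : ℕ) (hr : 2 ≤ r) :
    w (s + q) r ≤ (((s : ℝ) + 2) * (s + 1) / (((s : ℝ) + q + 2) * (s + q + 1))) * w s r := by
  induction q with
  | zero =>
    have h : ((s : ℝ) + 2) * (s + 1) / (((s : ℝ) + (0 : ℕ) + 2) * (s + (0 : ℕ) + 1)) = 1 := by
      have : (0 : ℝ) < ((s : ℝ) + 2) * (s + 1) := by positivity
      push_cast
      rw [add_zero]
      exact div_self this.ne'
    rw [h, one_mul, add_zero]
  | succ q ih =>
    have h1 := w_succ_left (s + q) r
    have hw := w_pos (s + q) r
    have hw' := w_pos (s + q + 1) r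
    have hr' : (2 : ℝ) ≤ (r : ℝ) := by exact_mod_cast hr
    push_cast at h1
    have h2 : w (s + q + 1) r ≤ (((s : ℝ) + q + 1) / ((s : ℝ) + q + 3)) * w (s + q) r := by
      rw [div_mul_eq_mul_div, le_div_iff₀ (by positivity)]
      nlinarith
    have h3 : (((s : ℝ) + q + 1) / ((s : ℝ) + q + 3)) * w (s + q) r ≤
        (((s : ℝ) + q + 1) / ((s : ℝ) + q + 3)) *
        ((((s : ℝ) + 2) * (s + 1) / (((s : ℝ) + q + 2) * (s + q + 1))) * w s r) :=
      mul_le_mul_of_nonneg_left ih (by positivity)
    have e : s + (q + 1) = s + q + 1 := by omega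
    rw [e]
    refine (h2.trans h3).trans (le_of_eq ?_)
    push_cast
    field_simp
    ring

lemma numeric1 (b q s : ℝ) (hs : 2 ≤ s) (hq : 1 ≤ q) (hb : b = s + q) :
    q * (1 / (b + 1)) + ((s + 2) * (s + 1) / ((s + q + 2) * (s + q + 1))) * (11 / 12)
      ≤ 11 / 12 + (q - 2) * (1 / (12 * (b - 1))) := by
  subst hb
  have h1 : (0 : ℝ) < s + q - 1 := by linarith
  have h2 : (0 : ℝ) < s + q + 1 := by linarith
  have h3 : (0 : ℝ) < s + q + 2 := by linarith
  have key : 11 / 12 + (q - 2) * (1 / (12 * (s + q - 1))) -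
      (q * (1 / (s + q + 1)) + ((s + 2) * (s + 1) / ((s + q + 2) * (s + q + 1))) * (11 / 12))
      = (s + 1) * (12 * (s + q - 1) * (s + q + 2) - 11 * (s + q - 1) * (s + 2)
          - (s + q + 1) * (s + q + 2)) / (12 * (s + q - 1) * (s + q + 1) * (s + q + 2)) := by
    field_simp
    ring
  have hn : 0 ≤ (s + 1) * (12 * (s + q - 1) * (s + q + 2) - 11 * (s + q - 1) * (s + 2)
          - (s + q + 1) * (s + q + 2)) / (12 * (s + q - 1) * (s + q + 1) * (s + q + 2)) := by
    apply div_nonneg
    · apply mul_nonneg (by linarith)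
      nlinarith [mul_nonneg h1.le (sub_nonneg.mpr hq), mul_nonneg h1.le (by linarith : (0:ℝ) ≤ s - 2)]
    · positivity
  linarith

lemma numeric2 (b q s : ℝ) (hs : s = 0 ∨ s = 1) (hq : 1 ≤ q) (hb2 : 2 ≤ b) (hb : b = s + q) :
    q * (1 / (b + 1)) + ((s + 2) * (s + 1) / ((s + q + 2) * (s + q + 1))) * 1
      ≤ 11 / 12 + (q - 2) * (1 / (12 * (b - 1))) := by
  subst hb
  have h1 : (0 : ℝ) < s + q - 1 := by linarith
  have h2 : (0 : ℝ) < s + q + 1 := by linarith
  have h3 : (0 : ℝ) < s + q + 2 := by linarith
  have key : 11 / 12 + (q - 2) * (1 / (12 * (s + q - 1))) -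
      (q * (1 / (s + q + 1)) + ((s + 2) * (s + 1) / ((s + q + 2) * (s + q + 1))) * 1)
      = (s + 1) * (12 * (s + q - 1) * (s + q + 2) - 12 * (s + q - 1) * (s + 2)
          - (s + q + 1) * (s + q + 2)) / (12 * (s + q - 1) * (s + q + 1) * (s + q + 2)) := by
    field_simp
    ring
  have hn : 0 ≤ (s + 1) * (12 * (s + q - 1) * (s + q + 2) - 12 * (s + q - 1) * (s + 2)
          - (s + q + 1) * (s + q + 2)) / (12 * (s + q - 1) * (s + q + 1) * (s + q + 2)) := by
    apply div_nonneg
    · rcases hs with rfl | rfl
      · nlinarith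
      · nlinarith
    · positivity
  linarith

lemma Sys.mono {K K' : Finset ι} {A B : ι → Finset α} {X : Finset α} {b : ℕ}
    (h : Sys K A B X b) (hK : K' ⊆ K) : Sys K' A B X b where
  sub := fun k hk => h.sub k (hK hk)
  disj := fun k hk => h.disj k (hK hk)
  one := fun k hk l hl => h.one k (hK hk) l (hK hl)
  cardB := fun k hk => h.cardB k (hK hk)

lemma step_bound {K : Finset ι} {A B : ι → Finset α} {X : Finset α} {b : ℕ} {z : α}
    (h : Sys K A B X b) (hb : 2 ≤ b) (h2 : ∀ k ∈ K, 2 ≤ (A k).card)
    (IH : ∀ {K' : Finset ι} {A' B' : ι → Finset α} {b' : ℕ}, 2 ≤ b' →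
      Sys K' A' B' (X.erase z) b' → (∀ k ∈ K', 2 ≤ (A' k).card) → M K' A' b' ≤ 11 / 12) :
    M (K.filter (fun k => z ∉ B k)) (fun k => (A k).erase z) b ≤
      11 / 12 + (if ((K.filter (fun k => (A k).card = 2)).filter (fun k => z ∈ A k)).card = 0
        then 0
        else ((((K.filter (fun k => (A k).card = 2)).filter (fun k => z ∈ A k)).card : ℝ) - 2)
          * (1 / (12 * ((b : ℝ) - 1)))) := by
  classical
  set q := ((K.filter (fun k => (A k).card = 2)).filter (fun k => z ∈ A k)).card with hq
  set K' := K.filter (fun k => z ∉ B k) with hK'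
  have h' := h.derive z
  rw [← hK'] at h'
  set A' : ι → Finset α := fun k => (A k).erase z with hA'
  have hA1 : ∀ k ∈ K', 1 ≤ (A' k).card := by
    intro k hk
    have h3 := h2 k (mem_filter.mp hk).1
    have h4 : (A k).card - 1 ≤ ((A k).erase z).card := Finset.pred_card_le_card_erase
    simp only [hA']
    omega
  set I := K'.filter (fun k => (A' k).card = 1) with hI
  set O := K'.filter (fun k => ¬ (A' k).card = 1) with hO
  have hIeq : I = (K.filter (fun k => (A k).card = 2)).filter (fun k => z ∈ A k) := by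
    ext k
    simp only [hI, hK', hA', mem_filter]
    constructor
    · rintro ⟨⟨hk, hzB⟩, hc⟩
      by_cases hz : z ∈ A k
      · rw [Finset.card_erase_of_mem hz] at hc
        have := h2 k hk
        exact ⟨⟨hk, by omega⟩, hz⟩
      · rw [Finset.erase_eq_of_notMem hz] at hc
        have := h2 k hk
        omega
    · rintro ⟨⟨hk, hc⟩, hz⟩
      refine ⟨⟨hk, ?_⟩, ?_⟩
      · exact Finset.disjoint_left.mp (h.disj k hk) hz
      · rw [Finset.card_erase_of_mem hz, hc]
  have hIq : I.card = q := by rw [hIeq]
  have hO2 : ∀ k ∈ O, 2 ≤ (A' k).card := by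
    intro k hk
    have h3 := mem_filter.mp hk
    have h4 := hA1 k h3.1
    have h5 := h3.2
    omega
  have hsplit : M K' A' b = ∑ k ∈ I, w b (A' k).card + ∑ k ∈ O, w b (A' k).card := by
    unfold M
    rw [hI, hO, Finset.sum_filter_add_sum_filter_not]
  have hIsum : ∑ k ∈ I, w b (A' k).card = (q : ℝ) * (1 / ((b : ℝ) + 1)) := by
    rw [Finset.sum_congr rfl (fun k hk => by rw [(mem_filter.mp hk).2, w_one])]
    rw [Finset.sum_const, nsmul_eq_mul, hIq]
  have hOsys : Sys O A' B (X.erase z) b := h'.mono (filter_subset _ _)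
  by_cases hq0 : q = 0
  · rw [if_pos hq0, add_zero, hsplit, hIsum, hq0]
    have := IH hb hOsys hO2
    unfold M at this
    simpa using this
  · rw [if_neg hq0]
    have hq1 : 1 ≤ q := Nat.one_le_iff_ne_zero.mpr hq0
    have hq1R : (1 : ℝ) ≤ (q : ℝ) := by exact_mod_cast hq1
    have hbR : (2 : ℝ) ≤ (b : ℝ) := by exact_mod_cast hb
    by_cases hqb : q ≤ b
    · -- main case
      set U := I.biUnion A' with hU
      have hIK : I ⊆ K' := filter_subset _ _
      have hOK : O ⊆ K' := filter_subset _ _
      have hsing : ∀ i ∈ I, ∀ k ∈ K', i ≠ k → A' i ⊆ B k := by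
        intro i hi k hk hik
        have h3 := h'.one i (hIK hi) k hk hik
        have h4 : (A' i).card = 1 := (mem_filter.mp hi).2
        have h5 : A' i ∩ B k = A' i :=
          Finset.eq_of_subset_of_card_le (inter_subset_left) (by rw [h3, h4])
        exact Finset.inter_eq_left.mp h5
      have hUcard : U.card = q := by
        rw [hU, Finset.card_biUnion]
        · rw [Finset.sum_congr rfl (fun k hk => (mem_filter.mp hk).2)]
          rw [Finset.sum_const, smul_eq_mul, mul_one]
          exact hIq
        · intro i hi j hj hij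
          have h3 := hsing i hi j (hIK hj) hij
          exact ((h'.disj j (hIK hj)).mono_right h3).symm
      have hUB : ∀ k ∈ O, U ⊆ B k := by
        intro k hk
        rw [hU, Finset.biUnion_subset]
        intro i hi
        refine hsing i hi k (hOK hk) ?_
        rintro rfl
        exact (mem_filter.mp hk).2 (mem_filter.mp hi).2
      obtain ⟨s, hs⟩ : ∃ s, b = s + q := ⟨b - q, by omega⟩
      have hsys2 : Sys O A' (fun k => B k \ U) (X.erase z) s := by
        refine ⟨hOsys.sub, ?_, ?_, ?_⟩
        · intro k hk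
          exact (hOsys.disj k hk).mono_right sdiff_subset
        · intro k hk l hl hkl
          have h3 : A' k ∩ (B l \ U) = A' k ∩ B l := by
            ext x
            simp only [mem_inter, mem_sdiff]
            constructor
            · rintro ⟨h4, h5, _⟩; exact ⟨h4, h5⟩
            · rintro ⟨h4, h5⟩
              refine ⟨h4, h5, ?_⟩
              intro h6
              exact Finset.disjoint_left.mp (hOsys.disj k hk) h4 (hUB k hk h6)
          rw [h3]
          exact hOsys.one k hk l hl hkl
        · intro k hk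
          have h3 := hOsys.cardB k hk
          have h4 := Finset.card_sdiff_add_card_eq_card (hUB k hk)
          omega
      have hOle : ∑ k ∈ O, w b (A' k).card ≤
          (((s : ℝ) + 2) * (s + 1) / (((s : ℝ) + q + 2) * (s + q + 1))) * M O A' s := by
        unfold M
        rw [Finset.mul_sum]
        refine Finset.sum_le_sum (fun k hk => ?_)
        rw [hs]
        exact w_shrink s _ q (hO2 k hk)
      have hf : (0 : ℝ) ≤ (((s : ℝ) + 2) * (s + 1) / (((s : ℝ) + q + 2) * (s + q + 1))) := by
        positivity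
      have hbs : (b : ℝ) = (s : ℝ) + q := by rw [hs]; push_cast; ring
      rw [hsplit, hIsum]
      by_cases hs2 : 2 ≤ s
      · have hM := IH hs2 hsys2 hO2
        have h5 := mul_le_mul_of_nonneg_left hM hf
        have h6 := numeric1 (b : ℝ) q s (by exact_mod_cast hs2) hq1R hbs
        linarith
      · have hM : M O A' s ≤ 1 := bollobas _ rfl hsys2
        have h5 := mul_le_mul_of_nonneg_left hM hf
        have hs01 : (s : ℝ) = 0 ∨ (s : ℝ) = 1 := by
          have : s = 0 ∨ s = 1 := by omega
          rcases this with h | h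
          · left; exact_mod_cast h
          · right; exact_mod_cast h
        have h6 := numeric2 (b : ℝ) q s hs01 hq1R hbR hbs
        linarith
    · have hM : M K' A' b ≤ 1 := bollobas _ rfl h'
      have hqb' : (b : ℝ) + 1 ≤ (q : ℝ) := by
        have : b + 1 ≤ q := by omega
        exact_mod_cast this
      have h5 : (0 : ℝ) < 12 * ((b : ℝ) - 1) := by linarith
      have h6 : ((b : ℝ) - 1) * (1 / (12 * ((b : ℝ) - 1))) = 1 / 12 := by
        have : (b : ℝ) - 1 ≠ 0 := by linarith
        field_simp
      have h7 : ((b : ℝ) - 1) * (1 / (12 * ((b : ℝ) - 1))) ≤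
          ((q : ℝ) - 2) * (1 / (12 * ((b : ℝ) - 1))) :=
        mul_le_mul_of_nonneg_right (by linarith) (by positivity)
      linarith

theorem main (N : ℕ) : ∀ {K : Finset ι} {A B : ι → Finset α} {X : Finset α} {b : ℕ},
    X.card = N → 2 ≤ b → Sys K A B X b → (∀ k ∈ K, 2 ≤ (A k).card) → M K A b ≤ 11 / 12 := by
  induction N with
  | zero =>
    intro K A B X b hX hb h h2
    have hXe : X = ∅ := Finset.card_eq_zero.mp hX
    have hK : K = ∅ := by
      rw [Finset.eq_empty_iff_forall_notMem]
      intro k hk
      have h3 := h.sub k hk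
      rw [hXe] at h3
      have h4 := Finset.subset_empty.mp h3
      have h5 := h2 k hk
      rw [h4] at h5
      simp at h5
    rw [hK]
    unfold M
    norm_num
  | succ N ih =>
    intro K A B X b hX hb h h2
    set E := K.filter (fun k => (A k).card = 2) with hE
    have hEK : E ⊆ K := filter_subset _ _
    have h1 : ∀ k ∈ K, 1 ≤ (A k).card := fun k hk => le_trans (by norm_num) (h2 k hk)
    have hav := averaging h h1
    set κ : ℝ := 1 / (12 * ((b : ℝ) - 1)) with hκ
    have hbR : (2 : ℝ) ≤ (b : ℝ) := by exact_mod_cast hb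
    have hκ0 : 0 ≤ κ := by
      have : (0 : ℝ) < (b : ℝ) - 1 := by linarith
      rw [hκ]; positivity
    have hsum : ∑ z ∈ X, M (K.filter (fun k => z ∉ B k)) (fun k => (A k).erase z) b
        ≤ ∑ z ∈ X, (11 / 12 + (if (E.filter (fun k => z ∈ A k)).card = 0 then 0
            else (((E.filter (fun k => z ∈ A k)).card : ℝ) - 2) * κ)) := by
      refine Finset.sum_le_sum (fun z hz => ?_)
      refine step_bound h hb h2 ?_
      intro K' A' B' b' hb' hs hc
      exact ih (by rw [Finset.card_erase_of_mem hz, hX]; rfl) hb' hs hc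
    set V := E.biUnion A with hV
    have hVX : V ⊆ X := by
      rw [hV, Finset.biUnion_subset]
      intro k hk
      exact h.sub k (hEK hk)
    have hVmem : ∀ z ∈ X, (z ∈ V ↔ (E.filter (fun k => z ∈ A k)).card ≠ 0) := by
      intro z _
      rw [hV, mem_biUnion, Finset.card_ne_zero]
      constructor
      · rintro ⟨k, hk, hz⟩
        exact ⟨k, mem_filter.mpr ⟨hk, hz⟩⟩
      · rintro ⟨k, hk⟩
        exact ⟨k, (mem_filter.mp hk).1, (mem_filter.mp hk).2⟩
    have hsum2 : ∑ z ∈ X, (11 / 12 + (if (E.filter (fun k => z ∈ A k)).card = 0 then 0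
            else (((E.filter (fun k => z ∈ A k)).card : ℝ) - 2) * κ))
        = (X.card : ℝ) * (11 / 12) + (∑ z ∈ V, ((E.filter (fun k => z ∈ A k)).card : ℝ)
            - 2 * (V.card : ℝ)) * κ := by
      rw [Finset.sum_add_distrib, Finset.sum_const, nsmul_eq_mul]
      congr 1
      have e1 : ∑ z ∈ X, (if (E.filter (fun k => z ∈ A k)).card = 0 then (0 : ℝ)
            else (((E.filter (fun k => z ∈ A k)).card : ℝ) - 2) * κ)
          = ∑ z ∈ X, (if z ∈ V then (((E.filter (fun k => z ∈ A k)).card : ℝ) - 2) * κ else 0) := by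
        refine Finset.sum_congr rfl (fun z hz => ?_)
        by_cases hzV : z ∈ V
        · rw [if_pos hzV, if_neg ((hVmem z hz).mp hzV)]
        · rw [if_neg hzV, if_pos (by
            by_contra hc
            exact hzV ((hVmem z hz).mpr hc))]
      rw [e1, ← Finset.sum_filter]
      have e2 : X.filter (fun z => z ∈ V) = V := by
        ext z
        simp only [mem_filter]
        exact ⟨fun h => h.2, fun h => ⟨hVX h, h⟩⟩
      rw [e2, ← Finset.sum_mul, Finset.sum_sub_distrib, Finset.sum_const, nsmul_eq_mul]
      ring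
    have hcount : ∑ z ∈ V, (E.filter (fun k => z ∈ A k)).card = 2 * E.card := by
      have e3 : ∑ z ∈ V, (E.filter (fun k => z ∈ A k)).card
          = ∑ k ∈ E, (V.filter (fun z => z ∈ A k)).card := by
        simp only [Finset.card_filter]
        exact Finset.sum_comm
      rw [e3]
      have e4 : ∀ k ∈ E, (V.filter (fun z => z ∈ A k)).card = 2 := by
        intro k hk
        have e5 : V.filter (fun z => z ∈ A k) = A k := by
          ext z
          simp only [mem_filter]
          constructor
          · exact fun h => h.2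
          · intro hz
            exact ⟨by rw [hV, mem_biUnion]; exact ⟨k, hk, hz⟩, hz⟩
        rw [e5]
        exact (mem_filter.mp hk).2
      rw [Finset.sum_congr rfl e4, Finset.sum_const, smul_eq_mul, mul_comm]
    have hlin : E.card ≤ V.card := by
      refine linear_bound (h.mono hEK) (fun k hk => ?_)
      rw [← Finset.card_pos]
      have := (mem_filter.mp hk).2
      omega
    have hle0 : (∑ z ∈ V, ((E.filter (fun k => z ∈ A k)).card : ℝ) - 2 * (V.card : ℝ)) * κ ≤ 0 := by
      have h3 : ∑ z ∈ V, ((E.filter (fun k => z ∈ A k)).card : ℝ) = 2 * (E.card : ℝ) := by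
        exact_mod_cast hcount
      rw [h3]
      have h4 : (E.card : ℝ) ≤ (V.card : ℝ) := by exact_mod_cast hlin
      nlinarith
    have hfin : (X.card : ℝ) * M K A b ≤ (X.card : ℝ) * (11 / 12) := by
      rw [hsum2] at hsum
      linarith
    have hXp : (0 : ℝ) < (X.card : ℝ) := by rw [hX]; positivity
    exact le_of_mul_le_mul_left hfin hXp

end Helper593.OneCross
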