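import Mathlib
import Pool.Agent.Helper593.OneCross

set_option linter.unusedSectionVars false

namespace Helper593.OneCross

open Finset

variable {α ι : Type*} [DecidableEq α] [DecidableEq ι]

/-- the bound `(2b+7)/(3(b+2))` -/
noncomputable def phi (b : ℕ) : ℝ := (2 * (b : ℝ) + 7) / (3 * ((b : ℝ) + 2))

lemma phi_ge_one (b : ℕ) (hb : b ≤ 1) : 1 ≤ phi b := by
  unfold phi
  rw [le_div_iff₀ (by positivity)]
  have : (b : ℝ) ≤ 1 := by exact_mod_cast hb
  linarith

lemma numeric3 (b q s : ℝ) (hs : 0 ≤ s) (hq : 1 ≤ q) (hb : b = s + q) :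
    q * (1 / (b + 1)) + ((s + 2) * (s + 1) / ((s + q + 2) * (s + q + 1)))
        * ((2 * s + 7) / (3 * (s + 2)))
      ≤ (2 * b + 7) / (3 * (b + 2)) + (q - 2) * (1 / (3 * (b + 2))) := by
  subst hb
  have h2 : (0 : ℝ) < s + q + 1 := by linarith
  have h3 : (0 : ℝ) < s + q + 2 := by linarith
  have h4 : (0 : ℝ) < s + 2 := by linarith
  have key : (2 * (s + q) + 7) / (3 * (s + q + 2)) + (q - 2) * (1 / (3 * (s + q + 2))) -
      (q * (1 / (s + q + 1)) + ((s + 2) * (s + 1) / ((s + q + 2) * (s + q + 1)))
        * ((2 * s + 7) / (3 * (s + 2))))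
      = 2 * ((q - 1) * (s + 1)) / (3 * (s + q + 1) * (s + q + 2)) := by
    field_simp
    ring
  have hn : 0 ≤ 2 * ((q - 1) * (s + 1)) / (3 * (s + q + 1) * (s + q + 2)) := by
    apply div_nonneg
    · have := mul_nonneg (sub_nonneg.mpr hq) (by linarith : (0:ℝ) ≤ s + 1)
      linarith
    · positivity
  linarith

lemma step_bound' {K : Finset ι} {A B : ι → Finset α} {X : Finset α} {b : ℕ} {z : α}
    (h : Sys K A B X b) (hb : 2 ≤ b) (h2 : ∀ k ∈ K, 2 ≤ (A k).card)
    (IH : ∀ {K' : Finset ι} {A' B' : ι → Finset α} {b' : ℕ}, 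
      Sys K' A' B' (X.erase z) b' → (∀ k ∈ K', 2 ≤ (A' k).card) → M K' A' b' ≤ phi b') :
    M (K.filter (fun k => z ∉ B k)) (fun k => (A k).erase z) b ≤
      phi b + (if ((K.filter (fun k => (A k).card = 2)).filter (fun k => z ∈ A k)).card = 0
        then 0
        else ((((K.filter (fun k => (A k).card = 2)).filter (fun k => z ∈ A k)).card : ℝ) - 2)
          * (1 / (3 * ((b : ℝ) + 2)))) := by
  classical
  set q := ((K.filter (fun k => (A k).card = 2)).filter (fun k => z ∈ A k)).card with hq
  set K' := K.filter (fun k => z ∉ B k) with hK'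
  have h' := h.derive z
  rw [← hK'] at h'
  set A' : ι → Finset α := fun k => (A k).erase z with hA'
  have hA1 : ∀ k ∈ K', 1 ≤ (A' k).card := by
    intro k hk
    have h3 := h2 k (mem_filter.mp hk).1
    have h4 : (A k).card - 1 ≤ ((A k).erase z).card := Finset.pred_card_le_card_erase
    simp only [hA']
    omega
  set I := K'.filter (fun k => (A' k).card = 1) with hI
  set O := K'.filter (fun k => ¬ (A' k).card = 1) with hO
  have hIeq : I = (K.filter (fun k => (A k).card = 2)).filter (fun k => z ∈ A k) := by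
    ext k
    simp only [hI, hK', hA', mem_filter]
    constructor
    · rintro ⟨⟨hk, hzB⟩, hc⟩
      by_cases hz : z ∈ A k
      · rw [Finset.card_erase_of_mem hz] at hc
        have := h2 k hk
        exact ⟨⟨hk, by omega⟩, hz⟩
      · rw [Finset.erase_eq_of_notMem hz] at hc
        have := h2 k hk
        omega
    · rintro ⟨⟨hk, hc⟩, hz⟩
      refine ⟨⟨hk, ?_⟩, ?_⟩
      · exact Finset.disjoint_left.mp (h.disj k hk) hz
      · rw [Finset.card_erase_of_mem hz, hc]
  have hIq : I.card = q := by rw [hIeq]
  have hO2 : ∀ k ∈ O, 2 ≤ (A' k).card := by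
    intro k hk
    have h3 := mem_filter.mp hk
    have h4 := hA1 k h3.1
    have h5 := h3.2
    omega
  have hsplit : M K' A' b = ∑ k ∈ I, w b (A' k).card + ∑ k ∈ O, w b (A' k).card := by
    unfold M
    rw [hI, hO, Finset.sum_filter_add_sum_filter_not]
  have hIsum : ∑ k ∈ I, w b (A' k).card = (q : ℝ) * (1 / ((b : ℝ) + 1)) := by
    rw [Finset.sum_congr rfl (fun k hk => by rw [(mem_filter.mp hk).2, w_one])]
    rw [Finset.sum_const, nsmul_eq_mul, hIq]
  have hOsys : Sys O A' B (X.erase z) b := h'.mono (filter_subset _ _)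
  by_cases hq0 : q = 0
  · rw [if_pos hq0, add_zero, hsplit, hIsum, hq0]
    have := IH hOsys hO2
    unfold M at this
    simpa using this
  · rw [if_neg hq0]
    have hq1 : 1 ≤ q := Nat.one_le_iff_ne_zero.mpr hq0
    have hq1R : (1 : ℝ) ≤ (q : ℝ) := by exact_mod_cast hq1
    have hbR : (2 : ℝ) ≤ (b : ℝ) := by exact_mod_cast hb
    by_cases hqb : q ≤ b
    · -- main case
      set U := I.biUnion A' with hU
      have hIK : I ⊆ K' := filter_subset _ _
      have hOK : O ⊆ K' := filter_subset _ _
      have hsing : ∀ i ∈ I, ∀ k ∈ K', i ≠ k → A' i ⊆ B k := by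
        intro i hi k hk hik
        have h3 := h'.one i (hIK hi) k hk hik
        have h4 : (A' i).card = 1 := (mem_filter.mp hi).2
        have h5 : A' i ∩ B k = A' i :=
          Finset.eq_of_subset_of_card_le (inter_subset_left) (by rw [h3, h4])
        exact Finset.inter_eq_left.mp h5
      have hUcard : U.card = q := by
        rw [hU, Finset.card_biUnion]
        · rw [Finset.sum_congr rfl (fun k hk => (mem_filter.mp hk).2)]
          rw [Finset.sum_const, smul_eq_mul, mul_one]
          exact hIq
        · intro i hi j hj hij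
          have h3 := hsing i hi j (hIK hj) hij
          exact ((h'.disj j (hIK hj)).mono_right h3).symm
      have hUB : ∀ k ∈ O, U ⊆ B k := by
        intro k hk
        rw [hU, Finset.biUnion_subset]
        intro i hi
        refine hsing i hi k (hOK hk) ?_
        rintro rfl
        exact (mem_filter.mp hk).2 (mem_filter.mp hi).2
      obtain ⟨s, hs⟩ : ∃ s, b = s + q := ⟨b - q, by omega⟩
      have hsys2 : Sys O A' (fun k => B k \ U) (X.erase z) s := by
        refine ⟨hOsys.sub, ?_, ?_, ?_⟩
        · intro k hk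
          exact (hOsys.disj k hk).mono_right sdiff_subset
        · intro k hk l hl hkl
          have h3 : A' k ∩ (B l \ U) = A' k ∩ B l := by
            ext x
            simp only [mem_inter, mem_sdiff]
            constructor
            · rintro ⟨h4, h5, _⟩; exact ⟨h4, h5⟩
            · rintro ⟨h4, h5⟩
              refine ⟨h4, h5, ?_⟩
              intro h6
              exact Finset.disjoint_left.mp (hOsys.disj k hk) h4 (hUB k hk h6)
          rw [h3]
          exact hOsys.one k hk l hl hkl
        · intro k hk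
          have h3 := hOsys.cardB k hk
          have h4 := Finset.card_sdiff_add_card_eq_card (hUB k hk)
          omega
      have hOle : ∑ k ∈ O, w b (A' k).card ≤
          (((s : ℝ) + 2) * (s + 1) / (((s : ℝ) + q + 2) * (s + q + 1))) * M O A' s := by
        unfold M
        rw [Finset.mul_sum]
        refine Finset.sum_le_sum (fun k hk => ?_)
        rw [hs]
        exact w_shrink s _ q (hO2 k hk)
      have hf : (0 : ℝ) ≤ (((s : ℝ) + 2) * (s + 1) / (((s : ℝ) + q + 2) * (s + q + 1))) := by
        positivity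
      have hbs : (b : ℝ) = (s : ℝ) + q := by rw [hs]; push_cast; ring
      rw [hsplit, hIsum]
      have hM := IH hsys2 hO2
      have h5 := mul_le_mul_of_nonneg_left hM hf
      have h6 := numeric3 (b : ℝ) q s (Nat.cast_nonneg s) hq1R hbs
      unfold phi at h5 ⊢
      linarith
    · have hM : M K' A' b ≤ 1 := bollobas _ rfl h'
      have hqb' : (b : ℝ) + 1 ≤ (q : ℝ) := by
        have : b + 1 ≤ q := by omega
        exact_mod_cast this
      have h6 : phi b + ((b : ℝ) - 1) * (1 / (3 * ((b : ℝ) + 2))) = 1 := by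
        unfold phi
        have : (b : ℝ) + 2 ≠ 0 := by positivity
        field_simp
        ring
      have h7 : ((b : ℝ) - 1) * (1 / (3 * ((b : ℝ) + 2))) ≤
          ((q : ℝ) - 2) * (1 / (3 * ((b : ℝ) + 2))) :=
        mul_le_mul_of_nonneg_right (by linarith) (by positivity)
      linarith

theorem main' (N : ℕ) : ∀ {K : Finset ι} {A B : ι → Finset α} {X : Finset α} {b : ℕ},
    X.card = N → Sys K A B X b → (∀ k ∈ K, 2 ≤ (A k).card) → M K A b ≤ phi b := by
  induction N with
  | zero =>
    intro K A B X b hX h h2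
    have hXe : X = ∅ := Finset.card_eq_zero.mp hX
    have hK : K = ∅ := by
      rw [Finset.eq_empty_iff_forall_notMem]
      intro k hk
      have h3 := h.sub k hk
      rw [hXe] at h3
      have h4 := Finset.subset_empty.mp h3
      have h5 := h2 k hk
      rw [h4] at h5
      simp at h5
    rw [hK]
    unfold M phi
    rw [Finset.sum_empty]
    positivity
  | succ N ih =>
    intro K A B X b hX h h2
    by_cases hb : 2 ≤ b
    swap
    · exact (bollobas _ rfl h).trans (phi_ge_one b (by omega))
    set E := K.filter (fun k => (A k).card = 2) with hE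
    have hEK : E ⊆ K := filter_subset _ _
    have h1 : ∀ k ∈ K, 1 ≤ (A k).card := fun k hk => le_trans (by norm_num) (h2 k hk)
    have hav := averaging h h1
    set κ : ℝ := 1 / (3 * ((b : ℝ) + 2)) with hκ
    have hbR : (2 : ℝ) ≤ (b : ℝ) := by exact_mod_cast hb
    have hκ0 : 0 ≤ κ := by
      rw [hκ]; positivity
    have hsum : ∑ z ∈ X, M (K.filter (fun k => z ∉ B k)) (fun k => (A k).erase z) b
        ≤ ∑ z ∈ X, (phi b + (if (E.filter (fun k => z ∈ A k)).card = 0 then 0
            else (((E.filter (fun k => z ∈ A k)).card : ℝ) - 2) * κ)) := by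
      refine Finset.sum_le_sum (fun z hz => ?_)
      refine step_bound' h hb h2 ?_
      intro K' A' B' b' hs hc
      exact ih (by rw [Finset.card_erase_of_mem hz, hX]; rfl) hs hc
    set V := E.biUnion A with hV
    have hVX : V ⊆ X := by
      rw [hV, Finset.biUnion_subset]
      intro k hk
      exact h.sub k (hEK hk)
    have hVmem : ∀ z ∈ X, (z ∈ V ↔ (E.filter (fun k => z ∈ A k)).card ≠ 0) := by
      intro z _
      rw [hV, mem_biUnion, Finset.card_ne_zero]
      constructor
      · rintro ⟨k, hk, hz⟩
        exact ⟨k, mem_filter.mpr ⟨hk, hz⟩⟩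
      · rintro ⟨k, hk⟩
        exact ⟨k, (mem_filter.mp hk).1, (mem_filter.mp hk).2⟩
    have hsum2 : ∑ z ∈ X, (phi b + (if (E.filter (fun k => z ∈ A k)).card = 0 then 0
            else (((E.filter (fun k => z ∈ A k)).card : ℝ) - 2) * κ))
        = (X.card : ℝ) * phi b + (∑ z ∈ V, ((E.filter (fun k => z ∈ A k)).card : ℝ)
            - 2 * (V.card : ℝ)) * κ := by
      rw [Finset.sum_add_distrib, Finset.sum_const, nsmul_eq_mul]
      congr 1
      have e1 : ∑ z ∈ X, (if (E.filter (fun k => z ∈ A k)).card = 0 then (0 : ℝ)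
            else (((E.filter (fun k => z ∈ A k)).card : ℝ) - 2) * κ)
          = ∑ z ∈ X, (if z ∈ V then (((E.filter (fun k => z ∈ A k)).card : ℝ) - 2) * κ else 0) := by
        refine Finset.sum_congr rfl (fun z hz => ?_)
        by_cases hzV : z ∈ V
        · rw [if_pos hzV, if_neg ((hVmem z hz).mp hzV)]
        · rw [if_neg hzV, if_pos (by
            by_contra hc
            exact hzV ((hVmem z hz).mpr hc))]
      rw [e1, ← Finset.sum_filter]
      have e2 : X.filter (fun z => z ∈ V) = V := by
        ext z
        simp only [mem_filter]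
        exact ⟨fun h => h.2, fun h => ⟨hVX h, h⟩⟩
      rw [e2, ← Finset.sum_mul, Finset.sum_sub_distrib, Finset.sum_const, nsmul_eq_mul]
      ring
    have hcount : ∑ z ∈ V, (E.filter (fun k => z ∈ A k)).card = 2 * E.card := by
      have e3 : ∑ z ∈ V, (E.filter (fun k => z ∈ A k)).card
          = ∑ k ∈ E, (V.filter (fun z => z ∈ A k)).card := by
        simp only [Finset.card_filter]
        exact Finset.sum_comm
      rw [e3]
      have e4 : ∀ k ∈ E, (V.filter (fun z => z ∈ A k)).card = 2 := by
        intro k hk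
        have e5 : V.filter (fun z => z ∈ A k) = A k := by
          ext z
          simp only [mem_filter]
          constructor
          · exact fun h => h.2
          · intro hz
            exact ⟨by rw [hV, mem_biUnion]; exact ⟨k, hk, hz⟩, hz⟩
        rw [e5]
        exact (mem_filter.mp hk).2
      rw [Finset.sum_congr rfl e4, Finset.sum_const, smul_eq_mul, mul_comm]
    have hlin : E.card ≤ V.card := by
      refine linear_bound (h.mono hEK) (fun k hk => ?_)
      rw [← Finset.card_pos]
      have := (mem_filter.mp hk).2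
      omega
    have hle0 : (∑ z ∈ V, ((E.filter (fun k => z ∈ A k)).card : ℝ) - 2 * (V.card : ℝ)) * κ ≤ 0 := by
      have h3 : ∑ z ∈ V, ((E.filter (fun k => z ∈ A k)).card : ℝ) = 2 * (E.card : ℝ) := by
        exact_mod_cast hcount
      rw [h3]
      have h4 : (E.card : ℝ) ≤ (V.card : ℝ) := by exact_mod_cast hlin
      nlinarith
    have hfin : (X.card : ℝ) * M K A b ≤ (X.card : ℝ) * phi b := by
      rw [hsum2] at hsum
      linarith
    have hXp : (0 : ℝ) < (X.card : ℝ) := by rw [hX]; positivity
    exact le_of_mul_le_mul_left hfin hXp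

end Helper593.OneCross
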